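import Pool.Agent.H86.EXT.Gpt
import Pool.Agent.H86.IE.Jet
import Pool.Agent.H5.GEO.Rb

/-!
# Near points in the box of a triangular system, cells of near points

`seg_box`, `seg_val`: a triangular system with bounded gradients on its box; a point near a point
of the half box is in the box, and the values are near. `nst`: two near points are in the same
natural cell if the digits of one of them are not near the ends. `nst_ev`: the digits of a typical
point are not near the ends.
-/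

set_option autoImplicit false

namespace Pool.EXS

open Finset Real
open Pool.Agent.H49.Ent Pool.Agent.H32.Dense Pool.STK Pool.KAF Pool.KAL Pool.KST Pool.KS3 Pool.M3F
open Pool.KJA Pool.IEN Pool.GEO

variable {d : ℕ}

/-- Mean value inequality on a segment. -/
lemma mv_seg (P : MvPolynomial (Fin d) ℝ) (b : Fin d → ℝ) {u u' : Fin d → ℝ}
    (h : ∀ t ∈ Set.Icc (0 : ℝ) 1, ∀ i,
      |MvPolynomial.eval (fun i => u i + t * (u' i - u i)) (MvPolynomial.pderiv i P)| ≤ b i) :
    |MvPolynomial.eval u' P - MvPolynomial.eval u P| ≤ ∑ i, b i * |u' i - u i| := by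
  set f : Fin d → Polynomial ℝ := fun i =>
    Polynomial.C (u i) + Polynomial.X * Polynomial.C (u' i - u i) with hf
  set g : Polynomial ℝ := MvPolynomial.aeval f P with hg
  have hev : ∀ (P : MvPolynomial (Fin d) ℝ) (t : ℝ),
      (MvPolynomial.aeval f P : Polynomial ℝ).eval t =
        MvPolynomial.eval (fun i => u i + t * (u' i - u i)) P := by
    intro P t
    induction P using MvPolynomial.induction_on with
    | C a => simp
    | add p q hp hq => simp only [map_add, Polynomial.eval_add, hp, hq]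
    | mul_X p k hp =>
      rw [map_mul, map_mul, Polynomial.eval_mul, hp]
      simp [hf]
  obtain ⟨c, hc, hc'⟩ := exists_hasDerivAt_eq_slope (fun t => g.eval t)
    (fun t => g.derivative.eval t) (show (0 : ℝ) < 1 by norm_num) g.continuous.continuousOn
    (fun t _ => g.hasDerivAt t)
  have e0 : g.eval 0 = MvPolynomial.eval u P := by
    rw [hg, hev]
    have : (fun i => u i + 0 * (u' i - u i)) = u := by
      funext i
      ring
    rw [this]
  have e1 : g.eval 1 = MvPolynomial.eval u' P := by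
    rw [hg, hev]
    have : (fun i => u i + 1 * (u' i - u i)) = u' := by
      funext i
      ring
    rw [this]
  have hc2 : MvPolynomial.eval u' P - MvPolynomial.eval u P = g.derivative.eval c := by
    rw [hc', ← e0, ← e1]
    simp
  rw [hc2, hg, der_line, Polynomial.eval_finsetSum]
  refine (Finset.abs_sum_le_sum_abs _ _).trans (Finset.sum_le_sum fun i _ => ?_)
  rw [Polynomial.eval_mul, abs_mul, hev]
  have e2 : (Polynomial.derivative (f i)).eval c = u' i - u i := by
    simp [hf]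
  rw [e2]
  exact mul_le_mul_of_nonneg_right (h c ⟨hc.1.le, hc.2.le⟩ i) (abs_nonneg _)

/-- A value of a triangular system which depends on the first coordinates only is a value on the
box. -/
lemma box_pt {G : Fin d → MvPolynomial (Fin d) ℝ} (hG : TriP G) {w : Fin d → ℝ}
    (hw : ∀ i, 0 < w i) (i : Fin d) {y : Fin d → ℝ}
    (hy : ∀ l < i, |y l - MvPolynomial.eval y (G l)| ≤ 2 * w l) :
    ∃ z : Fin d → ℝ, (∀ l < i, z l = y l) ∧
      ∀ l, |z l - MvPolynomial.eval z (G l)| ≤ 2 * w l := by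
  classical
  obtain ⟨u, hu⟩ : ∃ u : Fin d → ℝ, u = fun l =>
    if l < i then (y l - MvPolynomial.eval y (G l)) / w l else 0 := ⟨_, rfl⟩
  obtain ⟨z, hz⟩ : ∃ z, z = cpt (chi G (fun _ => 0) w) u := ⟨_, rfl⟩
  have hze : ∀ l, z l = MvPolynomial.eval z (G l) + 0 + w l * u l := by
    intro l
    rw [hz]
    exact eval_chi G hG (fun _ => 0) w u l
  have key : ∀ m : ℕ, ∀ l : Fin d, l.val = m → l < i → z l = y l := by
    intro m
    induction m using Nat.strong_induction_on with
    | _ m ih =>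
      intro l hl hli
      have h1 : MvPolynomial.eval z (G l) = MvPolynomial.eval y (G l) := by
        refine eval_eq_of_pderiv (fun l' hl' => hG l l' hl') ?_
        intro l' hl'
        exact ih l'.val (by
          have : l'.val < l.val := hl'
          omega) l' rfl (hl'.trans hli)
      rw [hze l, h1, hu]
      simp only [if_pos hli]
      have := hw l
      field_simp
      ring
  refine ⟨z, fun l hl => key l.val l rfl hl, fun l => ?_⟩
  have h2 : z l - MvPolynomial.eval z (G l) = w l * u l := by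
    have := hze l
    linarith
  rw [h2]
  by_cases hl : l < i
  · have h3 : w l * u l = y l - MvPolynomial.eval y (G l) := by
      rw [hu]
      simp only [if_pos hl]
      have := hw l
      field_simp
    rw [h3]
    exact hy l hl
  · have h3 : w l * u l = 0 := by
      rw [hu]
      simp only [if_neg hl, mul_zero]
    rw [h3, abs_zero]
    have := hw l
    positivity

/-- **Near points in the box of a triangular system.** -/
lemma seg_tri {G : Fin d → MvPolynomial (Fin d) ℝ} (hG : TriP G) {w : Fin d → ℝ}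
    {Lp ε : ℝ} (hLp : 0 ≤ Lp) (hε : 0 ≤ ε) (hw : ∀ i, 0 < w i)
    (hwε : ∀ i, (1 + d * Lp) * ε ≤ w i)
    (hgr : ∀ z, (∀ i, |z i - MvPolynomial.eval z (G i)| ≤ 2 * w i) → ∀ i l,
      |MvPolynomial.eval z (MvPolynomial.pderiv l (G i))| ≤ Lp)
    {y : Fin d → ℝ} (hy : ∀ i, |y i - MvPolynomial.eval y (G i)| ≤ w i) :
    ∀ i, ∀ y' : Fin d → ℝ, (∀ l, |y' l - y l| ≤ ε) →
      |MvPolynomial.eval y' (G i) - MvPolynomial.eval y (G i)| ≤ d * Lp * ε := by
  have hd0 : (0 : ℝ) ≤ d := Nat.cast_nonneg d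
  have key : ∀ m : ℕ, ∀ i : Fin d, i.val = m → ∀ y' : Fin d → ℝ, (∀ l, |y' l - y l| ≤ ε) →
      |MvPolynomial.eval y' (G i) - MvPolynomial.eval y (G i)| ≤ d * Lp * ε := by
    intro m
    induction m using Nat.strong_induction_on with
    | _ m ih =>
      intro i hi y' hy'
      have h1 := mv_seg (G i) (fun _ => Lp) (u := y) (u' := y') (by
        intro t ht l
        obtain ⟨ht0, ht1⟩ := ht
        have hnear : ∀ l', |(y l' + t * (y' l' - y l')) - y l'| ≤ ε := by
          intro l'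
          have e1 : (y l' + t * (y' l' - y l')) - y l' = t * (y' l' - y l') := by ring
          rw [e1, abs_mul, abs_of_nonneg ht0]
          have := hy' l'
          nlinarith [abs_nonneg (y' l' - y l')]
        obtain ⟨z, hz1, hz2⟩ := box_pt hG hw i
          (y := fun l' => y l' + t * (y' l' - y l')) (by
            intro l' hl'
            have h2 := ih l'.val (by
              have : l'.val < i.val := hl'
              omega) l' rfl (fun l' => y l' + t * (y' l' - y l')) hnear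
            have h3 := hnear l'
            have h4 := hy l'
            have h5 := hwε l'
            rw [abs_le] at h2 h3 h4 ⊢
            constructor <;> nlinarith [h2.1, h2.2, h3.1, h3.2, h4.1, h4.2])
        have h6 : MvPolynomial.eval (fun l' => y l' + t * (y' l' - y l'))
            (MvPolynomial.pderiv l (G i)) = MvPolynomial.eval z (MvPolynomial.pderiv l (G i)) := by
          refine eval_eq_of_pderiv (i := i) (fun l' hl' => ?_) (fun l' hl' => (hz1 l' hl').symm)
          rw [pd_comm, hG i l' hl', map_zero]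
        rw [h6]
        exact hgr z hz2 i l)
      refine h1.trans ?_
      calc ∑ l, Lp * |y' l - y l| ≤ ∑ _l : Fin d, Lp * ε :=
            Finset.sum_le_sum fun l _ => mul_le_mul_of_nonneg_left (hy' l) hLp
        _ = _ := by
          rw [Finset.sum_const, Finset.card_univ, Fintype.card_fin, nsmul_eq_mul]
          ring
  exact fun i => key i.val i rfl

/-- A near point is in the box. -/
lemma seg_box {G : Fin d → MvPolynomial (Fin d) ℝ} (hG : TriP G) {w : Fin d → ℝ}
    {Lp ε : ℝ} (hLp : 0 ≤ Lp) (hε : 0 ≤ ε) (hw : ∀ i, 0 < w i)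
    (hwε : ∀ i, (1 + d * Lp) * ε ≤ w i)
    (hgr : ∀ z, (∀ i, |z i - MvPolynomial.eval z (G i)| ≤ 2 * w i) → ∀ i l,
      |MvPolynomial.eval z (MvPolynomial.pderiv l (G i))| ≤ Lp)
    {y : Fin d → ℝ} (hy : ∀ i, |y i - MvPolynomial.eval y (G i)| ≤ w i) {y' : Fin d → ℝ}
    (hy' : ∀ l, |y' l - y l| ≤ ε) (i : Fin d) :
    |(y' i - MvPolynomial.eval y' (G i)) - (y i - MvPolynomial.eval y (G i))| ≤
      (1 + d * Lp) * ε ∧ |y' i - MvPolynomial.eval y' (G i)| ≤ 2 * w i := by
  have h1 := seg_tri hG hLp hε hw hwε hgr hy i y' hy'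
  have h2 := hy' i
  have h3 := hy i
  have h4 := hwε i
  constructor
  · rw [abs_le] at h1 h2 ⊢
    constructor <;> nlinarith [h1.1, h1.2, h2.1, h2.2]
  · rw [abs_le] at h1 h2 h3 ⊢
    constructor <;> nlinarith [h1.1, h1.2, h2.1, h2.2, h3.1, h3.2]

/-- Another polynomial with a bounded gradient on the box. -/
lemma seg_val {G : Fin d → MvPolynomial (Fin d) ℝ} (hG : TriP G) {w : Fin d → ℝ}
    {Lp ε : ℝ} (hLp : 0 ≤ Lp) (hε : 0 ≤ ε) (hw : ∀ i, 0 < w i)
    (hwε : ∀ i, (1 + d * Lp) * ε ≤ w i)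
    (hgr : ∀ z, (∀ i, |z i - MvPolynomial.eval z (G i)| ≤ 2 * w i) → ∀ i l,
      |MvPolynomial.eval z (MvPolynomial.pderiv l (G i))| ≤ Lp)
    {R : MvPolynomial (Fin d) ℝ} {L' : ℝ} (hL' : 0 ≤ L')
    (hR : ∀ z, (∀ i, |z i - MvPolynomial.eval z (G i)| ≤ 2 * w i) → ∀ l,
      |MvPolynomial.eval z (MvPolynomial.pderiv l R)| ≤ L')
    {y : Fin d → ℝ} (hy : ∀ i, |y i - MvPolynomial.eval y (G i)| ≤ w i) {y' : Fin d → ℝ}
    (hy' : ∀ l, |y' l - y l| ≤ ε) :
    |MvPolynomial.eval y' R - MvPolynomial.eval y R| ≤ d * L' * ε := by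
  have h1 := mv_seg R (fun _ => L') (u := y) (u' := y') (by
    intro t ht l
    obtain ⟨ht0, ht1⟩ := ht
    refine hR _ (fun i => ?_) l
    refine (seg_box hG hLp hε hw hwε hgr hy (y' := fun i => y i + t * (y' i - y i)) ?_ i).2
    intro l'
    have e1 : (y l' + t * (y' l' - y l')) - y l' = t * (y' l' - y l') := by ring
    rw [e1, abs_mul, abs_of_nonneg ht0]
    have := hy' l'
    nlinarith [abs_nonneg (y' l' - y l')])
  refine h1.trans ?_
  calc ∑ l, L' * |y' l - y l| ≤ ∑ _l : Fin d, L' * ε :=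
        Finset.sum_le_sum fun l _ => mul_le_mul_of_nonneg_left (hy' l) hL'
    _ = _ := by
      rw [Finset.sum_const, Finset.card_univ, Fintype.card_fin, nsmul_eq_mul]
      ring

/-- **Two near points are in the same cell** if the digits of one of them are not near the
ends. -/
lemma nst {M : ℕ} {N : Fin d → ℕ} {G : Fin d → MvPolynomial (Fin d) ℝ} (hN : ∀ i, 1 ≤ N i)
    {y y' : Fin d → ℝ} {s : ℝ}
    (hs : ∀ i, |(M : ℝ) * (y' i - MvPolynomial.eval y' (G i)) -
      M * (y i - MvPolynomial.eval y (G i))| ≤ s)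
    (hm : ∀ i, s ≤ nrem N (ndg M G y) i ∧ (nrem N (ndg M G y) i : ℝ) + 1 + s ≤ N i) :
    nidx N (ndg M G y') = nidx N (ndg M G y) := by
  funext i
  have hN0 : (0 : ℤ) < N i := by exact_mod_cast hN i
  obtain ⟨h1, h2⟩ := hm i
  have h3 := abs_le.1 (hs i)
  obtain ⟨X, hX⟩ : ∃ X : ℝ, X = M * (y i - MvPolynomial.eval y (G i)) := ⟨_, rfl⟩
  obtain ⟨X', hX'⟩ : ∃ X' : ℝ, X' = M * (y' i - MvPolynomial.eval y' (G i)) := ⟨_, rfl⟩
  rw [← hX, ← hX'] at h3
  have e1 : ndg M G y i = ⌊X⌋ := by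
    rw [hX]
    rfl
  have e2 : ndg M G y' i = ⌊X'⌋ := by
    rw [hX']
    rfl
  have h4 := nrem_cast hN (ndg M G y) i
  have h5 : ((nrem N (ndg M G y) i : ℕ) : ℝ) = (ndg M G y i : ℝ) -
      (nidx N (ndg M G y) i : ℝ) * N i := by exact_mod_cast h4
  have h6 := Int.floor_le X
  have h7 := Int.lt_floor_add_one X
  rw [e1] at h5
  -- the new point is in the same cell
  have h8 : (nidx N (ndg M G y) i : ℝ) * N i ≤ X' := by
    rw [h5] at h1
    linarith [h3.1]
  have h9 : X' < (nidx N (ndg M G y) i : ℝ) * N i + N i := by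
    rw [h5] at h2
    linarith [h3.2]
  have h10 : nidx N (ndg M G y) i * N i ≤ ⌊X'⌋ := by
    rw [Int.le_floor]
    push_cast
    exact h8
  have h11 : ⌊X'⌋ < nidx N (ndg M G y) i * N i + N i := by
    rw [Int.floor_lt]
    push_cast
    exact h9
  show ndg M G y' i / (N i : ℤ) = nidx N (ndg M G y) i
  rw [e2]
  apply le_antisymm
  · rw [← Int.lt_add_one_iff]
    rw [Int.ediv_lt_iff_lt_mul hN0]
    linarith
  · rw [Int.le_ediv_iff_mul_le hN0]
    exact h10

/-- The position in a smaller cell. -/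
lemma nrem_mod {L : ℕ} {N₂ : Fin d → ℕ} (hL : 1 ≤ L) (hN : ∀ i, 1 ≤ N₂ i) (n : Fin d → ℤ)
    (i : Fin d) : nrem (fun i => L * N₂ i) n i % N₂ i = nrem N₂ n i := by
  have h1 : (0 : ℤ) < N₂ i := by exact_mod_cast hN i
  have h2 : (0 : ℤ) < ((L * N₂ i : ℕ) : ℤ) := by exact_mod_cast Nat.mul_pos hL (hN i)
  have h3 : ((nrem (fun i => L * N₂ i) n i : ℕ) : ℤ) = n i % ((L * N₂ i : ℕ) : ℤ) := by
    show (((n i % ((L * N₂ i : ℕ) : ℤ)).toNat : ℕ) : ℤ) = _
    exact Int.toNat_of_nonneg (Int.emod_nonneg _ h2.ne')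
  have h4 : ((nrem N₂ n i : ℕ) : ℤ) = n i % (N₂ i : ℤ) := by
    show (((n i % (N₂ i : ℤ)).toNat : ℕ) : ℤ) = _
    exact Int.toNat_of_nonneg (Int.emod_nonneg _ h1.ne')
  have h5 : ((nrem (fun i => L * N₂ i) n i % N₂ i : ℕ) : ℤ) = ((nrem N₂ n i : ℕ) : ℤ) := by
    rw [Int.natCast_mod, h3, h4]
    refine Int.emod_emod_of_dvd _ ?_
    push_cast
    exact Dvd.intro_left _ rfl
  exact_mod_cast h5

lemma nrem_div_lt {L : ℕ} {N₂ : Fin d → ℕ} (hL : 1 ≤ L) (hN : ∀ i, 1 ≤ N₂ i) (n : Fin d → ℤ)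
    (i : Fin d) : nrem (fun i => L * N₂ i) n i / N₂ i < L := by
  have h1 := nrem_lt (Ng := fun i => L * N₂ i) (fun i => Nat.mul_pos hL (hN i)) n i
  rw [Nat.div_lt_iff_lt_mul (hN i)]
  exact h1

/-- The entropy of the position in a smaller cell. -/
lemma rem_low {V Γ : Type} [Fintype V] {r : V → ℝ} (hr : IsLaw r) (c : V → Γ)
    (n : V → Fin d → ℤ) {L : ℕ} {N₂ : Fin d → ℕ} (hL : 1 ≤ L) (hN : ∀ i, 1 ≤ N₂ i) :
    ∑ i, Real.log (N₂ i) - CH r (fun v => nrem N₂ (n v)) (fun v =>
      ((fun i => (⟨_, nrem_div_lt hL hN (n v) i⟩ : Fin L)), c v)) ≤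
      ∑ i, Real.log ((L * N₂ i : ℕ) : ℝ) - CH r (fun v => nrem (fun i => L * N₂ i) (n v)) c := by
  have h1 := ent_low hr c (fun v => nrem (fun i => L * N₂ i) (n v)) L N₂
    (fun v i => (⟨_, nrem_div_lt hL hN (n v) i⟩ : Fin L)) hL hN (fun v _ i => rfl)
  have h2 : (fun (v : V) (i : Fin d) => nrem (fun i => L * N₂ i) (n v) i % N₂ i) =
      fun v => nrem N₂ (n v) := by
    funext v i
    exact nrem_mod hL hN (n v) i
  beta_reduce at h1
  rw [h2] at h1
  exact h1

/-- **The digits are not near the ends.** -/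
lemma nst_ev {V Γ : Type} [Fintype V] {r : V → ℝ} (hr : IsLaw r) (c : V → Γ)
    (n : V → Fin d → ℤ) {L : ℕ} {N₂ : Fin d → ℕ} (hL : 1 ≤ L) (hN : ∀ i, 1 ≤ N₂ i)
    {s h μ : ℝ} (hs : 0 ≤ s) (hh : 0 < h) (hsm : ∀ i, 2 * (s + 1) * d * Real.exp h ≤ N₂ i)
    (hμ : ∑ i, Real.log ((L * N₂ i : ℕ) : ℝ) -
      CH r (fun v => nrem (fun i => L * N₂ i) (n v)) c ≤ μ) :
    ms r (fun v => ¬ ∀ i, s ≤ nrem N₂ (n v) i ∧ (nrem N₂ (n v) i : ℝ) + 1 + s ≤ N₂ i) ≤
      (μ + Real.log 2) / h := by
  have hr0 := hr.nonneg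
  have hd0 : (0 : ℝ) ≤ d := Nat.cast_nonneg d
  have hexh := Real.exp_pos h
  have hs1 : 0 < s + 1 := by linarith
  obtain ⟨ε, hε⟩ : ∃ ε : ℝ, ε = s / (2 * (s + 1) * d * Real.exp h) := ⟨_, rfl⟩
  have hε0 : 0 ≤ ε := by
    rw [hε]
    positivity
  have h1 := margin_ev hr (fun v => ((fun i => (⟨_, nrem_div_lt hL hN (n v) i⟩ : Fin L)), c v))
    (fun v => nrem N₂ (n v)) (fun _ => N₂) hh hε0 (fun v _ i => nrem_lt hN (n v) i) (by
      intro v _
      rcases Nat.eq_zero_or_pos d with hd | hd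
      · subst hd
        simp only [Finset.univ_eq_empty, Finset.sum_empty]
        exact (Real.exp_pos _).le
      have hd1 : (0 : ℝ) < d := by exact_mod_cast hd
      have h2 : ∀ i : Fin d, 2 * ε + 2 / (N₂ i : ℝ) ≤ Real.exp (-h) / d := by
        intro i
        have h3 := hsm i
        have hN0 : (0 : ℝ) < N₂ i := by exact_mod_cast hN i
        have h4 : 2 / (N₂ i : ℝ) ≤ 2 / (2 * (s + 1) * d * Real.exp h) :=
          div_le_div_of_nonneg_left (by norm_num) (by positivity) h3
        have h5 : 2 * ε + 2 / (2 * (s + 1) * d * Real.exp h) = Real.exp (-h) / d := by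
          rw [hε, Real.exp_neg]
          field_simp
        linarith
      calc ∑ i, (2 * ε + 2 / (N₂ i : ℝ)) ≤ ∑ _i : Fin d, Real.exp (-h) / d :=
            Finset.sum_le_sum fun i _ => h2 i
        _ = Real.exp (-h) := by
          rw [Finset.sum_const, Finset.card_univ, Fintype.card_fin, nsmul_eq_mul]
          field_simp)
  rw [Ex_const hr.sum_one] at h1
  refine (ms_le hr0 fun v _ hv => ?_).trans (h1.trans ?_)
  · intro h2
    apply hv
    intro i
    have hd1 : (0 : ℝ) < d := by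
      have := i.2
      exact_mod_cast (by omega : 0 < d)
    obtain ⟨h3, h4⟩ := h2 i
    have hN0 : (0 : ℝ) < N₂ i := by exact_mod_cast hN i
    have h5 : s ≤ ε * N₂ i := by
      have h6 := hsm i
      rw [hε, div_mul_eq_mul_div, le_div_iff₀ (by positivity)]
      exact mul_le_mul_of_nonneg_left h6 hs
    rw [le_div_iff₀ hN0] at h3
    rw [div_le_iff₀ hN0] at h4
    constructor
    · linarith
    · linarith
  · refine div_le_div_of_nonneg_right ?_ hh.le
    have h2 := rem_low hr c n hL hN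
    linarith

end Pool.EXS
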