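import Pool.Agent.H86.EXT.Gvl
import Pool.Agent.H86.GEO.Seg
import Pool.Agent.H81.JM.Vel

/-!
# Tools for one pair

`rpos_cpt`: the position of a point of the chart. `chi_time`: the chart, when only the time moves.
`grad_bind`: the gradient of a leaf over a cell. `enl_cube`: from the unit cube to a larger cube.
`lip_slice`: the slices of a polynomial are Lipschitz.
-/

set_option autoImplicit false

namespace Pool.EXS

open Finset Real
open Pool.Agent.H49.Ent Pool.Agent.H32.Dense Pool.STK Pool.KAF Pool.KAL Pool.KST Pool.KS3 Pool.M3F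
open Pool.KJA Pool.IEN

variable {d : ℕ}

/-- The position of a point of the chart. -/
lemma rpos_cpt {M : ℕ} {N : Fin d → ℕ} {G : Fin d → MvPolynomial (Fin d) ℝ} {b : Fin d → ℤ}
    (hM : 1 ≤ M) (hN : ∀ i, 1 ≤ N i) (hG : TriP G) (u : Fin d → ℝ) :
    rpos M N G b (cpt (nchi M N G b) u) = u := by
  have hM0 : (0 : ℝ) < M := by exact_mod_cast hM
  funext i
  have hN0 : (0 : ℝ) < N i := by exact_mod_cast hN i
  have h1 : cpt (nchi M N G b) u i = MvPolynomial.eval (cpt (nchi M N G b) u) (G i) +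
    ncor M N b i + nwid M N i * u i := eval_chi G hG (ncor M N b) (nwid M N) u i
  unfold rpos
  rw [h1]
  unfold ncor nwid
  field_simp
  ring

/-- The chart of a cell, when only the time moves. -/
lemma chi_time {k M : ℕ} {N : Fin (k + 1) → ℕ} {G : Fin (k + 1) → MvPolynomial (Fin (k + 1)) ℝ}
    {b : Fin (k + 1) → ℤ} (hM : 1 ≤ M) (hN : ∀ i, 1 ≤ N i) (hG : TriP G) {Lp : ℝ} (hLp : 0 ≤ Lp)
    (hgr : ∀ y ∈ ncell M N G b, ∀ i l,
      |MvPolynomial.eval y (MvPolynomial.pderiv l (G i))| ≤ Lp) {u u' : Fin (k + 1) → ℝ}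
    (hu : u ∈ ucube (k + 1)) (hu' : u' ∈ ucube (k + 1)) (h : ∀ i : Fin k, u i.succ = u' i.succ)
    (i : Fin (k + 1)) :
    |cpt (nchi M N G b) u' i - cpt (nchi M N G b) u i| ≤
      (1 + ((k + 1 : ℕ) : ℝ) * Lp) ^ (k + 1 + 1) * (nwid M N 0 * |u' 0 - u 0|) := by
  have hM0 : (0 : ℝ) < M := by exact_mod_cast hM
  have hw : ∀ i, 0 < nwid M N i := fun i => by
    have hN0 : (0 : ℝ) < N i := by exact_mod_cast hN i
    unfold nwid
    positivity
  have h1 := mv_ucube (nchi M N G b i) (fun l => nwid M N l *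
    (1 + ((k + 1 : ℕ) : ℝ) * Lp) ^ (i.val + 1)) (fun v hv l =>
      abs_pderiv_chiN G hG (ncor M N b) (nwid M N) hw Lp hLp v
        (fun i l => hgr _ (nchi_mem hM hN hG hv) i l) i l) hu hu'
  refine h1.trans ?_
  rw [Fin.sum_univ_succ]
  have h2 : ∑ j : Fin k, nwid M N j.succ * (1 + ((k + 1 : ℕ) : ℝ) * Lp) ^ (i.val + 1) *
      |u' j.succ - u j.succ| = 0 := Finset.sum_eq_zero fun j _ => by
    rw [h j, sub_self, abs_zero, mul_zero]
  rw [h2, add_zero]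
  have hB : 1 ≤ 1 + ((k + 1 : ℕ) : ℝ) * Lp := by
    have : 0 ≤ ((k + 1 : ℕ) : ℝ) * Lp := by positivity
    linarith
  have h3 : (1 + ((k + 1 : ℕ) : ℝ) * Lp) ^ (i.val + 1) ≤
      (1 + ((k + 1 : ℕ) : ℝ) * Lp) ^ (k + 1 + 1) :=
    pow_le_pow_right₀ hB (by have := i.2; omega)
  have h4 : 0 ≤ nwid M N 0 * |u' 0 - u 0| := mul_nonneg (hw 0).le (abs_nonneg _)
  calc nwid M N 0 * (1 + ((k + 1 : ℕ) : ℝ) * Lp) ^ (i.val + 1) * |u' 0 - u 0| =
        (1 + ((k + 1 : ℕ) : ℝ) * Lp) ^ (i.val + 1) * (nwid M N 0 * |u' 0 - u 0|) := by ring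
    _ ≤ _ := mul_le_mul_of_nonneg_right h3 h4

/-- The gradient of a leaf over a cell. -/
lemma grad_bind {M : ℕ} {N : Fin d → ℕ} {G : Fin d → MvPolynomial (Fin d) ℝ}
    {b : Fin d → ℤ} (hM : 1 ≤ M) (hN : ∀ i, 1 ≤ N i) (hG : TriP G) {Lp : ℝ} (hLp : 0 ≤ Lp)
    (hgr : ∀ y ∈ ncell M N G b, ∀ i l,
      |MvPolynomial.eval y (MvPolynomial.pderiv l (G i))| ≤ Lp) {gB : MvPolynomial (Fin d) ℝ}
    (hgrB : ∀ y ∈ ncell M N G b, ∀ l, |MvPolynomial.eval y (MvPolynomial.pderiv l gB)| ≤ Lp)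
    {u : Fin d → ℝ} (hu : u ∈ ucube d) (i : Fin d) :
    |MvPolynomial.eval u (MvPolynomial.pderiv i (MvPolynomial.bind₁ (nchi M N G b) gB))| ≤
      (d * Lp * (1 + (d : ℝ) * Lp) ^ (d + 1)) * (N i / M) := by
  have hM0 : (0 : ℝ) < M := by exact_mod_cast hM
  have hw : ∀ i, 0 < nwid M N i := fun i => by
    have hN0 : (0 : ℝ) < N i := by exact_mod_cast hN i
    unfold nwid
    positivity
  have hB : 1 ≤ 1 + (d : ℝ) * Lp := by
    have : 0 ≤ (d : ℝ) * Lp := by positivity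
    linarith
  rw [pderiv_bind, map_sum]
  refine (Finset.abs_sum_le_sum_abs _ _).trans ?_
  have h1 : ∀ l ∈ (univ : Finset (Fin d)), |MvPolynomial.eval u
      (MvPolynomial.bind₁ (nchi M N G b) (MvPolynomial.pderiv l gB) *
        MvPolynomial.pderiv i (nchi M N G b l))| ≤
      Lp * (nwid M N i * (1 + (d : ℝ) * Lp) ^ (d + 1)) := by
    intro l _
    rw [map_mul, abs_mul, eval_bind]
    refine mul_le_mul (hgrB _ (nchi_mem hM hN hG hu) l) ?_ (abs_nonneg _) hLp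
    refine (abs_pderiv_chiN G hG (ncor M N b) (nwid M N) hw Lp hLp u
        (fun i l => hgr _ (nchi_mem hM hN hG hu) i l) l i).trans ?_
    exact mul_le_mul_of_nonneg_left (pow_le_pow_right₀ hB (by have := l.2; omega)) (hw i).le
  refine (Finset.sum_le_sum h1).trans (le_of_eq ?_)
  rw [Finset.sum_const, Finset.card_univ, Fintype.card_fin, nsmul_eq_mul]
  unfold nwid
  ring

/-- From the unit cube to a larger cube. -/
lemma enl_cube (d E : ℕ) : ∃ C : ℝ, 1 ≤ C ∧ ∀ (R : MvPolynomial (Fin d) ℝ) (A : ℝ),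
    R.totalDegree ≤ E → (∀ u ∈ ucube d, |MvPolynomial.eval u R| ≤ A) →
    ∀ u : Fin d → ℝ, (∀ i, |u i| ≤ 2) → |MvPolynomial.eval u R| ≤ C * A := by
  obtain ⟨K₁, hK₁, hcen⟩ := SML.psi_center_le d E
  refine ⟨5 ^ E * K₁, one_le_mul_of_one_le_of_one_le (one_le_pow₀ (by norm_num)) hK₁, ?_⟩
  intro R A hR hA u hu
  have hA0 : 0 ≤ A := (abs_nonneg _).trans (hA (fun _ => 0) fun i => ⟨le_rfl, zero_le_one⟩)
  have hcs : cs (fun _ => 0) 1 R ≤ A := SML.cs_le _ hA0 fun y hy => hA y fun i => by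
    have := hy i
    constructor <;> linarith [this.1, this.2]
  have h1 := abs_eval_le_Psi_of_near R (1 / 2 * 5) (by norm_num)
    (fun _ : Fin d => (0 : ℝ) + 1 / 2) u (fun j => by
      have := abs_le.1 (hu j)
      rw [abs_le]
      constructor <;> linarith [this.1, this.2])
  have h2 := Psi_radius_le R (1 / 2) 5 (by norm_num) (fun _ : Fin d => (0 : ℝ) + 1 / 2)
  have h3 := hcen R (fun _ => 0) 1 zero_le_one hR
  have h4 : (5 : ℝ) ^ R.totalDegree ≤ 5 ^ E := pow_le_pow_right₀ (by norm_num) hR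
  have h5 : 0 ≤ Psi R (1 / 2) (fun _ : Fin d => (0 : ℝ) + 1 / 2) := Psi_nonneg _ _ _
  have h6 : Psi R (1 / 2) (fun _ : Fin d => (0 : ℝ) + 1 / 2) ≤ K₁ * A :=
    h3.trans (mul_le_mul_of_nonneg_left hcs (by linarith))
  calc |MvPolynomial.eval u R| ≤ 5 ^ R.totalDegree *
        Psi R (1 / 2) (fun _ : Fin d => (0 : ℝ) + 1 / 2) := h1.trans h2
    _ ≤ 5 ^ E * (K₁ * A) := mul_le_mul h4 h6 h5 (by positivity)
    _ = _ := by ring

/-- **The slices are Lipschitz.** -/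
lemma lip_slice (k E : ℕ) : ∃ C : ℝ, 1 ≤ C ∧ ∀ (R : MvPolynomial (Fin (k + 1)) ℝ)
    (w : Fin (k + 1) → ℝ), R.totalDegree ≤ E →
    (∀ u ∈ ucube (k + 1), ∀ i, |MvPolynomial.eval u (MvPolynomial.pderiv i R)| ≤ w i) →
    ∀ t : ℝ, 0 ≤ t → t ≤ 1 → ∀ z z' : Fin k → ℝ, (∀ l, |z l| ≤ 2) → (∀ l, |z' l| ≤ 2) →
      |MvPolynomial.eval (Fin.cons t z : Fin (k + 1) → ℝ) R -
        MvPolynomial.eval (Fin.cons t z' : Fin (k + 1) → ℝ) R| ≤
        C * ∑ l : Fin k, |z l - z' l| * w l.succ := by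
  obtain ⟨C, hC, H⟩ := enl_cube (k + 1) E
  refine ⟨C, hC, ?_⟩
  intro R w hR hw t ht0 ht1 z z' hz hz'
  have h1 := mv_seg R (fun i => C * w i) (u := (Fin.cons t z' : Fin (k + 1) → ℝ))
    (u' := (Fin.cons t z : Fin (k + 1) → ℝ)) (by
      intro s hs i
      refine H _ _ ((tdeg_pd _ _).trans ((Nat.sub_le _ _).trans hR)) (fun u hu => hw u hu i) _ ?_
      intro j
      refine Fin.cases ?_ (fun j => ?_) j
      · simp only [Fin.cons_zero, sub_self, mul_zero, add_zero]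
        rw [abs_of_nonneg ht0]
        linarith
      · simp only [Fin.cons_succ]
        have h2 := abs_le.1 (hz j)
        have h3 := abs_le.1 (hz' j)
        obtain ⟨hs0, hs1⟩ := hs
        rw [abs_le]
        constructor <;> nlinarith)
  refine h1.trans (le_of_eq ?_)
  rw [Fin.sum_univ_succ]
  simp only [Fin.cons_zero, Fin.cons_succ, sub_self, abs_zero, mul_zero, zero_add]
  rw [Finset.mul_sum]
  exact Finset.sum_congr rfl fun j _ => by ring

end Pool.EXS
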