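import Pool.Agent.H37.CLO.Clf
import Pool.Agent.H86.IE.Brc

/-!
# The letters of the geometry of the pairs

`gsy`: the natural system of the cells (time first, not shifted). `lna`, `lnb`: the line in the
absolute coordinates `2 ^ W x`. `tmw`: the time, rounded, in the same units. `xte`: the exact point
of the line at the rounded time.
-/

set_option autoImplicit false

namespace Pool.GEO

open Finset Real MvPolynomial
open Pool.Agent.H49.Ent Pool.Agent.H32.Dense Pool.STK Pool.KAF Pool.KAL Pool.KS3 Pool.M3F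
open Pool.KJA Pool.KA Pool.K2S Pool.KSAT Pool.PB Pool.STAT Pool.GEN Pool.CLO37 Pool.IEN

/-- The natural system of the cells. -/
noncomputable def gsy (k W : ℕ) (P : ℕ → PN) : Fin (k + 1) → MvPolynomial (Fin (k + 1)) ℝ :=
  Fin.cons 0 (fun i : Fin k => toF (k + 1) W (P (i.val + 1)))

lemma gsy_zero (k W : ℕ) (P : ℕ → PN) : gsy k W P 0 = 0 := rfl

lemma gsy_succ (k W : ℕ) (P : ℕ → PN) (i : Fin k) :
    gsy k W P i.succ = toF (k + 1) W (P (i.val + 1)) := rfl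

lemma gsy_tri {k W : ℕ} {P : ℕ → PN} (hP : TriN P) : TriP (gsy k W P) := by
  intro i l hil
  refine Fin.cases ?_ (fun i => ?_) i l hil
  · intro l _
    rw [gsy_zero, map_zero]
  · intro l hil
    rw [gsy_succ]
    exact triP_toF (d := k + 1) (W := W) hP i.succ l hil

lemma gsy_deg {k W K : ℕ} {P : ℕ → PN} (hP : ∀ i, (P i).totalDegree ≤ K) (i : Fin (k + 1)) :
    (gsy k W P i).totalDegree ≤ K := by
  refine Fin.cases ?_ (fun i => ?_) i
  · rw [gsy_zero, totalDegree_zero]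
    exact Nat.zero_le _
  · rw [gsy_succ]
    exact (deg_toF _).trans (hP _)

variable {m J : ℕ} {F : Fam m J}

/-- The line at the time zero. -/
noncomputable def lna (c : ℕ → Fin m) (k W sg : ℕ) (l : (Fin m → ℝ) × (Fin m → ℝ))
    (o : Option (Fin (k + 1))) : ℝ :=
  o.elim (2 ^ W * l.1 (c k) / 2 ^ sg)
    (fun i => if i.val = 0 then 0 else 2 ^ W * l.1 (c (i.val - 1)))

/-- The direction of the line. -/
noncomputable def lnb (c : ℕ → Fin m) (k sg : ℕ) (l : (Fin m → ℝ) × (Fin m → ℝ))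
    (o : Option (Fin (k + 1))) : ℝ :=
  o.elim (l.2 (c k) / 2 ^ sg) (fun i => if i.val = 0 then 1 else l.2 (c (i.val - 1)))

/-- The rounded time. -/
noncomputable def tmw (W P₀ : ℕ) (F : Fam m J) (ω : F.Ω) : ℝ :=
  ((F.T ω / 2 ^ (J - P₀) : ℕ) : ℝ) / ((2 ^ (P₀ - W) : ℕ) : ℝ)

/-- The exact point of the line at the rounded time. -/
noncomputable def xte (c : ℕ → Fin m) (k W P₀ sg : ℕ) (F : Fam m J) (ω : F.Ω)
    (o : Option (Fin (k + 1))) : ℝ :=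
  lna c k W sg (F.l ω) o + tmw W P₀ F ω * lnb c k sg (F.l ω) o

lemma xte_zero (c : ℕ → Fin m) (k W P₀ sg : ℕ) (ω : F.Ω) :
    xte c k W P₀ sg F ω (some 0) = tmw W P₀ F ω := by
  unfold xte lna lnb
  simp

/-- The point on its line, the time as the parameter. -/
lemma xte_line (c : ℕ → Fin m) (k W P₀ sg : ℕ) (ω : F.Ω) (o : Option (Fin (k + 1))) :
    xte c k W P₀ sg F ω o = lna c k W sg (F.l ω) o +
      bse (xte c k W P₀ sg F ω) 0 * lnb c k sg (F.l ω) o := by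
  have h1 : bse (xte c k W P₀ sg F ω) 0 = tmw W P₀ F ω := xte_zero c k W P₀ sg ω
  rw [h1]
  rfl

/-- The digit of the time is exact. -/
lemma xte_dig (c : ℕ → Fin m) (k W P₀ sg : ℕ) (ω : F.Ω)
    {G : Fin (k + 1) → MvPolynomial (Fin (k + 1)) ℝ} (hG : G 0 = 0) :
    ((ndg (2 ^ (P₀ - W)) G (bse (xte c k W P₀ sg F ω)) 0 : ℤ) : ℝ) =
      ((2 ^ (P₀ - W) : ℕ) : ℝ) * bse (xte c k W P₀ sg F ω) 0 ∧
    ndg (2 ^ (P₀ - W)) G (bse (xte c k W P₀ sg F ω)) 0 = ((F.T ω / 2 ^ (J - P₀) : ℕ) : ℤ) := by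
  have hM0 : (0 : ℝ) < ((2 ^ (P₀ - W) : ℕ) : ℝ) := by positivity
  have h1 : bse (xte c k W P₀ sg F ω) 0 = tmw W P₀ F ω := xte_zero c k W P₀ sg ω
  have h2 : ((2 ^ (P₀ - W) : ℕ) : ℝ) * (bse (xte c k W P₀ sg F ω) 0 -
      eval (bse (xte c k W P₀ sg F ω)) (G 0)) = ((F.T ω / 2 ^ (J - P₀) : ℕ) : ℝ) := by
    rw [hG, map_zero, sub_zero, h1]
    unfold tmw
    rw [mul_div_cancel₀ _ hM0.ne']
  have h3 : ndg (2 ^ (P₀ - W)) G (bse (xte c k W P₀ sg F ω)) 0 =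
      ((F.T ω / 2 ^ (J - P₀) : ℕ) : ℤ) := by
    unfold ndg
    rw [h2]
    exact Int.floor_natCast _
  refine ⟨?_, h3⟩
  rw [h3]
  rw [hG, map_zero, sub_zero] at h2
  rw [h2]
  push_cast
  rfl

/-- The rounded point is near. -/
lemma xte_near (c : ℕ → Fin m) (k : ℕ) {W P₀ : ℕ} (sg : ℕ) (hWP : W ≤ P₀) (hPJ : P₀ ≤ J)
    (ω : F.Ω) (o : Option (Fin (k + 1))) :
    |zsw c k W sg (ptr F J ω) o - xte c k W P₀ sg F ω o| ≤ 2 / ((2 ^ (P₀ - W) : ℕ) : ℝ) := by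
  -- the time
  have hT : (F.T ω / 2 ^ (J - P₀) : ℕ) = 2 ^ (P₀ - W) * F.T1 W ω + tdg W P₀ (K2S.Fam.pt F ω) := by
    have h1 : F.T ω / 2 ^ (J - P₀) / 2 ^ (P₀ - W) = F.T1 W ω := by
      rw [Nat.div_div_eq_div_mul, ← pow_add]
      have : J - P₀ + (P₀ - W) = J - W := by omega
      rw [this]
      rfl
    rw [← h1]
    exact (Nat.div_add_mod _ _).symm
  have hM0 : (0 : ℝ) < ((2 ^ (P₀ - W) : ℕ) : ℝ) := by positivity
  have ht : tmw W P₀ F ω = (F.T1 W ω : ℝ) + (tdg W P₀ (K2S.Fam.pt F ω) : ℝ) /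
      ((2 ^ (P₀ - W) : ℕ) : ℝ) := by
    unfold tmw
    rw [hT]
    push_cast
    field_simp
  have hval : ∀ i : ℕ, aval c W (slam F W ω) i + (tdg W P₀ (K2S.Fam.pt F ω) : ℝ) /
      ((2 ^ (P₀ - W) : ℕ) : ℝ) * bval c (slam F W ω) i =
      if i = 0 then tmw W P₀ F ω else 2 ^ W * F.u ω (c (i - 1)) +
        tmw W P₀ F ω * F.d ω (c (i - 1)) := by
    intro i
    by_cases hi : i = 0
    · rw [if_pos hi, ht]
      unfold aval bval
      rw [if_pos hi, if_pos hi, mul_one]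
      rfl
    · rw [if_neg hi, ht]
      unfold aval bval
      rw [if_neg hi, if_neg hi]
      show 2 ^ W * F.u ω (c (i - 1)) + (F.T1 W ω : ℝ) * F.d ω (c (i - 1)) +
        (tdg W P₀ (K2S.Fam.pt F ω) : ℝ) / ((2 ^ (P₀ - W) : ℕ) : ℝ) * F.d ω (c (i - 1)) = _
      ring
  cases o with
  | none =>
    have h1 := near_fam (F := F) c W P₀ hWP hPJ ω (k + 1)
    rw [hval (k + 1), if_neg (by omega), Nat.add_sub_cancel] at h1
    have hs : (1 : ℝ) ≤ 2 ^ sg := one_le_pow₀ one_le_two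
    have hs0 : (0 : ℝ) < 2 ^ sg := by positivity
    show |2 ^ W * (px c (ptr F J ω) (k + 1) / 2 ^ sg) - (2 ^ W * F.u ω (c k) / 2 ^ sg +
      tmw W P₀ F ω * (F.d ω (c k) / 2 ^ sg))| ≤ _
    have e1 : 2 ^ W * (px c (ptr F J ω) (k + 1) / 2 ^ sg) - (2 ^ W * F.u ω (c k) / 2 ^ sg +
        tmw W P₀ F ω * (F.d ω (c k) / 2 ^ sg)) = (2 ^ W * px c (K2S.Fam.pt F ω) (k + 1) -
        (2 ^ W * F.u ω (c k) + tmw W P₀ F ω * F.d ω (c k))) / 2 ^ sg := by
      have : px c (ptr F J ω) (k + 1) = px c (K2S.Fam.pt F ω) (k + 1) := rfl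
      rw [this]
      ring
    rw [e1, abs_div, abs_of_pos hs0]
    exact (div_le_self (abs_nonneg _) hs).trans h1
  | some i =>
    have h1 := near_fam (F := F) c W P₀ hWP hPJ ω i.val
    rw [hval i.val] at h1
    show |2 ^ W * px c (ptr F J ω) i.val - ((if i.val = 0 then 0 else 2 ^ W *
      F.u ω (c (i.val - 1))) + tmw W P₀ F ω * (if i.val = 0 then 1 else
        F.d ω (c (i.val - 1))))| ≤ _
    refine le_trans (le_of_eq ?_) h1
    congr 1
    have e1 : px c (ptr F J ω) i.val = px c (K2S.Fam.pt F ω) i.val := rfl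
    rw [e1]
    split_ifs
    · ring
    · ring

/-- The point in the window `W₀`. -/
lemma xte_win (c : ℕ → Fin m) (k : ℕ) {W₀ W P₀ : ℕ} (sg : ℕ) (hW : W₀ ≤ W) (hWP : W ≤ P₀)
    (hPJ : P₀ ≤ J) (ω : F.Ω) :
    ltW (2 ^ (W - W₀)) (fun o => 2 ^ (W - W₀) * avw c k W₀ sg (slam F W₀ ω) o)
      (bvw c k sg (slam F W₀ ω)) ((tdg W₀ P₀ (K2S.Fam.pt F ω) : ℝ) /
        ((2 ^ (W - W₀) * 2 ^ (P₀ - W) : ℕ) : ℝ)) = xte c k W P₀ sg F ω := by
  have hT : (F.T ω / 2 ^ (J - P₀) : ℕ) = 2 ^ (P₀ - W₀) * F.T1 W₀ ω +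
      tdg W₀ P₀ (K2S.Fam.pt F ω) := by
    have h1 : F.T ω / 2 ^ (J - P₀) / 2 ^ (P₀ - W₀) = F.T1 W₀ ω := by
      rw [Nat.div_div_eq_div_mul, ← pow_add]
      have : J - P₀ + (P₀ - W₀) = J - W₀ := by omega
      rw [this]
      rfl
    rw [← h1]
    exact (Nat.div_add_mod _ _).symm
  have hM0 : (0 : ℝ) < 2 ^ (P₀ - W) := by positivity
  have hW0 : (0 : ℝ) < 2 ^ (W - W₀) := by positivity
  have e1 : (2 : ℝ) ^ (P₀ - W₀) = 2 ^ (W - W₀) * 2 ^ (P₀ - W) := by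
    rw [← pow_add]
    congr 1
    omega
  have e2 : (2 : ℝ) ^ W = 2 ^ (W - W₀) * 2 ^ W₀ := by
    rw [← pow_add]
    congr 1
    omega
  have ht : tmw W P₀ F ω = 2 ^ (W - W₀) * (F.T1 W₀ ω : ℝ) +
      (tdg W₀ P₀ (K2S.Fam.pt F ω) : ℝ) / 2 ^ (P₀ - W) := by
    unfold tmw
    rw [hT]
    push_cast
    rw [e1]
    field_simp
  funext o
  unfold ltW xte
  rw [ht]
  push_cast
  cases o with
  | none =>
    have h1 : avw c k W₀ sg (slam F W₀ ω) none = (2 ^ W₀ * F.u ω (c k) +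
        (F.T1 W₀ ω : ℝ) * F.d ω (c k)) / 2 ^ sg := by
      show aval c W₀ (slam F W₀ ω) (k + 1) / 2 ^ sg = _
      unfold aval
      rw [if_neg (by omega), Nat.add_sub_cancel]
      rfl
    have h2 : bvw c k sg (slam F W₀ ω) none = F.d ω (c k) / 2 ^ sg := by
      show bval c (slam F W₀ ω) (k + 1) / 2 ^ sg = _
      unfold bval
      rw [if_neg (by omega), Nat.add_sub_cancel]
      rfl
    rw [h1, h2]
    show _ = 2 ^ W * F.u ω (c k) / 2 ^ sg + _ * (F.d ω (c k) / 2 ^ sg)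
    rw [e2]
    field_simp
    ring
  | some i =>
    have h1 : avw c k W₀ sg (slam F W₀ ω) (some i) = if i.val = 0 then (F.T1 W₀ ω : ℝ) else
        2 ^ W₀ * F.u ω (c (i.val - 1)) + (F.T1 W₀ ω : ℝ) * F.d ω (c (i.val - 1)) := rfl
    have h2 : bvw c k sg (slam F W₀ ω) (some i) = if i.val = 0 then 1 else
        F.d ω (c (i.val - 1)) := rfl
    rw [h1, h2]
    show _ = (if i.val = 0 then 0 else 2 ^ W * F.u ω (c (i.val - 1))) + _ *
      (if i.val = 0 then 1 else F.d ω (c (i.val - 1)))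
    rw [e2]
    split_ifs
    · field_simp
      ring
    · field_simp
      ring

end Pool.GEO
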