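import Pool.Agent.H86.GEO.Pok

/-!
# The data of the pairs of a member

`GD`: the labels of the two windows, with common degree and common gradients, the permutation of the
two orders, and the numbers. `EvLn`, `EvBr`, `EvNs`, `EvLo`, `EvIn`, `EvSf`, `EvS1`, `EvNo`: the
events, for one pair. `pok_gd`: the conditions of `geoJ_of` from the events.
-/

set_option autoImplicit false

namespace Pool.GEO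

open Finset Real
open Pool.Agent.H49.Ent Pool.Agent.H32.Dense Pool.STK Pool.KAF Pool.KAL Pool.KS3 Pool.M3F
open Pool.KJA Pool.KA Pool.K2S Pool.KSAT Pool.PB Pool.STAT Pool.GEN Pool.CLO37 Pool.IEN Pool.EXS
open Pool.JPN Pool.JMS

variable {m J : ℕ}

/-- **The data of the pairs of a member**: the label `z₀` at the window `w₀` in the order `c₀`, the
label `z₁` at the window `w₁` in the order `c₁`, both of degree `K`, with gradients at most `L`; the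
precision `Pr` of the target at `w₁`; the depth `q` and the mesh `X`; the equation `Qh` of degree
`Dq` of the label `z₁`, of size `ρz`. -/
structure GD (F : Fam m J) (A : F.Ω → Prop) (c₀ c₁ : ℕ → Fin m) (k K Dq : ℕ)
    (w₀ w₁ pr q X φ : ℝ) (β₀ β₁ : ℕ → ℝ) (ρ : Equiv.Perm (Fin (k + 1))) (Pr sg₀ sg kap : ℕ)
    (g₀ g₁ : ℕ → ℕ) (L : ℝ) {V₀ V₁ : Type} (z₀ : PtT F → V₀) (z₀' : LnT F → V₀)
    (P₀ : V₀ → ℕ → PN) (z₁ : PtT F → V₁) (z₁' : LnT F → V₁) (P₁ : V₁ → ℕ → PN)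
    (Qh : V₁ → MvPolynomial (Option (Fin (k + 1))) ℝ) (ρz : V₁ → ℝ) : Prop where
  n0 : NLabW F c₀ k ⌊w₀ * J⌋₊ sg₀ g₀ K L A z₀ z₀' P₀
  n1 : NLabW F c₁ k ⌊w₁ * J⌋₊ sg g₁ K L A z₁ z₁' P₁
  L0 : 0 ≤ L
  logL : Real.log (1 + L) ≤ φ * J
  W01 : ⌊w₀ * J⌋₊ ≤ ⌊w₁ * J⌋₊
  WP : ⌊w₁ * J⌋₊ ≤ Pr
  PJ : Pr ≤ J
  Pg : Pr ≤ g₁ k
  Pr0 : |(Pr : ℝ) - pr * J| ≤ φ * J
  be0 : ∀ l < k, |(g₀ l : ℝ) - β₀ l * J| ≤ φ * J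
  be1 : ∀ l < k, |(g₁ l : ℝ) - β₁ l * J| ≤ φ * J
  wd0 : ∀ i < k + 1, wid ⌊w₀ * J⌋₊ g₀ i + ⌊q * J⌋₊ + ⌊X * J⌋₊ ≤ Pr
  wd1 : ∀ i < k + 1, wid ⌊w₁ * J⌋₊ g₁ i ≤ Pr
  dp0 : ∀ i < k + 1, ⌊w₁ * J⌋₊ ≤ wid ⌊w₀ * J⌋₊ g₀ i + ⌊q * J⌋₊
  kp0 : ∀ i < k + 1, ⌊w₀ * J⌋₊ ≤ wid ⌊w₀ * J⌋₊ g₀ i + kap
  kp1 : ∀ i < k + 1, ⌊w₁ * J⌋₊ ≤ wid ⌊w₁ * J⌋₊ g₁ i + kap
  kapJ : (kap : ℝ) ≤ φ * J
  qd : ∀ ω, A ω → (Qh (z₁ (ptr F J ω))).totalDegree ≤ Dq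
  csq : ∀ ω, A ω → CsQ k Dq ⌊w₁ * J⌋₊ Pr g₁ (P₁ (z₁ (ptr F J ω))) (Qh (z₁ (ptr F J ω)))
    (ρz (z₁ (ptr F J ω)))
  rz0 : ∀ ω, A ω → 0 < ρz (z₁ (ptr F J ω))
  rz1 : ∀ ω, A ω → 1 ≤ ((2 ^ (Pr - ⌊w₁ * J⌋₊) : ℕ) : ℝ) * ρz (z₁ (ptr F J ω))
  rz2 : ∀ ω, A ω → ((2 ^ (Pr - ⌊w₁ * J⌋₊) : ℕ) : ℝ) * ρz (z₁ (ptr F J ω)) ≤ Real.exp (φ * J)
  r0 : ρ 0 = 0
  rk : c₁ k = c₀ k
  rc : ∀ i : Fin (k + 1), i ≠ 0 → c₁ (i.val - 1) = c₀ ((ρ i).val - 1)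

section ev

variable (F : Fam m J) (c₀ c₁ : ℕ → Fin m) (k W₀ W₁ Pr sg q X : ℕ) (g₀ g₁ : ℕ → ℕ)
  (ρ : Equiv.Perm (Fin (k + 1))) {V₀ V₁ : Type} (z₀ : PtT F → V₀) (P₀ : V₀ → ℕ → PN)
  (z₁ : PtT F → V₁) (P₁ : V₁ → ℕ → PN) (Qh : V₁ → MvPolynomial (Option (Fin (k + 1))) ℝ)
  (ρz : V₁ → ℝ)

/-- The chart of the first point. -/
noncomputable def gG (ω : F.Ω) : Fin (k + 1) → MvPolynomial (Fin (k + 1)) ℝ :=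
  gsy k W₁ (P₀ (z₀ (ptr F J ω)))

/-- The cell of depth `d` of the first point. -/
noncomputable def gB (d : ℕ) (ω : F.Ω) : Fin (k + 1) → ℤ :=
  nidx (nw W₀ Pr g₀ k d) (ndg (2 ^ (Pr - W₁)) (gG F k W₁ z₀ P₀ ω)
    (bse (xte c₀ k W₁ Pr sg F ω)))

/-- The label polynomial of the target of the first point, in the order `c₀`. -/
noncomputable def gF (ω : F.Ω) : MvPolynomial (Fin (k + 1)) ℝ :=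
  MvPolynomial.rename ρ (toF (k + 1) W₁ (P₁ (z₁ (ptr F J ω)) (k + 1)))

/-- The difference of the leaves, in the cell of depth `q`. -/
noncomputable def gD {n₀ D : ℕ} (aF : (Fin (k + 1) → MvPolynomial (Fin (k + 1)) ℝ) →
      MvPolynomial (Option (Fin (k + 1))) ℝ → (Fin (k + 1) → ℤ) → Fin D → Fin n₀ →
        MvPolynomial (Fin (k + 1)) ℝ) (kk : Fin D) (ii : Fin n₀) (e : F.Ω × F.Ω) :
    MvPolynomial (Fin (k + 1)) ℝ :=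
  MvPolynomial.bind₁ (nchi (2 ^ (Pr - W₁)) (nw W₀ Pr g₀ k q) (gG F k W₁ z₀ P₀ e.1)
      (gB F c₀ k W₀ W₁ Pr sg g₀ z₀ P₀ q e.1)) (gF F k W₁ ρ z₁ P₁ e.1) -
    aF (gG F k W₁ z₀ P₀ e.1) (ren ρ (Qh (z₁ (ptr F J e.2))))
      (gB F c₀ k W₀ W₁ Pr sg g₀ z₀ P₀ q e.1) kk ii

/-- (E1) The equation of the second point, on the first line. -/
def EvLn (D : ℕ) (KK H L' Λ Gb E : ℝ) (e : F.Ω × F.Ω) : Prop :=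
  ∃ kk, LnR D (Qh (z₁ (ptr F J e.2))) H (bth D KK H L' Λ (ρz (z₁ (ptr F J e.2))))
      (xpt F c₁ k W₁ sg Pr e.1) kk ∧
    GrR (2 ^ (Pr - W₁)) (Qh (z₁ (ptr F J e.2))) Gb E
      (bth D KK H L' Λ (ρz (z₁ (ptr F J e.2)))) (xpt F c₁ k W₁ sg Pr e.1) kk

/-- (E2) The branches. -/
def EvBr (D n₀ : ℕ) (C τ KK H L' Λ : ℝ)
    (aF : (Fin (k + 1) → MvPolynomial (Fin (k + 1)) ℝ) →
      MvPolynomial (Option (Fin (k + 1))) ℝ → (Fin (k + 1) → ℤ) → Fin D → Fin n₀ →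
        MvPolynomial (Fin (k + 1)) ℝ) (e : F.Ω × F.Ω) : Prop :=
  BrE k D n₀ C τ (2 ^ (Pr - W₁)) (nw W₀ Pr g₀ k q) (gG F k W₁ z₀ P₀ e.1) aF
    (ren ρ (Qh (z₁ (ptr F J e.2))))
    (fun kk => H * bth D KK H L' Λ (ρz (z₁ (ptr F J e.2))) kk) (xte c₀ k W₁ Pr sg F e.1)

/-- (E5) The cell of the point and the cell of the point of the line. -/
def EvNs (ω : F.Ω) : Prop :=
  nidx (nw W₀ Pr g₀ k (q + X)) (ndg (2 ^ (Pr - W₁)) (gG F k W₁ z₀ P₀ ω)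
    (bse (zsw c₀ k W₁ sg (ptr F J ω)))) = gB F c₀ k W₀ W₁ Pr sg g₀ z₀ P₀ (q + X) ω

/-- (E3) Doubling for the label of the first point. -/
def EvLo (D kap : ℕ) (L Z : ℝ) (ω : F.Ω) : Prop :=
  LonE F c₁ k W₁ sg Pr D g₁ (clC k kap L) Z (fun i => nw W₀ Pr g₀ k (q + X) (ρ i))
    (pmG ρ (gG F k W₁ z₀ P₀ ω)) (P₁ (z₁ (ptr F J ω))) ω

/-- (E3) The cell of depth `q` is in the box of the label at `w₁`. -/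
def EvIn (ω : F.Ω) : Prop :=
  ∀ y ∈ ncell (2 ^ (Pr - W₁)) (nw W₀ Pr g₀ k q) (gG F k W₁ z₀ P₀ ω)
      (gB F c₀ k W₀ W₁ Pr sg g₀ z₀ P₀ q ω),
    ∃ u ∈ ucube (k + 1), cbw (k + 1) W₁ Pr g₁ (P₁ (z₁ (ptr F J ω))) u = fun i => y (ρ i)

/-- (E4) The slices of the small cell. -/
def EvSf {n₀ D : ℕ} (aF : (Fin (k + 1) → MvPolynomial (Fin (k + 1)) ℝ) →
      MvPolynomial (Option (Fin (k + 1))) ℝ → (Fin (k + 1) → ℤ) → Fin D → Fin n₀ →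
        MvPolynomial (Fin (k + 1)) ℝ) (Θ : ℝ) (e : F.Ω × F.Ω) : Prop :=
  ∀ (kk : Fin D) (ii : Fin n₀), SF Θ (2 ^ (Pr - W₁)) (2 ^ X) (nw W₀ Pr g₀ k (q + X))
    (gG F k W₁ z₀ P₀ e.1) (gD F c₀ k W₀ W₁ Pr sg q g₀ ρ z₀ P₀ z₁ P₁ Qh aF kk ii e)
    (bse (xte c₀ k W₁ Pr sg F e.1))

/-- (E4) The slices of the cell of depth `q`. -/
def EvS1 {n₀ D : ℕ} (aF : (Fin (k + 1) → MvPolynomial (Fin (k + 1)) ℝ) →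
      MvPolynomial (Option (Fin (k + 1))) ℝ → (Fin (k + 1) → ℤ) → Fin D → Fin n₀ →
        MvPolynomial (Fin (k + 1)) ℝ) (Θ₁ : ℝ) (e : F.Ω × F.Ω) : Prop :=
  ∀ (kk : Fin D) (ii : Fin n₀), SF Θ₁ (2 ^ (Pr - W₁)) 1 (nw W₀ Pr g₀ k q)
    (gG F k W₁ z₀ P₀ e.1) (gD F c₀ k W₀ W₁ Pr sg q g₀ ρ z₀ P₀ z₁ P₁ Qh aF kk ii e)
    (bse (xte c₀ k W₁ Pr sg F e.1))

/-- (E6) The leaves are different. -/
def EvNo {n₀ D : ℕ} (aF : (Fin (k + 1) → MvPolynomial (Fin (k + 1)) ℝ) →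
      MvPolynomial (Option (Fin (k + 1))) ℝ → (Fin (k + 1) → ℤ) → Fin D → Fin n₀ →
        MvPolynomial (Fin (k + 1)) ℝ) (ν₀ : ℝ) (e : F.Ω × F.Ω) : Prop :=
  ∀ (kk : Fin D) (ii : Fin n₀), ∃ w ∈ ucube (k + 1), ν₀ ≤ |MvPolynomial.eval w
    (gD F c₀ k W₀ W₁ Pr sg q g₀ ρ z₀ P₀ z₁ P₁ Qh aF kk ii e)|

end ev

end Pool.GEO
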