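import Pool.Agent.H86.GEO.Brs
import Pool.Agent.H69.ARR.Nbs
import Pool.Agent.H96.R1.Brc
import Pool.Agent.H5.PM.Lnm

/-!
# The branches of the leaf of the second sample, in a class

`LnmS`: the equation of the height of the second sample along the line (statement). `for_br_of`: the
branches of the leaf of the second sample over the slanted cells of the first one. `for_br`: the same
with the line step `ln_m`.
-/

set_option autoImplicit false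

namespace Pool.TUB

open Finset Real
open Pool.Agent.H49.Ent Pool.Agent.H32.Dense Pool.STK Pool.KAF Pool.KAL Pool.KS3 Pool.M3F
open Pool.KJA Pool.KA Pool.K2S Pool.KSAT Pool.PB Pool.STAT Pool.GEN Pool.IEN Pool.EXS
open Pool.S6C Pool.KM7
open Pool.GEO (xte CsQ)
open Pool.PM (PLab MNum MDat q2)

variable {m J : ℕ} {F : Fam m J}

/-- **The equation of the height of the second sample along the line.** -/
def LnmS (S : PCl m) (c : ℕ → Fin m) (N : MNum) (K D : ℕ) (b CH Ca lam c₁ : ℝ) : Prop :=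
  ∃ φ : ℝ, 0 < φ ∧ Bas S (fun J F A => ∀ (d : MDat N φ K D F c A) (Q : F.Ω × F.Ω → ℝ), IsLaw Q →
    (∀ e, Q e ≤ 2 * q2 F A ⌊N.w0 * J⌋₊ e) → ∃ θ : d.V → ℕ → ℝ,
      (∀ v j, θ v (j + 1) = 2 ^ ⌊lam * b * J⌋₊ * θ v j) ∧
      (∀ ω, A ω → 1 / ((2 ^ (d.Pr - ⌊N.w1 * J⌋₊) : ℕ) : ℝ) ≤ θ (d.z (ptr F J ω)) 0) ∧
      (∀ ω, A ω → ∀ j ≤ D, θ (d.z (ptr F J ω)) j ≤
        2 ^ ⌊Ca * b * J⌋₊ / ((2 ^ (d.Pr - ⌊N.w1 * J⌋₊) : ℕ) : ℝ)) ∧
      ms Q (fun e => ¬ LnS D (d.Qh (d.z (ptr F J e.2))) (2 ^ ⌊CH * b * J⌋₊) (2 ^ ⌊Ca * b * J⌋₊)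
        (θ (d.z (ptr F J e.2))) (xte c 3 ⌊N.w1 * J⌋₊ d.Pr ⌊N.sN * J⌋₊ F e.1)) ≤ c₁)

/-- The numbers. -/
theorem fbr_num {J W₁ Pr K₂ cc : ℕ} {b c₀ CH Ca Cb C : ℝ} (hb : 0 < b) (hc₀ : 0 < c₀)
    (hCH : 1 ≤ CH) (hCa : 1 ≤ Ca) (hCb : Cb = 144 / c₀ + 24 + 2 * CH + Ca) (hC1 : 1 ≤ C)
    (hC : C ≤ 2 ^ cc) (hW : W₁ ≤ J) (hK : 8 / b ≤ K₂ + 1)
    (hJ : (cc : ℝ) + 8 / c₀ + 8 ≤ b * J) (hJ2 : (cc : ℝ) + 3 ≤ 2 * J)
    (hPr : (cc : ℝ) + (CH + Ca) * (b * J) ≤ Pr) :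
    ⌊Cb / 2 * b * J⌋₊ ≤ ⌊Cb * b * J⌋₊ ∧ 1 ≤ ⌊b * J⌋₊ ∧
    C * 2 ^ ⌊b * J⌋₊ * Real.exp ((36 * (b * J) + 4) / c₀) ≤ 2 ^ ⌊Cb / 2 * b * J⌋₊ ∧
    C * Real.exp ((36 * (b * J) + 4) / c₀) ≤ 2 ^ (⌊Cb * b * J⌋₊ - ⌊Cb / 2 * b * J⌋₊) ∧
    C * 2 ^ (W₁ + 3) / (2 ^ ⌊b * J⌋₊) ^ (K₂ + 1) ≤ 1 / 2 ^ J ∧
    8 * C * (2 ^ ⌊CH * b * J⌋₊) ^ 2 ≤ 2 ^ ⌊(2 * CH + 1) * b * J⌋₊ ∧
    C * (2 ^ ⌊CH * b * J⌋₊ * 2 ^ ⌊Ca * b * J⌋₊) ≤ 2 ^ (Pr + 3) ∧
    3 + C * 2 ^ ⌊CH * b * J⌋₊ * 2 ^ ⌊Ca * b * J⌋₊ + C * (1 + 2 ^ ⌊3 * b * J⌋₊) ^ 6 *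
      (2 ^ ⌊Ca * b * J⌋₊ + 5 * C * (2 ^ ⌊CH * b * J⌋₊) ^ 2 * 2 ^ ⌊Ca * b * J⌋₊) ≤
      2 ^ ⌊Cb * b * J⌋₊ := by
  have hJ0 : (0 : ℝ) ≤ J := Nat.cast_nonneg J
  have hcc : (0 : ℝ) ≤ cc := Nat.cast_nonneg cc
  have h8c : 0 < 8 / c₀ := by positivity
  have h144 : 0 < 144 / c₀ := by positivity
  obtain ⟨t, ht⟩ : ∃ t : ℝ, t = b * J := ⟨_, rfl⟩
  have m1 : ∀ x : ℝ, x * b * J = x * t := fun x => by rw [ht]; ring
  simp only [m1]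
  rw [← ht] at hJ hPr ⊢
  have ht8 : 8 ≤ t := by linarith
  have hCb0 : 0 < Cb := by rw [hCb]; linarith
  obtain ⟨ag, hag⟩ : ∃ n, n = ⌊t⌋₊ := ⟨_, rfl⟩
  obtain ⟨t3, ht3⟩ : ∃ n, n = ⌊3 * t⌋₊ := ⟨_, rfl⟩
  obtain ⟨tH, htH⟩ : ∃ n, n = ⌊CH * t⌋₊ := ⟨_, rfl⟩
  obtain ⟨tA, htA⟩ : ∃ n, n = ⌊Ca * t⌋₊ := ⟨_, rfl⟩
  obtain ⟨tl, htl⟩ : ∃ n, n = ⌊(2 * CH + 1) * t⌋₊ := ⟨_, rfl⟩
  obtain ⟨q, hq⟩ : ∃ n, n = ⌊Cb * t⌋₊ := ⟨_, rfl⟩
  obtain ⟨a1, ha1⟩ : ∃ n, n = ⌊Cb / 2 * t⌋₊ := ⟨_, rfl⟩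
  rw [← hag, ← ht3, ← htH, ← htA, ← htl, ← hq, ← ha1]
  have u1 : (ag : ℝ) ≤ t := by rw [hag]; exact Nat.floor_le (by linarith)
  have u1' : t < ag + 1 := by rw [hag]; exact Nat.lt_floor_add_one _
  have u3 : (t3 : ℝ) ≤ 3 * t := by rw [ht3]; exact Nat.floor_le (by linarith)
  have uH : (tH : ℝ) ≤ CH * t := by rw [htH]; exact Nat.floor_le (by positivity)
  have uA : (tA : ℝ) ≤ Ca * t := by rw [htA]; exact Nat.floor_le (by positivity)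
  have ul : (2 * CH + 1) * t < tl + 1 := by rw [htl]; exact Nat.lt_floor_add_one _
  have uq : Cb * t < q + 1 := by rw [hq]; exact Nat.lt_floor_add_one _
  have ua : (a1 : ℝ) ≤ Cb / 2 * t := by rw [ha1]; exact Nat.floor_le (by positivity)
  have ua' : Cb / 2 * t < a1 + 1 := by rw [ha1]; exact Nat.lt_floor_add_one _
  have ha1q : a1 ≤ q := by
    rw [ha1, hq]
    refine Nat.floor_mono ?_
    have : 0 ≤ Cb / 2 * t := by positivity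
    linarith
  have hC0 : 0 < C := by linarith
  -- the exponential
  obtain ⟨h, hh⟩ : ∃ h : ℝ, h = (36 * t + 4) / c₀ := ⟨_, rfl⟩
  obtain ⟨nh, hnh⟩ : ∃ n, n = ⌈2 * h⌉₊ := ⟨_, rfl⟩
  have hh0 : 0 < h := by rw [hh]; positivity
  have unh : (nh : ℝ) < 2 * h + 1 := by rw [hnh]; exact Nat.ceil_lt_add_one (by positivity)
  have unh' : 2 * h ≤ nh := by rw [hnh]; exact Nat.le_ceil _
  have hexp : Real.exp h ≤ 2 ^ nh := by
    rw [← Real.exp_log (show (0 : ℝ) < 2 ^ nh by positivity), Real.log_pow]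
    refine Real.exp_le_exp.2 ?_
    have hl2 : 1 / 2 < Real.log 2 := by
      have := Real.log_two_gt_d9
      linarith
    have h2 : (0 : ℝ) ≤ nh := Nat.cast_nonneg _
    nlinarith
  have e2h : 2 * h = 72 / c₀ * t + 8 / c₀ := by
    rw [hh]
    field_simp
    ring
  have e144 : (144 : ℝ) / c₀ = 2 * (72 / c₀) := by ring
  have hCbt : Cb / 2 * t = 72 / c₀ * t + 12 * t + CH * t + Ca / 2 * t := by
    rw [hCb, e144]
    ring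
  have hCHt : t ≤ CH * t := le_mul_of_one_le_left (by linarith) hCH
  have hCat : t ≤ Ca * t := le_mul_of_one_le_left (by linarith) hCa
  rw [← hh]
  have k1 : cc + ag + nh ≤ a1 := by
    have : ((cc + ag + nh : ℕ) : ℝ) < ((a1 + 1 : ℕ) : ℝ) := by
      push_cast
      linarith
    have h2 : cc + ag + nh < a1 + 1 := by exact_mod_cast this
    omega
  have k2 : cc + nh ≤ q - a1 := by
    have : ((cc + nh + a1 : ℕ) : ℝ) < ((q + 1 : ℕ) : ℝ) := by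
      push_cast
      linarith
    have h2 : cc + nh + a1 < q + 1 := by exact_mod_cast this
    omega
  have k3 : cc + (W₁ + 3) + J ≤ ag * (K₂ + 1) := by
    have h1 : t / 2 ≤ ag := by linarith
    rw [div_le_iff₀ hb] at hK
    have h2 : t / 2 * ((K₂ : ℝ) + 1) ≤ ag * (K₂ + 1) :=
      mul_le_mul_of_nonneg_right h1 (by positivity)
    have h3 : 8 * (J : ℝ) ≤ ((K₂ : ℝ) + 1) * b * J := mul_le_mul_of_nonneg_right hK hJ0
    have h4 : ((cc + (W₁ + 3) + J : ℕ) : ℝ) ≤ ((ag * (K₂ + 1) : ℕ) : ℝ) := by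
      push_cast
      have h5 : (W₁ : ℝ) ≤ J := by exact_mod_cast hW
      have h6 : t / 2 * ((K₂ : ℝ) + 1) = ((K₂ : ℝ) + 1) * b * J / 2 := by
        rw [ht]
        ring
      linarith
    exact_mod_cast h4
  have k4 : 3 + cc + 2 * tH ≤ tl := by
    have : ((3 + cc + 2 * tH : ℕ) : ℝ) < ((tl + 1 : ℕ) : ℝ) := by
      push_cast
      linarith
    have h2 : 3 + cc + 2 * tH < tl + 1 := by exact_mod_cast this
    omega
  have k5 : cc + tH + tA ≤ Pr + 3 := by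
    have : ((cc + tH + tA : ℕ) : ℝ) ≤ ((Pr + 3 : ℕ) : ℝ) := by
      push_cast
      linarith
    exact_mod_cast this
  have k6 : 2 * cc + 6 * t3 + 2 * tH + tA + 10 ≤ q := by
    have : ((2 * cc + 6 * t3 + 2 * tH + tA + 10 : ℕ) : ℝ) < ((q + 1 : ℕ) : ℝ) := by
      push_cast
      have h1 : Cb * t = 144 / c₀ * t + 24 * t + 2 * CH * t + Ca * t := by
        rw [hCb]
        ring
      have h2 : 0 < 144 / c₀ * t := by positivity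
      linarith
    have h2 : 2 * cc + 6 * t3 + 2 * tH + tA + 10 < q + 1 := by exact_mod_cast this
    omega
  refine ⟨ha1q, ?_, ?_, ?_, ?_, ?_, ?_, ?_⟩
  · have : (1 : ℝ) ≤ ag := by linarith
    exact_mod_cast this
  · calc C * 2 ^ ag * Real.exp h ≤ 2 ^ cc * 2 ^ ag * 2 ^ nh :=
          mul_le_mul (mul_le_mul_of_nonneg_right hC (by positivity)) hexp (Real.exp_pos _).le
            (by positivity)
      _ = 2 ^ (cc + ag + nh) := by ring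
      _ ≤ _ := pow_le_pow_right₀ one_le_two k1
  · calc C * Real.exp h ≤ 2 ^ cc * 2 ^ nh :=
          mul_le_mul hC hexp (Real.exp_pos _).le (by positivity)
      _ = 2 ^ (cc + nh) := by ring
      _ ≤ _ := pow_le_pow_right₀ one_le_two k2
  · rw [← pow_mul, div_le_div_iff₀ (by positivity) (by positivity), one_mul]
    calc C * 2 ^ (W₁ + 3) * 2 ^ J ≤ 2 ^ cc * 2 ^ (W₁ + 3) * 2 ^ J :=
          mul_le_mul_of_nonneg_right (mul_le_mul_of_nonneg_right hC (by positivity)) (by positivity)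
      _ = 2 ^ (cc + (W₁ + 3) + J) := by ring
      _ ≤ _ := pow_le_pow_right₀ one_le_two k3
  · calc 8 * C * ((2 : ℝ) ^ tH) ^ 2 ≤ 8 * 2 ^ cc * (2 ^ tH) ^ 2 :=
          mul_le_mul_of_nonneg_right (mul_le_mul_of_nonneg_left hC (by norm_num)) (by positivity)
      _ = 2 ^ (3 + cc + 2 * tH) := by ring
      _ ≤ _ := pow_le_pow_right₀ one_le_two k4
  · calc C * (2 ^ tH * 2 ^ tA) ≤ 2 ^ cc * (2 ^ tH * 2 ^ tA) :=
          mul_le_mul_of_nonneg_right hC (by positivity)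
      _ = 2 ^ (cc + tH + tA) := by ring
      _ ≤ _ := pow_le_pow_right₀ one_le_two k5
  · have p1 : ∀ n : ℕ, (1 : ℝ) ≤ 2 ^ n := fun n => one_le_pow₀ one_le_two
    have c1 : 3 + C * 2 ^ tH * 2 ^ tA ≤ 2 ^ (2 + cc + tH + tA) := by
      have h1 : C * 2 ^ tH * 2 ^ tA ≤ 2 ^ (cc + tH + tA) := by
        calc C * 2 ^ tH * 2 ^ tA ≤ 2 ^ cc * 2 ^ tH * 2 ^ tA :=
              mul_le_mul_of_nonneg_right (mul_le_mul_of_nonneg_right hC (by positivity))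
                (by positivity)
          _ = _ := by ring
      have h2 : (2 : ℝ) ^ (2 + cc + tH + tA) = 4 * 2 ^ (cc + tH + tA) := by ring
      have h3 := p1 (cc + tH + tA)
      linarith
    have c2 : (1 + (2 : ℝ) ^ t3) ^ 6 ≤ 2 ^ (6 * t3 + 6) := by
      have h1 : 1 + (2 : ℝ) ^ t3 ≤ 2 ^ (t3 + 1) := by
        have := p1 t3
        rw [pow_succ]
        linarith
      calc (1 + (2 : ℝ) ^ t3) ^ 6 ≤ (2 ^ (t3 + 1)) ^ 6 := pow_le_pow_left₀ (by positivity) h1 6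
        _ = _ := by
          rw [← pow_mul]
          congr 1
          ring
    have c3 : 2 ^ tA + 5 * C * (2 ^ tH) ^ 2 * 2 ^ tA ≤ 2 ^ (3 + cc + 2 * tH + tA) := by
      have h1 : C * (2 ^ tH) ^ 2 * 2 ^ tA ≤ 2 ^ (cc + 2 * tH + tA) := by
        calc C * (2 ^ tH) ^ 2 * 2 ^ tA ≤ 2 ^ cc * (2 ^ tH) ^ 2 * 2 ^ tA :=
              mul_le_mul_of_nonneg_right (mul_le_mul_of_nonneg_right hC (by positivity))
                (by positivity)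
          _ = _ := by ring
      have h2 : (2 : ℝ) ^ (3 + cc + 2 * tH + tA) = 8 * 2 ^ (cc + 2 * tH + tA) := by ring
      have h3 : (2 : ℝ) ^ tA ≤ 2 ^ (cc + 2 * tH + tA) :=
        pow_le_pow_right₀ one_le_two (by omega)
      have h4 : 0 < (2 : ℝ) ^ tA := by positivity
      linarith
    have c4 : C * (1 + (2 : ℝ) ^ t3) ^ 6 * (2 ^ tA + 5 * C * (2 ^ tH) ^ 2 * 2 ^ tA) ≤
        2 ^ (2 * cc + 6 * t3 + 2 * tH + tA + 9) := by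
      calc C * (1 + (2 : ℝ) ^ t3) ^ 6 * (2 ^ tA + 5 * C * (2 ^ tH) ^ 2 * 2 ^ tA) ≤
            2 ^ cc * 2 ^ (6 * t3 + 6) * 2 ^ (3 + cc + 2 * tH + tA) :=
            mul_le_mul (mul_le_mul hC c2 (by positivity) (by positivity)) c3 (by positivity)
              (by positivity)
        _ = _ := by ring
    have c5 : (2 : ℝ) ^ (2 + cc + tH + tA) ≤ 2 ^ (2 * cc + 6 * t3 + 2 * tH + tA + 9) :=
      pow_le_pow_right₀ one_le_two (by omega)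
    have c6 : (2 : ℝ) ^ (2 * cc + 6 * t3 + 2 * tH + tA + 10) =
        2 * 2 ^ (2 * cc + 6 * t3 + 2 * tH + tA + 9) := by ring
    have c7 : (2 : ℝ) ^ (2 * cc + 6 * t3 + 2 * tH + tA + 10) ≤ 2 ^ q :=
      pow_le_pow_right₀ one_le_two k6
    linarith

/-- **The branches of the leaf of the second sample, in a class**, from the line. -/
theorem for_br_of (D : ℕ) {c₀ : ℝ} (hc₀ : 0 < c₀) {CH Ca : ℝ} (hCH : 1 ≤ CH) (hCa : 1 ≤ Ca) :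
    ∃ Cb : ℝ, 1 ≤ Cb ∧ ∀ {m : ℕ} {S : PCl m} {c : ℕ → Fin m} {N : MNum} {K : ℕ} {b y : ℝ},
      (∀ (τ : ℝ) (J : ℕ) (F : Fam m J) (A : F.Ω → Prop), S.St τ J F A → Pool.GEN.Gd F) →
      Bas S (fun _ F A => 0 < Pe F.p A) → 0 < b → y ≤ b → 0 ≤ N.w0 → N.w1 ≤ 1 →
      N.w1 - N.w0 ≤ y → N.w0 ≤ N.β 2 + b → (∀ i < 2, N.g i ≤ N.β i + y) →
      Cb * b ≤ N.fall → (∀ i < 3, N.β i + N.fall + (Cb + 5) * b ≤ N.gN) →
      SfS S c N K D b → DrS S c N K D b → LnmS S c N K D b CH Ca (2 * CH + 1) (c₀ / 2) →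
    ∃ (K₂ n₀ : ℕ) (φ : ℝ), 0 < φ ∧ Bas S (fun J F A => ∀ (d : MDat N φ K D F c A)
      (lv : d.V → d.U → Fin 4 → ℝ) (Q : F.Ω × F.Ω → ℝ), IsLaw Q →
      (∀ e, Q e ≤ 2 * q2 F A ⌊N.w0 * J⌋₊ e) →
      (∀ e, 0 < Q e → d.lb.Shv c ⌊N.w0 * J⌋₊ ⌊b * J⌋₊ ⌊(N.fall - b) * J⌋₊ lv e) →
      ∃ aF : d.lb.V₁ × (d.lb.V₀ × ℕ) → (Fin 4 → ℤ) → Fin D → Fin n₀ → MvPolynomial (Fin 4) ℝ,
        (∀ γ b' k i, (aF γ b' k i).totalDegree ≤ K₂) ∧
        ms Q (fun e => ¬ ∃ k i, BrS d.lb c ⌊N.w1 * J⌋₊ ⌊N.w0 * J⌋₊ d.Pr ⌊N.sN * J⌋₊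
          ⌊(N.fall - b) * J⌋₊ ⌊Cb * b * J⌋₊ ⌊Cb * b * J⌋₊ lv aF e k i) ≤ c₀) := by
  classical
  obtain ⟨Cb, hCb⟩ : ∃ Cb : ℝ, Cb = 144 / c₀ + 24 + 2 * CH + Ca := ⟨_, rfl⟩
  have h144 : 0 < 144 / c₀ := by positivity
  refine ⟨Cb, by rw [hCb]; linarith, ?_⟩
  intro m S c N K b y hgd hpos hb hyb hw0 hw1 hww hw0β hgβ hfall hroom hful hder hline
  obtain ⟨K₂, hK₂⟩ := exists_nat_ge (8 / b)
  obtain ⟨n₀, C, hC, hmem⟩ := brs_mem D K₂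
  obtain ⟨cc, hcc⟩ : ∃ n : ℕ, C ≤ 2 ^ n := by
    obtain ⟨n, hn⟩ := pow_unbounded_of_one_lt C (by norm_num : (1 : ℝ) < 2)
    exact ⟨n, hn.le⟩
  obtain ⟨φ₁, hφ₁, hful⟩ := hful
  obtain ⟨φ₂, hφ₂, hder⟩ := hder
  obtain ⟨φ₃, hφ₃, hline⟩ := hline
  obtain ⟨φ, hφ⟩ : ∃ φ : ℝ, φ = min (min φ₁ φ₂) (min φ₃ (b / 8)) := ⟨_, rfl⟩
  have hφ0 : 0 < φ := by
    rw [hφ]
    exact lt_min (lt_min hφ₁ hφ₂) (lt_min hφ₃ (by linarith))
  have hφ1 : φ ≤ φ₁ := by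
    rw [hφ]
    exact (min_le_left _ _).trans (min_le_left _ _)
  have hφ2 : φ ≤ φ₂ := by
    rw [hφ]
    exact (min_le_left _ _).trans (min_le_right _ _)
  have hφ3 : φ ≤ φ₃ := by
    rw [hφ]
    exact (min_le_right _ _).trans (min_le_left _ _)
  have hφb : φ ≤ b / 8 := by
    rw [hφ]
    exact (min_le_right _ _).trans (min_le_right _ _)
  obtain ⟨J₁, hJ₁⟩ := exists_nat_ge (((cc : ℝ) + 8 / c₀ + 16) / b + (cc + 3))
  have hgdB : Bas S (fun J F A => Pool.GEN.Gd F) :=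
    ⟨1, one_pos, 0, fun J _ F A h => hgd _ J F A h⟩
  refine ⟨K₂, n₀, φ, hφ0, ((hpos.and (hgdB.and (hful.and (hder.and hline)))).mono J₁ ?_)⟩
  rintro J hJ F A ⟨hA, hG, hful, hder, hline⟩ d lv Q hQ hQ2 hsh
  have hJ1 : (J₁ : ℝ) ≤ J := by exact_mod_cast hJ
  have hcc0 : (0 : ℝ) ≤ cc := Nat.cast_nonneg cc
  have h8c : 0 < 8 / c₀ := by positivity
  have s1 : 0 ≤ ((cc : ℝ) + 8 / c₀ + 16) / b := by positivity
  have hJ0 : (0 : ℝ) < J := by linarith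
  have j1 : (cc : ℝ) + 8 / c₀ + 16 ≤ b * J := by
    have h1 : ((cc : ℝ) + 8 / c₀ + 16) / b ≤ J := by linarith
    rw [div_le_iff₀ hb] at h1
    linarith
  have j2 : (cc : ℝ) + 3 ≤ 2 * J := by linarith
  obtain ⟨θ, hθs, hθ0, hθm, hln⟩ := hline (d.mono hφ3) Q hQ hQ2
  obtain ⟨W0, hW0⟩ : ∃ W, W = ⌊N.w0 * J⌋₊ := ⟨_, rfl⟩
  obtain ⟨W1, hW1⟩ : ∃ W, W = ⌊N.w1 * J⌋₊ := ⟨_, rfl⟩
  obtain ⟨L, hL⟩ : ∃ L, L = ⌊(N.fall - b) * J⌋₊ := ⟨_, rfl⟩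
  obtain ⟨q, hq⟩ : ∃ q, q = ⌊Cb * b * J⌋₊ := ⟨_, rfl⟩
  obtain ⟨sg, hsg⟩ : ∃ sg, sg = ⌊N.sN * J⌋₊ := ⟨_, rfl⟩
  obtain ⟨t3, ht3⟩ : ∃ t3, t3 = ⌊3 * b * J⌋₊ := ⟨_, rfl⟩
  have hPrJ : d.Pr ≤ J := d.Pr_g.trans d.topN
  have hPrW : ⌊N.w1 * J⌋₊ ≤ d.Pr := d.Pr_W
  have hW1J : ⌊N.w1 * J⌋₊ ≤ J := hPrW.trans hPrJ
  have hφJ : φ * J ≤ b / 8 * J := mul_le_mul_of_nonneg_right hφb hJ0.le
  have hφJ0 : 0 ≤ φ * J := by positivity
  have hPr : (N.gN - 2 * φ) * J ≤ d.Pr := by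
    have h1 := d.Pr_ge
    have h2 := (abs_le.1 d.numN).1
    linarith
  have hCb24 : 24 + 2 * CH + Ca ≤ Cb := by rw [hCb]; linarith
  have hbJ : 0 < b * J := by positivity
  have hCbJ : (24 + 2 * CH + Ca) * (b * J) ≤ Cb * (b * J) :=
    mul_le_mul_of_nonneg_right hCb24 hbJ.le
  have hfJ : Cb * (b * J) ≤ N.fall * J := by
    have := mul_le_mul_of_nonneg_right hfall hJ0.le
    linarith
  have rm : ∀ i < 3, N.β i * J + N.fall * J + (Cb * (b * J) + 5 * (b * J)) ≤ N.gN * J := by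
    intro i hi
    have := mul_le_mul_of_nonneg_right (hroom i hi) hJ0.le
    linarith
  have hCHb : b * J ≤ CH * (b * J) := le_mul_of_one_le_left hbJ.le hCH
  have hCab : b * J ≤ Ca * (b * J) := le_mul_of_one_le_left hbJ.le hCa
  have hw0J : 0 ≤ N.w0 * J := by positivity
  have hw0β' : N.w0 * J ≤ N.β 2 * J + b * J := by
    have := mul_le_mul_of_nonneg_right hw0β hJ0.le
    linarith
  have hPrn : (cc : ℝ) + (CH + Ca) * (b * J) ≤ d.Pr := by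
    have h1 := rm 2 (by norm_num)
    linarith
  obtain ⟨n1, n2, n3, n4, n5, n6, n7, n8⟩ := fbr_num (W₁ := ⌊N.w1 * J⌋₊) (Pr := d.Pr) (K₂ := K₂)
    hb hc₀ hCH hCa hCb hC hcc hW1J (by linarith) (by linarith) j2 hPrn
  -- the numbers
  have f0 : (W0 : ℝ) ≤ N.w0 * J := by
    rw [hW0]
    exact Nat.floor_le (by positivity)
  have f0' : N.w0 * J < W0 + 1 := by
    rw [hW0]
    exact Nat.lt_floor_add_one _
  have f1 : (W1 : ℝ) ≤ N.w0 * J + b * J := by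
    have h1 : N.w1 * J ≤ N.w0 * J + b * J := by
      have := mul_le_mul_of_nonneg_right (hww.trans hyb) hJ0.le
      linarith
    rcases le_or_gt 0 (N.w1 * J) with h | h
    · have h2 : (W1 : ℝ) ≤ N.w1 * J := by
        rw [hW1]
        exact Nat.floor_le h
      linarith
    · have h2 : W1 = 0 := by
        rw [hW1]
        exact Nat.floor_of_nonpos h.le
      rw [h2]
      push_cast
      positivity
  have fL : (L : ℝ) ≤ N.fall * J - b * J := by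
    have h1 : (L : ℝ) ≤ (N.fall - b) * J := by
      rw [hL]
      exact Nat.floor_le (by linarith)
    linarith
  have fq : (q : ℝ) ≤ Cb * (b * J) := by
    have h1 : (q : ℝ) ≤ Cb * b * J := by
      rw [hq]
      exact Nat.floor_le (by linarith)
    linarith
  have fq' : Cb * (b * J) < q + 1 := by
    have h1 : Cb * b * J < q + 1 := by
      rw [hq]
      exact Nat.lt_floor_add_one _
    linarith
  have ft3 : (t3 : ℝ) ≤ 3 * (b * J) := by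
    have h1 : (t3 : ℝ) ≤ 3 * b * J := by
      rw [ht3]
      exact Nat.floor_le (by positivity)
    linarith
  have hX : ((q + (t3 + 4) : ℕ) : ℝ) ≤ Cb * (b * J) + (3 * (b * J) + 4) := by
    push_cast
    linarith
  have hwd : ∀ i, wdS W0 d.gU L i + (q + (t3 + 4)) ≤ d.Pr := by
    refine wdS_le ?_ (fun i hi => ?_) ?_
    · have h1 := rm 2 (by norm_num)
      have h3 : ((W0 + (q + (t3 + 4)) : ℕ) : ℝ) ≤ d.Pr := by
        rw [Nat.cast_add]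
        linarith
      exact_mod_cast h3
    · have h1 := rm i (by omega)
      have h2 := (abs_le.1 (d.numU i (by omega))).2
      have h3 : ((d.gU i + (q + (t3 + 4)) : ℕ) : ℝ) ≤ d.Pr := by
        rw [Nat.cast_add]
        linarith
      exact_mod_cast h3
    · have h1 := rm 2 (by norm_num)
      have h2 := (abs_le.1 (d.numU 2 (by norm_num))).2
      have h3 : ((d.gU 2 + L + (q + (t3 + 4)) : ℕ) : ℝ) ≤ d.Pr := by
        rw [Nat.cast_add, Nat.cast_add]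
        linarith
      exact_mod_cast h3
  have h4b : ⌊4 * b * J⌋₊ ≤ q := by
    have h1 : (⌊4 * b * J⌋₊ : ℝ) ≤ 4 * b * J := Nat.floor_le (by positivity)
    have h3 : ((⌊4 * b * J⌋₊ : ℕ) : ℝ) ≤ ((q : ℕ) : ℝ) := by linarith
    exact_mod_cast h3
  have hkap : (d.kap : ℝ) ≤ φ * J := d.kapφ
  -- the window against the cells
  have hwin : ∀ i, W1 ≤ wdS W0 d.gU L i + q := by
    have w0 : W1 ≤ W0 + q := by
      have : (W1 : ℝ) ≤ ((W0 + q : ℕ) : ℝ) := by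
        push_cast
        linarith
      exact_mod_cast this
    have w2 : W1 ≤ d.gU 2 + L + q := by
      have h2 := (abs_le.1 (d.numU 2 (by norm_num))).1
      have : (W1 : ℝ) ≤ ((d.gU 2 + L + q : ℕ) : ℝ) := by
        push_cast
        have : (0 : ℝ) ≤ L := Nat.cast_nonneg L
        linarith
      exact_mod_cast this
    have w1 : ∀ i < 2, W1 ≤ d.gU i + q := by
      intro i hi
      have h1 := d.winN (i + 1) (by omega)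
      have h2 : wid ⌊N.w1 * J⌋₊ d.gN (i + 1) = d.g' i := by
        unfold wid
        rw [if_neg (Nat.succ_ne_zero i), Nat.add_sub_cancel]
        exact d.gN_eq i (by omega)
      rw [h2, ← hW1] at h1
      have h3 := (abs_le.1 (d.num i (by omega))).2
      have h4 := (abs_le.1 (d.numU i (by omega))).1
      have h5 : N.g i * J ≤ N.β i * J + b * J := by
        have h6 := mul_le_mul_of_nonneg_right ((hgβ i hi).trans (by linarith :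
          N.β i + y ≤ N.β i + b)) hJ0.le
        linarith
      have h7 : (W1 : ℝ) ≤ d.g' i + d.kap := by exact_mod_cast h1
      have : (W1 : ℝ) ≤ ((d.gU i + q : ℕ) : ℝ) := by
        push_cast
        linarith
      exact_mod_cast this
    intro i
    unfold wdS
    split_ifs with a1 a2
    · exact w0
    · exact w2
    · refine w1 _ ?_
      have e1 : i.val ≠ 0 := fun h => a1 (Fin.ext h)
      have e2 : i.val ≠ 3 := fun h => a2 (Fin.ext h)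
      have := i.2
      omega
  have hsupp := fun e (he : 0 < Q e) => q2_mem hA hQ2 he
  have hfu := hful (d.mono hφ1) lv Q d.Pr hQ hQ2 hsh d.Pr_W hPrJ
    (fun i => by
      have h1 := hwd i
      rw [← hW0, ← hL]
      refine (Nat.add_le_add_left h4b _).trans ?_
      have e1 : wdS W0 (MDat.mono d hφ1).gU L i = wdS W0 d.gU L i := rfl
      rw [e1]
      omega) (lbF d.lb ⌊N.w0 * J⌋₊) (Or.inl rfl)
  have hM0 : (0 : ℝ) < ((2 ^ (d.Pr - ⌊N.w1 * J⌋₊) : ℕ) : ℝ) := by positivity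
  obtain ⟨aF, haF, hres⟩ := hmem d.lb c ⌊N.w1 * J⌋₊ ⌊N.w0 * J⌋₊ d.Pr ⌊N.sN * J⌋₊
    ⌊(N.fall - b) * J⌋₊ ⌊Cb * b * J⌋₊ ⌊Cb / 2 * b * J⌋₊ (⌊Cb * b * J⌋₊ - ⌊Cb / 2 * b * J⌋₊)
    ⌊b * J⌋₊ ⌊Cb * b * J⌋₊ lv d.Qh θ Q (Lg := 2 ^ ⌊3 * b * J⌋₊) (H := 2 ^ ⌊CH * b * J⌋₊)
    (H' := 2 ^ ⌊Ca * b * J⌋₊) (Λ := 2 ^ ⌊(2 * CH + 1) * b * J⌋₊) (Tm := 2 ^ ⌊Ca * b * J⌋₊)
    (h := (36 * (b * J) + 4) / c₀) (μ := 9 * b * J) (c₁ := c₀ / 2) d.tri d.aff hQ hPrW hPrJ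
    (fun e he => (d.csq e.2 (hsupp e he).2.1).deg) (by positivity)
    (fun e he yy i j => hder (d.mono hφ2) lv e (hsupp e he).1 (hsupp e he).2.1 (hsh e he)
      (lbF d.lb ⌊N.w0 * J⌋₊) (Or.inl rfl) i j yy)
    (by omega) (fun i => by
      have := hwd i
      rw [hW0, hL, hq] at this
      change wdS _ d.gU _ i + _ ≤ _
      omega) (fun i => by
      have := hwin i
      rw [hW0, hL, hq, hW1] at this
      exact this)
    (fun i => by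
      have h1 := hwd i
      rw [hW0, hL, hq, ht3] at h1
      have h2 : (2 : ℝ) ^ (⌊3 * b * J⌋₊ + 4) ≤ nwS d.Pr ⌊N.w0 * J⌋₊ d.gU ⌊(N.fall - b) * J⌋₊
          ⌊Cb * b * J⌋₊ i := by
        unfold nwS
        push_cast
        refine pow_le_pow_right₀ one_le_two ?_
        omega
      have h3 : (1 : ℝ) ≤ 2 ^ ⌊3 * b * J⌋₊ := one_le_pow₀ one_le_two
      rw [pow_add] at h2
      change 2 * (1 + 4 * 2 ^ ⌊3 * b * J⌋₊) ≤ ((nwS d.Pr ⌊N.w0 * J⌋₊ d.gU ⌊(N.fall - b) * J⌋₊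
          ⌊Cb * b * J⌋₊ i : ℕ) : ℝ)
      linarith)
    (by positivity) n2 n3 n4 (fun ω => Pool.R1.xte_bd hG c 3 _ hPrW hPrJ ω) n5
    (one_le_pow₀ one_le_two) (by positivity) (one_le_pow₀ one_le_two) n6 hθs
    (fun e he => hθ0 e.2 (hsupp e he).2.1)
    (fun e he j hj => by
      have h1 : θ (d.z (ptr F J e.2)) j ≤
          2 ^ ⌊Ca * b * J⌋₊ / ((2 ^ (d.Pr - ⌊N.w1 * J⌋₊) : ℕ) : ℝ) :=
        hθm e.2 (hsupp e he).2.1 j hj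
      rw [le_div_iff₀ hM0] at h1
      rw [mul_comm]
      exact h1)
    n7 n8 hfu hln
  refine ⟨aF, haF, hres.trans ?_⟩
  have h1 : 2 * (9 * b * J + Real.log 2) / ((36 * (b * J) + 4) / c₀) ≤ c₀ / 2 := by
    rw [div_le_iff₀ (by positivity)]
    have h2 : c₀ / 2 * ((36 * (b * J) + 4) / c₀) = 18 * (b * J) + 2 := by
      field_simp
      ring
    rw [h2]
    have := Real.log_two_lt_d9
    linarith
  linarith

/-- **(B) The branches of the leaf of the second sample, in a class.** -/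
theorem for_br (D : ℕ) {c₀ : ℝ} (hc₀ : 0 < c₀) : ∃ Cb Cr : ℝ, 1 ≤ Cb ∧ 1 ≤ Cr ∧
    ∀ {m : ℕ} {S : PCl m}, (∀ (τ : ℝ) (J : ℕ) (F : Fam m J) (A : F.Ω → Prop), S.St τ J F A →
      F.Tr ∧ F.Tm (τ * J) ∧ F.Rb (τ * J) ∧ Real.exp (-(τ * J)) ≤ Pe F.p A) →
    (∀ (τ : ℝ) (J : ℕ) (F : Fam m J) (A : F.Ω → Prop), S.St τ J F A → Pool.GEN.Gd F) →
    ∀ {c : ℕ → Fin m} {N : MNum} {K : ℕ} {b y : ℝ}, 0 ≤ N.w0 → N.w0 ≤ N.w1 → N.w1 ≤ 1 → 0 < b →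
    N.w1 - N.w0 ≤ y → y ≤ b →
    (∀ ρ : ℝ, 0 < ρ → ExvY S N.w1 (fun J F ω (i : Fin 3) => F.X J ω (c i))
      ((∑ l ∈ range 3, (1 - N.g l)) - ρ)) →
    N.s ≤ b → N.w0 ≤ N.β 2 + b → (∀ i < 2, N.g i ≤ N.β i + y) →
    Cr * b ≤ N.fall → (∀ i < 3, N.β i + N.fall + Cr * b ≤ N.gN) →
    SfS S c N K D b → DrS S c N K D b →
    ∃ (K₂ n₀ : ℕ) (φ : ℝ), 0 < φ ∧ Bas S (fun J F A => ∀ (d : MDat N φ K D F c A)
      (lv : d.V → d.U → Fin 4 → ℝ) (Q : F.Ω × F.Ω → ℝ), IsLaw Q →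
      (∀ e, Q e ≤ 2 * q2 F A ⌊N.w0 * J⌋₊ e) →
      (∀ e, 0 < Q e → d.lb.Shv c ⌊N.w0 * J⌋₊ ⌊b * J⌋₊ ⌊(N.fall - b) * J⌋₊ lv e) →
      ∃ aF : d.lb.V₁ × (d.lb.V₀ × ℕ) → (Fin 4 → ℤ) → Fin D → Fin n₀ → MvPolynomial (Fin 4) ℝ,
        (∀ γ b' k i, (aF γ b' k i).totalDegree ≤ K₂) ∧
        ms Q (fun e => ¬ ∃ k i, BrS d.lb c ⌊N.w1 * J⌋₊ ⌊N.w0 * J⌋₊ d.Pr ⌊N.sN * J⌋₊
          ⌊(N.fall - b) * J⌋₊ ⌊Cb * b * J⌋₊ ⌊Cb * b * J⌋₊ lv aF e k i) ≤ c₀) := by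
  obtain ⟨CH, hCH, h1⟩ := Pool.PM.ln_m D (half_pos hc₀)
  obtain ⟨Ca, hCa, h2⟩ := h1 (2 * CH + 1) (by linarith)
  obtain ⟨Cb, hCb, h3⟩ := for_br_of D hc₀ hCH hCa
  refine ⟨Cb, Cb + Ca + 5, hCb, by linarith, ?_⟩
  intro m S hmem hgd c N K b y hw0 hw01 hw1 hb hyw hyb hex hs hw0β hgβ hfall hroom hSf hDr
  have hpos : Bas S (fun _ F A => 0 < Pe F.p A) :=
    ⟨1, one_pos, 0, fun J _ F A h => lt_of_lt_of_le (Real.exp_pos _) (hmem _ J F A h).2.2.2⟩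
  have hCab : 0 ≤ Ca * b := by positivity
  have hCbb : 0 ≤ Cb * b := by positivity
  have e1 : (Cb + Ca + 5) * b = Cb * b + Ca * b + 5 * b := by ring
  have e2 : (Cb + 5) * b = Cb * b + 5 * b := by ring
  rw [e1] at hfall
  have hroom' : ∀ i < 3, N.β i + N.fall + (Cb * b + Ca * b + 5 * b) ≤ N.gN := fun i hi => by
    rw [← e1]
    exact hroom i hi
  refine h3 hgd hpos hb hyb hw0 hw1 hyw hw0β hgβ (by linarith) (fun i hi => by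
    have := hroom' i hi
    rw [e2]
    linarith) hSf hDr ?_
  refine h2 hmem hw0 hw01 hw1 hb hyw hyb hex ?_ ?_
  · have := hroom' 2 (by norm_num)
    linarith
  · intro i hi
    rcases Nat.lt_or_ge i 2 with h | h
    · have := hroom' i hi
      have := hgβ i h
      linarith
    · have e3 : i = 2 := by omega
      subst e3
      have h4 := hroom' 2 hi
      unfold Pool.PM.VNum.fall at h4
      linarith

end Pool.TUB
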