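import Pool.Agent.H86.GEO.Def
import Pool.Agent.H86.EXT.Gfn
import Pool.Agent.H53.JM.Exn

/-!
# Two orders of the coordinates

`ren`, `pmG`: the polynomials and the natural systems in the other order of the coordinates. The
jets, the majorants, the leaves and the natural cells. `xte_eq`: two names of the exact point.
-/

set_option autoImplicit false

namespace Pool.GEO

open Finset Real MvPolynomial
open Pool.Agent.H49.Ent Pool.Agent.H32.Dense Pool.STK Pool.KAF Pool.KAL Pool.KS3 Pool.M3F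
open Pool.KJA Pool.KA Pool.K2S Pool.KSAT Pool.PB Pool.STAT Pool.GEN Pool.CLO37 Pool.IEN Pool.EXS

variable {d : ℕ} (ρ : Equiv.Perm (Fin d))

/-- The permutation of all the coordinates. -/
def opm : Option (Fin d) → Option (Fin d) := Option.map ρ

lemma opm_inj : Function.Injective (opm ρ) := Option.map_injective ρ.injective

lemma opm_symm (o : Option (Fin d)) : opm ρ (opm ρ.symm o) = o := by
  cases o with
  | none => rfl
  | some i => simp [opm]

lemma opm_symm' (o : Option (Fin d)) : opm ρ.symm (opm ρ o) = o := by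
  cases o with
  | none => rfl
  | some i => simp [opm]

/-- The polynomial in the other order. -/
noncomputable def ren (R : MvPolynomial (Option (Fin d)) ℝ) : MvPolynomial (Option (Fin d)) ℝ :=
  rename (opm ρ) R

lemma eval_ren (x : Option (Fin d) → ℝ) (R : MvPolynomial (Option (Fin d)) ℝ) :
    eval x (ren ρ R) = eval (fun o => x (opm ρ o)) R := by
  unfold ren
  rw [eval_rename]
  rfl

lemma ren_deg (R : MvPolynomial (Option (Fin d)) ℝ) :
    (ren ρ R).totalDegree ≤ R.totalDegree := totalDegree_rename_le _ _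

lemma ren_symm (R : MvPolynomial (Option (Fin d)) ℝ) : ren ρ (ren ρ.symm R) = R := by
  unfold ren
  rw [rename_rename]
  have : (opm ρ ∘ opm ρ.symm) = id := funext fun o => opm_symm ρ o
  rw [this, rename_id_apply]

lemma pd_none_ren (R : MvPolynomial (Option (Fin d)) ℝ) :
    pderiv none (ren ρ R) = ren ρ (pderiv none R) := by
  have h := pderiv_rename (R := ℝ) (f := opm ρ) (opm_inj ρ) none R
  exact h

lemma pd_some_ren (l : Fin d) (R : MvPolynomial (Option (Fin d)) ℝ) :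
    pderiv (some (ρ l)) (ren ρ R) = ren ρ (pderiv (some l) R) := by
  have h := pderiv_rename (R := ℝ) (f := opm ρ) (opm_inj ρ) (some l) R
  exact h

lemma pN_ren (k : ℕ) (R : MvPolynomial (Option (Fin d)) ℝ) :
    pN k (ren ρ R) = ren ρ (pN k R) := by
  induction k with
  | zero => rfl
  | succ k ih => rw [pN_succ, pN_succ, ih, pd_none_ren]

lemma lnr_ren {D : ℕ} {Q : MvPolynomial (Option (Fin d)) ℝ} {H : ℝ} {θ : ℕ → ℝ}
    {x : Option (Fin d) → ℝ} {k : ℕ} (h : LnR D Q H θ (fun o => x (opm ρ o)) k) :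
    LnR D (ren ρ Q) H θ x k := by
  refine ⟨h.le, ?_, ?_, ?_⟩
  · rw [pN_ren, eval_ren]
    exact h.pos
  · rw [pN_ren, pN_ren, eval_ren, eval_ren]
    exact h.low
  · intro m
    rw [pN_ren, pN_ren, eval_ren, eval_ren]
    exact h.high m

lemma coefSum_rename {σ τ : Type} {f : σ → τ} (hf : Function.Injective f)
    (R : MvPolynomial σ ℝ) : coefSum (rename f R) = coefSum R := by
  classical
  unfold coefSum
  rw [support_rename_of_injective hf, Finset.sum_image]
  · refine Finset.sum_congr rfl fun α _ => ?_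
    rw [coeff_rename_mapDomain f hf]
  · intro α _ β _ h
    exact Finsupp.mapDomain_injective hf h

lemma psi_ren (R : MvPolynomial (Option (Fin d)) ℝ) (h : ℝ) (x : Option (Fin d) → ℝ) :
    Psi (ren ρ R) h x = Psi R h (fun o => x (opm ρ o)) := by
  unfold Psi
  have h1 : shf (ren ρ R) h x = rename (opm ρ) (shf R h (fun o => x (opm ρ o))) := by
    refine MvPolynomial.funext fun v => ?_
    rw [eval_shf, eval_ren, eval_rename, eval_shf]
    rfl
  rw [h1, coefSum_rename (opm_inj ρ)]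

/-- The system in the other order. -/
noncomputable def pmG (G : Fin d → MvPolynomial (Fin d) ℝ) (i : Fin d) :
    MvPolynomial (Fin d) ℝ := rename ρ.symm (G (ρ i))

lemma eval_pmG (G : Fin d → MvPolynomial (Fin d) ℝ) (y : Fin d → ℝ) (i : Fin d) :
    eval (fun l => y (ρ l)) (pmG ρ G i) = eval y (G (ρ i)) := by
  unfold pmG
  rw [eval_rename]
  congr 1
  have : (fun l => y (ρ l)) ∘ ρ.symm = y := funext fun l => by simp
  rw [this]

lemma ndg_pm (M : ℕ) (G : Fin d → MvPolynomial (Fin d) ℝ) (y : Fin d → ℝ) :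
    ndg M (pmG ρ G) (fun l => y (ρ l)) = fun i => ndg M G y (ρ i) := by
  funext i
  unfold ndg
  rw [eval_pmG]

lemma ncell_pm {M : ℕ} {N : Fin d → ℕ} {G : Fin d → MvPolynomial (Fin d) ℝ} {b : Fin d → ℤ}
    {y : Fin d → ℝ} (h : (fun l => y (ρ l)) ∈ ncell M (fun i => N (ρ i)) (pmG ρ G)
      (fun i => b (ρ i))) : y ∈ ncell M N G b := by
  intro i
  have h1 := h (ρ.symm i)
  rw [eval_pmG] at h1
  simp only [Equiv.apply_symm_apply] at h1
  exact h1

lemma ncell_pm' {M : ℕ} {N : Fin d → ℕ} {G : Fin d → MvPolynomial (Fin d) ℝ} {b : Fin d → ℤ}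
    {y : Fin d → ℝ} (h : y ∈ ncell M N G b) : (fun l => y (ρ l)) ∈
      ncell M (fun i => N (ρ i)) (pmG ρ G) (fun i => b (ρ i)) := by
  intro i
  rw [eval_pmG]
  exact h (ρ i)

/-- The leaf in the other order. -/
lemma lpt_ren (gB : MvPolynomial (Fin d) ℝ) (y : Fin d → ℝ) :
    (fun o => lpt (rename ρ gB) y (opm ρ o)) = lpt gB (fun l => y (ρ l)) := by
  funext o
  cases o with
  | none =>
    show eval y (rename ρ gB) = eval _ gB
    rw [eval_rename]
    rfl
  | some i => rfl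

lemma pd_rename (gB : MvPolynomial (Fin d) ℝ) (y : Fin d → ℝ) (l : Fin d) :
    eval y (pderiv l (rename ρ gB)) = eval (fun l => y (ρ l)) (pderiv (ρ.symm l) gB) := by
  have h := pderiv_rename (R := ℝ) (f := ρ) ρ.injective (ρ.symm l) gB
  rw [Equiv.apply_symm_apply] at h
  rw [h, eval_rename]
  rfl

/-- **Doubling on the leaf, in the other order.** -/
lemma dbl_pm {D : ℕ} {κ Z : ℝ} {M : ℕ} {N₂ N₃ : Fin d → ℕ} {G : Fin d → MvPolynomial (Fin d) ℝ}
    {b₂ b₃ : Fin d → ℤ} {gB : MvPolynomial (Fin d) ℝ} {U : Set (Fin d → ℝ)}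
    (hU : ∀ y ∈ ncell M N₂ G b₂, (fun l => y (ρ l)) ∈ U)
    (h : ∀ R : MvPolynomial (Option (Fin d)) ℝ, R.totalDegree ≤ D → ∀ y ∈ U,
      ∃ y' ∈ ncell M (fun i => N₃ (ρ i)) (pmG ρ G) (fun i => b₃ (ρ i)),
        Psi R κ (lpt gB y) ≤ Z * Psi R κ (lpt gB y'))
    (R : MvPolynomial (Option (Fin d)) ℝ) (hR : R.totalDegree ≤ D) (y : Fin d → ℝ)
    (hy : y ∈ ncell M N₂ G b₂) : ∃ y' ∈ ncell M N₃ G b₃,
      Psi R κ (lpt (rename ρ gB) y) ≤ Z * Psi R κ (lpt (rename ρ gB) y') := by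
  obtain ⟨y', hy', h1⟩ := h (ren ρ.symm R) ((ren_deg _ _).trans hR) _ (hU y hy)
  refine ⟨fun l => y' (ρ.symm l), ncell_pm ρ (by simpa using hy'), ?_⟩
  have e1 : ∀ y : Fin d → ℝ, Psi R κ (lpt (rename ρ gB) y) =
      Psi (ren ρ.symm R) κ (lpt gB (fun l => y (ρ l))) := by
    intro y
    rw [← lpt_ren, ← psi_ren, ren_symm]
  rw [e1, e1]
  simpa using h1

variable {m J : ℕ} {F : Fam m J}

/-- Two names of the exact point. -/
lemma xte_eq (c : ℕ → Fin m) (k : ℕ) {W P₀ : ℕ} (sg : ℕ) (hW : W ≤ P₀) (ω : F.Ω) :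
    xte c k W P₀ sg F ω = Pool.JPN.xpt F c k W sg P₀ ω := by
  have hW0 : (0 : ℝ) < 2 ^ W := by positivity
  have h1 : tmw W P₀ F ω = 2 ^ W * Pool.JPN.tP F P₀ ω := by
    unfold tmw Pool.JPN.tP
    push_cast
    rw [two_pow_sub hW]
    field_simp
  funext o
  unfold xte Pool.JPN.xpt
  rw [h1]
  cases o with
  | none =>
    show 2 ^ W * F.u ω (c k) / 2 ^ sg + 2 ^ W * Pool.JPN.tP F P₀ ω * (F.d ω (c k) / 2 ^ sg) =
      2 ^ W * (Pool.JPN.exn F c P₀ ω (k + 1) / 2 ^ sg)
    unfold Pool.JPN.exn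
    rw [if_neg (Nat.succ_ne_zero k), Nat.add_sub_cancel]
    ring
  | some i =>
    show (if i.val = 0 then 0 else 2 ^ W * F.u ω (c (i.val - 1))) +
      2 ^ W * Pool.JPN.tP F P₀ ω * (if i.val = 0 then 1 else F.d ω (c (i.val - 1))) =
      2 ^ W * Pool.JPN.exn F c P₀ ω i.val
    unfold Pool.JPN.exn
    split_ifs
    · ring
    · ring

/-- The exact point in the other order. -/
lemma xte_pm {c₀ c₁ : ℕ → Fin m} {k : ℕ} (ρ : Equiv.Perm (Fin (k + 1))) (h0 : ρ 0 = 0)
    (hk : c₁ k = c₀ k) (hc : ∀ i : Fin (k + 1), i ≠ 0 → c₁ (i.val - 1) = c₀ ((ρ i).val - 1))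
    (W P₀ sg : ℕ) (ω : F.Ω) :
    (fun o => xte c₀ k W P₀ sg F ω (opm ρ o)) = xte c₁ k W P₀ sg F ω := by
  funext o
  unfold xte
  cases o with
  | none =>
    show 2 ^ W * F.u ω (c₀ k) / 2 ^ sg + tmw W P₀ F ω * (F.d ω (c₀ k) / 2 ^ sg) =
      2 ^ W * F.u ω (c₁ k) / 2 ^ sg + tmw W P₀ F ω * (F.d ω (c₁ k) / 2 ^ sg)
    rw [hk]
  | some i =>
    show (if (ρ i).val = 0 then 0 else 2 ^ W * F.u ω (c₀ ((ρ i).val - 1))) +
      tmw W P₀ F ω * (if (ρ i).val = 0 then 1 else F.d ω (c₀ ((ρ i).val - 1))) =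
      (if i.val = 0 then 0 else 2 ^ W * F.u ω (c₁ (i.val - 1))) +
        tmw W P₀ F ω * (if i.val = 0 then 1 else F.d ω (c₁ (i.val - 1)))
    by_cases hi : i = 0
    · subst hi
      rw [h0]
      simp
    · have h1 : (ρ i).val ≠ 0 := by
        intro h
        have h2 : ρ i = ρ 0 := by
          rw [h0]
          exact Fin.ext h
        exact hi (ρ.injective h2)
      have h2 : i.val ≠ 0 := fun h => hi (Fin.ext h)
      rw [if_neg h1, if_neg h1, if_neg h2, if_neg h2, hc i hi]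

/-- The rounded point in the other order. -/
lemma zsw_pm {c₀ c₁ : ℕ → Fin m} {k : ℕ} (ρ : Equiv.Perm (Fin (k + 1))) (h0 : ρ 0 = 0)
    (hk : c₁ k = c₀ k) (hc : ∀ i : Fin (k + 1), i ≠ 0 → c₁ (i.val - 1) = c₀ ((ρ i).val - 1))
    (W sg : ℕ) (ξ : PtT F) :
    (fun o => zsw c₀ k W sg ξ (opm ρ o)) = zsw c₁ k W sg ξ := by
  funext o
  cases o with
  | none =>
    show 2 ^ W * (px c₀ ξ (k + 1) / 2 ^ sg) = 2 ^ W * (px c₁ ξ (k + 1) / 2 ^ sg)
    unfold px
    rw [if_neg (Nat.succ_ne_zero k), if_neg (Nat.succ_ne_zero k), Nat.add_sub_cancel, hk]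
  | some i =>
    show 2 ^ W * px c₀ ξ (ρ i).val = 2 ^ W * px c₁ ξ i.val
    unfold px
    by_cases hi : i = 0
    · subst hi
      rw [h0]
      simp
    · have h1 : (ρ i).val ≠ 0 := by
        intro h
        have h2 : ρ i = ρ 0 := by
          rw [h0]
          exact Fin.ext h
        exact hi (ρ.injective h2)
      have h2 : i.val ≠ 0 := fun h => hi (Fin.ext h)
      rw [if_neg h1, if_neg h2, hc i hi]

end Pool.GEO
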