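import Pool.Agent.H86.GEO.Pdt
import Pool.Agent.H86.GEO.Def
import Pool.Agent.H96.R1.Geo

/-!
# The arrays of the leaves

`nw`: the sides of the cells of depth `q`. `ce_eq`, `yc_eq`, `cel_jdg`: the cells of the points.
`tix`, `tps`: the index of the time cell and the position in it. `sar`: the slice as an array.
-/

set_option autoImplicit false

namespace Pool.GEO

open Finset Real
open Pool.Agent.H49.Ent Pool.Agent.H32.Dense Pool.STK Pool.KAF Pool.KAL Pool.KS3 Pool.M3F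
open Pool.KJA Pool.KA Pool.K2S Pool.KSAT Pool.PB Pool.STAT Pool.GEN Pool.CLO37 Pool.IEN Pool.EXS
open Pool.JPN Pool.JMS

/-- The sides of the cells of depth `q`. -/
def nw (W₀ Pr : ℕ) (g : ℕ → ℕ) (k q : ℕ) (i : Fin (k + 1)) : ℕ := 2 ^ (Pr - wid W₀ g i - q)

lemma nw_pos (W₀ Pr : ℕ) (g : ℕ → ℕ) (k q : ℕ) (i : Fin (k + 1)) : 1 ≤ nw W₀ Pr g k q i :=
  Nat.one_le_two_pow

lemma nw_mul {W₀ Pr : ℕ} {g : ℕ → ℕ} {k q X : ℕ} (h : ∀ i < k + 1, wid W₀ g i + q + X ≤ Pr) :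
    (fun i => 2 ^ X * nw W₀ Pr g k (q + X) i) = nw W₀ Pr g k q := by
  funext i
  unfold nw
  rw [← pow_add]
  congr 1
  have := h i i.2
  omega

lemma nw_le {W₀ W₁ Pr : ℕ} {g : ℕ → ℕ} {k q : ℕ} (h : ∀ i < k + 1, W₁ ≤ wid W₀ g i + q)
    (i : Fin (k + 1)) : nw W₀ Pr g k q i ≤ 2 ^ (Pr - W₁) := by
  unfold nw
  refine Nat.pow_le_pow_right (by norm_num) ?_
  have := h i i.2
  omega

/-- The floor of a quotient. -/
lemma floor_ediv (x : ℝ) {n : ℕ} (hn : 1 ≤ n) : ⌊x⌋ / (n : ℤ) = ⌊x / n⌋ := by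
  have hn0 : (0 : ℤ) < n := by exact_mod_cast hn
  have hnr : (0 : ℝ) < n := by exact_mod_cast hn
  symm
  rw [Int.floor_eq_iff]
  have h1 : ⌊x⌋ / (n : ℤ) * n ≤ ⌊x⌋ := Int.ediv_mul_le _ hn0.ne'
  have h2 : ⌊x⌋ < (⌊x⌋ / (n : ℤ) + 1) * n := Int.lt_ediv_add_one_mul_self _ hn0
  have h3 : (⌊x⌋ : ℝ) ≤ x := Int.floor_le x
  constructor
  · rw [le_div_iff₀ hnr]
    have : ((⌊x⌋ / (n : ℤ) : ℤ) : ℝ) * n ≤ (⌊x⌋ : ℝ) := by exact_mod_cast h1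
    linarith
  · rw [div_lt_iff₀ hnr]
    have h4 : ⌊x⌋ + 1 ≤ (⌊x⌋ / (n : ℤ) + 1) * n := h2
    have h5 : (⌊x⌋ : ℝ) + 1 ≤ (((⌊x⌋ / (n : ℤ) : ℤ) : ℝ) + 1) * n := by exact_mod_cast h4
    have h6 : x < ⌊x⌋ + 1 := Int.lt_floor_add_one x
    linarith

variable {m J : ℕ} {F : Fam m J} {V : Type} {c : ℕ → Fin m} {P : V → ℕ → PN} {z₀ : PtT F → V}
  {g : ℕ → ℕ}

/-- The natural coordinate in the scaled variables. -/
lemma zsw_ntc {k W sg : ℕ} {ω : F.Ω} (hP : TriN (P (z₀ (ptr F J ω)))) (i : Fin k) :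
    bse (zsw c k W sg (ptr F J ω)) i.succ - MvPolynomial.eval (bse (zsw c k W sg (ptr F J ω)))
      (gsy k W (P (z₀ (ptr F J ω))) i.succ) = 2 ^ W * ntc F c P z₀ ω i := by
  rw [gsy_succ, eval_toF, ← bse_unF c k W sg (ptr F J ω) (i := i.val + 1) (by
    have := i.2
    omega) (hP _)]
  unfold ntc
  show 2 ^ W * px c (ptr F J ω) (i.val + 1) - _ = _
  ring

lemma dig_val {k W W₀ Pr sg q : ℕ} {ω : F.Ω} (hP : TriN (P (z₀ (ptr F J ω)))) (i : Fin k)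
    (hW : W ≤ Pr) (hq : wid W₀ g i.succ + q ≤ Pr) :
    ((2 ^ (Pr - W) : ℕ) : ℝ) * (bse (zsw c k W sg (ptr F J ω)) i.succ - MvPolynomial.eval
      (bse (zsw c k W sg (ptr F J ω))) (gsy k W (P (z₀ (ptr F J ω))) i.succ)) /
        nw W₀ Pr g k q i.succ = 2 ^ (g i + q) * ntc F c P z₀ ω i := by
  rw [zsw_ntc hP]
  have hw : wid W₀ g i.succ = g i := by
    unfold wid
    rw [if_neg (by simp)]
    simp
  rw [hw] at hq
  unfold nw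
  rw [hw]
  push_cast
  have e1 : Pr - g i - q = Pr - (g i + q) := by omega
  rw [e1, two_pow_sub hW, two_pow_sub hq]
  field_simp

/-- The cell of the point. -/
lemma ce_eq {k W W₀ Pr sg q : ℕ} {ω : F.Ω} (hP : TriN (P (z₀ (ptr F J ω)))) (i : Fin k)
    (hW : W ≤ Pr) (hq : wid W₀ g i.succ + q ≤ Pr) :
    nidx (nw W₀ Pr g k q) (ndg (2 ^ (Pr - W)) (gsy k W (P (z₀ (ptr F J ω))))
      (bse (zsw c k W sg (ptr F J ω)))) i.succ = ce k F c P z₀ g q ω i := by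
  unfold nidx ndg ce
  rw [floor_ediv _ (nw_pos _ _ _ _ _ _), dig_val hP i hW hq]

/-- The position in the cell. -/
lemma yc_eq {k W W₀ Pr sg q : ℕ} {ω : F.Ω} (hP : TriN (P (z₀ (ptr F J ω)))) (i : Fin k)
    (hW : W ≤ Pr) (hq : wid W₀ g i.succ + q ≤ Pr) {b : Fin (k + 1) → ℤ}
    (hb : b i.succ = ce k F c P z₀ g q ω i) :
    rpos (2 ^ (Pr - W)) (nw W₀ Pr g k q) (gsy k W (P (z₀ (ptr F J ω)))) b
      (bse (zsw c k W sg (ptr F J ω))) i.succ = yc k F c P z₀ g q ω i := by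
  have h1 := dig_val (c := c) (W₀ := W₀) (sg := sg) (g := g) hP i hW hq
  have hM : (0 : ℝ) < ((2 ^ (Pr - W) : ℕ) : ℝ) := by positivity
  have hN : (0 : ℝ) < (nw W₀ Pr g k q i.succ : ℝ) := by
    have := nw_pos W₀ Pr g k q i.succ
    exact_mod_cast this
  unfold rpos yc
  rw [← h1, ← hb]
  field_simp

/-- The digit of the small cell. -/
lemma cel_jdg {k W W₀ Pr sg q X : ℕ} {ω : F.Ω} (hP : TriN (P (z₀ (ptr F J ω)))) (i : Fin k)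
    (hW : W ≤ Pr) (hq : ∀ i < k + 1, wid W₀ g i + q + X ≤ Pr) :
    ((jdg (2 ^ X) (nidx (nw W₀ Pr g k (q + X)) (ndg (2 ^ (Pr - W))
      (gsy k W (P (z₀ (ptr F J ω)))) (bse (zsw c k W sg (ptr F J ω))))) i.succ : ℕ) : ℤ) =
      ⌊(2 : ℝ) ^ X * yc k F c P z₀ g q ω i⌋ := by
  have h1 := ce_eq (c := c) (W₀ := W₀) (sg := sg) (g := g) (q := q) hP i hW (by
    have := hq i.succ i.succ.2
    omega)
  have h2 := ce_eq (c := c) (W₀ := W₀) (sg := sg) (g := g) (q := q + X) hP i hW (by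
    have := hq i.succ i.succ.2
    omega)
  have h3 : nidx (nw W₀ Pr g k q) (ndg (2 ^ (Pr - W)) (gsy k W (P (z₀ (ptr F J ω))))
      (bse (zsw c k W sg (ptr F J ω)))) = fun i => nidx (nw W₀ Pr g k (q + X)) (ndg (2 ^ (Pr - W))
      (gsy k W (P (z₀ (ptr F J ω)))) (bse (zsw c k W sg (ptr F J ω)))) i / ((2 ^ X : ℕ) : ℤ) := by
    rw [← nidx_mul, nw_mul hq]
  rw [jdg_eq Nat.one_le_two_pow, ← congrFun h3 i.succ, h1, h2]
  unfold yc ce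
  have e1 : (2 : ℝ) ^ X * (2 ^ (g i + q) * ntc F c P z₀ ω i - (⌊(2 : ℝ) ^ (g i + q) *
      ntc F c P z₀ ω i⌋ : ℝ)) = 2 ^ (g i + (q + X)) * ntc F c P z₀ ω i -
        ((⌊(2 : ℝ) ^ (g i + q) * ntc F c P z₀ ω i⌋ * ((2 ^ X : ℕ) : ℤ) : ℤ) : ℝ) := by
    have e2 : (2 : ℝ) ^ (g i + (q + X)) = 2 ^ X * 2 ^ (g i + q) := by
      rw [← pow_add]
      congr 1
      omega
    rw [e2]
    push_cast
    ring
  rw [e1, Int.floor_sub_intCast]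

/-- The index of the time cell. -/
def tix (J W₀ Pr q : ℕ) (T : ℕ) : ℤ := ((T / 2 ^ (J - Pr) : ℕ) : ℤ) / ((2 ^ (Pr - W₀ - q) : ℕ) : ℤ)

/-- The position in the time cell. -/
noncomputable def tps (J W₀ W Pr q : ℕ) (T : ℕ) : ℝ :=
  (((T / 2 ^ (J - Pr) : ℕ) : ℝ) / ((2 ^ (Pr - W) : ℕ) : ℝ) -
    (tix J W₀ Pr q T : ℝ) * ((2 ^ (Pr - W₀ - q) : ℕ) : ℝ) / ((2 ^ (Pr - W) : ℕ) : ℝ)) /
    (((2 ^ (Pr - W₀ - q) : ℕ) : ℝ) / ((2 ^ (Pr - W) : ℕ) : ℝ))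

lemma tix_eq {k W W₀ Pr sg q : ℕ} {G : Fin (k + 1) → MvPolynomial (Fin (k + 1)) ℝ}
    (hG : G 0 = 0) (c : ℕ → Fin m) (ω : F.Ω) :
    nidx (nw W₀ Pr g k q) (ndg (2 ^ (Pr - W)) G (bse (xte c k W Pr sg F ω))) 0 =
      tix J W₀ Pr q (F.T ω) := by
  have h1 := (xte_dig (F := F) c k W Pr sg ω hG).2
  unfold nidx tix
  rw [h1]
  rfl

lemma tps_eq {k W W₀ Pr sg q : ℕ} {G : Fin (k + 1) → MvPolynomial (Fin (k + 1)) ℝ}
    (hG : G 0 = 0) (c : ℕ → Fin m) (ω : F.Ω) {b : Fin (k + 1) → ℤ}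
    (hb : b 0 = tix J W₀ Pr q (F.T ω)) :
    rpos (2 ^ (Pr - W)) (nw W₀ Pr g k q) G b (bse (xte c k W Pr sg F ω)) 0 =
      tps J W₀ W Pr q (F.T ω) := by
  have h1 : bse (xte c k W Pr sg F ω) 0 = tmw W Pr F ω := xte_zero c k W Pr sg ω
  unfold rpos
  rw [hG, map_zero, sub_zero, h1, hb]
  rfl

/-- The slice as an array. -/
noncomputable def sar {k : ℕ} (Kf W : ℕ) (f : MvPolynomial (Fin (k + 1)) ℝ) (t : ℝ) :
    (Fin k → Fin (Kf + 1)) → ℝ :=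
  fun b => (slp Kf (MvPolynomial.C (1 / 2 ^ W) * f) b).eval t

lemma ev_sar {k Kf W : ℕ} {f : MvPolynomial (Fin (k + 1)) ℝ} (hf : f.totalDegree ≤ Kf) (t : ℝ)
    (z : Fin k → ℝ) : Pool.JMN.ev (sar Kf W f t) z =
      MvPolynomial.eval (Fin.cons t z : Fin (k + 1) → ℝ) f / 2 ^ W := by
  unfold sar
  have h1 : (MvPolynomial.C (1 / 2 ^ W : ℝ) * f).totalDegree ≤ Kf := by
    refine (MvPolynomial.totalDegree_mul _ _).trans ?_
    rw [MvPolynomial.totalDegree_C, zero_add]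
    exact hf
  rw [ev_slp h1, map_mul, MvPolynomial.eval_C]
  ring

end Pool.GEO
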