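import Pool.Agent.H86.GEO.Pok
import Pool.Agent.H86.EXT.Gvl
import Pool.Agent.H86.EXT.Brg
import Pool.Agent.H15.GEO.Cel

/-!
# The branches of the leaf of the second sample over the slanted cells

`brs_det`: the value at a near point and the gradients of a branch, from the equation at the exact
point. `brs_mem`: the branches, for one member, with large probability.
-/

set_option autoImplicit false

namespace Pool.TUB

open Finset Real
open Pool.Agent.H49.Ent Pool.Agent.H32.Dense Pool.STK Pool.KAF Pool.KAL Pool.KS3 Pool.M3F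
open Pool.KJA Pool.KA Pool.K2S Pool.KSAT Pool.PB Pool.STAT Pool.GEN Pool.IEN Pool.EXS
open Pool.GEO (gsy gsy_zero gsy_succ gsy_tri gsy_deg xte xte_near mfm rfm rfm_deg rfm_all BrE)
open Pool.PM (PLab)
open Pool.CLO37 (zsw)

/-- **A branch at a near point**, for systems with small gradients. -/
theorem brs_det (D K₂ : ℕ) : ∃ C : ℝ, 1 ≤ C ∧
    ∀ (M : ℕ) (N : Fin 4 → ℕ) (G : Fin 4 → MvPolynomial (Fin 4) ℝ)
      (a : MvPolynomial (Fin 4) ℝ) (Q : MvPolynomial (Option (Fin 4)) ℝ)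
      (H H' X Lg δ : ℝ) (θ : ℕ → ℝ) (k : ℕ) (x px : Option (Fin 4) → ℝ) (b : Fin 4 → ℤ),
      1 ≤ M → (∀ i, 1 ≤ N i) → (∀ i, N i ≤ M) → TriP G → (∀ i, (G i).totalDegree ≤ 1) →
      a.totalDegree ≤ K₂ → Q.totalDegree ≤ D → 0 ≤ Lg →
      (∀ y i l, |MvPolynomial.eval y (MvPolynomial.pderiv l (G i))| ≤ Lg) →
      (∀ o, |px o - x o| ≤ 2 / M) → b = nidx N (ndg M G (bse x)) →
      |x none - MvPolynomial.eval (rpos M N G b (bse x)) a| ≤ δ →
      LnR D Q H θ x k → 1 ≤ H → 0 ≤ H' → 0 ≤ θ k → 0 < θ (k + 1) → 4 * H * δ ≤ θ (k + 1) →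
      (∀ (l : Fin 4) (m : ℕ), |MvPolynomial.eval x (MvPolynomial.pderiv (some l)
        (pN (k + m) Q))| * θ (k + 1) ^ m ≤ H' * |MvPolynomial.eval x (pN (k + 1) Q)|) →
      (∀ R, (R = pN k Q ∨ R = pN (k + 1) Q ∨ ∃ l, R = MvPolynomial.pderiv (some l) (pN k Q)) →
        ∀ u ∈ ucube 4, ∀ u' ∈ ucube 4,
          |MvPolynomial.eval (pt (cpt (nchi M N G b) u) (MvPolynomial.eval u a)) R| ≤
          3 * |MvPolynomial.eval (pt (cpt (nchi M N G b) u') (MvPolynomial.eval u' a)) R|) →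
      0 ≤ X → M * (H * (θ k + 2 * δ)) ≤ X → (∀ i, 2 * (1 + 4 * Lg) ≤ N i) →
      (∀ u : Fin 4 → ℝ, (∀ i, |u i| ≤ 2) → ∀ i, |MvPolynomial.eval u (MvPolynomial.pderiv i a)| ≤
        C * (1 + Lg) ^ 5 * (H' + X) * (N i / M)) ∧
      |px none - MvPolynomial.eval (rpos M N G b (bse px)) a| ≤
        δ + (2 + C * (1 + Lg) ^ 6 * (H' + X)) / M := by
  obtain ⟨C₁, hC₁, hga⟩ := ga_det 4 D 1 K₂
  obtain ⟨C₂, hC₂, henl⟩ := enl_cube 4 K₂
  have h12 : 1 ≤ C₁ * C₂ := one_le_mul_of_one_le_of_one_le hC₁ hC₂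
  refine ⟨C₁ * C₂ * (2 * 4 ^ 5) * 32, by nlinarith, ?_⟩
  intro M N G a Q H H' X Lg δ θ k x px b hM hN hNM hG hdG hda hdQ hLg hgr hp hb hval hln hH hH' hθ
    hθ1 hδ hder hnc hX hX1 hN2
  have hM0 : (0 : ℝ) < M := by exact_mod_cast hM
  have hC0 : 0 < C₁ * C₂ := by linarith
  have hmx : bse x ∈ ncell M N G b := by
    rw [hb]
    exact mem_own hM hN _
  obtain ⟨hg, -⟩ := hga Lg 1 M N G b a Q H H' X δ θ k x x hLg le_rfl hM hN hNM hG hdG hda hdQ
    (fun y _ i l => hgr y i l) hmx hmx (fun o => by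
      rw [sub_self, abs_zero]
      positivity) hval hln hH hH' hθ hθ1 hδ hder hnc hX (fun i => by
      have h1 : (1 : ℝ) ≤ N i := by exact_mod_cast hN i
      rw [mul_div_assoc', le_div_iff₀ hM0]
      calc H * (θ k + 2 * δ) * M = M * (H * (θ k + 2 * δ)) := by ring
        _ ≤ X := hX1
        _ ≤ X * N i := le_mul_of_one_le_right hX h1)
  have hL1 : (2 : ℝ) * (1 + ((4 : ℕ) : ℝ) * Lg) ^ (4 + 1) ≤ 2 * 4 ^ 5 * (1 + Lg) ^ 5 := by
    have h1 : (1 + ((4 : ℕ) : ℝ) * Lg) ^ (4 + 1) ≤ (4 * (1 + Lg)) ^ 5 :=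
      pow_le_pow_left₀ (by positivity) (by push_cast; linarith) 5
    rw [mul_pow] at h1
    linarith
  -- the gradients on the larger cube
  have hgrad : ∀ u : Fin 4 → ℝ, (∀ i, |u i| ≤ 2) → ∀ i,
      |MvPolynomial.eval u (MvPolynomial.pderiv i a)| ≤
        C₁ * C₂ * (2 * 4 ^ 5) * (1 + Lg) ^ 5 * (H' + X) * (N i / M) := by
    intro u hu i
    have h1 := henl (MvPolynomial.pderiv i a) (C₁ * (2 * (1 + ((4 : ℕ) : ℝ) * Lg) ^ (4 + 1)) *
      (H' + X) * (N i / M)) ((tdeg_pd _ _).trans ((Nat.sub_le _ _).trans hda))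
      (fun u hu => hg u hu i) u hu
    refine h1.trans ?_
    have h2 : 0 ≤ (H' + X) * ((N i : ℝ) / M) := by positivity
    calc C₂ * (C₁ * (2 * (1 + ((4 : ℕ) : ℝ) * Lg) ^ (4 + 1)) * (H' + X) * (N i / M)) =
        C₁ * C₂ * ((2 * (1 + ((4 : ℕ) : ℝ) * Lg) ^ (4 + 1)) * ((H' + X) * (N i / M))) := by ring
      _ ≤ C₁ * C₂ * ((2 * 4 ^ 5 * (1 + Lg) ^ 5) * ((H' + X) * (N i / M))) :=
          mul_le_mul_of_nonneg_left (mul_le_mul_of_nonneg_right hL1 h2) hC0.le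
      _ = _ := by ring
  constructor
  · intro u hu i
    refine (hgrad u hu i).trans ?_
    have h2 : 0 ≤ (1 + Lg) ^ 5 * ((H' + X) * ((N i : ℝ) / M)) := by positivity
    have h3 : C₁ * C₂ * (2 * 4 ^ 5) * ((1 + Lg) ^ 5 * ((H' + X) * ((N i : ℝ) / M))) ≤
        C₁ * C₂ * (2 * 4 ^ 5) * 32 * ((1 + Lg) ^ 5 * ((H' + X) * ((N i : ℝ) / M))) := by
      refine mul_le_mul_of_nonneg_right ?_ h2
      nlinarith
    calc _ = C₁ * C₂ * (2 * 4 ^ 5) * ((1 + Lg) ^ 5 * ((H' + X) * ((N i : ℝ) / M))) := by ring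
      _ ≤ _ := h3
      _ = _ := by ring
  · -- the positions are near
    have hpos : ∀ i, |rpos M N G b (bse px) i - rpos M N G b (bse x) i| ≤
        2 * (1 + 4 * Lg) / N i := by
      intro i
      have hN0 : (0 : ℝ) < N i := by exact_mod_cast hN i
      have h1 := lip_tri (G i) hLg (by positivity : (0 : ℝ) ≤ 2 / M) (fun l b => hgr b i l) i
        (fun l hl => hG i l hl) (u := bse x) (u' := bse px) (fun l _ => hp (some l))
      have h2 : |bse px i - bse x i| ≤ 2 / M := hp (some i)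
      have e1 : rpos M N G b (bse px) i - rpos M N G b (bse x) i =
          M / N i * ((bse px i - bse x i) - (MvPolynomial.eval (bse px) (G i) -
            MvPolynomial.eval (bse x) (G i))) := by
        unfold rpos
        field_simp
        ring
      rw [e1, abs_mul, abs_of_pos (by positivity : (0 : ℝ) < (M : ℝ) / N i)]
      calc (M : ℝ) / N i * _ ≤ M / N i * (2 / M + ((4 : ℕ) : ℝ) * Lg * (2 / M)) :=
            mul_le_mul_of_nonneg_left ((abs_sub _ _).trans (add_le_add h2 h1)) (by positivity)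
        _ = _ := by
          push_cast
          field_simp
    have hpos1 : ∀ i, |rpos M N G b (bse px) i - rpos M N G b (bse x) i| ≤ 1 := fun i => by
      have hN0 : (0 : ℝ) < N i := by exact_mod_cast hN i
      refine (hpos i).trans ?_
      rw [div_le_one hN0]
      exact hN2 i
    have h01 : ∀ i, 0 ≤ rpos M N G b (bse x) i ∧ rpos M N G b (bse x) i ≤ 1 := fun i =>
      rpos_mem hM hN hmx i
    obtain ⟨B, hB⟩ : ∃ B : ℝ, B = C₁ * C₂ * (2 * 4 ^ 5) * (1 + Lg) ^ 5 * (H' + X) := ⟨_, rfl⟩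
    have hB0 : 0 ≤ B := by
      rw [hB]
      positivity
    have h3 := mv_seg a (fun i => B * (N i / M)) (u := rpos M N G b (bse x))
      (u' := rpos M N G b (bse px)) (by
        intro t ht i
        have h4 := hgrad (fun i => rpos M N G b (bse x) i + t * (rpos M N G b (bse px) i -
          rpos M N G b (bse x) i)) (fun i => by
            have h5 := h01 i
            have h6 := abs_le.1 (hpos1 i)
            obtain ⟨t0, t1⟩ := ht
            rw [abs_le]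
            constructor <;> nlinarith [h5.1, h5.2, h6.1, h6.2]) i
        rw [hB]
        exact h4)
    have h4 : ∑ i, B * ((N i : ℝ) / M) * |rpos M N G b (bse px) i - rpos M N G b (bse x) i| ≤
        B * (8 * (1 + 4 * Lg)) / M := by
      calc ∑ i, B * ((N i : ℝ) / M) * |rpos M N G b (bse px) i - rpos M N G b (bse x) i| ≤
          ∑ _i : Fin 4, B * (2 * (1 + 4 * Lg)) / M := by
            refine Finset.sum_le_sum fun i _ => ?_
            have hN0 : (0 : ℝ) < N i := by exact_mod_cast hN i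
            calc B * ((N i : ℝ) / M) * _ ≤ B * ((N i : ℝ) / M) * (2 * (1 + 4 * Lg) / N i) :=
                  mul_le_mul_of_nonneg_left (hpos i) (by positivity)
              _ = _ := by field_simp
        _ = _ := by
          rw [Finset.sum_const, Finset.card_univ, Fintype.card_fin, nsmul_eq_mul]
          push_cast
          ring
    have h5 : |px none - x none| ≤ 2 / M := hp none
    have h6 : |px none - MvPolynomial.eval (rpos M N G b (bse px)) a| ≤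
        2 / M + δ + B * (8 * (1 + 4 * Lg)) / M := by
      have e1 : px none - MvPolynomial.eval (rpos M N G b (bse px)) a = (px none - x none) +
          (x none - MvPolynomial.eval (rpos M N G b (bse x)) a) -
          (MvPolynomial.eval (rpos M N G b (bse px)) a -
            MvPolynomial.eval (rpos M N G b (bse x)) a) := by ring
      rw [e1]
      refine (abs_sub _ _).trans (add_le_add ((abs_add_le _ _).trans (add_le_add h5 hval)) ?_)
      exact h3.trans h4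
    refine h6.trans ?_
    have h7 : B * (8 * (1 + 4 * Lg)) ≤ C₁ * C₂ * (2 * 4 ^ 5) * 32 * (1 + Lg) ^ 6 * (H' + X) := by
      have h8 : 8 * (1 + 4 * Lg) ≤ 32 * (1 + Lg) := by linarith
      calc B * (8 * (1 + 4 * Lg)) ≤ B * (32 * (1 + Lg)) := mul_le_mul_of_nonneg_left h8 hB0
        _ = _ := by
          rw [hB]
          ring
    calc 2 / M + δ + B * (8 * (1 + 4 * Lg)) / M = δ + (2 + B * (8 * (1 + 4 * Lg))) / M := by ring
      _ ≤ _ := by
        refine add_le_add le_rfl (div_le_div_of_nonneg_right ?_ hM0.le)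
        linarith

/-- The condition on the line, for one pair. -/
def LnS (D : ℕ) (Q : MvPolynomial (Option (Fin 4)) ℝ) (H H' : ℝ) (θ : ℕ → ℝ)
    (x : Option (Fin 4) → ℝ) : Prop :=
  ∃ k, LnR D Q H θ x k ∧ ∀ (o : Option (Fin 4)) (m : ℕ),
    |MvPolynomial.eval x (MvPolynomial.pderiv o (pN (k + m) Q))| * θ (k + 1) ^ m ≤
      H' * |MvPolynomial.eval x (pN (k + 1) Q)|

/-- **The branches over the slanted cells**, for one member. -/
theorem brs_mem (D K₂ : ℕ) : ∃ (n₀ : ℕ) (C : ℝ), 1 ≤ C ∧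
    ∀ {m J : ℕ} {F : Fam m J} (l : PLab F) (c : ℕ → Fin m) (W W₀ Pr sg L q a₁ a₂ ag Xe : ℕ)
      (lv : l.V₁ → l.V₀ → Fin 4 → ℝ) (Qh : l.V₁ → MvPolynomial (Option (Fin 4)) ℝ)
      (θ : l.V₁ → ℕ → ℝ) (R : F.Ω × F.Ω → ℝ) {Lg H H' Λ Tm h μ c₁ : ℝ},
      (∀ v, TriN (l.P v)) → (∀ v i, (l.P v i).totalDegree ≤ 1) → IsLaw R → W ≤ Pr → Pr ≤ J →
      (∀ e, 0 < R e → (Qh (l.z₁ (ptr F J e.2))).totalDegree ≤ D) → 0 ≤ Lg →
      (∀ e, 0 < R e → ∀ y i j,
        |MvPolynomial.eval y (MvPolynomial.pderiv j (sG l W W₀ lv (lbF l W₀ e) i))| ≤ Lg) →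
      a₁ + a₂ = q → (∀ i, wdS W₀ l.g L i + q ≤ Pr) → (∀ i, W ≤ wdS W₀ l.g L i + q) →
      (∀ i, 2 * (1 + 4 * Lg) ≤ nwS Pr W₀ l.g L q i) →
      0 < h → 1 ≤ ag → C * 2 ^ ag * Real.exp h ≤ 2 ^ a₁ → C * Real.exp h ≤ 2 ^ a₂ →
      (∀ ω, |xte c 3 W Pr sg F ω none| ≤ 2 ^ (W + 3)) →
      C * 2 ^ (W + 3) / (2 ^ ag) ^ (K₂ + 1) ≤ 1 / 2 ^ J →
      1 ≤ H → 0 ≤ H' → 1 ≤ Tm → 8 * C * H ^ 2 ≤ Λ →
      (∀ v j, θ v (j + 1) = Λ * θ v j) →
      (∀ e, 0 < R e → 1 / ((2 ^ (Pr - W) : ℕ) : ℝ) ≤ θ (l.z₁ (ptr F J e.2)) 0) →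
      (∀ e, 0 < R e → ∀ j ≤ D, ((2 ^ (Pr - W) : ℕ) : ℝ) * θ (l.z₁ (ptr F J e.2)) j ≤ Tm) →
      C * (H * Tm) ≤ 2 ^ (Pr + 3) →
      3 + C * H * Tm + C * (1 + Lg) ^ 6 * (H' + 5 * C * H ^ 2 * Tm) ≤ 2 ^ Xe →
      ∑ i, Real.log (nwS Pr W₀ l.g L 0 i) - CH R (fun e =>
        nrem (nwS Pr W₀ l.g L 0) (dgS l c W W₀ Pr sg lv (lbF l W₀ e) e.1))
        (fun e => (lbF l W₀ e, nidx (nwS Pr W₀ l.g L 0)
          (dgS l c W W₀ Pr sg lv (lbF l W₀ e) e.1))) ≤ μ →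
      ms R (fun e => ¬ LnS D (Qh (l.z₁ (ptr F J e.2))) H H' (θ (l.z₁ (ptr F J e.2)))
        (xte c 3 W Pr sg F e.1)) ≤ c₁ →
      ∃ aF : l.V₁ × (l.V₀ × ℕ) → (Fin 4 → ℤ) → Fin D → Fin n₀ → MvPolynomial (Fin 4) ℝ,
        (∀ γ b k i, (aF γ b k i).totalDegree ≤ K₂) ∧
        ms R (fun e => ¬ ∃ k i, BrS l c W W₀ Pr sg L q Xe lv aF e k i) ≤
          c₁ + 2 * (μ + Real.log 2) / h := by
  classical
  obtain ⟨n₀, Cb, hCb, hbr⟩ := brg_ev 4 D 1 K₂ (mfm 3 D)
  obtain ⟨Cd, hCd, hdet⟩ := brs_det D K₂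
  refine ⟨n₀, max Cb Cd, hCb.trans (le_max_left _ _), ?_⟩
  intro m J F l c W W₀ Pr sg L q a₁ a₂ ag Xe lv Qh θ R Lg H H' Λ Tm h μ c₁ htri haff hR hWP hPJ
    hQ hLg hder ha hw hw' hN2 hh hag h1 h2 hxS hKS hH hH' hTm hΛ hθs hθ0 hθm hsz hXe hful hline
  obtain ⟨C, hC⟩ : ∃ C : ℝ, C = max Cb Cd := ⟨_, rfl⟩
  have hCbC : Cb ≤ C := by rw [hC]; exact le_max_left _ _
  have hCdC : Cd ≤ C := by rw [hC]; exact le_max_right _ _
  rw [← hC] at h1 h2 hKS hΛ hsz hXe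
  have hC1 : 1 ≤ C := hCb.trans hCbC
  have hC0 : 0 < C := by linarith
  have hCb0 : 0 < Cb := by linarith
  obtain ⟨M, hM⟩ : ∃ M : ℕ, M = 2 ^ (Pr - W) := ⟨_, rfl⟩
  have hM1 : 1 ≤ M := by rw [hM]; exact Nat.one_le_two_pow
  have hMr : (0 : ℝ) < M := by exact_mod_cast hM1
  have hMc : (M : ℝ) = 2 ^ (Pr - W) := by rw [hM]; push_cast; rfl
  obtain ⟨N, hN⟩ : ∃ N : Fin 4 → ℕ, N = nwS Pr W₀ l.g L q := ⟨_, rfl⟩
  have hN1 : ∀ i, 1 ≤ N i := fun i => by
    rw [hN]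
    exact nwS_pos _ _ _ _ _ _
  have hN0i : ∀ i, 2 ^ a₁ * (2 ^ a₂ * N i) = nwS Pr W₀ l.g L 0 i := by
    intro i
    rw [hN]
    unfold nwS
    rw [← pow_add, ← pow_add]
    congr 1
    have := hw i
    omega
  have hN0 : (fun i => 2 ^ a₁ * (2 ^ a₂ * N i)) = nwS Pr W₀ l.g L 0 := funext hN0i
  obtain ⟨aF, haF, hev⟩ := hbr M (2 ^ a₁) (2 ^ a₂) N (2 ^ ag) (2 ^ (W + 3)) hM1
    Nat.one_le_two_pow Nat.one_le_two_pow hN1 (by
      calc (2 : ℝ) = 2 ^ 1 := (pow_one _).symm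
        _ ≤ 2 ^ ag := pow_le_pow_right₀ one_le_two hag) (by positivity)
  refine ⟨fun γ b k i => aF (sG l W W₀ lv γ) (Qh γ.1) b k i, fun γ b k i => haF _ _ _ _ _, ?_⟩
  have hθpos : ∀ v, 0 ≤ θ v 0 → ∀ j, 0 ≤ θ v j := by
    intro v h0 j
    induction j with
    | zero => exact h0
    | succ n ih =>
      rw [hθs]
      refine mul_nonneg ?_ ih
      have : 0 ≤ 8 * C * H ^ 2 := by positivity
      linarith
  have hΛ1 : 1 ≤ Λ := by
    have h3 : 1 ≤ H ^ 2 := one_le_pow₀ hH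
    have h4 : 1 ≤ C * H ^ 2 := one_le_mul_of_one_le_of_one_le hC1 h3
    linarith
  have hθge : ∀ e, 0 < R e → ∀ j, 1 / (M : ℝ) ≤ θ (l.z₁ (ptr F J e.2)) j := by
    intro e he j
    have h0 := hθ0 e he
    rw [← hM] at h0
    induction j with
    | zero => exact h0
    | succ n ih =>
      rw [hθs]
      refine ih.trans ?_
      have h3 : 0 ≤ θ (l.z₁ (ptr F J e.2)) n := le_trans (by positivity) ih
      exact le_mul_of_one_le_left h3 hΛ1
  have hη : ∀ e, 0 < R e → ∀ kk : Fin D, 0 < H * θ (l.z₁ (ptr F J e.2)) kk ∧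
      Cb * (H * θ (l.z₁ (ptr F J e.2)) kk) ≤ 2 ^ (W + 3) := by
    intro e he kk
    have h3 := hθge e he kk
    have h4 : (0 : ℝ) < 1 / M := by positivity
    have h5 : 0 < θ (l.z₁ (ptr F J e.2)) kk := by linarith
    refine ⟨by positivity, ?_⟩
    have h6 := hθm e he kk kk.2.le
    rw [← hM] at h6
    have h7 : M * (Cb * (H * θ (l.z₁ (ptr F J e.2)) kk)) ≤ M * 2 ^ (W + 3) := by
      calc (M : ℝ) * (Cb * (H * θ (l.z₁ (ptr F J e.2)) kk)) =
          Cb * (H * (M * θ (l.z₁ (ptr F J e.2)) kk)) := by ring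
        _ ≤ C * (H * (M * θ (l.z₁ (ptr F J e.2)) kk)) :=
            mul_le_mul_of_nonneg_right hCbC (by positivity)
        _ ≤ C * (H * Tm) := mul_le_mul_of_nonneg_left
            (mul_le_mul_of_nonneg_left h6 (by linarith)) hC0.le
        _ ≤ 2 ^ (Pr + 3) := hsz
        _ = M * 2 ^ (W + 3) := by
            rw [hMc, ← pow_add]
            congr 1
            omega
    exact le_of_mul_le_mul_left h7 hMr
  have key := hev (F.Ω × F.Ω) ((l.V₁ × (l.V₀ × ℕ)) × (Fin 4 → ℤ)) R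
    (fun e => (lbF l W₀ e, nidx (nwS Pr W₀ l.g L 0)
      (dgS l c W W₀ Pr sg lv (lbF l W₀ e) e.1)))
    (fun v => sG l W W₀ lv v.1) (fun v => v.2) (fun v => Qh v.1.1)
    (fun v => rfm 3 D (Qh v.1.1)) (fun e => xte c 3 W Pr sg F e.1)
    (fun e kk => H * θ (l.z₁ (ptr F J e.2)) kk) h μ hR hh
    (by
      push_cast
      refine le_trans ?_ h1
      have h3 : 0 ≤ (2 : ℝ) ^ ag * Real.exp h := by positivity
      nlinarith) (by
      push_cast
      refine le_trans ?_ h2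
      exact mul_le_mul_of_nonneg_right hCbC (Real.exp_pos h).le)
    (fun e he => by
      have hQ' := hQ e he
      refine ⟨gsy_tri (sls_tri (htri _) _ _ _ _), fun i => gsy_deg (fun i => sls_deg
        (haff _) _ _ _ _ i) i, fun j => rfm_deg hQ' _, hQ'⟩)
    (fun e _ => by
      rw [hN0, hM]
      rfl) (by
      rw [hN0, hM]
      simp only [hN0i]
      exact hful) (fun e _ => hxS e.1) hη
  refine le_trans (ms_le hR.nonneg ?_) ((ms_or hR.nonneg _ _).trans (add_le_add hline key))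
  intro e he hne
  by_contra hcon
  rw [not_or, not_not, not_not] at hcon
  obtain ⟨⟨k, hln, hde⟩, hB⟩ := hcon
  refine hne ?_
  have hkD : k < D := hln.le
  have hQ' := hQ e he
  have hγ : (lbF l W₀ e).1 = l.z₁ (ptr F J e.2) := rfl
  simp only [hγ] at hB
  obtain ⟨i, b, u, hb, hu, hv, hnc⟩ := hB ⟨k, hkD⟩ hln.pos (by
    refine hln.low.trans (le_of_eq ?_)
    ring)
  obtain ⟨θv, hθv⟩ : ∃ θv : ℕ → ℝ, θv = θ (l.z₁ (ptr F J e.2)) := ⟨_, rfl⟩
  have g1 := hθge e he k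
  have g2 := hθm e he k hkD.le
  have g3 : θ (l.z₁ (ptr F J e.2)) (k + 1) = Λ * θ (l.z₁ (ptr F J e.2)) k := hθs _ _
  rw [← hM] at g2
  rw [← hθv] at hln hde g1 g2 g3 hv
  have hθk0 : 0 < θv k := lt_of_lt_of_le (by positivity) g1
  obtain ⟨δ, hδ⟩ : ∃ δ : ℝ, δ = C * (H * θv k) + 1 / M := ⟨_, rfl⟩
  have hτ : Cb * 2 ^ (W + 3) / (2 ^ ag) ^ (K₂ + 1) ≤ 1 / (M : ℝ) := by
    have h3 : Cb * 2 ^ (W + 3) / ((2 : ℝ) ^ ag) ^ (K₂ + 1) ≤
        C * 2 ^ (W + 3) / (2 ^ ag) ^ (K₂ + 1) :=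
      div_le_div_of_nonneg_right (mul_le_mul_of_nonneg_right hCbC (by positivity))
        (by positivity)
    refine h3.trans (hKS.trans ?_)
    rw [hMc]
    exact one_div_le_one_div_of_le (by positivity) (pow_le_pow_right₀ one_le_two (by omega))
  have hvδ : |xte c 3 W Pr sg F e.1 none - MvPolynomial.eval (rpos M N (sG l W W₀ lv
      (lbF l W₀ e)) b (bse (xte c 3 W Pr sg F e.1))) (aF (sG l W W₀ lv (lbF l W₀ e))
        (Qh (l.z₁ (ptr F J e.2))) b ⟨k, hkD⟩ i)| ≤ δ := by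
    rw [← hu, hδ]
    refine hv.trans (add_le_add ?_ hτ)
    exact mul_le_mul_of_nonneg_right hCbC (by positivity)
  have hCH : 1 ≤ C * H := one_le_mul_of_one_le_of_one_le hC1 hH
  have hMδ : M * δ ≤ C * H * Tm + 1 := by
    rw [hδ, mul_add, mul_one_div_cancel hMr.ne']
    have h3 : (M : ℝ) * (C * (H * θv k)) = C * H * (M * θv k) := by ring
    rw [h3]
    exact add_le_add (mul_le_mul_of_nonneg_left g2 (by positivity)) le_rfl
  have hδ0 : 0 ≤ δ := by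
    rw [hδ]
    positivity
  have hHδ : 4 * H * δ ≤ θv (k + 1) := by
    have h3 : δ ≤ 2 * (C * H) * θv k := by
      have h4 : θv k ≤ C * H * θv k := le_mul_of_one_le_left hθk0.le hCH
      rw [hδ]
      calc C * (H * θv k) + 1 / M ≤ C * H * θv k + C * H * θv k := by
            have e1 : C * (H * θv k) = C * H * θv k := by ring
            rw [e1]
            linarith
        _ = _ := by ring
    rw [g3]
    calc 4 * H * δ ≤ 4 * H * (2 * (C * H) * θv k) :=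
          mul_le_mul_of_nonneg_left h3 (by positivity)
      _ = 8 * C * H ^ 2 * θv k := by ring
      _ ≤ Λ * θv k := mul_le_mul_of_nonneg_right hΛ hθk0.le
  have hX5 : M * (H * (θv k + 2 * δ)) ≤ 5 * C * H ^ 2 * Tm := by
    have h3 : M * (H * (θv k + 2 * δ)) = H * (M * θv k + 2 * (M * δ)) := by ring
    rw [h3]
    have h4 : M * θv k + 2 * (M * δ) ≤ 5 * (C * H * Tm) := by
      have h5 : Tm ≤ C * H * Tm := le_mul_of_one_le_left (by linarith) hCH
      linarith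
    calc H * (M * θv k + 2 * (M * δ)) ≤ H * (5 * (C * H * Tm)) :=
          mul_le_mul_of_nonneg_left h4 (by linarith)
      _ = _ := by ring
  have hNM : ∀ i, N i ≤ M := fun i => by
    rw [hN, hM]
    unfold nwS
    refine Nat.pow_le_pow_right (by norm_num) ?_
    have := hw' i
    omega
  obtain ⟨r1, r2⟩ := hdet M N (sG l W W₀ lv (lbF l W₀ e)) (aF (sG l W W₀ lv (lbF l W₀ e))
      (Qh (l.z₁ (ptr F J e.2))) b ⟨k, hkD⟩ i) (Qh (l.z₁ (ptr F J e.2))) H H'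
    (5 * C * H ^ 2 * Tm) Lg δ θv k (xte c 3 W Pr sg F e.1) (zsw c 3 W sg (ptr F J e.1)) b hM1 hN1
    hNM (gsy_tri (sls_tri (htri _) _ _ _ _)) (fun i => gsy_deg (fun i => sls_deg
        (haff _) _ _ _ _ i) i) (haF _ _ _ _ _) hQ' hLg (fun y i j => hder e he y i j)
    (fun o => by
      rw [hM]
      exact xte_near c 3 sg hWP hPJ e.1 o) hb hvδ hln hH hH' hθk0.le (by
      rw [g3]
      have : 0 < Λ := by linarith
      positivity) hHδ (fun l' m' => hde (some l') m') (fun Rr hRr => by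
      have h5 := rfm_all (k := 3) (D := D) (Q := Qh (l.z₁ (ptr F J e.2))) hQ'
        (φ := fun Rr => ∀ u ∈ ucube 4, ∀ u' ∈ ucube 4,
          |MvPolynomial.eval (pt (cpt (nchi M N (sG l W W₀ lv (lbF l W₀ e)) b) u)
            (MvPolynomial.eval u (aF (sG l W W₀ lv (lbF l W₀ e))
              (Qh (l.z₁ (ptr F J e.2))) b ⟨k, hkD⟩ i))) Rr| ≤
          3 * |MvPolynomial.eval (pt (cpt (nchi M N (sG l W W₀ lv (lbF l W₀ e)) b) u')
            (MvPolynomial.eval u' (aF (sG l W W₀ lv (lbF l W₀ e))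
              (Qh (l.z₁ (ptr F J e.2))) b ⟨k, hkD⟩ i))) Rr|)
        (fun j => hnc j) (by simp) (kk := k) hkD.le Rr
      rcases hRr with h6 | h6 | h6
      · exact h5 (Or.inl ⟨_, h6⟩)
      · exact h5 (Or.inl ⟨_, h6⟩)
      · exact h5 (Or.inr h6)) (by positivity) hX5 (fun i => by
      rw [hN]
      exact hN2 i)
  have hbce : b = ceS l c W W₀ Pr sg L q lv (lbF l W₀ e) e.1 := by
    rw [hb, hN, hM]
    rfl
  have hLg1 : 1 ≤ 1 + Lg := by linarith
  refine ⟨⟨k, hkD⟩, i, ?_, ?_⟩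
  · rw [← hbce]
    have e1 : poS l c W W₀ Pr L q lv (lbF l W₀ e) b e.1 = rpos M N (sG l W W₀ lv (lbF l W₀ e)) b
        (bse (zsw c 3 W sg (ptr F J e.1))) := by
      rw [hM, hN]
      rfl
    rw [e1]
    have e2 : (2 : ℝ) ^ W * (px c (ptr F J e.1) 4 / 2 ^ sg) = zsw c 3 W sg (ptr F J e.1) none :=
      rfl
    rw [e2]
    refine r2.trans ?_
    rw [← hMc, le_div_iff₀ hMr, add_mul, div_mul_cancel₀ _ hMr.ne']
    have h6 : Cd * (1 + Lg) ^ 6 * (H' + 5 * C * H ^ 2 * Tm) ≤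
        C * (1 + Lg) ^ 6 * (H' + 5 * C * H ^ 2 * Tm) := by
      refine mul_le_mul_of_nonneg_right (mul_le_mul_of_nonneg_right hCdC (by positivity))
        (by positivity)
    linarith
  · intro u' hu' j
    rw [← hbce, ← hMc]
    have h7 := r1 u' hu' j
    rw [hN] at h7
    refine h7.trans ?_
    refine mul_le_mul_of_nonneg_right ?_ (by positivity)
    have h6 : Cd * (1 + Lg) ^ 5 * (H' + 5 * C * H ^ 2 * Tm) ≤
        C * (1 + Lg) ^ 6 * (H' + 5 * C * H ^ 2 * Tm) := by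
      refine mul_le_mul_of_nonneg_right (mul_le_mul hCdC (pow_le_pow_right₀ hLg1 (by norm_num))
        (by positivity) hC0.le) (by positivity)
    have h8 : 0 ≤ C * H * Tm := by positivity
    linarith

end Pool.TUB
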