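import Pool.Agent.H86.GEO.Gdt
import Pool.Agent.H96.R1.Brc

/-!
# The event of the cells of two near points

`near_dig`: two near points have near natural digits. `ev_ns`: the point and the rounded point are
in the same small cell, with large probability.
-/

set_option autoImplicit false

namespace Pool.GEO

open Finset Real
open Pool.Agent.H49.Ent Pool.Agent.H32.Dense Pool.STK Pool.KAF Pool.KAL Pool.KS3 Pool.M3F
open Pool.KJA Pool.KA Pool.K2S Pool.KSAT Pool.PB Pool.STAT Pool.GEN Pool.CLO37 Pool.IEN Pool.EXS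
open Pool.JPN Pool.JMS
open Pool.KM7 Pool.S6C
open Pool.GRW (TmWn)

variable {m J : ℕ}

/-- **Two near points have near natural digits.** -/
lemma near_dig {F : Fam m J} {A : F.Ω → Prop} {c : ℕ → Fin m} {k : ℕ} {W₀ W₁ Pr sg₀ sg K : ℕ}
    {g : ℕ → ℕ} {L : ℝ} {V : Type} {z : PtT F → V} {z' : LnT F → V} {P : V → ℕ → PN}
    (hN : NLabW F c k W₀ sg₀ g K L A z z' P) (hL : 0 ≤ L) (hW₀J : W₀ ≤ J) (hWP : W₁ ≤ Pr)
    (hPJ : Pr ≤ J) (hw : ∀ i < k + 1, wid W₀ g i ≤ Pr)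
    (hs : ∀ i < k + 1, 2 * (1 + ((k + 1 : ℕ) : ℝ) * L) ≤ 2 ^ (Pr - wid W₀ g i)) {ω : F.Ω}
    (hω : A ω) (i : Fin (k + 1)) :
    |((2 ^ (Pr - W₁) : ℕ) : ℝ) * (bse (xte c k W₁ Pr sg F ω) i - MvPolynomial.eval
        (bse (xte c k W₁ Pr sg F ω)) (gsy k W₁ (P (z (ptr F J ω))) i)) -
      ((2 ^ (Pr - W₁) : ℕ) : ℝ) * (bse (zsw c k W₁ sg (ptr F J ω)) i - MvPolynomial.eval
        (bse (zsw c k W₁ sg (ptr F J ω))) (gsy k W₁ (P (z (ptr F J ω))) i))| ≤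
      2 * (1 + ((k + 1 : ℕ) : ℝ) * L) := by
  have hW0 : (0 : ℝ) < 2 ^ W₁ := by positivity
  have hM0 : (0 : ℝ) < ((2 ^ (Pr - W₁) : ℕ) : ℝ) := by positivity
  obtain ⟨M, hM⟩ : ∃ M : ℝ, M = ((2 ^ (Pr - W₁) : ℕ) : ℝ) := ⟨_, rfl⟩
  rw [← hM] at hM0 ⊢
  obtain ⟨G', hG'⟩ : ∃ G' : Fin (k + 1) → MvPolynomial (Fin (k + 1)) ℝ,
    G' = fun i => toF (k + 1) W₁ (P (z (ptr F J ω)) i.val) := ⟨_, rfl⟩
  have htri : TriP G' := by
    rw [hG']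
    exact triP_toF (d := k + 1) (W := W₁) (hN.tri (z (ptr F J ω)))
  obtain ⟨w, hw'⟩ : ∃ w : Fin (k + 1) → ℝ, w = fun i => 2 ^ W₁ / 2 ^ wid W₀ g i.val := ⟨_, rfl⟩
  have hw0 : ∀ i, 0 < w i := fun i => by
    rw [hw']
    positivity
  have hMw : ∀ i : Fin (k + 1), M * w i = 2 ^ (Pr - wid W₀ g i.val) := fun i => by
    rw [hM, hw']
    push_cast
    rw [two_pow_sub hWP, two_pow_sub (hw i i.2)]
    field_simp
  have hgr : ∀ y : Fin (k + 1) → ℝ, (∀ i, |y i - MvPolynomial.eval y (G' i)| ≤ 2 * w i) →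
      ∀ i l, |MvPolynomial.eval y (MvPolynomial.pderiv l (G' i))| ≤ L := by
    intro y hy i l
    have hbox : Pool.STAT.CLO.Bxr 4 (wid W₀ g) (P (z (ptr F J ω))) (k + 1)
        (unF (k + 1) W₁ y) := by
      intro j hj
      have h2 := hy ⟨j, hj⟩
      have hyj : y ⟨j, hj⟩ = 2 ^ W₁ * unF (k + 1) W₁ y j := by
        unfold unF
        rw [dif_pos hj]
        field_simp
      rw [hG', hw'] at h2
      simp only [eval_toF] at h2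
      rw [hyj, ← mul_sub, abs_mul, abs_of_pos hW0] at h2
      have h3 : (2 : ℝ) ^ W₁ * |unF (k + 1) W₁ y j - MvPolynomial.eval (unF (k + 1) W₁ y)
          (P (z (ptr F J ω)) j)| ≤ 2 ^ W₁ * (2 / 2 ^ wid W₀ g j) := h2.trans (le_of_eq (by ring))
      have h4 := le_of_mul_le_mul_left h3 hW0
      refine h4.trans ?_
      gcongr
      norm_num
    rw [hG']
    simp only [eval_pderiv_toF]
    by_cases hl : l.val < i.val
    · exact hN.grad ω hω _ hbox i.val (by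
        have := i.2
        omega) l.val hl
    · have h1 : MvPolynomial.pderiv l.val (P (z (ptr F J ω)) i.val) = 0 :=
        MvPolynomial.pderiv_eq_zero_of_notMem_vars fun h => hl (Finset.mem_range.1
          (hN.tri _ _ h))
      rw [h1, map_zero, abs_zero]
      exact hL
  have hy : ∀ i, |bse (zsw c k W₁ sg (ptr F J ω)) i - MvPolynomial.eval
      (bse (zsw c k W₁ sg (ptr F J ω))) (G' i)| ≤ w i := by
    intro i
    have h1 := pos_w hN hW₀J hω i.2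
    have hpj : bse (zsw c k W₁ sg (ptr F J ω)) i = 2 ^ W₁ * px c (ptr F J ω) i.val := rfl
    rw [hG', hw']
    simp only [eval_toF]
    rw [← bse_unF c k W₁ sg (ptr F J ω) i.2.le (hN.tri _ _), hpj, ← mul_sub, abs_mul,
      abs_of_pos hW0]
    refine (mul_le_mul_of_nonneg_left h1 hW0.le).trans (le_of_eq (by ring))
  have hy' : ∀ l, |bse (xte c k W₁ Pr sg F ω) l - bse (zsw c k W₁ sg (ptr F J ω)) l| ≤
      2 / M := by
    intro l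
    rw [abs_sub_comm, hM]
    exact xte_near c k sg hWP hPJ ω (some l)
  have hwε : ∀ i, (1 + ((k + 1 : ℕ) : ℝ) * L) * (2 / M) ≤ w i := by
    intro i
    have h1 := hs i i.2
    rw [← hMw i] at h1
    rw [mul_div_assoc', div_le_iff₀ hM0]
    linarith
  have h1 := (seg_box htri hL (by positivity) hw0 hwε hgr hy hy' i).1
  have h2 : ∀ y : Fin (k + 1) → ℝ, ∀ i : Fin (k + 1), y i - MvPolynomial.eval y (G' i) =
      y i - MvPolynomial.eval y (gsy k W₁ (P (z (ptr F J ω))) i) -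
        (if i = 0 then MvPolynomial.eval (fun _ => (0 : ℝ)) (G' 0) else 0) := by
    intro y i
    refine Fin.cases ?_ (fun i => ?_) i
    · rw [if_pos rfl, gsy_zero, map_zero, hG']
      have e1 : ((0 : Fin (k + 1)) : ℕ) = 0 := rfl
      simp only [eval_toF, e1, hN.zero ω hω, MvPolynomial.eval_C]
      ring
    · rw [if_neg (Fin.succ_ne_zero i), gsy_succ, hG', sub_zero]
      rfl
  rw [h2, h2] at h1
  have h3 : ∀ a b s : ℝ, M * a - M * b = M * ((a - s) - (b - s)) := fun a b s => by ring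
  rw [h3 _ _ (if i = 0 then MvPolynomial.eval (fun _ => (0 : ℝ)) (G' 0) else 0), abs_mul,
    abs_of_pos hM0]
  calc M * _ ≤ M * ((1 + ((k + 1 : ℕ) : ℝ) * L) * (2 / M)) :=
        mul_le_mul_of_nonneg_left h1 hM0.le
    _ = _ := by
      field_simp

/-- **(E5) The point and the rounded point are in the same small cell.** -/
theorem ev_ns {k : ℕ} (K Dq : ℕ) (hKP : KP k) {S : PCl m} {c₀ c₁ : ℕ → Fin m}
    {w₀ w₁ pr q X b y cm r₀ : ℝ} {β₀ β₁ : ℕ → ℝ} (hw0 : 0 ≤ w₀) (hw01 : w₀ ≤ w₁) (hw1 : w₁ ≤ 1)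
    (htm : TmWn S w₀)
    (hex : ∀ ρ : ℝ, 0 < ρ → ExvY S w₁ (fun J F ω (i : Fin k) => F.X J ω (c₀ i)) (b - ρ))
    (hy : 0 ≤ y) (hby : (∑ i ∈ range k, (1 - β₀ i)) - b ≤ y) (hcm : 0 < cm) (hq : 0 < q)
    (hX : 0 ≤ X) (hr₀ : 0 < r₀) (hyr : 16 * y ≤ cm * r₀) (hw : w₀ + q + X + r₀ ≤ pr)
    (hβ : ∀ i < k, β₀ i + q + X + r₀ ≤ pr) :
    ∃ φ₀ : ℝ, 0 < φ₀ ∧ ∀ φ : ℝ, φ ≤ φ₀ → Bas S (fun J F A => ∀ (ρ : Equiv.Perm (Fin (k + 1)))
      (Pr sg₀ sg kap : ℕ) (g₀ g₁ : ℕ → ℕ) (L : ℝ) (V₀ V₁ : Type) (z₀ : PtT F → V₀)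
      (z₀' : LnT F → V₀) (P₀ : V₀ → ℕ → PN) (z₁ : PtT F → V₁) (z₁' : LnT F → V₁)
      (P₁ : V₁ → ℕ → PN) (Qh : V₁ → MvPolynomial (Option (Fin (k + 1))) ℝ) (ρz : V₁ → ℝ),
      GD F A c₀ c₁ k K Dq w₀ w₁ pr q X φ β₀ β₁ ρ Pr sg₀ sg kap g₀ g₁ L z₀ z₀' P₀ z₁ z₁' P₁ Qh
        ρz →
      ms (P2 (Pool.Agent.H49.Ent.cond F.p A True) (slam F ⌊w₀ * J⌋₊)) (fun e => ¬
        EvNs F c₀ k ⌊w₀ * J⌋₊ ⌊w₁ * J⌋₊ Pr sg ⌊q * J⌋₊ ⌊X * J⌋₊ g₀ z₀ P₀ e.1) ≤ cm) := by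
  classical
  have hk0 : (0 : ℝ) ≤ k := Nat.cast_nonneg k
  have hcr : 0 < cm * r₀ := by positivity
  -- the losses
  obtain ⟨φ₀, hφ₀⟩ : ∃ φ₀ : ℝ, φ₀ = min (cm * r₀ / (128 * (k + 1))) (min (r₀ / 32) (q / 8)) :=
    ⟨_, rfl⟩
  have hφ₀0 : 0 < φ₀ := by
    rw [hφ₀]
    exact lt_min (by positivity) (lt_min (by positivity) (by positivity))
  refine ⟨φ₀, hφ₀0, fun φ hφ => ?_⟩
  have hφ1 : 128 * (k + 1) * φ ≤ cm * r₀ := by
    have h1 : φ ≤ cm * r₀ / (128 * (k + 1)) := hφ.trans (by rw [hφ₀]; exact min_le_left _ _)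
    rw [le_div_iff₀ (by positivity)] at h1
    linarith
  have hφ2 : 32 * φ ≤ r₀ := by
    have h1 : φ ≤ r₀ / 32 := hφ.trans (by
      rw [hφ₀]
      exact (min_le_right _ _).trans (min_le_left _ _))
    linarith
  have hφ3 : 8 * φ ≤ q := by
    have h1 : φ ≤ q / 8 := hφ.trans (by
      rw [hφ₀]
      exact (min_le_right _ _).trans (min_le_right _ _))
    linarith
  obtain ⟨Cl, hCl⟩ : ∃ Cl : ℝ, Cl = k * Real.log (11 + 8 * ((k + 1 : ℕ) : ℝ)) + Real.log 2 :=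
    ⟨_, rfl⟩
  have hCl0 : 0 ≤ Cl := by
    have h1 : 0 ≤ Real.log (11 + 8 * ((k + 1 : ℕ) : ℝ)) := Real.log_nonneg (by
      have : (0 : ℝ) ≤ 8 * ((k + 1 : ℕ) : ℝ) := by positivity
      linarith)
    have h2 : 0 ≤ Real.log 2 := Real.log_nonneg one_le_two
    rw [hCl]
    positivity
  have hful := ful_gc hKP hw01 (hw01.trans hw1) htm (c := c₀) (b := b) hex
    (ρ := cm * r₀ / 64) (by positivity)
  obtain ⟨J₁, hJ₁⟩ := exists_nat_ge (64 * Cl / (cm * r₀) + 16 * (3 * (k : ℝ) + 8) / r₀ +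
    (8 + 8 * ((k : ℝ) + 1)) / q)
  refine hful.mono J₁ ?_
  rintro J hJ F A ⟨hA, hf⟩
  intro ρ Pr sg₀ sg kap g₀ g₁ L V₀ V₁ z₀ z₀' P₀ z₁ z₁' P₁ Qh ρz D
  have hJ' : (J₁ : ℝ) ≤ J := by exact_mod_cast hJ
  have e0 := hJ₁.trans hJ'
  have t1 : 0 ≤ 64 * Cl / (cm * r₀) := by positivity
  have t2 : 0 ≤ 16 * (3 * (k : ℝ) + 8) / r₀ := by positivity
  have t3 : 0 ≤ (8 + 8 * ((k : ℝ) + 1)) / q := by positivity
  have j1 : 64 * Cl ≤ cm * r₀ * J := by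
    have h1 : 64 * Cl / (cm * r₀) ≤ J := by linarith
    rw [div_le_iff₀ hcr] at h1
    linarith
  have j2 : 16 * (3 * (k : ℝ) + 8) ≤ r₀ * J := by
    have h1 : 16 * (3 * (k : ℝ) + 8) / r₀ ≤ J := by linarith
    rw [div_le_iff₀ hr₀] at h1
    linarith
  have j3 : 8 + 8 * ((k : ℝ) + 1) ≤ q * J := by
    have h1 : (8 + 8 * ((k : ℝ) + 1)) / q ≤ J := by linarith
    rw [div_le_iff₀ hq] at h1
    linarith
  have hJ0 : (0 : ℝ) < J := by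
    have h1 : 0 < r₀ * J := by
      have : (0 : ℝ) < 16 * (3 * (k : ℝ) + 8) := by positivity
      linarith
    exact pos_of_mul_pos_right h1 hr₀.le
  have hlog := D.logL
  have hL := D.L0
  have hl2 : 1 / 2 < Real.log 2 := by
    have := Real.log_two_gt_d9
    linarith
  have hl1 : Real.log 2 ≤ 1 := by
    have := Real.log_two_lt_d9
    linarith
  have hL1 : 0 < 1 + L := by linarith
  have hk1 : (0 : ℝ) < ((k + 1 : ℕ) : ℝ) := by positivity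
  have hlk : Real.log ((k + 1 : ℕ) : ℝ) ≤ k := by
    have := Real.log_le_sub_one_of_pos hk1
    push_cast at this ⊢
    linarith
  have hq2 : q * J < (⌊q * (J : ℝ)⌋₊ : ℝ) + 1 := Nat.lt_floor_add_one _
  have hq3 : (⌊q * (J : ℝ)⌋₊ : ℝ) ≤ q * J := Nat.floor_le (by positivity)
  have hX3 : (⌊X * (J : ℝ)⌋₊ : ℝ) ≤ X * J := Nat.floor_le (by positivity)
  have hw3 : (⌊w₀ * (J : ℝ)⌋₊ : ℝ) ≤ w₀ * J := Nat.floor_le (by positivity)
  -- the gradients are small against the depth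
  have hs : 2 * (1 + ((k + 1 : ℕ) : ℝ) * L) ≤ 2 * 2 ^ ⌊q * (J : ℝ)⌋₊ := by
    have h1 : 1 + ((k + 1 : ℕ) : ℝ) * L ≤ ((k + 1 : ℕ) : ℝ) * (1 + L) := by
      push_cast
      nlinarith [D.L0]
    have h2 : ((k + 1 : ℕ) : ℝ) * (1 + L) ≤ 2 ^ ⌊q * (J : ℝ)⌋₊ := by
      rw [← Real.log_le_log_iff (by positivity) (by positivity), Real.log_mul hk1.ne' hL1.ne',
        Real.log_pow]
      have h4 : φ * J ≤ q / 8 * J := mul_le_mul_of_nonneg_right (by linarith) hJ0.le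
      have h5 : (q * J - 1) * (1 / 2) ≤ (⌊q * (J : ℝ)⌋₊ : ℝ) * Real.log 2 :=
        mul_le_mul (by linarith) hl2.le (by norm_num) (Nat.cast_nonneg _)
      linarith
    linarith
  have hwd : ∀ i < k + 1, wid ⌊w₀ * (J : ℝ)⌋₊ g₀ i + ⌊q * (J : ℝ)⌋₊ ≤ Pr := fun i hi => by
    have := D.wd0 i hi
    omega
  have hfull := hf sg₀ sg K ⌊q * (J : ℝ)⌋₊ Pr L g₀ V₀ V₁ z₀ z₀' P₀ z₁ z₁' D.n0 D.L0 D.WP D.PJ hs
    hwd D.n1.cls
  have hφ0 : 0 ≤ φ := by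
    have h1 : (0 : ℝ) ≤ φ * J := (Nat.cast_nonneg kap).trans D.kapJ
    exact nonneg_of_mul_nonneg_left h1 hJ0
  have hdef := hfull.trans (Pool.R1.brg_def hy hby hφ0 D.L0 hlog D.be0)
  -- the small cell
  obtain ⟨d, hd⟩ : ∃ d : ℕ, d = ⌊q * (J : ℝ)⌋₊ + ⌊X * (J : ℝ)⌋₊ := ⟨_, rfl⟩
  have hwd' : ∀ i < k + 1, wid ⌊w₀ * (J : ℝ)⌋₊ g₀ i + d ≤ Pr := fun i hi => by
    have := D.wd0 i hi
    omega
  have hroom : ∀ i < k + 1, (r₀ - 2 * φ) * J ≤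
      ((Pr - wid ⌊w₀ * (J : ℝ)⌋₊ g₀ i - d : ℕ) : ℝ) := by
    intro i hi
    have h1 := hwd' i hi
    have h2 : ((Pr - wid ⌊w₀ * (J : ℝ)⌋₊ g₀ i - d : ℕ) : ℝ) =
        Pr - wid ⌊w₀ * (J : ℝ)⌋₊ g₀ i - d := by
      rw [Nat.cast_sub (by omega), Nat.cast_sub (by omega)]
    have h3 := (abs_le.1 D.Pr0).1
    have h4 : (d : ℝ) ≤ (q + X) * J := by
      rw [hd]
      push_cast
      linarith
    have h5 : (wid ⌊w₀ * (J : ℝ)⌋₊ g₀ i : ℝ) ≤ (pr - q - X - r₀ + φ) * J := by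
      rcases Nat.eq_zero_or_pos i with h0 | h0
      · subst h0
        rw [wid_zero]
        have h6 : w₀ * J ≤ (pr - q - X - r₀ + φ) * J :=
          mul_le_mul_of_nonneg_right (by linarith) hJ0.le
        linarith
      · obtain ⟨n, rfl⟩ : ∃ n, i = n + 1 := ⟨i - 1, by omega⟩
        rw [wid_succ]
        have h6 := (abs_le.1 (D.be0 n (by omega))).2
        have h7 : (β₀ n + φ) * J ≤ (pr - q - X - r₀ + φ) * J :=
          mul_le_mul_of_nonneg_right (by linarith [hβ n (by omega)]) hJ0.le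
        linarith
    rw [h2]
    linarith
  have hN : ∀ i, 1 ≤ nw ⌊w₀ * (J : ℝ)⌋₊ Pr g₀ k d i := nw_pos _ _ _ _ _
  have hN0i : ∀ i : Fin (k + 1), 2 ^ d * nw ⌊w₀ * (J : ℝ)⌋₊ Pr g₀ k d i =
      2 ^ (Pr - wid ⌊w₀ * (J : ℝ)⌋₊ g₀ i) := by
    intro i
    unfold nw
    rw [← pow_add]
    congr 1
    have := hwd' i i.2
    omega
  have hN0 : (fun i : Fin (k + 1) => 2 ^ d * nw ⌊w₀ * (J : ℝ)⌋₊ Pr g₀ k d i) =
      fun i : Fin (k + 1) => 2 ^ (Pr - wid ⌊w₀ * (J : ℝ)⌋₊ g₀ i) := funext hN0i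
  obtain ⟨s, hs'⟩ : ∃ s : ℝ, s = 2 * (1 + ((k + 1 : ℕ) : ℝ) * L) := ⟨_, rfl⟩
  have hs0 : 0 ≤ s := by
    rw [hs']
    positivity
  have hsL : s + 1 ≤ (2 * k + 5) * (1 + L) := by
    rw [hs']
    push_cast
    nlinarith
  have hsm : ∀ i, 2 * (s + 1) * ((k + 1 : ℕ) : ℝ) * Real.exp (r₀ * J / 8) ≤
      (nw ⌊w₀ * (J : ℝ)⌋₊ Pr g₀ k d i : ℝ) := by
    intro i
    have h1 := hroom i i.2
    have h2 : (nw ⌊w₀ * (J : ℝ)⌋₊ Pr g₀ k d i : ℝ) =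
        2 ^ (Pr - wid ⌊w₀ * (J : ℝ)⌋₊ g₀ i - d) := by
      unfold nw
      push_cast
      rfl
    have h3 : 0 < s + 1 := by linarith
    rw [h2, ← Real.log_le_log_iff (by positivity) (by positivity), Real.log_mul (by positivity)
      (by positivity), Real.log_mul (by positivity) (by positivity), Real.log_mul two_ne_zero
      h3.ne', Real.log_pow, Real.log_exp]
    have h4 : Real.log (s + 1) ≤ Real.log (2 * k + 5) + φ * J := by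
      have h5 := Real.log_le_log h3 hsL
      rw [Real.log_mul (by positivity) (by positivity)] at h5
      linarith
    have h5 : Real.log (2 * (k : ℝ) + 5) ≤ 2 * k + 4 := by
      have := Real.log_le_sub_one_of_pos (show (0 : ℝ) < 2 * k + 5 by positivity)
      linarith
    have h6 : φ * J ≤ r₀ / 32 * J := mul_le_mul_of_nonneg_right (by linarith) hJ0.le
    have h7 : (15 / 16 * r₀) * J * (1 / 2) ≤
        ((Pr - wid ⌊w₀ * (J : ℝ)⌋₊ g₀ i - d : ℕ) : ℝ) * Real.log 2 := by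
      refine mul_le_mul (le_trans ?_ h1) hl2.le (by norm_num) (Nat.cast_nonneg _)
      exact mul_le_mul_of_nonneg_right (by linarith) hJ0.le
    linarith
  have hl := isLaw_cond F.isLaw hA
  have hP2 := P2_isLaw hl (slam F ⌊w₀ * (J : ℝ)⌋₊)
  have key := nst_ev hP2 (fun e => ((z₁' (slam F ⌊w₁ * (J : ℝ)⌋₊ e.2), F.W e.2),
      (z₀' (slam F ⌊w₀ * (J : ℝ)⌋₊ e.1), (F.T1 ⌊w₀ * (J : ℝ)⌋₊ e.1,
        nidx (fun i : Fin (k + 1) => 2 ^ (Pr - wid ⌊w₀ * (J : ℝ)⌋₊ g₀ i))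
          (ndg (2 ^ (Pr - ⌊w₁ * (J : ℝ)⌋₊)) (gsy k ⌊w₁ * (J : ℝ)⌋₊
            (P₀ (z₀' (slam F ⌊w₀ * (J : ℝ)⌋₊ e.1))))
            (bse (xte c₀ k ⌊w₁ * (J : ℝ)⌋₊ Pr sg F e.1)))))))
    (fun e => ndg (2 ^ (Pr - ⌊w₁ * (J : ℝ)⌋₊)) (gsy k ⌊w₁ * (J : ℝ)⌋₊
      (P₀ (z₀' (slam F ⌊w₀ * (J : ℝ)⌋₊ e.1)))) (bse (xte c₀ k ⌊w₁ * (J : ℝ)⌋₊ Pr sg F e.1)))
    (L := 2 ^ d) (N₂ := nw ⌊w₀ * (J : ℝ)⌋₊ Pr g₀ k d) Nat.one_le_two_pow hN hs0
    (h := r₀ * J / 8) (μ := (y + 2 * k * φ + cm * r₀ / 64) * J +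
      k * Real.log (11 + 8 * ((k + 1 : ℕ) : ℝ))) (by positivity) hsm (by
      rw [hN0]
      simp only [hN0i]
      exact hdef)
  refine (ms_le hP2.nonneg ?_).trans (key.trans ?_)
  · intro e he hne hcon
    obtain ⟨c1, c2, c3⟩ := (P2_pos hl e).1 he
    have hA1 : A e.1 := cond_supp c1
    refine hne ?_
    have hz0 := D.n0.cls _ hA1
    rw [← hz0] at hcon
    show nidx (nw ⌊w₀ * (J : ℝ)⌋₊ Pr g₀ k (⌊q * (J : ℝ)⌋₊ + ⌊X * (J : ℝ)⌋₊)) _ =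
      nidx (nw ⌊w₀ * (J : ℝ)⌋₊ Pr g₀ k (⌊q * (J : ℝ)⌋₊ + ⌊X * (J : ℝ)⌋₊)) _
    rw [← hd]
    refine nst hN (s := s) (fun i => ?_) hcon
    have hWJ : ⌊w₀ * (J : ℝ)⌋₊ ≤ J := D.W01.trans (D.WP.trans D.PJ)
    have h1 := near_dig D.n0 hL hWJ D.WP D.PJ (sg := sg) (fun i hi => by
      have := hwd' i hi
      omega) (fun i hi => by
      have h2 := hsm ⟨i, hi⟩
      have h3 : (nw ⌊w₀ * (J : ℝ)⌋₊ Pr g₀ k d ⟨i, hi⟩ : ℝ) ≤
          2 ^ (Pr - wid ⌊w₀ * (J : ℝ)⌋₊ g₀ i) := by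
        unfold nw
        push_cast
        exact pow_le_pow_right₀ one_le_two (Nat.sub_le _ _)
      refine le_trans ?_ (h2.trans h3)
      rw [← hs']
      have h4 : 1 ≤ Real.exp (r₀ * J / 8) := Real.one_le_exp (by positivity)
      have h5 : (1 : ℝ) ≤ ((k + 1 : ℕ) : ℝ) := by
        push_cast
        linarith
      have h6 : s ≤ 2 * (s + 1) := by linarith
      calc s ≤ 2 * (s + 1) := h6
        _ ≤ 2 * (s + 1) * ((k + 1 : ℕ) : ℝ) := le_mul_of_one_le_right (by linarith) h5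
        _ ≤ _ := le_mul_of_one_le_right (by positivity) h4) hA1 i
    rw [abs_sub_comm, hs']
    exact h1
  · rw [div_le_iff₀ (by positivity)]
    have h1 : (2 * (k : ℝ) * φ) * J ≤ cm * r₀ / 64 * J := by
      refine mul_le_mul_of_nonneg_right ?_ hJ0.le
      nlinarith
    have h2 : y * J ≤ cm * r₀ / 16 * J := mul_le_mul_of_nonneg_right (by linarith) hJ0.le
    rw [hCl] at j1
    have h3 : (y + 2 * k * φ + cm * r₀ / 64) * J + k * Real.log (11 + 8 * ((k + 1 : ℕ) : ℝ)) +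
        Real.log 2 ≤ cm * r₀ / 8 * J := by
      have h4 : (y + 2 * k * φ + cm * r₀ / 64) * J = y * J + 2 * k * φ * J +
        cm * r₀ / 64 * J := by ring
      rw [h4]
      have h5 : 0 ≤ cm * r₀ * J := by positivity
      linarith
    linarith

end Pool.GEO
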