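import Pool.Agent.H86.GEO.Arr

/-!
# The geometry of the pairs from pointwise conditions

`POK`: the conditions for one pair. `geoJ_of`: the arrays of the leaves, and their properties.
-/

set_option autoImplicit false

namespace Pool.GEO

open Finset Real
open Pool.Agent.H49.Ent Pool.Agent.H32.Dense Pool.STK Pool.KAF Pool.KAL Pool.KS3 Pool.M3F
open Pool.KJA Pool.KA Pool.K2S Pool.KSAT Pool.PB Pool.STAT Pool.GEN Pool.CLO37 Pool.IEN Pool.EXS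
open Pool.JPN Pool.JMS
open Pool.JMP (InC)

/-- The conditions for one pair. -/
structure POK (k D K₀ K₂ : ℕ) (Lp κ : ℝ) (M K : ℕ) (N₃ : Fin (k + 1) → ℕ)
    (G : Fin (k + 1) → MvPolynomial (Fin (k + 1)) ℝ) (gB : MvPolynomial (Fin (k + 1)) ℝ)
    (b₃ : Fin (k + 1) → ℤ) (a : MvPolynomial (Fin (k + 1)) ℝ)
    (Q : MvPolynomial (Option (Fin (k + 1))) ℝ) (Z H H' δ ν ρ Θ : ℝ) (θ : ℕ → ℝ) (kk : ℕ)
    (x px : Option (Fin (k + 1)) → ℝ) : Prop where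
  tri : TriP G
  zer : G 0 = 0
  dG : ∀ i, (G i).totalDegree ≤ K₀
  dB : gB.totalDegree ≤ K₀
  da : a.totalDegree ≤ K₂
  dQ : Q.totalDegree ≤ D
  grG : ∀ y ∈ ncell M (fun i => K * N₃ i) G (fun i => b₃ i / K), ∀ i l,
    |MvPolynomial.eval y (MvPolynomial.pderiv l (G i))| ≤ Lp
  grB : ∀ y ∈ ncell M (fun i => K * N₃ i) G (fun i => b₃ i / K), ∀ l,
    |MvPolynomial.eval y (MvPolynomial.pderiv l gB)| ≤ Lp
  lon : ∀ R : MvPolynomial (Option (Fin (k + 1))) ℝ, R.totalDegree ≤ D →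
    ∀ y ∈ ncell M (fun i => K * N₃ i) G (fun i => b₃ i / K), ∃ y' ∈ ncell M N₃ G b₃,
      Psi R (κ / M) (lpt gB y) ≤ Z * Psi R (κ / M) (lpt gB y')
  lnr : LnR D Q H θ x kk
  th0 : 0 ≤ θ kk
  mx : bse x ∈ ncell M N₃ G b₃
  mp : bse px ∈ ncell M N₃ G b₃
  near : ∀ o, |x o - px o| ≤ κ / M
  va : |x none - MvPolynomial.eval
    (rpos M (fun i => K * N₃ i) G (fun i => b₃ i / K) (bse x)) a| ≤ δ
  vb : |px none - MvPolynomial.eval (bse px) gB| ≤ ν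
  der : ∀ (l : Fin (k + 1)) (m : ℕ), |MvPolynomial.eval x (MvPolynomial.pderiv (some l)
    (pN (kk + m) Q))| * θ (kk + 1) ^ m ≤ H' * |MvPolynomial.eval x (pN (kk + 1) Q)|
  nc : ∀ R, ((∃ m, R = pN m Q) ∨ ∃ l, R = MvPolynomial.pderiv (some l) (pN kk Q)) →
    ∀ u ∈ ucube (k + 1), ∀ u' ∈ ucube (k + 1),
      |MvPolynomial.eval (pt (cpt (nchi M (fun i => K * N₃ i) G (fun i => b₃ i / K)) u)
        (MvPolynomial.eval u a)) R| ≤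
      3 * |MvPolynomial.eval (pt (cpt (nchi M (fun i => K * N₃ i) G (fun i => b₃ i / K)) u')
        (MvPolynomial.eval u' a)) R|
  r1 : 6 * H * (θ kk + 2 * δ) ≤ ρ
  r2 : 12 * H * ρ ≤ θ (kk + 1)
  sf : ∀ B : ℝ, (∀ z : Fin k → ℝ, (∀ i, (jdg K b₃ i.succ : ℝ) / K ≤ z i ∧
      z i ≤ ((jdg K b₃ i.succ : ℝ) + 1) / K) →
    |MvPolynomial.eval (Fin.cons (rpos M (fun i => K * N₃ i) G (fun i => b₃ i / K)
      (bse x) 0) z : Fin (k + 1) → ℝ) (MvPolynomial.bind₁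
        (nchi M (fun i => K * N₃ i) G (fun i => b₃ i / K)) gB - a)| ≤ B) →
    cs (rco K (jdg K b₃)) (1 / K) (MvPolynomial.bind₁
      (nchi M (fun i => K * N₃ i) G (fun i => b₃ i / K)) gB - a) ≤ Θ * B

/-- **The geometry of the pairs from pointwise conditions.** -/
theorem geoJ_of (k D K₀ K₂ : ℕ) : ∃ (C : ℝ) (Kf : ℕ), 1 ≤ C ∧
    ∀ (n₀ : ℕ), ∃ n₁ : ℕ,
    ∀ {m J : ℕ} {F : Fam m J} {A : F.Ω → Prop} {c : ℕ → Fin m}
      {W₀ W₁ Pr sg q X u Gg Pn P₀' : ℕ} {g : ℕ → ℕ} {V₀ V₁ : Type} {P : V₀ → ℕ → PN}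
      {z₀ : PtT F → V₀} {z₀' : LnT F → V₀} {z₁ : PtT F → V₁} {z₁' : LnT F → V₁}
      (aF : (Fin (k + 1) → MvPolynomial (Fin (k + 1)) ℝ) →
        MvPolynomial (Option (Fin (k + 1))) ℝ → (Fin (k + 1) → ℤ) → Fin D → Fin n₀ →
          MvPolynomial (Fin (k + 1)) ℝ)
      (Qh : V₁ → MvPolynomial (Option (Fin (k + 1))) ℝ)
      (gN : V₁ → MvPolynomial (Fin (k + 1)) ℝ) (E : F.Ω × F.Ω → Prop)
      (Lp κ Z H H' δ ν ρ Θ Θ₁ ν₀ : ℝ) (θ : F.Ω × F.Ω → ℕ → ℝ),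
      0 ≤ Lp → 1 ≤ κ → 1 ≤ Z → 1 ≤ H → 0 ≤ H' → 1 ≤ Θ → 1 ≤ Θ₁ → ν ≤ 1 → ρ ≤ 1 →
      W₁ ≤ Pr → Pr ≤ J → 1 ≤ X →
      (∀ i < k + 1, wid W₀ g i + q + X ≤ Pr) → (∀ i < k + 1, W₁ ≤ wid W₀ g i + q) →
      (∀ v, TriN (P v)) → (∀ v i, (P v i).totalDegree ≤ K₀) → (∀ v, (gN v).totalDegree ≤ K₀) →
      (∀ G Q b kk ii, (aF G Q b kk ii).totalDegree ≤ K₂) →
      (∀ ω, A ω → z₀ (ptr F J ω) = z₀' (slam F W₀ ω)) →
      (∀ ω, A ω → z₁ (ptr F J ω) = z₁' (slam F W₁ ω)) →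
      (∀ e, E e → A e.1 ∧ A e.2) →
      (∀ e, E e → ∀ (M : ℕ) (N₂ N₃ : Fin (k + 1) → ℕ)
        (G : Fin (k + 1) → MvPolynomial (Fin (k + 1)) ℝ) (b₂ b₃ : Fin (k + 1) → ℤ)
        (x px : Option (Fin (k + 1)) → ℝ), M = 2 ^ (Pr - W₁) → N₂ = nw W₀ Pr g k q →
        N₃ = nw W₀ Pr g k (q + X) → G = gsy k W₁ (P (z₀ (ptr F J e.1))) →
        x = xte c k W₁ Pr sg F e.1 → px = zsw c k W₁ sg (ptr F J e.1) →
        b₂ = nidx N₂ (ndg M G (bse x)) → b₃ = nidx N₃ (ndg M G (bse x)) →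
        nidx N₃ (ndg M G (bse px)) = b₃ ∧
        ∃ (kk : Fin D) (ii : Fin n₀),
          (∃ δ' ρ' : ℝ, δ' ≤ δ ∧ 0 < ρ' ∧ ρ' ≤ ρ ∧ 1 ≤ (M : ℝ) * ρ' ∧
          POK k D K₀ K₂ Lp κ M (2 ^ X) N₃ G (gN (z₁ (ptr F J e.1))) b₃
            (aF G (Qh (z₁ (ptr F J e.2))) b₂ kk ii) (Qh (z₁ (ptr F J e.2))) Z H H' δ' ν ρ' Θ (θ e)
            kk x px) ∧
          (∀ B : ℝ, (∀ z : Fin k → ℝ, (∀ i, 0 ≤ z i ∧ z i ≤ 1) →
            |MvPolynomial.eval (Fin.cons (rpos M N₂ G b₂ (bse x) 0) z : Fin (k + 1) → ℝ)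
              (MvPolynomial.bind₁ (nchi M N₂ G b₂) (gN (z₁ (ptr F J e.1))) -
                aF G (Qh (z₁ (ptr F J e.2))) b₂ kk ii)| ≤ B) →
            cs (fun _ => 0) 1 (MvPolynomial.bind₁ (nchi M N₂ G b₂) (gN (z₁ (ptr F J e.1))) -
                aF G (Qh (z₁ (ptr F J e.2))) b₂ kk ii) ≤ Θ₁ * B) ∧
          ∃ w ∈ ucube (k + 1), ν₀ ≤ |MvPolynomial.eval w (MvPolynomial.bind₁
            (nchi M N₂ G b₂) (gN (z₁ (ptr F J e.1))) -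
              aF G (Qh (z₁ (ptr F J e.2))) b₂ kk ii)|) →
      gmm k C Lp H' (((2 ^ (Pr - W₁) : ℕ) : ℝ) * ρ) κ ≤ 2 ^ Gg →
      δ + 2 * (2 ^ Gg / ((2 ^ (Pr - W₁) : ℕ) : ℝ)) ≤ 2 ^ W₁ / 2 ^ Pn →
      ν + 2 * (2 ^ Gg / ((2 ^ (Pr - W₁) : ℕ) : ℝ)) ≤ 2 ^ W₁ / 2 ^ Pn →
      (dbm k D C Lp κ Z + 4 * 2 ^ Gg) * Θ ≤ 2 ^ u → ρ ≤ 2 ^ W₁ / 2 ^ Pn →
      0 < ν₀ → 2 * Θ₁ * (2 ^ W₁ / 2 ^ P₀') ≤ ν₀ →
      ∃ (br : F.Ω × F.Ω → Fin n₁) (a b : F.Ω × F.Ω → (Fin k → Fin (Kf + 1)) → ℝ),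
        (∀ e e', E e → E e' → AA F z₁' W₁ e = AA F z₁' W₁ e' →
          WW k F c P z₀ z₀' g q W₀ br e = WW k F c P z₀ z₀' g q W₀ br e' → a e = a e') ∧
        (∀ e e', E e → E e' → BB F z₁' W₁ e = BB F z₁' W₁ e' →
          WW k F c P z₀ z₀' g q W₀ br e = WW k F c P z₀ z₀' g q W₀ br e' → b e = b e') ∧
        (∀ e, E e → |F.x e.1 (c k) / 2 ^ sg - Pool.JMN.ev (a e) (yc k F c P z₀ g q e.1)| ≤
          1 / 2 ^ Pn) ∧
        (∀ e, E e → |F.x e.1 (c k) / 2 ^ sg - Pool.JMN.ev (b e) (yc k F c P z₀ g q e.1)| ≤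
          1 / 2 ^ Pn) ∧
        (∀ e, E e → ∀ z z' : Fin k → ℝ, (∀ l, |z l| ≤ 2) → (∀ l, |z' l| ≤ 2) →
          |Pool.JMN.ev (a e) z - Pool.JMN.ev (a e) z'| ≤
            2 ^ Gg * ∑ l : Fin k, |z l - z' l| / 2 ^ (g l + q)) ∧
        (∀ e, E e → ∀ z z' : Fin k → ℝ, (∀ l, |z l| ≤ 2) → (∀ l, |z' l| ≤ 2) →
          |Pool.JMN.ev (b e) z - Pool.JMN.ev (b e) z'| ≤
            2 ^ Gg * ∑ l : Fin k, |z l - z' l| / 2 ^ (g l + q)) ∧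
        (∀ e, E e → ∀ s : ℝ, 0 ≤ s →
          (∀ x, InC X (fun e => yc k F c P z₀ g q e.1) 1 e x →
            |Pool.JMN.ev (fun α => a e α - b e α) x| ≤ s) →
          ∀ x : Fin k → ℝ, (∀ l, 0 ≤ x l ∧ x l ≤ 1) →
            |Pool.JMN.ev (fun α => a e α - b e α) x| ≤ 2 ^ u * (s + 1 / 2 ^ Pn)) ∧
        (∀ e, E e → ∃ x : Fin k → ℝ, (∀ l, 0 ≤ x l ∧ x l ≤ 1) ∧
          1 / 2 ^ P₀' ≤ |Pool.JMN.ev (fun α => a e α - b e α) x|) := by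
  classical
  obtain ⟨C, hC, hdet⟩ := pair_det k D K₀ K₂
  refine ⟨C, max K₂ ((K₀ + 1) ^ (k + 1) * K₀), hC, ?_⟩
  intro n₀
  refine ⟨Fintype.card (Option (Fin D × Fin n₀)), ?_⟩
  intro m J F A c W₀ W₁ Pr sg q X u Gg Pn P₀' g V₀ V₁ P z₀ z₀' z₁ z₁' aF Qh gN E Lp κ Z H H' δ ν ρ
    Θ Θ₁ ν₀ θ hLp hκ hZ hH hH' hΘ hΘ₁ hν hρle hWP hPJ hX hwid hwW htri hPd hgNd haFd hc₀ hc₁ hEA
    hOK hGg hδn hνn hdu hρn hν₀ hP₀
  set Kf : ℕ := max K₂ ((K₀ + 1) ^ (k + 1) * K₀) with hKf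
  obtain ⟨M, hM⟩ : ∃ M : ℕ, M = 2 ^ (Pr - W₁) := ⟨_, rfl⟩
  rw [← hM] at hGg hδn hνn
  have hM1 : 1 ≤ M := by
    rw [hM]
    exact Nat.one_le_two_pow
  have hMr : (0 : ℝ) < M := by exact_mod_cast hM1
  have hW0 : (0 : ℝ) < 2 ^ W₁ := by positivity
  -- the branch
  have hbr : ∀ e, ∃ p : Option (Fin D × Fin n₀), E e → ∃ (kk : Fin D) (ii : Fin n₀),
      p = some (kk, ii) ∧ ∀ (N₂ N₃ : Fin (k + 1) → ℕ)
        (G : Fin (k + 1) → MvPolynomial (Fin (k + 1)) ℝ) (b₂ b₃ : Fin (k + 1) → ℤ)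
        (x px : Option (Fin (k + 1)) → ℝ), N₂ = nw W₀ Pr g k q →
        N₃ = nw W₀ Pr g k (q + X) → G = gsy k W₁ (P (z₀ (ptr F J e.1))) →
        x = xte c k W₁ Pr sg F e.1 → px = zsw c k W₁ sg (ptr F J e.1) →
        b₂ = nidx N₂ (ndg M G (bse x)) → b₃ = nidx N₃ (ndg M G (bse x)) →
        nidx N₃ (ndg M G (bse px)) = b₃ ∧
          (∃ δ' ρ' : ℝ, δ' ≤ δ ∧ 0 < ρ' ∧ ρ' ≤ ρ ∧ 1 ≤ (M : ℝ) * ρ' ∧
          POK k D K₀ K₂ Lp κ M (2 ^ X) N₃ G (gN (z₁ (ptr F J e.1))) b₃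
            (aF G (Qh (z₁ (ptr F J e.2))) b₂ kk ii) (Qh (z₁ (ptr F J e.2))) Z H H' δ' ν ρ' Θ (θ e)
            kk x px) ∧
          (∀ B : ℝ, (∀ z : Fin k → ℝ, (∀ i, 0 ≤ z i ∧ z i ≤ 1) →
            |MvPolynomial.eval (Fin.cons (rpos M N₂ G b₂ (bse x) 0) z : Fin (k + 1) → ℝ)
              (MvPolynomial.bind₁ (nchi M N₂ G b₂) (gN (z₁ (ptr F J e.1))) -
                aF G (Qh (z₁ (ptr F J e.2))) b₂ kk ii)| ≤ B) →
            cs (fun _ => 0) 1 (MvPolynomial.bind₁ (nchi M N₂ G b₂) (gN (z₁ (ptr F J e.1))) -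
                aF G (Qh (z₁ (ptr F J e.2))) b₂ kk ii) ≤ Θ₁ * B) ∧
          ∃ w ∈ ucube (k + 1), ν₀ ≤ |MvPolynomial.eval w (MvPolynomial.bind₁
            (nchi M N₂ G b₂) (gN (z₁ (ptr F J e.1))) -
              aF G (Qh (z₁ (ptr F J e.2))) b₂ kk ii)| := by
    intro e
    by_cases he : E e
    · obtain ⟨h1, kk, ii, h2⟩ := hOK e he M _ _ _ _ _ _ _ hM rfl rfl rfl rfl rfl rfl rfl
      refine ⟨some (kk, ii), fun _ => ⟨kk, ii, rfl, ?_⟩⟩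
      intro N₂ N₃ G b₂ b₃ x px e1 e2 e3 e4 e5 e6 e7
      subst e1 e2 e3 e4 e5
      subst e6 e7
      exact ⟨h1, h2⟩
    · exact ⟨none, fun h => absurd h he⟩
  choose p hp using hbr
  -- the arrays
  obtain ⟨Gf, hGf⟩ : ∃ Gf : F.Ω × F.Ω → Fin (k + 1) → MvPolynomial (Fin (k + 1)) ℝ,
      Gf = fun e => gsy k W₁ (P (z₀' (slam F W₀ e.1))) := ⟨_, rfl⟩
  obtain ⟨bf, hbf⟩ : ∃ bf : F.Ω × F.Ω → Fin (k + 1) → ℤ,
      bf = fun e => Fin.cons (tix J W₀ Pr q (F.T e.1)) (ce k F c P z₀ g q e.1) := ⟨_, rfl⟩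
  obtain ⟨arr, harr⟩ : ∃ arr : F.Ω × F.Ω → Option (Fin D × Fin n₀) →
      (Fin k → Fin (Kf + 1)) → ℝ, arr = fun e o => o.elim (fun _ => 0) (fun p =>
        sar Kf W₁ (aF (Gf e) (Qh (z₁' (slam F W₁ e.2))) (bf e) p.1 p.2)
          (tps J W₀ W₁ Pr q (F.T e.1))) := ⟨_, rfl⟩
  obtain ⟨eqv, heqv⟩ : ∃ eqv, eqv = Fintype.equivFin (Option (Fin D × Fin n₀)) := ⟨_, rfl⟩
  obtain ⟨a, ha⟩ : ∃ a : F.Ω × F.Ω → (Fin k → Fin (Kf + 1)) → ℝ, a = fun e =>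
      arr e (eqv.symm (eqv (p e))) := ⟨_, rfl⟩
  obtain ⟨b, hb⟩ : ∃ b : F.Ω × F.Ω → (Fin k → Fin (Kf + 1)) → ℝ, b = fun e =>
      sar Kf W₁ (MvPolynomial.bind₁ (nchi M (nw W₀ Pr g k q) (Gf e) (bf e))
        (gN (z₁' (slam F W₁ e.1)))) (tps J W₀ W₁ Pr q (F.T e.1)) := ⟨_, rfl⟩
  -- the facts for one pair
  have hfact : ∀ e, E e → ∃ (kk : Fin D) (ii : Fin n₀) (G : Fin (k + 1) →
      MvPolynomial (Fin (k + 1)) ℝ) (b₂ b₃ : Fin (k + 1) → ℤ) (av : MvPolynomial (Fin (k + 1)) ℝ)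
      (x px : Option (Fin (k + 1)) → ℝ),
      |2 ^ W₁ * (F.x e.1 (c k) / 2 ^ sg) - px none| ≤ 1 / M ∧
      (fun i => b₃ i / ((2 ^ X : ℕ) : ℤ)) = b₂ ∧
      rpos M (nw W₀ Pr g k q) G b₂ (bse x) 0 = tps J W₀ W₁ Pr q (F.T e.1) ∧
      (fun i : Fin k => rpos M (nw W₀ Pr g k q) G b₂ (bse px) i.succ) =
        yc k F c P z₀ g q e.1 ∧
      (∀ i : Fin k, ((jdg (2 ^ X) b₃ i.succ : ℕ) : ℤ) =
        ⌊(2 : ℝ) ^ X * yc k F c P z₀ g q e.1 i⌋) ∧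
      (∀ z, Pool.JMN.ev (a e) z = MvPolynomial.eval
        (Fin.cons (tps J W₀ W₁ Pr q (F.T e.1)) z : Fin (k + 1) → ℝ) av / 2 ^ W₁) ∧
      (∀ z, Pool.JMN.ev (b e) z = MvPolynomial.eval
        (Fin.cons (tps J W₀ W₁ Pr q (F.T e.1)) z : Fin (k + 1) → ℝ)
          (MvPolynomial.bind₁ (nchi M (nw W₀ Pr g k q) G b₂) (gN (z₁ (ptr F J e.1)))) / 2 ^ W₁) ∧
      (∃ δ' ρ' : ℝ, δ' ≤ δ ∧ 0 < ρ' ∧ ρ' ≤ ρ ∧ 1 ≤ (M : ℝ) * ρ' ∧
      POK k D K₀ K₂ Lp κ M (2 ^ X) (nw W₀ Pr g k (q + X)) G (gN (z₁ (ptr F J e.1))) b₃ av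
        (Qh (z₁ (ptr F J e.2))) Z H H' δ' ν ρ' Θ (θ e) kk x px) ∧
      (∀ B : ℝ, (∀ z : Fin k → ℝ, (∀ i, 0 ≤ z i ∧ z i ≤ 1) →
        |MvPolynomial.eval (Fin.cons (tps J W₀ W₁ Pr q (F.T e.1)) z : Fin (k + 1) → ℝ)
          (MvPolynomial.bind₁ (nchi M (nw W₀ Pr g k q) G b₂) (gN (z₁ (ptr F J e.1))) - av)| ≤ B) →
        cs (fun _ => 0) 1 (MvPolynomial.bind₁ (nchi M (nw W₀ Pr g k q) G b₂)
          (gN (z₁ (ptr F J e.1))) - av) ≤ Θ₁ * B) ∧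
      ∃ w ∈ ucube (k + 1), ν₀ ≤ |MvPolynomial.eval w (MvPolynomial.bind₁
        (nchi M (nw W₀ Pr g k q) G b₂) (gN (z₁ (ptr F J e.1))) - av)| := by
    intro e he
    obtain ⟨hA1, hA2⟩ := hEA e he
    obtain ⟨kk, ii, hpe, hrest⟩ := hp e he
    obtain ⟨hnst, hpok, hsf1, hno⟩ := hrest _ _ _ _ _ _ _ rfl rfl rfl rfl rfl rfl rfl
    have hG0 : gsy k W₁ (P (z₀ (ptr F J e.1))) 0 = 0 := gsy_zero _ _ _
    have hb₂ : (fun i => nidx (nw W₀ Pr g k (q + X)) (ndg M (gsy k W₁ (P (z₀ (ptr F J e.1))))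
        (bse (xte c k W₁ Pr sg F e.1))) i / ((2 ^ X : ℕ) : ℤ)) =
        nidx (nw W₀ Pr g k q) (ndg M (gsy k W₁ (P (z₀ (ptr F J e.1))))
          (bse (xte c k W₁ Pr sg F e.1))) := by
      rw [← nidx_mul, nw_mul hwid]
    have hcons : nidx (nw W₀ Pr g k q) (ndg M (gsy k W₁ (P (z₀ (ptr F J e.1))))
          (bse (xte c k W₁ Pr sg F e.1))) = bf e := by
      rw [hbf]
      funext i
      refine Fin.cases ?_ (fun i => ?_) i
      · show _ = tix J W₀ Pr q (F.T e.1)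
        rw [hM]
        exact tix_eq hG0 c e.1
      · show _ = ce k F c P z₀ g q e.1 i
        rw [← congrFun hb₂ i.succ, ← hnst]
        have h1 : nidx (nw W₀ Pr g k q) (ndg M (gsy k W₁ (P (z₀ (ptr F J e.1))))
            (bse (zsw c k W₁ sg (ptr F J e.1)))) = fun i => nidx (nw W₀ Pr g k (q + X))
            (ndg M (gsy k W₁ (P (z₀ (ptr F J e.1))))
              (bse (zsw c k W₁ sg (ptr F J e.1)))) i / ((2 ^ X : ℕ) : ℤ) := by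
          rw [← nidx_mul, nw_mul hwid]
        have h2 := ce_eq (c := c) (W₀ := W₀) (Pr := Pr) (sg := sg) (g := g) (q := q) (P := P)
          (z₀ := z₀) (ω := e.1) (htri _) i hWP (by
            have := hwid i.succ i.succ.2
            omega)
        rw [← hM, h1] at h2
        exact h2
    have hGe : Gf e = gsy k W₁ (P (z₀ (ptr F J e.1))) := by
      rw [hGf, hc₀ _ hA1]
    refine ⟨kk, ii, gsy k W₁ (P (z₀ (ptr F J e.1))), _, _, _, _, _, ?_, hb₂, ?_, ?_, ?_, ?_, ?_,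
      hpok, ?_, hno⟩
    · have h1 : zsw c k W₁ sg (ptr F J e.1) none =
          2 ^ W₁ * (((⌊(2 : ℝ) ^ J * F.x e.1 (c k)⌋ : ℤ) : ℝ) / 2 ^ J / 2 ^ sg) := by
        show 2 ^ W₁ * (px c (ptr F J e.1) (k + 1) / 2 ^ sg) = _
        rw [px_succ]
        rfl
      have pJ : (0 : ℝ) < 2 ^ J := by positivity
      have ps : (1 : ℝ) ≤ 2 ^ sg := one_le_pow₀ one_le_two
      have f1 := Int.floor_le ((2 : ℝ) ^ J * F.x e.1 (c k))
      have f2 := Int.lt_floor_add_one ((2 : ℝ) ^ J * F.x e.1 (c k))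
      have e1 : 2 ^ W₁ * (F.x e.1 (c k) / 2 ^ sg) - zsw c k W₁ sg (ptr F J e.1) none =
          (2 ^ W₁ / 2 ^ J) * ((2 ^ J * F.x e.1 (c k) -
            ((⌊(2 : ℝ) ^ J * F.x e.1 (c k)⌋ : ℤ) : ℝ)) / 2 ^ sg) := by
        rw [h1]
        field_simp
      have h2 : |(2 ^ J * F.x e.1 (c k) - ((⌊(2 : ℝ) ^ J * F.x e.1 (c k)⌋ : ℤ) : ℝ)) / 2 ^ sg| ≤
          1 := by
        rw [abs_div, abs_of_pos (by linarith : (0 : ℝ) < 2 ^ sg), div_le_one (by linarith)]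
        refine le_trans ?_ ps
        rw [abs_le]
        constructor <;> linarith
      have h3 : (2 : ℝ) ^ W₁ / 2 ^ J ≤ 1 / M := by
        have e2 : (1 : ℝ) / M = 2 ^ W₁ / 2 ^ Pr := by
          rw [hM]
          push_cast
          rw [two_pow_sub hWP, one_div_div]
        rw [e2]
        exact div_le_div_of_nonneg_left (by positivity) (by positivity)
          (pow_le_pow_right₀ one_le_two hPJ)
      have h4 : (0 : ℝ) < 2 ^ W₁ / 2 ^ J := by positivity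
      rw [e1, abs_mul, abs_of_pos h4]
      calc (2 : ℝ) ^ W₁ / 2 ^ J * _ ≤ 2 ^ W₁ / 2 ^ J * 1 := mul_le_mul_of_nonneg_left h2 h4.le
        _ ≤ _ := by linarith
    · rw [hM]
      refine tps_eq hG0 c e.1 ?_
      rw [← hM, hcons, hbf]
      rfl
    · funext i
      rw [hM]
      refine yc_eq (htri _) i hWP (by
        have := hwid i.succ i.succ.2
        omega) ?_
      rw [← hM, hcons, hbf]
      rfl
    · intro i
      have h1 := cel_jdg (c := c) (W₀ := W₀) (Pr := Pr) (sg := sg) (g := g) (q := q) (X := X)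
        (P := P) (z₀ := z₀) (ω := e.1) (htri _) i hWP hwid
      rw [← hM, hnst] at h1
      exact h1
    · intro z
      have h1 : a e = sar Kf W₁ (aF (Gf e) (Qh (z₁' (slam F W₁ e.2))) (bf e) kk ii)
          (tps J W₀ W₁ Pr q (F.T e.1)) := by
        have h2 : a e = arr e (eqv.symm (eqv (p e))) := by rw [ha]
        rw [h2, Equiv.symm_apply_apply, hpe, harr]
        rfl
      rw [h1, ev_sar ((haFd _ _ _ _ _).trans (le_max_left _ _)), hGe, ← hcons, hc₁ _ hA2]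
    · intro z
      have h2 : (MvPolynomial.bind₁ (nchi M (nw W₀ Pr g k q) (Gf e) (bf e))
          (gN (z₁' (slam F W₁ e.1)))).totalDegree ≤ Kf := by
        refine le_trans ?_ (le_max_right _ _)
        refine (SML.totalDegree_bind_le _ ((K₀ + 1) ^ (k + 1)) (fun l => deg_chiN (Gf e)
          (ncor M (nw W₀ Pr g k q) (bf e)) (nwid M (nw W₀ Pr g k q)) K₀ (fun i => ?_) (k + 1) l)
          _).trans (Nat.mul_le_mul_left _ (hgNd _))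
        rw [hGf]
        exact gsy_deg (hPd _) i
      have h1 : b e = sar Kf W₁ (MvPolynomial.bind₁ (nchi M (nw W₀ Pr g k q) (Gf e) (bf e))
        (gN (z₁' (slam F W₁ e.1)))) (tps J W₀ W₁ Pr q (F.T e.1)) := by
        rw [hb]
      rw [h1, ev_sar h2, hGe, ← hcons, hc₁ _ hA1]
    · intro B hB
      refine hsf1 B ?_
      intro z hz
      have h1 : rpos M (nw W₀ Pr g k q) (gsy k W₁ (P (z₀ (ptr F J e.1)))) (nidx (nw W₀ Pr g k q)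
          (ndg M (gsy k W₁ (P (z₀ (ptr F J e.1)))) (bse (xte c k W₁ Pr sg F e.1))))
          (bse (xte c k W₁ Pr sg F e.1)) 0 = tps J W₀ W₁ Pr q (F.T e.1) := by
        rw [hM]
        refine tps_eq hG0 c e.1 ?_
        rw [← hM, hcons, hbf]
        rfl
      rw [h1]
      exact hB z hz
  have hKX : 2 ≤ 2 ^ X := by
    calc 2 = 2 ^ 1 := rfl
      _ ≤ 2 ^ X := Nat.pow_le_pow_right (by norm_num) hX
  have hNM : ∀ i, 2 ^ X * nw W₀ Pr g k (q + X) i ≤ M := by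
    intro i
    have h1 := congrFun (nw_mul (W₀ := W₀) (Pr := Pr) (g := g) (k := k) hwid) i
    rw [hM]
    exact (le_of_eq h1).trans (nw_le hwW i)
  -- the output of the deterministic theorem
  have hout : ∀ e (he : E e), ∃ (av bv : MvPolynomial (Fin (k + 1)) ℝ) (b₃ : Fin (k + 1) → ℤ)
      (t : ℝ), 0 ≤ t ∧ t ≤ 1 ∧
      (∀ i : Fin k, ((jdg (2 ^ X) b₃ i.succ : ℕ) : ℤ) =
        ⌊(2 : ℝ) ^ X * yc k F c P z₀ g q e.1 i⌋) ∧
      (∀ z, Pool.JMN.ev (a e) z = MvPolynomial.eval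
        (Fin.cons t z : Fin (k + 1) → ℝ) av / 2 ^ W₁) ∧
      (∀ z, Pool.JMN.ev (b e) z = MvPolynomial.eval
        (Fin.cons t z : Fin (k + 1) → ℝ) bv / 2 ^ W₁) ∧
      |2 ^ W₁ * (F.x e.1 (c k) / 2 ^ sg) - MvPolynomial.eval
        (Fin.cons t (yc k F c P z₀ g q e.1) : Fin (k + 1) → ℝ) av| ≤ δ + 2 * (2 ^ Gg / M) ∧
      |2 ^ W₁ * (F.x e.1 (c k) / 2 ^ sg) - MvPolynomial.eval
        (Fin.cons t (yc k F c P z₀ g q e.1) : Fin (k + 1) → ℝ) bv| ≤ ν + 2 * (2 ^ Gg / M) ∧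
      (∀ z z' : Fin k → ℝ, (∀ l, |z l| ≤ 2) → (∀ l, |z' l| ≤ 2) →
        |MvPolynomial.eval (Fin.cons t z : Fin (k + 1) → ℝ) av -
          MvPolynomial.eval (Fin.cons t z' : Fin (k + 1) → ℝ) av| ≤
          2 ^ Gg * ∑ l : Fin k, |z l - z' l| * ((nw W₀ Pr g k q l.succ : ℕ) / M) ∧
        |MvPolynomial.eval (Fin.cons t z : Fin (k + 1) → ℝ) bv -
          MvPolynomial.eval (Fin.cons t z' : Fin (k + 1) → ℝ) bv| ≤
          2 ^ Gg * ∑ l : Fin k, |z l - z' l| * ((nw W₀ Pr g k q l.succ : ℕ) / M)) ∧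
      (∀ s : ℝ, 0 ≤ s → (∀ z : Fin k → ℝ, (∀ i, (jdg (2 ^ X) b₃ i.succ : ℝ) / ((2 ^ X : ℕ) : ℝ) ≤
          z i ∧ z i ≤ ((jdg (2 ^ X) b₃ i.succ : ℝ) + 1) / ((2 ^ X : ℕ) : ℝ)) →
        |MvPolynomial.eval (Fin.cons t z : Fin (k + 1) → ℝ) (bv - av)| ≤ s) →
        cs (fun _ => 0) 1 (bv - av) ≤ (dbm k D C Lp κ Z + 4 * 2 ^ Gg) * (ρ + Θ * s)) ∧
      (∀ B : ℝ, (∀ z : Fin k → ℝ, (∀ i, 0 ≤ z i ∧ z i ≤ 1) →
        |MvPolynomial.eval (Fin.cons t z : Fin (k + 1) → ℝ) (bv - av)| ≤ B) →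
        cs (fun _ => 0) 1 (bv - av) ≤ Θ₁ * B) ∧
      ∃ w ∈ ucube (k + 1), ν₀ ≤ |MvPolynomial.eval w (bv - av)| := by
    intro e he
    obtain ⟨kk, ii, G, b₂, b₃, av, x, px, f1, f2, f3, f4, f5, f6, f7,
      ⟨δ', ρ', hδ', hρ, hρ', hMρ, hpok⟩, f8, f9⟩ := hfact e he
    have hgm : gmm k C Lp H' (M * ρ') κ ≤ 2 ^ Gg := by
      refine le_trans ?_ hGg
      unfold gmm
      have h1 := cC_ge (k := k) hLp
      have h2 : (M : ℝ) * ρ' ≤ M * ρ := mul_le_mul_of_nonneg_left hρ' hMr.le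
      refine mul_le_mul_of_nonneg_right (mul_le_mul_of_nonneg_left (by linarith) ?_) (by linarith)
      positivity
    have hN2 := nw_mul (W₀ := W₀) (Pr := Pr) (g := g) (k := k) hwid
    have h1 := hdet Lp κ M (2 ^ X) (nw W₀ Pr g k (q + X)) G (gN (z₁ (ptr F J e.1))) b₃ av
      (Qh (z₁ (ptr F J e.2))) Z H H' δ' ν ρ' Θ (θ e) kk x px hLp hκ hM1 hKX hZ hH hH' hΘ hν
      (nw_pos W₀ Pr g k (q + X)) hNM hpok.tri hpok.zer hpok.dG hpok.dB hpok.da hpok.dQ hpok.grG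
      hpok.grB hpok.lon hpok.lnr hpok.th0 hpok.mx hpok.mp hpok.near hpok.va hpok.vb hpok.der
      hpok.nc hρ hMρ hpok.r1 hpok.r2 (hρ'.trans hρle) hpok.sf
    have hmx := sub_ncell (K := 2 ^ X) hM1 (by omega) (nw_pos W₀ Pr g k (q + X)) hpok.mx
    have hNs : ∀ l : Fin k, (((2 ^ X * nw W₀ Pr g k (q + X) l.succ : ℕ) : ℕ) : ℝ) =
        ((nw W₀ Pr g k q l.succ : ℕ) : ℝ) := fun l => by
      rw [congrFun hN2 l.succ]
    simp only [hNs] at h1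
    simp only [hN2, f2] at h1 hmx
    rw [f3] at h1
    obtain ⟨h2, h3, h4, h5⟩ := h1
    have e4 : (fun i : Fin k => rpos M (nw W₀ Pr g k q) G b₂ (bse px) i.succ) =
      yc k F c P z₀ g q e.1 := f4
    rw [e4] at h2 h3
    have ht : 0 ≤ tps J W₀ W₁ Pr q (F.T e.1) ∧ tps J W₀ W₁ Pr q (F.T e.1) ≤ 1 := by
      rw [← f3]
      exact rpos_mem hM1 (nw_pos W₀ Pr g k q) hmx 0
    have hG0 : gmm k C Lp H' (M * ρ') κ / M ≤ 2 ^ Gg / M := div_le_div_of_nonneg_right hgm hMr.le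
    have h1M : 1 / (M : ℝ) ≤ 2 ^ Gg / M :=
      div_le_div_of_nonneg_right (one_le_pow₀ one_le_two) hMr.le
    refine ⟨av, _, b₃, tps J W₀ W₁ Pr q (F.T e.1), ht.1, ht.2, f5, f6, f7, ?_, ?_, ?_, ?_, f8, f9⟩
    · have h7 := abs_sub_le (2 ^ W₁ * (F.x e.1 (c k) / 2 ^ sg)) (px none) (MvPolynomial.eval
        (Fin.cons (tps J W₀ W₁ Pr q (F.T e.1)) (yc k F c P z₀ g q e.1) : Fin (k + 1) → ℝ) av)
      linarith
    · have h7 := abs_sub_le (2 ^ W₁ * (F.x e.1 (c k) / 2 ^ sg)) (px none) (MvPolynomial.eval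
        (Fin.cons (tps J W₀ W₁ Pr q (F.T e.1)) (yc k F c P z₀ g q e.1) : Fin (k + 1) → ℝ)
          (MvPolynomial.bind₁ (nchi M (nw W₀ Pr g k q) G b₂) (gN (z₁ (ptr F J e.1)))))
      linarith
    · intro z z' hz hz'
      have h6 := h4 _ ht.1 ht.2 z z' hz hz'
      have hsum : 0 ≤ ∑ l : Fin k, |z l - z' l| * ((nw W₀ Pr g k q l.succ : ℕ) / (M : ℝ)) :=
        Finset.sum_nonneg fun l _ => by positivity
      exact ⟨h6.1.trans (mul_le_mul_of_nonneg_right hgm hsum),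
        h6.2.trans (mul_le_mul_of_nonneg_right hgm hsum)⟩
    · intro s hs hsl
      refine (h5 s hs hsl).trans ?_
      have hd0 : 0 ≤ dbm k D C Lp κ Z := by
        have := cC_ge (k := k) hLp
        unfold dbm
        positivity
      refine mul_le_mul (by linarith) (by linarith) (by positivity) (by positivity)
  have hN2M : ∀ l : Fin k, ((nw W₀ Pr g k q l.succ : ℕ) : ℝ) / M / 2 ^ W₁ =
      1 / 2 ^ (g l + q) := by
    intro l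
    have hw : wid W₀ g l.succ = g l := by
      unfold wid
      rw [if_neg (by simp)]
      simp
    have h1 := hwid l.succ l.succ.2
    rw [hw] at h1
    rw [hM]
    unfold nw
    rw [hw]
    push_cast
    have e1 : Pr - g l - q = Pr - (g l + q) := by omega
    rw [e1, two_pow_sub hWP, two_pow_sub (show g l + q ≤ Pr by omega)]
    field_simp
  have hgrad : ∀ (R : MvPolynomial (Fin (k + 1)) ℝ) (t : ℝ) (z z' : Fin k → ℝ),
      |MvPolynomial.eval (Fin.cons t z : Fin (k + 1) → ℝ) R -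
        MvPolynomial.eval (Fin.cons t z' : Fin (k + 1) → ℝ) R| ≤
          2 ^ Gg * ∑ l : Fin k, |z l - z' l| * ((nw W₀ Pr g k q l.succ : ℕ) / M) →
      |MvPolynomial.eval (Fin.cons t z : Fin (k + 1) → ℝ) R / 2 ^ W₁ -
        MvPolynomial.eval (Fin.cons t z' : Fin (k + 1) → ℝ) R / 2 ^ W₁| ≤
        2 ^ Gg * ∑ l : Fin k, |z l - z' l| / 2 ^ (g l + q) := by
    intro R t z z' h
    rw [← sub_div, abs_div, abs_of_pos hW0, div_le_iff₀ hW0]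
    refine h.trans (le_of_eq ?_)
    rw [mul_assoc, Finset.sum_mul]
    congr 1
    refine Finset.sum_congr rfl fun l _ => ?_
    have h1 := hN2M l
    have h2 : ((nw W₀ Pr g k q l.succ : ℕ) : ℝ) / M = 1 / 2 ^ (g l + q) * 2 ^ W₁ := by
      rw [← h1]
      field_simp
    rw [h2]
    ring
  refine ⟨fun e => eqv (p e), a, b, ?_, ?_, ?_, ?_, ?_, ?_, ?_, ?_⟩
  · intro e e' he he' hAA hWW
    have h1 : z₁' (slam F W₁ e.2) = z₁' (slam F W₁ e'.2) := (Prod.ext_iff.1 hAA).1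
    have h2 := Prod.ext_iff.1 hWW
    have h3 : F.T e.1 = F.T e'.1 := (Prod.ext_iff.1 h2.1).1
    have h4 := Prod.ext_iff.1 h2.2
    have h5 : z₀' (slam F W₀ e.1) = z₀' (slam F W₀ e'.1) := h4.1
    have h6 := Prod.ext_iff.1 h4.2
    have h7 : ce k F c P z₀ g q e.1 = ce k F c P z₀ g q e'.1 := h6.1
    have h8 : eqv (p e) = eqv (p e') := h6.2
    rw [ha]
    simp only
    rw [h8, harr, hGf, hbf]
    simp only
    rw [h1, h3, h5, h7]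
  · intro e e' he he' hBB hWW
    have h1 : z₁' (slam F W₁ e.1) = z₁' (slam F W₁ e'.1) := hBB
    have h2 := Prod.ext_iff.1 hWW
    have h3 : F.T e.1 = F.T e'.1 := (Prod.ext_iff.1 h2.1).1
    have h4 := Prod.ext_iff.1 h2.2
    have h5 : z₀' (slam F W₀ e.1) = z₀' (slam F W₀ e'.1) := h4.1
    have h6 := Prod.ext_iff.1 h4.2
    have h7 : ce k F c P z₀ g q e.1 = ce k F c P z₀ g q e'.1 := h6.1
    rw [hb, hGf, hbf]
    simp only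
    rw [h1, h3, h5, h7]
  · intro e he
    obtain ⟨av, bv, b₃, t, t0, t1, g1, g2, g3, g4, g5, g6, g7, g8, g9⟩ := hout e he
    rw [g2]
    have e1 : F.x e.1 (c k) / 2 ^ sg - MvPolynomial.eval
        (Fin.cons t (yc k F c P z₀ g q e.1) : Fin (k + 1) → ℝ) av / 2 ^ W₁ =
        (2 ^ W₁ * (F.x e.1 (c k) / 2 ^ sg) - MvPolynomial.eval
          (Fin.cons t (yc k F c P z₀ g q e.1) : Fin (k + 1) → ℝ) av) / 2 ^ W₁ := by
      field_simp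
    rw [e1, abs_div, abs_of_pos hW0, div_le_iff₀ hW0]
    refine (g4.trans hδn).trans (le_of_eq ?_)
    ring
  · intro e he
    obtain ⟨av, bv, b₃, t, t0, t1, g1, g2, g3, g4, g5, g6, g7, g8, g9⟩ := hout e he
    rw [g3]
    have e1 : F.x e.1 (c k) / 2 ^ sg - MvPolynomial.eval
        (Fin.cons t (yc k F c P z₀ g q e.1) : Fin (k + 1) → ℝ) bv / 2 ^ W₁ =
        (2 ^ W₁ * (F.x e.1 (c k) / 2 ^ sg) - MvPolynomial.eval
          (Fin.cons t (yc k F c P z₀ g q e.1) : Fin (k + 1) → ℝ) bv) / 2 ^ W₁ := by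
      field_simp
    rw [e1, abs_div, abs_of_pos hW0, div_le_iff₀ hW0]
    refine (g5.trans hνn).trans (le_of_eq ?_)
    ring
  · intro e he z z' hz hz'
    obtain ⟨av, bv, b₃, t, t0, t1, g1, g2, g3, g4, g5, g6, g7, g8, g9⟩ := hout e he
    rw [g2, g2]
    exact hgrad av t z z' (g6 z z' hz hz').1
  · intro e he z z' hz hz'
    obtain ⟨av, bv, b₃, t, t0, t1, g1, g2, g3, g4, g5, g6, g7, g8, g9⟩ := hout e he
    rw [g3, g3]
    exact hgrad bv t z z' (g6 z z' hz hz').2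
  · intro e he s hs hin x hx
    obtain ⟨av, bv, b₃, t, t0, t1, g1, g2, g3, g4, g5, g6, g7, g8, g9⟩ := hout e he
    have hev : ∀ z, Pool.JMN.ev (fun α => a e α - b e α) z = -(MvPolynomial.eval
        (Fin.cons t z : Fin (k + 1) → ℝ) (bv - av) / 2 ^ W₁) := by
      intro z
      rw [Pool.JMN.ev_sub, g2, g3, map_sub]
      ring
    have h1 := g7 (2 ^ W₁ * s) (by positivity) (fun z hz => by
      have h2 := hin z (fun l => by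
        have h3 := hz l
        have h4 : ((jdg (2 ^ X) b₃ l.succ : ℕ) : ℝ) =
            ((⌊(2 : ℝ) ^ X * yc k F c P z₀ g q e.1 l⌋ : ℤ) : ℝ) := by exact_mod_cast g1 l
        unfold Pool.XBG.crn Pool.XBG.cel
        rw [one_mul, ← h4, ← add_div]
        push_cast at h3 ⊢
        exact h3)
      rw [hev, abs_neg, abs_div, abs_of_pos hW0, div_le_iff₀ hW0] at h2
      rw [mul_comm]
      exact h2)
    have h5 : |MvPolynomial.eval (Fin.cons t x : Fin (k + 1) → ℝ) (bv - av)| ≤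
        cs (fun _ => 0) 1 (bv - av) := by
      refine le_cs _ _ _ _ fun i => ?_
      rw [zero_add]
      refine Fin.cases ?_ (fun i => ?_) i
      · rw [Fin.cons_zero]
        exact ⟨t0, t1⟩
      · rw [Fin.cons_succ]
        exact hx i
    rw [hev, abs_neg, abs_div, abs_of_pos hW0, div_le_iff₀ hW0]
    refine (h5.trans h1).trans ?_
    have hd0 : 0 ≤ dbm k D C Lp κ Z + 4 * 2 ^ Gg := by
      have := cC_ge (k := k) hLp
      unfold dbm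
      positivity
    have h6 : ρ + Θ * (2 ^ W₁ * s) ≤ Θ * (2 ^ W₁ * (s + 1 / 2 ^ Pn)) := by
      have h7 : ρ ≤ Θ * (2 ^ W₁ / 2 ^ Pn) := by
        have h8 : (0 : ℝ) ≤ 2 ^ W₁ / 2 ^ Pn := by positivity
        have h9 : (2 : ℝ) ^ W₁ / 2 ^ Pn ≤ Θ * (2 ^ W₁ / 2 ^ Pn) := le_mul_of_one_le_left h8 hΘ
        linarith
      calc ρ + Θ * (2 ^ W₁ * s) ≤ Θ * (2 ^ W₁ / 2 ^ Pn) + Θ * (2 ^ W₁ * s) := by linarith
        _ = _ := by ring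
    calc (dbm k D C Lp κ Z + 4 * 2 ^ Gg) * (ρ + Θ * (2 ^ W₁ * s)) ≤
          (dbm k D C Lp κ Z + 4 * 2 ^ Gg) * (Θ * (2 ^ W₁ * (s + 1 / 2 ^ Pn))) :=
          mul_le_mul_of_nonneg_left h6 hd0
      _ = ((dbm k D C Lp κ Z + 4 * 2 ^ Gg) * Θ) * (2 ^ W₁ * (s + 1 / 2 ^ Pn)) := by ring
      _ ≤ 2 ^ u * (2 ^ W₁ * (s + 1 / 2 ^ Pn)) := mul_le_mul_of_nonneg_right hdu (by positivity)
      _ = _ := by ring
  · intro e he
    obtain ⟨av, bv, b₃, t, t0, t1, g1, g2, g3, g4, g5, g6, g7, g8, g9⟩ := hout e he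
    have hev : ∀ z, Pool.JMN.ev (fun α => a e α - b e α) z = -(MvPolynomial.eval
        (Fin.cons t z : Fin (k + 1) → ℝ) (bv - av) / 2 ^ W₁) := by
      intro z
      rw [Pool.JMN.ev_sub, g2, g3, map_sub]
      ring
    by_contra hcon
    push Not at hcon
    obtain ⟨w, hw, hwv⟩ := g9
    have hΘ0 : (0 : ℝ) < Θ₁ := by linarith
    have h1 := g8 (ν₀ / (2 * Θ₁)) (fun z hz => by
      have h2 := hcon z hz
      rw [hev, abs_neg, abs_div, abs_of_pos hW0, div_lt_iff₀ hW0] at h2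
      have h3 : 1 / 2 ^ P₀' * 2 ^ W₁ ≤ ν₀ / (2 * Θ₁) := by
        rw [le_div_iff₀ (by positivity)]
        refine le_trans (le_of_eq ?_) hP₀
        ring
      linarith)
    have h4 : |MvPolynomial.eval w (bv - av)| ≤ cs (fun _ => 0) 1 (bv - av) := by
      refine le_cs _ _ _ _ fun i => ?_
      rw [zero_add]
      exact hw i
    have h5 : Θ₁ * (ν₀ / (2 * Θ₁)) = ν₀ / 2 := by
      field_simp
    rw [h5] at h1
    linarith

end Pool.GEO
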