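import Pool.Agent.H86.GEO.Gdt
import Pool.Agent.H96.R1.Geo

/-!
# The geometry of the pairs of a member

`geoJ_gd`: `GeoJ` for a member, from the data `GD`, the masses of the events, and numbers.
-/

set_option autoImplicit false

namespace Pool.GEO

open Finset Real
open Pool.Agent.H49.Ent Pool.Agent.H32.Dense Pool.STK Pool.KAF Pool.KAL Pool.KS3 Pool.M3F
open Pool.KJA Pool.KA Pool.K2S Pool.KSAT Pool.PB Pool.STAT Pool.GEN Pool.CLO37 Pool.IEN Pool.EXS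
open Pool.JPN Pool.JMS
open Pool.KM7
open Pool.R1 (GeoJ)

/-- The masses of seven events. -/
lemma ms_seven {V : Type} [Fintype V] {r : V → ℝ} (hr : IsLaw r) {E1 E2 E3 E4 E5 E6 E7 : V → Prop}
    {c : ℝ} (h1 : ms r (fun v => ¬ E1 v) ≤ c) (h2 : ms r (fun v => ¬ E2 v) ≤ c)
    (h3 : ms r (fun v => ¬ E3 v) ≤ c) (h4 : ms r (fun v => ¬ E4 v) ≤ c)
    (h5 : ms r (fun v => ¬ E5 v) ≤ c) (h6 : ms r (fun v => ¬ E6 v) ≤ c)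
    (h7 : ms r (fun v => E3 v ∧ ¬ E7 v) ≤ c) :
    1 - 7 * c ≤ ms r (fun v => E1 v ∧ E2 v ∧ E3 v ∧ E4 v ∧ E5 v ∧ E6 v ∧ E7 v) := by
  have h0 := hr.nonneg
  have ht : ms r (fun _ => True) = 1 := by
    classical
    rw [ms_eq r _ (fun _ => inferInstance)]
    simp only [if_true]
    exact hr.sum_one
  have e1 := ms_or h0 (fun v => ¬ E1 v) (fun v => ¬ E2 v)
  have e2 := ms_or h0 (fun v => ¬ E1 v ∨ ¬ E2 v) (fun v => ¬ E3 v)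
  have e3 := ms_or h0 (fun v => (¬ E1 v ∨ ¬ E2 v) ∨ ¬ E3 v) (fun v => ¬ E4 v)
  have e4 := ms_or h0 (fun v => ((¬ E1 v ∨ ¬ E2 v) ∨ ¬ E3 v) ∨ ¬ E4 v) (fun v => ¬ E5 v)
  have e5 := ms_or h0 (fun v => (((¬ E1 v ∨ ¬ E2 v) ∨ ¬ E3 v) ∨ ¬ E4 v) ∨ ¬ E5 v)
    (fun v => ¬ E6 v)
  have e6 := ms_or h0 (fun v => ((((¬ E1 v ∨ ¬ E2 v) ∨ ¬ E3 v) ∨ ¬ E4 v) ∨ ¬ E5 v) ∨
    ¬ E6 v) (fun v => E3 v ∧ ¬ E7 v)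
  have e7 := ms_or h0 (fun v => E1 v ∧ E2 v ∧ E3 v ∧ E4 v ∧ E5 v ∧ E6 v ∧ E7 v)
    (fun v => (((((¬ E1 v ∨ ¬ E2 v) ∨ ¬ E3 v) ∨ ¬ E4 v) ∨ ¬ E5 v) ∨ ¬ E6 v) ∨
      (E3 v ∧ ¬ E7 v))
  have e8 := ms_le h0 (P := fun _ => True) (P' := fun v =>
    (E1 v ∧ E2 v ∧ E3 v ∧ E4 v ∧ E5 v ∧ E6 v ∧ E7 v) ∨
    ((((((¬ E1 v ∨ ¬ E2 v) ∨ ¬ E3 v) ∨ ¬ E4 v) ∨ ¬ E5 v) ∨ ¬ E6 v) ∨ (E3 v ∧ ¬ E7 v)))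
    (fun v _ _ => by
      by_cases a1 : E1 v
      · by_cases a2 : E2 v
        · by_cases a3 : E3 v
          · by_cases a4 : E4 v
            · by_cases a5 : E5 v
              · by_cases a6 : E6 v
                · by_cases a7 : E7 v
                  · exact Or.inl ⟨a1, a2, a3, a4, a5, a6, a7⟩
                  · exact Or.inr (Or.inr ⟨a3, a7⟩)
                · exact Or.inr (Or.inl (Or.inr a6))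
              · exact Or.inr (Or.inl (Or.inl (Or.inr a5)))
            · exact Or.inr (Or.inl (Or.inl (Or.inl (Or.inr a4))))
          · exact Or.inr (Or.inl (Or.inl (Or.inl (Or.inl (Or.inr a3)))))
        · exact Or.inr (Or.inl (Or.inl (Or.inl (Or.inl (Or.inl (Or.inr a2))))))
      · exact Or.inr (Or.inl (Or.inl (Or.inl (Or.inl (Or.inl (Or.inl a1)))))))
  linarith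

/-- **The geometry of the pairs of a member.** -/
theorem geoJ_gd (k Dq K K₂ n₀ : ℕ) : ∃ (Cg : ℝ) (Kf n₁ : ℕ), 1 ≤ Cg ∧
    ∀ {m J : ℕ} {F : Fam m J} {A : F.Ω → Prop} {c₀ c₁ : ℕ → Fin m} {w₀ w₁ pr q X φ : ℝ}
      {β₀ β₁ : ℕ → ℝ} {ρ : Equiv.Perm (Fin (k + 1))} {Pr sg₀ sg kap : ℕ} {g₀ g₁ : ℕ → ℕ} {L : ℝ}
      {V₀ V₁ : Type} {z₀ : PtT F → V₀} {z₀' : LnT F → V₀} {P₀ : V₀ → ℕ → PN} {z₁ : PtT F → V₁}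
      {z₁' : LnT F → V₁} {P₁ : V₁ → ℕ → PN} {Qh : V₁ → MvPolynomial (Option (Fin (k + 1))) ℝ}
      {ρz : V₁ → ℝ}
      {aF : (Fin (k + 1) → MvPolynomial (Fin (k + 1)) ℝ) →
        MvPolynomial (Option (Fin (k + 1))) ℝ → (Fin (k + 1) → ℤ) → Fin Dq → Fin n₀ →
          MvPolynomial (Fin (k + 1)) ℝ}
      {C τ KK H L' Λ Gb E Z Θ Θ₁ ν₀ θm : ℝ} {u Gg Pn P₀' : ℕ},
      0 < Pe F.p A →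
      GD F A c₀ c₁ k K Dq w₀ w₁ pr q X φ β₀ β₁ ρ Pr sg₀ sg kap g₀ g₁ L z₀ z₀' P₀ z₁ z₁' P₁ Qh
        ρz → 1 ≤ ⌊X * J⌋₊ → (∀ G Q b kk ii, (aF G Q b kk ii).totalDegree ≤ K₂) →
      -- the numbers of the line and of the branches
      1 ≤ C → τ ≤ 1 / ((2 ^ (Pr - ⌊w₁ * J⌋₊) : ℕ) : ℝ) → 1 ≤ KK → 1 ≤ H → 1 ≤ L' →
      360 * (C * H ^ 3) ≤ Λ → 0 ≤ Gb → 0 < E → 1 ≤ Z → 1 ≤ Θ → 1 ≤ Θ₁ →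
      (∀ ω, A ω → ∀ j ≤ Dq, bth Dq KK H L' Λ (ρz (z₁ (ptr F J ω))) j ≤ θm) →
      2 * θm * ((2 ^ (Pr - ⌊w₁ * J⌋₊) : ℕ) : ℝ) ≤ E →
      -- the events
      ms (P2 (Pool.Agent.H49.Ent.cond F.p A True) (slam F ⌊w₀ * J⌋₊)) (fun e =>
        ¬ EvLn F c₁ k ⌊w₁ * J⌋₊ Pr sg z₁ Qh ρz Dq KK H L' Λ Gb E e) ≤ 1 / 14 →
      ms (P2 (Pool.Agent.H49.Ent.cond F.p A True) (slam F ⌊w₀ * J⌋₊)) (fun e =>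
        ¬ EvBr F c₀ k ⌊w₀ * J⌋₊ ⌊w₁ * J⌋₊ Pr sg ⌊q * J⌋₊ g₀ ρ z₀ P₀ z₁ Qh ρz Dq n₀ C τ KK H L' Λ
          aF e) ≤ 1 / 14 →
      ms (P2 (Pool.Agent.H49.Ent.cond F.p A True) (slam F ⌊w₀ * J⌋₊)) (fun e =>
        ¬ EvNs F c₀ k ⌊w₀ * J⌋₊ ⌊w₁ * J⌋₊ Pr sg ⌊q * J⌋₊ ⌊X * J⌋₊ g₀ z₀ P₀ e.1) ≤ 1 / 14 →
      ms (P2 (Pool.Agent.H49.Ent.cond F.p A True) (slam F ⌊w₀ * J⌋₊)) (fun e =>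
        ¬ EvLo F c₁ k ⌊w₀ * J⌋₊ ⌊w₁ * J⌋₊ Pr sg ⌊q * J⌋₊ ⌊X * J⌋₊ g₀ g₁ ρ z₀ P₀ z₁ P₁ Dq kap L Z
          e.1) ≤ 1 / 14 →
      ms (P2 (Pool.Agent.H49.Ent.cond F.p A True) (slam F ⌊w₀ * J⌋₊)) (fun e =>
        ¬ EvIn F c₀ k ⌊w₀ * J⌋₊ ⌊w₁ * J⌋₊ Pr sg ⌊q * J⌋₊ g₀ g₁ ρ z₀ P₀ z₁ P₁ e.1) ≤ 1 / 14 →
      ms (P2 (Pool.Agent.H49.Ent.cond F.p A True) (slam F ⌊w₀ * J⌋₊)) (fun e =>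
        ¬ (EvSf F c₀ k ⌊w₀ * J⌋₊ ⌊w₁ * J⌋₊ Pr sg ⌊q * J⌋₊ ⌊X * J⌋₊ g₀ ρ z₀ P₀ z₁ P₁ Qh aF Θ e ∧
          EvS1 F c₀ k ⌊w₀ * J⌋₊ ⌊w₁ * J⌋₊ Pr sg ⌊q * J⌋₊ g₀ ρ z₀ P₀ z₁ P₁ Qh aF Θ₁ e)) ≤
          1 / 14 →
      ms (P2 (Pool.Agent.H49.Ent.cond F.p A True) (slam F ⌊w₀ * J⌋₊)) (fun e =>
        EvNs F c₀ k ⌊w₀ * J⌋₊ ⌊w₁ * J⌋₊ Pr sg ⌊q * J⌋₊ ⌊X * J⌋₊ g₀ z₀ P₀ e.1 ∧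
        ¬ EvNo F c₀ k ⌊w₀ * J⌋₊ ⌊w₁ * J⌋₊ Pr sg ⌊q * J⌋₊ g₀ ρ z₀ P₀ z₁ P₁ Qh aF ν₀ e) ≤
          1 / 14 →
      -- the numbers of the arrays
      clC k kap L / ((2 ^ (Pr - ⌊w₁ * J⌋₊) : ℕ) : ℝ) ≤ 1 → 30 * C * H ^ 2 * θm ≤ 1 →
      gmm k Cg L (2 * Gb) (((2 ^ (Pr - ⌊w₁ * J⌋₊) : ℕ) : ℝ) * (30 * C * H ^ 2 * θm))
        (clC k kap L) ≤ 2 ^ Gg →
      2 * C * H * θm + 2 * (2 ^ Gg / ((2 ^ (Pr - ⌊w₁ * J⌋₊) : ℕ) : ℝ)) ≤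
        2 ^ ⌊w₁ * J⌋₊ / 2 ^ Pn →
      clC k kap L / ((2 ^ (Pr - ⌊w₁ * J⌋₊) : ℕ) : ℝ) +
        2 * (2 ^ Gg / ((2 ^ (Pr - ⌊w₁ * J⌋₊) : ℕ) : ℝ)) ≤ 2 ^ ⌊w₁ * J⌋₊ / 2 ^ Pn →
      (dbm k Dq Cg L (clC k kap L) Z + 4 * 2 ^ Gg) * Θ ≤ 2 ^ u →
      30 * C * H ^ 2 * θm ≤ 2 ^ ⌊w₁ * J⌋₊ / 2 ^ Pn → 0 < ν₀ →
      2 * Θ₁ * (2 ^ ⌊w₁ * J⌋₊ / 2 ^ P₀') ≤ ν₀ →
      ∃ (br : F.Ω × F.Ω → Fin n₁) (a b : F.Ω × F.Ω → (Fin k → Fin (Kf + 1)) → ℝ)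
        (Ev : F.Ω × F.Ω → Prop), GeoJ k Kf n₁ F A c₀ ⌊w₀ * J⌋₊ ⌊w₁ * J⌋₊ sg ⌊q * J⌋₊ ⌊X * J⌋₊ u
          Gg Pn P₀' g₀ P₀ z₀ z₀' z₁ z₁' br a b Ev := by
  classical
  obtain ⟨Cg, Kf, hCg, hg⟩ := geoJ_of k Dq K K₂
  obtain ⟨n₁, hg⟩ := hg n₀
  refine ⟨Cg, Kf, n₁, hCg, ?_⟩
  intro m J F A c₀ c₁ w₀ w₁ pr q X φ β₀ β₁ ρ Pr sg₀ sg kap g₀ g₁ L V₀ V₁ z₀ z₀' P₀ z₁ z₁' P₁ Qh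
    ρz aF C τ KK H L' Λ Gb E Z Θ Θ₁ ν₀ θm u Gg Pn P₀' hA D hX1 haF hC hτ hKK hH hL' hΛ hGb hE hZ
    hΘ hΘ₁ hθm hθE h1 h2 h3 h4 h5 h6 h7 n1 n2 n3 n4 n5 n6 n7 n8 n9
  have hl := isLaw_cond F.isLaw hA
  have hP2 := P2_isLaw hl (slam F ⌊w₀ * J⌋₊)
  obtain ⟨M, hM⟩ : ∃ M : ℕ, M = 2 ^ (Pr - ⌊w₁ * (J : ℝ)⌋₊) := ⟨_, rfl⟩
  have hMc : ((2 ^ (Pr - ⌊w₁ * (J : ℝ)⌋₊) : ℕ) : ℝ) = (M : ℝ) := by rw [hM]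
  obtain ⟨Ev, hEv⟩ : ∃ Ev : F.Ω × F.Ω → Prop, Ev = fun e => (A e.1 ∧ A e.2) ∧
      (EvLn F c₁ k ⌊w₁ * J⌋₊ Pr sg z₁ Qh ρz Dq KK H L' Λ Gb E e ∧
      EvBr F c₀ k ⌊w₀ * J⌋₊ ⌊w₁ * J⌋₊ Pr sg ⌊q * J⌋₊ g₀ ρ z₀ P₀ z₁ Qh ρz Dq n₀ C τ KK H L' Λ
        aF e ∧
      EvNs F c₀ k ⌊w₀ * J⌋₊ ⌊w₁ * J⌋₊ Pr sg ⌊q * J⌋₊ ⌊X * J⌋₊ g₀ z₀ P₀ e.1 ∧
      EvLo F c₁ k ⌊w₀ * J⌋₊ ⌊w₁ * J⌋₊ Pr sg ⌊q * J⌋₊ ⌊X * J⌋₊ g₀ g₁ ρ z₀ P₀ z₁ P₁ Dq kap L Z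
        e.1 ∧
      EvIn F c₀ k ⌊w₀ * J⌋₊ ⌊w₁ * J⌋₊ Pr sg ⌊q * J⌋₊ g₀ g₁ ρ z₀ P₀ z₁ P₁ e.1 ∧
      (EvSf F c₀ k ⌊w₀ * J⌋₊ ⌊w₁ * J⌋₊ Pr sg ⌊q * J⌋₊ ⌊X * J⌋₊ g₀ ρ z₀ P₀ z₁ P₁ Qh aF Θ e ∧
        EvS1 F c₀ k ⌊w₀ * J⌋₊ ⌊w₁ * J⌋₊ Pr sg ⌊q * J⌋₊ g₀ ρ z₀ P₀ z₁ P₁ Qh aF Θ₁ e) ∧
      EvNo F c₀ k ⌊w₀ * J⌋₊ ⌊w₁ * J⌋₊ Pr sg ⌊q * J⌋₊ g₀ ρ z₀ P₀ z₁ P₁ Qh aF ν₀ e) := ⟨_, rfl⟩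
  have hκ : 1 ≤ clC k kap L := by
    have := clC_ge (r := k) (kap := kap) D.L0
    linarith
  have hκ0 : 0 < clC k kap L := by linarith
  have hM0 : (0 : ℝ) < (M : ℝ) := by
    rw [hM]
    positivity
  obtain ⟨br, a, b, f1, f2, f3, f4, f5, f6, f7, f8⟩ := hg (F := F) (A := A) (c := c₀)
    (W₀ := ⌊w₀ * (J : ℝ)⌋₊) (W₁ := ⌊w₁ * (J : ℝ)⌋₊) (Pr := Pr) (sg := sg) (q := ⌊q * (J : ℝ)⌋₊)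
    (X := ⌊X * (J : ℝ)⌋₊) (u := u) (Gg := Gg) (Pn := Pn) (P₀' := P₀') (g := g₀) (P := P₀)
    (z₀ := z₀) (z₀' := z₀') (z₁ := z₁) (z₁' := z₁') aF (fun v => ren ρ (Qh v))
    (fun v => MvPolynomial.rename ρ (toF (k + 1) ⌊w₁ * (J : ℝ)⌋₊ (P₁ v (k + 1)))) Ev L
    (clC k kap L) Z H (2 * Gb) (2 * C * H * θm)
    (clC k kap L / ((2 ^ (Pr - ⌊w₁ * (J : ℝ)⌋₊) : ℕ) : ℝ)) (30 * C * H ^ 2 * θm) Θ Θ₁ ν₀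
    (fun e => bth Dq KK H L' Λ (ρz (z₁ (ptr F J e.2)))) D.L0 hκ hZ hH (by linarith) hΘ hΘ₁ n1 n2
    D.WP D.PJ hX1 D.wd0 D.dp0 D.n0.tri D.n0.deg (fun v => by
      refine (MvPolynomial.totalDegree_rename_le _ _).trans ?_
      exact (deg_toF _).trans (D.n1.deg _ _)) haF D.n0.cls D.n1.cls (fun e he => by
      rw [hEv] at he
      exact he.1) (by
      intro e he M' N₂ N₃ G b₂ b₃ x px' hM' hN₂ hN₃ hG hx hpx hb₂ hb₃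
      rw [hEv] at he
      obtain ⟨⟨a1, a2⟩, a3, a4, a5, a6, a7, ⟨a8, a9⟩, a10⟩ := he
      subst hM' hN₂ hN₃ hG hx hpx hb₂ hb₃
      exact pok_of (F := F) (A := A) (c₀ := c₀) (c₁ := c₁) (k := k) (D := Dq) (K₀ := K)
        (K₂ := K₂) (n₀ := n₀) (W₀ := ⌊w₀ * (J : ℝ)⌋₊) (W₁ := ⌊w₁ * (J : ℝ)⌋₊) (Pr := Pr)
        (q := ⌊q * (J : ℝ)⌋₊) (X := ⌊X * (J : ℝ)⌋₊) D.n0 D.n1 D.L0 D.W01 D.WP D.PJ D.Pg D.wd0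
        D.wd1 ρ D.r0 D.rk D.rc haF a1 a2 rfl rfl rfl rfl rfl rfl rfl rfl rfl hC hτ hKK hH hL' hΛ
        hGb hE (D.rz0 _ a2) (D.rz1 _ a2) (hθm _ a2) hθE (D.qd _ a2) a3 a4 a5 a6 a7 a8 a9 a10) n3 n4 n5 n6 n7 n8 n9
  refine ⟨br, a, b, Ev, ?_⟩
  exact {
    tri := D.n0.tri
    cls₀ := D.n0.cls
    cls₁ := D.n1.cls
    pos := fun ω hω i hi => D.n0.pos ω hω i hi
    mass := by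
      have e1 := ms_seven hP2 h1 h2 h3 h4 h5 h6 h7
      have e2 : ms (P2 (Pool.Agent.H49.Ent.cond F.p A True) (slam F ⌊w₀ * (J : ℝ)⌋₊)) Ev =
          Pe (P2 (Pool.Agent.H49.Ent.cond F.p A True) (slam F ⌊w₀ * (J : ℝ)⌋₊)) Ev := by
        classical
        rw [Pe_eq]
        exact ms_eq _ _ _
      rw [← e2]
      have e3 := ms_le hP2.nonneg (P' := Ev) (fun e he hh => by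
        obtain ⟨c1, c2, c3⟩ := (P2_pos hl e).1 he
        rw [hEv]
        exact ⟨⟨cond_supp c1, cond_supp c2⟩, hh⟩) (P := _)
      have e4 := e1.trans e3
      linarith
    da := f1
    db := f2
    na := f3
    nb := f4
    ga := f5
    gb := f6
    dbl := f7
    no := f8 }

end Pool.GEO
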