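import Pool.Agent.H86.GEO.Def
import Pool.Agent.H86.GEO.Seg
import Pool.Agent.H15.KM7.Pair
import Pool.Agent.H90.STAT.Ful

/-!
# Doubling on the leaves of a closed label, from the natural cells

`cell_ent`: the entropy of a natural cell. `lon_w`: `lon_ev` in the letters of a family.
-/

set_option autoImplicit false

namespace Pool.GEO

open Finset Real MvPolynomial
open Pool.Agent.H49.Ent Pool.Agent.H32.Dense Pool.STK Pool.KAF Pool.KAL Pool.KS3 Pool.M3F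
open Pool.KJA Pool.KA Pool.K2S Pool.KSAT Pool.PB Pool.STAT Pool.GEN Pool.CLO37 Pool.IEN Pool.EXS
open Pool.KM7

/-- The mass of an event of the first sample. -/
lemma ms_fst {Ω GT : Type} [Fintype Ω] {p : Ω → ℝ} (hp : IsLaw p) (g : Ω → GT) (S : Ω → Prop) :
    ms (P2 p g) (fun e => S e.1) = ms p S := by
  classical
  have h := (P2_fst hp g).Ex_eq (fun ω => if S ω then (1 : ℝ) else 0)
  unfold Pool.Agent.H32.Dense.Ex at h
  unfold ms
  have e1 : ∀ e : Ω × Ω, (if S e.1 then P2 p g e else 0) =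
      P2 p g e * (if S e.1 then (1 : ℝ) else 0) := fun e => by
    split_ifs <;> simp
  have e2 : ∀ ω : Ω, (if S ω then p ω else 0) = p ω * (if S ω then (1 : ℝ) else 0) := fun ω => by
    split_ifs <;> simp
  rw [Finset.sum_congr rfl fun e _ => e1 e, Finset.sum_congr rfl fun ω _ => e2 ω]
  exact h

/-- The mass of an event of the second sample. -/
lemma ms_snd {Ω GT : Type} [Fintype Ω] {p : Ω → ℝ} (hp : IsLaw p) (g : Ω → GT) (S : Ω → Prop) :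
    ms (P2 p g) (fun e => S e.2) = ms p S := by
  classical
  have h := (P2_snd hp g).Ex_eq (fun ω => if S ω then (1 : ℝ) else 0)
  unfold Pool.Agent.H32.Dense.Ex at h
  unfold ms
  have e1 : ∀ e : Ω × Ω, (if S e.2 then P2 p g e else 0) =
      P2 p g e * (if S e.2 then (1 : ℝ) else 0) := fun e => by
    split_ifs <;> simp
  have e2 : ∀ ω : Ω, (if S ω then p ω else 0) = p ω * (if S ω then (1 : ℝ) else 0) := fun ω => by
    split_ifs <;> simp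
  rw [Finset.sum_congr rfl fun e _ => e1 e, Finset.sum_congr rfl fun ω _ => e2 ω]
  exact h

/-- The index of the cell, up to one unit. -/
lemma nidx_near {d : ℕ} {M : ℕ} {N : Fin d → ℕ} {G : Fin d → MvPolynomial (Fin d) ℝ}
    (hN : ∀ i, 1 ≤ N i) (y : Fin d → ℝ) (i : Fin d) :
    (nidx N (ndg M G y) i : ℝ) ≤ (M : ℝ) * (y i - eval y (G i)) / N i ∧
      (M : ℝ) * (y i - eval y (G i)) / N i < nidx N (ndg M G y) i + 1 := by
  have hN0 : (0 : ℝ) < N i := by exact_mod_cast hN i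
  have h4 := nrem_cast hN (ndg M G y) i
  have h5 : ((nrem N (ndg M G y) i : ℕ) : ℝ) = (ndg M G y i : ℝ) -
      (nidx N (ndg M G y) i : ℝ) * N i := by exact_mod_cast h4
  have h6 : ((nrem N (ndg M G y) i : ℕ) : ℝ) + 1 ≤ N i := by
    exact_mod_cast nrem_lt hN (ndg M G y) i
  have h7 : (0 : ℝ) ≤ ((nrem N (ndg M G y) i : ℕ) : ℝ) := Nat.cast_nonneg _
  have h8 : (ndg M G y i : ℝ) ≤ (M : ℝ) * (y i - eval y (G i)) := Int.floor_le _
  have h9 : (M : ℝ) * (y i - eval y (G i)) < (ndg M G y i : ℝ) + 1 := Int.lt_floor_add_one _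
  constructor
  · rw [le_div_iff₀ hN0]
    linarith
  · rw [div_lt_iff₀ hN0]
    linarith

/-- **The entropy of a natural cell.** -/
lemma cell_ent {d : ℕ} {Ω Z Z₀ : Type} [Fintype Ω] {p : Ω → ℝ} (hp : IsLaw p)
    (y : Ω → Fin d → ℝ) (z₀ : Ω → Z₀) (z : Ω → Z) (G : Z₀ → Fin d → MvPolynomial (Fin d) ℝ)
    {M : ℕ} {N₃ : Fin d → ℕ} (hN : ∀ i, 1 ≤ N₃ i) (c : Z → Fin d → ℝ) (w : ℕ → ℝ)
    (hdet : ∀ ω ω', 0 < p ω → 0 < p ω' → z ω = z ω' → z₀ ω = z₀ ω')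
    (hb : ∀ ω, 0 < p ω → ∀ i : Fin d,
      |(M : ℝ) * (y ω i - eval (y ω) (G (z₀ ω) i)) / N₃ i - c (z ω) i| ≤ w i) :
    CH p (fun ω => (z₀ ω, nidx N₃ (ndg M (G (z₀ ω)) (y ω)))) z ≤
      ∑ i ∈ range d, Real.log (2 * (2 * w i + 1) + 1) := by
  have h1 := Ful.ch_vec hp (fun ω => nidx N₃ (ndg M (G (z₀ ω)) (y ω))) z
    (fun i => 2 * w i + 1) (by
      intro i ω ω' hω hω' hz _
      have h2 := nidx_near (M := M) (G := G (z₀ ω)) hN (y ω) i
      have h3 := nidx_near (M := M) (G := G (z₀ ω')) hN (y ω') i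
      have h4 := hb ω hω i
      have h5 := hb ω' hω' i
      rw [hz] at h4
      push_cast
      rw [abs_le] at h4 h5 ⊢
      constructor <;> linarith [h2.1, h2.2, h3.1, h3.2, h4.1, h4.2, h5.1, h5.2])
  refine le_trans ?_ h1
  refine CH_mono_left hp.nonneg ?_
  intro ω ω' hω hω' h
  have h2 : nidx N₃ (ndg M (G (z₀ ω)) (y ω)) = nidx N₃ (ndg M (G (z₀ ω')) (y ω')) :=
    (Prod.ext_iff.1 h).1
  have h3 : z ω = z ω' := (Prod.ext_iff.1 h).2
  exact Prod.ext (hdet ω ω' hω hω' h3) h2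

variable {m J : ℕ} {F : Fam m J}

/-- **Doubling of all the polynomials on the leaves of a closed label**, from the natural cells of
another label. -/
theorem lon_w (k D K : ℕ) : ∃ C : ℝ, 1 ≤ C ∧ ∀ {m J : ℕ} {F : Fam m J} {c : ℕ → Fin m}
    {W sg : ℕ} {g : ℕ → ℕ} {L : ℝ} {B : F.Ω → Prop} {V V₀ : Type} {z : PtT F → V}
    {z' : LnT F → V} {P : V → ℕ → PN} {P₀ kap N : ℕ} {z₀ : PtT F → V₀}
    {G : V₀ → Fin (k + 1) → MvPolynomial (Fin (k + 1)) ℝ} {N₃ : Fin (k + 1) → ℕ}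
    {μ e₁ h b : ℝ}, NLabW F c k W sg g K L B z z' P → 0 ≤ L →
    0 < law F.p B True → P₀ ≤ J → W ≤ P₀ → P₀ ≤ g k →
    (∀ i < k + 1, W ≤ wid W g i + kap ∧ wid W g i ≤ P₀) →
    MxC N μ (cond F.p B True) (KSAT.slam F W) (K2S.Fam.pt F)
      (fun _ => ∑ i, Real.log (ngw W P₀ g (k + 1) i)) (fun ξ => ybw c k W P₀ g (P (z ξ)) ξ) →
    0 ≤ μ → Real.log ((2 ^ (P₀ - W) : ℕ) : ℝ) - CH (cond F.p B True)
      (fun ω => tdg W P₀ (K2S.Fam.pt F ω)) (KSAT.slam F W) ≤ e₁ → 0 ≤ e₁ → 0 < h →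
    (∀ i, 1 ≤ N₃ i) →
    CH (cond F.p B True) (fun ω => (z₀ (ptr F J ω), nidx N₃ (ndg (2 ^ (P₀ - W))
      (G (z₀ (ptr F J ω))) (bse (zsw c k W sg (ptr F J ω)))))) (fun ω => z (ptr F J ω)) ≤ b →
    ms (cond F.p B True) (fun ω => ¬ ∀ R : MvPolynomial (Option (Fin (k + 1))) ℝ,
      R.totalDegree ≤ D → ∀ u ∈ ucube (k + 1), ∃ y' ∈ ncell (2 ^ (P₀ - W)) N₃
        (G (z₀ (ptr F J ω))) (nidx N₃ (ndg (2 ^ (P₀ - W)) (G (z₀ (ptr F J ω)))
          (bse (zsw c k W sg (ptr F J ω))))),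
        Psi R (clC k kap L / ((2 ^ (P₀ - W) : ℕ) : ℝ))
          (cpt (chw (k + 1) W P₀ g (P (z (ptr F J ω)))) u) ≤ 2 ^ D * Real.exp h *
        Psi R (clC k kap L / ((2 ^ (P₀ - W) : ℕ) : ℝ))
          (lpt (toF (k + 1) W (P (z (ptr F J ω)) (k + 1))) y')) ≤
      (2 * D * b + C * ((N + 1) * (e₁ + 1) + μ)) / h := by
  obtain ⟨C, hC, H⟩ := lon_ev (k + 1) D ((K + 1) ^ (k + 1 + 1) + 1)
  refine ⟨C, hC, ?_⟩
  intro m J F c W sg g L B V V₀ z z' P P₀ kap N z₀ G N₃ μ e₁ h b hN hL hB hPJ hWP hPg hw hmx hμ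
    hT he₁ hh hN₃ hb
  have hM : 1 ≤ 2 ^ (P₀ - W) := Nat.one_le_two_pow
  have hM0 : (0 : ℝ) < ((2 ^ (P₀ - W) : ℕ) : ℝ) := by positivity
  have hC₀ := clC_ge (r := k) (kap := kap) hL
  have hlf := cleaf_w hN hL hB hPJ hWP hPg hw
  have hpB : ∀ ω, 0 < cond F.p B True ω → B ω := by
    intro ω hω
    unfold Pool.Agent.H49.Ent.cond at hω
    split_ifs at hω with h
    · exact of_eq_true h
    · exact absurd hω (lt_irrefl _)
  have h1 := H (clC k kap L) F.Ω (LnT F) (PtT F) V V₀ (cond F.p B True) (KSAT.slam F W)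
    (K2S.Fam.pt F) (tdg W P₀) (zsw c k W sg) (avw c k W sg) (bvw c k sg) z z'
    (fun ξ => ybw c k W P₀ g (P (z ξ)) ξ) (fun _ => ngw W P₀ g (k + 1))
    (fun v => chw (k + 1) W P₀ g (P v)) (2 ^ (P₀ - W)) N μ e₁ h
    (fun v => toF (k + 1) W (P v (k + 1))) z₀ G N₃ (by linarith) hM hlf hmx hμ hT he₁ hh hN₃ (by
      intro ω hω
      have h2 := hN.posN ω (hpB ω hω)
      have h3 : eval (bse (zsw c k W sg (ptr F J ω))) (toF (k + 1) W
          (P (z (ptr F J ω)) (k + 1))) = 2 ^ W * eval (px c (ptr F J ω))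
            (P (z (ptr F J ω)) (k + 1)) := by
        rw [eval_toF, ← bse_unF c k W sg (ptr F J ω) le_rfl (hN.tri _ (k + 1))]
      show |zsw c k W sg (ptr F J ω) none - eval (bse (zsw c k W sg (ptr F J ω)))
        (toF (k + 1) W (P (z (ptr F J ω)) (k + 1)))| ≤ _
      rw [h3]
      have hW0 : (0 : ℝ) < 2 ^ W := by positivity
      have h4 : zsw c k W sg (ptr F J ω) none - 2 ^ W * eval (px c (ptr F J ω))
          (P (z (ptr F J ω)) (k + 1)) = 2 ^ W * (px c (ptr F J ω) (k + 1) / 2 ^ sg -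
            eval (px c (ptr F J ω)) (P (z (ptr F J ω)) (k + 1))) := by
        show 2 ^ W * (px c (ptr F J ω) (k + 1) / 2 ^ sg) - _ = _
        ring
      rw [h4, abs_mul, abs_of_pos hW0]
      have h5 : (1 : ℝ) / 2 ^ g k + 1 / 2 ^ J ≤ 2 / 2 ^ P₀ := by
        have h6 : (1 : ℝ) / 2 ^ g k ≤ 1 / 2 ^ P₀ := div_le_div_of_nonneg_left zero_le_one
          (by positivity) (pow_le_pow_right₀ one_le_two hPg)
        have h7 : (1 : ℝ) / 2 ^ J ≤ 1 / 2 ^ P₀ := div_le_div_of_nonneg_left zero_le_one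
          (by positivity) (pow_le_pow_right₀ one_le_two hPJ)
        have h8 : (2 : ℝ) / 2 ^ P₀ = 1 / 2 ^ P₀ + 1 / 2 ^ P₀ := by ring
        linarith
      have h6 : (2 : ℝ) ^ W * (2 / 2 ^ P₀) = 2 / ((2 ^ (P₀ - W) : ℕ) : ℝ) := by
        push_cast
        rw [two_pow_sub hWP]
        field_simp
      calc (2 : ℝ) ^ W * _ ≤ 2 ^ W * (2 / 2 ^ P₀) := mul_le_mul_of_nonneg_left (h2.trans h5) hW0.le
        _ = 2 / ((2 ^ (P₀ - W) : ℕ) : ℝ) := h6
        _ ≤ clC k kap L / ((2 ^ (P₀ - W) : ℕ) : ℝ) := div_le_div_of_nonneg_right hC₀ hM0.le)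
  refine h1.trans ?_
  refine div_le_div_of_nonneg_right ?_ hh.le
  have h2 : 2 * (D : ℝ) * CH (cond F.p B True) (fun ω => (z₀ (K2S.Fam.pt F ω),
      nidx N₃ (ndg (2 ^ (P₀ - W)) (G (z₀ (K2S.Fam.pt F ω)))
        (bse (zsw c k W sg (K2S.Fam.pt F ω)))))) (fun ω => z (K2S.Fam.pt F ω)) ≤ 2 * D * b :=
    mul_le_mul_of_nonneg_left hb (by positivity)
  linarith

end Pool.GEO
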