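import Pool.Agent.H86.GEO.Gmb

/-!
# The numbers of the geometry of the pairs

`GeoJ.mono`: `GeoJ` with weaker numbers. `fin_bd`: a constant times a power of `exp (φ J)` is small.
`geoJ_num`: the geometry of the pairs of a member, with the numbers of `GeoS`.
-/

set_option autoImplicit false

namespace Pool.GEO

open Finset Real
open Pool.Agent.H49.Ent Pool.Agent.H32.Dense Pool.STK Pool.KAF Pool.KAL Pool.KS3 Pool.M3F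
open Pool.KJA Pool.KA Pool.K2S Pool.KSAT Pool.PB Pool.STAT Pool.GEN Pool.CLO37 Pool.IEN Pool.EXS
open Pool.JPN Pool.JMS
open Pool.KM7
open Pool.R1 (GeoJ)
open Pool.JMP (InC)

/-- Weaker numbers. -/
theorem geoJ_mono {m J k K n₀ : ℕ} {F : Fam m J} {A : F.Ω → Prop} {c : ℕ → Fin m}
    {w₀ w₁ sg d X u G Pn P₀ : ℕ} {g : ℕ → ℕ} {V₀ V₁ : Type} {P : V₀ → ℕ → PN} {z₀ : PtT F → V₀}
    {z₀' : LnT F → V₀} {z₁ : PtT F → V₁} {z₁' : LnT F → V₁} {br : F.Ω × F.Ω → Fin n₀}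
    {a b : F.Ω × F.Ω → (Fin k → Fin (K + 1)) → ℝ} {E : F.Ω × F.Ω → Prop}
    (h : GeoJ k K n₀ F A c w₀ w₁ sg d X u G Pn P₀ g P z₀ z₀' z₁ z₁' br a b E) {u' G' P₀' : ℕ}
    (hu : u ≤ u') (hG : G ≤ G') (hP : P₀ ≤ P₀') :
    GeoJ k K n₀ F A c w₀ w₁ sg d X u' G' Pn P₀' g P z₀ z₀' z₁ z₁' br a b E where
  tri := h.tri
  cls₀ := h.cls₀
  cls₁ := h.cls₁
  pos := h.pos
  mass := h.mass
  da := h.da
  db := h.db
  na := h.na
  nb := h.nb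
  ga := fun e he z z' hz hz' => (h.ga e he z z' hz hz').trans
    (mul_le_mul_of_nonneg_right (pow_le_pow_right₀ one_le_two hG)
      (Finset.sum_nonneg fun l _ => by positivity))
  gb := fun e he z z' hz hz' => (h.gb e he z z' hz hz').trans
    (mul_le_mul_of_nonneg_right (pow_le_pow_right₀ one_le_two hG)
      (Finset.sum_nonneg fun l _ => by positivity))
  dbl := fun e he s hs hx x hx' => (h.dbl e he s hs hx x hx').trans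
    (mul_le_mul_of_nonneg_right (pow_le_pow_right₀ one_le_two hu) (by positivity))
  no := fun e he => by
    obtain ⟨x, h1, h2⟩ := h.no e he
    refine ⟨x, h1, le_trans ?_ h2⟩
    exact one_div_le_one_div_of_le (by positivity) (pow_le_pow_right₀ one_le_two hP)

/-- At most a constant times a power. -/
def Bd (E c : ℝ) (n : ℕ) (x : ℝ) : Prop := 0 ≤ x ∧ x ≤ c * E ^ n

lemma Bd.mul {E c c' x x' : ℝ} {n n' : ℕ} (h : Bd E c n x) (h' : Bd E c' n' x') :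
    Bd E (c * c') (n + n') (x * x') := by
  refine ⟨mul_nonneg h.1 h'.1, ?_⟩
  calc x * x' ≤ (c * E ^ n) * (c' * E ^ n') := mul_le_mul h.2 h'.2 h'.1 (h.1.trans h.2)
    _ = _ := by ring

lemma Bd.pow {E c x : ℝ} {n : ℕ} (h : Bd E c n x) (p : ℕ) : Bd E (c ^ p) (n * p) (x ^ p) := by
  refine ⟨pow_nonneg h.1 p, ?_⟩
  calc x ^ p ≤ (c * E ^ n) ^ p := pow_le_pow_left₀ h.1 h.2 p
    _ = _ := by rw [mul_pow, pow_mul]

lemma Bd.add {E c c' x x' : ℝ} {n n' : ℕ} (hE : 1 ≤ E) (hc : 0 ≤ c) (hc' : 0 ≤ c')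
    (h : Bd E c n x) (h' : Bd E c' n' x') : Bd E (c + c') (n + n') (x + x') := by
  refine ⟨add_nonneg h.1 h'.1, ?_⟩
  have h1 : E ^ n ≤ E ^ (n + n') := pow_le_pow_right₀ hE (Nat.le_add_right _ _)
  have h2 : E ^ n' ≤ E ^ (n + n') := pow_le_pow_right₀ hE (Nat.le_add_left _ _)
  calc x + x' ≤ c * E ^ n + c' * E ^ n' := add_le_add h.2 h'.2
    _ ≤ c * E ^ (n + n') + c' * E ^ (n + n') :=
        add_le_add (mul_le_mul_of_nonneg_left h1 hc) (mul_le_mul_of_nonneg_left h2 hc')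
    _ = _ := by ring

lemma Bd.cst {E c : ℝ} (hc : 0 ≤ c) : Bd E c 0 c := ⟨hc, by simp⟩

/-- A constant times a power of `exp (φ J)` is small. -/
lemma fin_bd (c : ℝ) (N : ℕ) {s : ℝ} (hs : 0 < s) : ∃ φ₀ : ℝ, 0 < φ₀ ∧ ∃ J₀ : ℕ, ∀ φ : ℝ,
    φ ≤ φ₀ → ∀ J : ℕ, J₀ ≤ J → c * Real.exp (φ * J) ^ N ≤ (2 : ℝ) ^ (s * (J : ℝ)) := by
  have hl2 : 1 / 2 < Real.log 2 := by
    have := Real.log_two_gt_d9
    linarith
  refine ⟨s / (4 * (N + 1)), by positivity, ?_⟩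
  obtain ⟨J₀, hJ₀⟩ := exists_nat_ge (4 * |c| / s)
  refine ⟨J₀, fun φ hφ J hJ => ?_⟩
  have hJ' : (J₀ : ℝ) ≤ J := by exact_mod_cast hJ
  have hJ0 : (0 : ℝ) ≤ J := Nat.cast_nonneg J
  have h1 : 4 * |c| ≤ s * J := by
    have := hJ₀.trans hJ'
    rw [div_le_iff₀ hs] at this
    linarith
  have h2 : |c| ≤ Real.exp (s / 4 * J) := by
    have := Real.add_one_le_exp (s / 4 * J)
    linarith
  have h3 : Real.exp (φ * J) ^ N ≤ Real.exp (s / 4 * J) := by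
    rw [← Real.exp_nat_mul]
    refine Real.exp_le_exp.2 ?_
    have hN0 : (0 : ℝ) ≤ N := Nat.cast_nonneg N
    have h4 : (N : ℝ) * φ ≤ s / 4 := by
      have h5 : (N : ℝ) * φ ≤ N * (s / (4 * (N + 1))) := mul_le_mul_of_nonneg_left hφ hN0
      have h6 : (N : ℝ) * (s / (4 * (N + 1))) ≤ s / 4 := by
        rw [mul_div_assoc', div_le_div_iff₀ (by positivity) (by norm_num)]
        nlinarith
      linarith
    calc (N : ℝ) * (φ * J) = N * φ * J := by ring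
      _ ≤ _ := mul_le_mul_of_nonneg_right h4 hJ0
  have h5 : (2 : ℝ) ^ (s * (J : ℝ)) = Real.exp (Real.log 2 * (s * J)) := by
    rw [Real.rpow_def_of_pos two_pos]
  rw [h5]
  calc c * Real.exp (φ * J) ^ N ≤ |c| * Real.exp (φ * J) ^ N :=
        mul_le_mul_of_nonneg_right (le_abs_self c) (by positivity)
    _ ≤ Real.exp (s / 4 * J) * Real.exp (s / 4 * J) :=
        mul_le_mul h2 h3 (by positivity) (by positivity)
    _ = Real.exp (s / 2 * J) := by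
        rw [← Real.exp_add]
        congr 1
        ring
    _ ≤ _ := by
      refine Real.exp_le_exp.2 ?_
      have h6 : 0 ≤ s * J := by positivity
      nlinarith

/-- The constant of the chart. -/
lemma bd_cC {k : ℕ} {L E : ℝ} (hL : 0 ≤ L) (hE : 1 + L ≤ E) :
    Bd E (2 * (((k + 1 : ℕ) : ℝ)) ^ (k + 1 + 1)) (1 * (k + 1 + 1)) (cC k L) := by
  have h1 : Bd E ((k + 1 : ℕ) : ℝ) 1 (1 + ((k + 1 : ℕ) : ℝ) * L) := by
    refine ⟨by positivity, ?_⟩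
    have h2 : (1 : ℝ) ≤ ((k + 1 : ℕ) : ℝ) := by
      push_cast
      have : (0 : ℝ) ≤ k := Nat.cast_nonneg k
      linarith
    rw [pow_one]
    calc 1 + ((k + 1 : ℕ) : ℝ) * L ≤ ((k + 1 : ℕ) : ℝ) * (1 + L) := by linarith
      _ ≤ _ := mul_le_mul_of_nonneg_left hE (by positivity)
  have h2 := (Bd.cst (E := E) (show (0 : ℝ) ≤ 2 by norm_num)).mul (h1.pow (k + 1 + 1))
  rw [zero_add] at h2
  exact h2

/-- The constant of the leaf. -/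
lemma bd_clC (k : ℕ) : ∃ (c : ℝ) (n : ℕ), 0 ≤ c ∧ ∀ {kap : ℕ} {L E : ℝ}, 0 ≤ L → 1 + L ≤ E →
    (2 : ℝ) ^ kap ≤ E → Bd E c n (clC k kap L) := by
  refine ⟨(2 * ((k + 1 : ℕ) : ℝ) + 1) * (4 * (((k + 1 : ℕ) : ℝ)) ^ (k + 1 + 1)) ^ 2 + 2,
    0 + (1 + 1 * (k + 1 + 1)) * 2 + 0, by positivity, ?_⟩
  intro kap L E hL hE hkap
  have hE1 : 1 ≤ E := by linarith
  have h1 : Bd E ((k + 1 : ℕ) : ℝ) 1 (1 + ((k + 1 : ℕ) : ℝ) * L) := by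
    refine ⟨by positivity, ?_⟩
    have h2 : (1 : ℝ) ≤ ((k + 1 : ℕ) : ℝ) := by
      push_cast
      have : (0 : ℝ) ≤ k := Nat.cast_nonneg k
      linarith
    rw [pow_one]
    calc 1 + ((k + 1 : ℕ) : ℝ) * L ≤ ((k + 1 : ℕ) : ℝ) * (1 + L) := by linarith
      _ ≤ _ := mul_le_mul_of_nonneg_left hE (by positivity)
  have h2 : Bd E 4 1 ((2 : ℝ) ^ (kap + 2)) := by
    refine ⟨by positivity, ?_⟩
    rw [pow_one, pow_add]
    linarith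
  have h3 := ((Bd.cst (E := E) (show (0 : ℝ) ≤ 2 * ((k + 1 : ℕ) : ℝ) + 1 by positivity)).mul
    ((h2.mul (h1.pow (k + 1 + 1))).pow 2)).add hE1 (by positivity) (by norm_num)
    (Bd.cst (E := E) (show (0 : ℝ) ≤ 2 by norm_num))
  exact h3

/-- The powers. -/
noncomputable def RR (J : ℕ) (x : ℝ) : ℝ := (2 : ℝ) ^ (x * (J : ℝ))

lemma RR_pos (J : ℕ) (x : ℝ) : 0 < RR J x := Real.rpow_pos_of_pos two_pos _

lemma RR_add (J : ℕ) (x y : ℝ) : RR J x * RR J y = RR J (x + y) := by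
  unfold RR
  rw [add_mul, Real.rpow_add two_pos]

lemma RR_mono (J : ℕ) {x y : ℝ} (h : x ≤ y) : RR J x ≤ RR J y :=
  Real.rpow_le_rpow_of_exponent_le one_le_two
    (mul_le_mul_of_nonneg_right h (Nat.cast_nonneg J))

lemma RR_one (J : ℕ) {x : ℝ} (h : 0 ≤ x) : 1 ≤ RR J x := by
  have h1 := RR_mono J h
  have h2 : RR J 0 = 1 := by
    unfold RR
    rw [zero_mul, Real.rpow_zero]
  rwa [h2] at h1

lemma RR_pow (J : ℕ) (x : ℝ) (n : ℕ) : RR J x ^ n = RR J (n * x) := by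
  unfold RR
  rw [← Real.rpow_natCast, ← Real.rpow_mul two_pos.le]
  congr 1
  ring

lemma RR_le {J n : ℕ} {x : ℝ} (h : x * J ≤ n) : RR J x ≤ 2 ^ n := by
  rw [← Real.rpow_natCast]
  exact Real.rpow_le_rpow_of_exponent_le one_le_two h

lemma RR_ge {J n : ℕ} {x : ℝ} (h : (n : ℝ) ≤ x * J) : (2 : ℝ) ^ n ≤ RR J x := by
  rw [← Real.rpow_natCast]
  exact Real.rpow_le_rpow_of_exponent_le one_le_two h

/-- The numbers, abstractly. -/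
lemma num_core {J Pr W₁ Pn Gg u r k Dq : ℕ} {s a z cq X η w₁ pr pq C Cg H Gb θm Z Θ κ x₂ gm db : ℝ}
    (hs : 0 < s) (hη : η = 16 * s) (ha : 0 ≤ a) (hX : 0 ≤ X) (hC : 1 ≤ C)
    (h1 : 3 * a + η ≤ cq) (h2 : w₁ + 3 * a + η ≤ pr) (h3 : 3 * a ≤ r * X)
    (h4 : ((Dq + 1 : ℕ) : ℝ) * z ≤ r * X) (h5 : pq ≤ pr - cq)
    (hWP : W₁ ≤ Pr) (hPr : (pr - s) * J ≤ Pr) (hW₁ : (W₁ : ℝ) ≤ w₁ * J) (hPn : (Pn : ℝ) ≤ pq * J)
    (hu : (r * X + η) * J - (r + 1) ≤ u)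
    (j0 : 1 ≤ s * J) (j1 : 30 * C + 9 ≤ RR J s) (j2 : 9 * 2 ^ (r + 1) ≤ RR J s)
    (hH0 : 0 ≤ H) (hH : H ≤ RR J a) (hGb : Gb ≤ RR J a)
    (hθ : ((2 ^ (Pr - W₁) : ℕ) : ℝ) * θm ≤ RR J a) (hZ0 : 0 ≤ Z) (hZ : Z ≤ RR J z)
    (hΘ0 : 0 ≤ Θ) (hΘ : Θ ≤ RR J s) (hκ : κ ≤ RR J s)
    (hgm : gm ≤ RR J s * RR J a ^ 3) (hx₂ : x₂ ≤ RR J s) (hdb : db = x₂ * Z ^ (Dq + 1))
    (hGg1 : (3 * a + s) * J ≤ Gg) (hGg2 : (Gg : ℝ) ≤ (3 * a + s) * J + 1) :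
    κ / ((2 ^ (Pr - W₁) : ℕ) : ℝ) ≤ 1 ∧ 30 * C * H ^ 2 * θm ≤ 1 ∧ gm ≤ 2 ^ Gg ∧
      2 * C * H * θm + 2 * (2 ^ Gg / ((2 ^ (Pr - W₁) : ℕ) : ℝ)) ≤ 2 ^ W₁ / 2 ^ Pn ∧
      κ / ((2 ^ (Pr - W₁) : ℕ) : ℝ) + 2 * (2 ^ Gg / ((2 ^ (Pr - W₁) : ℕ) : ℝ)) ≤
        2 ^ W₁ / 2 ^ Pn ∧
      (db + 4 * 2 ^ Gg) * Θ ≤ 2 ^ u ∧ 30 * C * H ^ 2 * θm ≤ 2 ^ W₁ / 2 ^ Pn := by
  obtain ⟨M, hM⟩ : ∃ M : ℝ, M = ((2 ^ (Pr - W₁) : ℕ) : ℝ) := ⟨_, rfl⟩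
  rw [← hM] at hθ ⊢
  have hM0 : 0 < M := by
    rw [hM]
    positivity
  have hJ0 : (0 : ℝ) ≤ J := Nat.cast_nonneg J
  have hT1 : 1 ≤ RR J a := RR_one J ha
  have hT0 : 0 < RR J a := RR_pos J a
  have hT3 : RR J a ^ 3 = RR J (3 * a) := by
    rw [RR_pow]
    norm_num
  have hMge : RR J (3 * a + s) ≤ M := by
    rw [hM]
    push_cast
    refine RR_le ?_
    rw [Nat.cast_sub hWP]
    have h6 : (3 * a + s) * J ≤ (pr - s - w₁) * J :=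
      mul_le_mul_of_nonneg_right (by linarith) hJ0
    linarith
  have hMge' : RR J s ≤ M := (RR_mono J (by linarith)).trans hMge
  have hMW : RR J (3 * a + 5 * s) ≤ M * (2 ^ W₁ / 2 ^ Pn) := by
    have e1 : M * (2 ^ W₁ / 2 ^ Pn) = 2 ^ Pr / 2 ^ Pn := by
      rw [hM]
      push_cast
      rw [two_pow_sub hWP]
      field_simp
    rw [e1, le_div_iff₀ (by positivity)]
    calc RR J (3 * a + 5 * s) * 2 ^ Pn ≤ RR J (3 * a + 5 * s) * RR J pq :=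
          mul_le_mul_of_nonneg_left (RR_ge hPn) (RR_pos _ _).le
      _ = RR J (3 * a + 5 * s + pq) := RR_add _ _ _
      _ ≤ RR J (pr - s) := RR_mono J (by linarith)
      _ ≤ 2 ^ Pr := RR_le hPr
  have hG1 : RR J (3 * a + s) ≤ 2 ^ Gg := RR_le hGg1
  have hG2 : (2 : ℝ) ^ Gg ≤ 2 * RR J (3 * a + s) := by
    have e1 : (2 : ℝ) * RR J (3 * a + s) = 2 ^ ((3 * a + s) * (J : ℝ) + 1) := by
      unfold RR
      rw [Real.rpow_add two_pos, Real.rpow_one]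
      ring
    rw [e1, ← Real.rpow_natCast]
    exact Real.rpow_le_rpow_of_exponent_le one_le_two hGg2
  have hss : RR J (3 * a + s) = RR J s * RR J a ^ 3 := by
    rw [hT3, RR_add]
    congr 1
    ring
  have hs1 : 1 ≤ RR J s := RR_one J hs.le
  have hs0 := RR_pos J s
  -- the sizes
  have hH2 : H ^ 2 ≤ RR J a ^ 2 := pow_le_pow_left₀ hH0 hH 2
  have hC0 : 0 < C := by linarith
  have hY : M * (30 * C * H ^ 2 * θm) ≤ 30 * C * RR J a ^ 3 := by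
    calc M * (30 * C * H ^ 2 * θm) = 30 * C * (H ^ 2 * (M * θm)) := by ring
      _ ≤ 30 * C * (RR J a ^ 2 * RR J a) := by
          refine mul_le_mul_of_nonneg_left ?_ (by positivity)
          calc H ^ 2 * (M * θm) ≤ H ^ 2 * RR J a := mul_le_mul_of_nonneg_left hθ (by positivity)
            _ ≤ RR J a ^ 2 * RR J a := mul_le_mul_of_nonneg_right hH2 hT0.le
      _ = _ := by ring
  have hY2 : M * (2 * C * H * θm) ≤ 2 * C * RR J a ^ 3 := by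
    calc M * (2 * C * H * θm) = 2 * C * (H * (M * θm)) := by ring
      _ ≤ 2 * C * (RR J a * RR J a) := by
          refine mul_le_mul_of_nonneg_left ?_ (by positivity)
          calc H * (M * θm) ≤ H * RR J a := mul_le_mul_of_nonneg_left hθ hH0
            _ ≤ RR J a * RR J a := mul_le_mul_of_nonneg_right hH hT0.le
      _ ≤ 2 * C * (RR J a * RR J a * RR J a) := by
          refine mul_le_mul_of_nonneg_left ?_ (by positivity)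
          exact le_mul_of_one_le_right (by positivity) hT1
      _ = _ := by ring
  have hT3' : 0 < RR J a ^ 3 := by positivity
  have hbig : 30 * C * RR J a ^ 3 ≤ RR J (3 * a + s) := by
    rw [hss]
    exact mul_le_mul_of_nonneg_right (by linarith) hT3'.le
  have h2s : RR J (3 * a + 5 * s) = RR J (4 * s) * RR J (3 * a + s) := by
    rw [RR_add]
    congr 1
    ring
  have h4s : RR J s ≤ RR J (4 * s) := RR_mono J (by linarith)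
  have hA0 := RR_pos J (3 * a + s)
  have hfin : (2 * C + 4 + 1) * RR J (3 * a + s) ≤ RR J (3 * a + 5 * s) := by
    rw [h2s]
    exact mul_le_mul_of_nonneg_right (by linarith) hA0.le
  have hTs : RR J a ^ 3 ≤ RR J (3 * a + s) := by
    rw [hss]
    exact le_mul_of_one_le_left hT3'.le hs1
  have hks : RR J s ≤ RR J (3 * a + s) := RR_mono J (by linarith)
  refine ⟨?_, ?_, ?_, ?_, ?_, ?_, ?_⟩
  · rw [div_le_one hM0]
    exact hκ.trans hMge'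
  · have h6 : M * (30 * C * H ^ 2 * θm) ≤ M * 1 := by
      rw [mul_one]
      exact hY.trans (hbig.trans hMge)
    exact le_of_mul_le_mul_left h6 hM0
  · rw [← hss] at hgm
    exact hgm.trans hG1
  · have h6 : M * (2 * C * H * θm + 2 * (2 ^ Gg / M)) ≤ M * (2 ^ W₁ / 2 ^ Pn) := by
      have e1 : M * (2 * C * H * θm + 2 * (2 ^ Gg / M)) = M * (2 * C * H * θm) + 2 * 2 ^ Gg := by
        field_simp
      rw [e1]
      have h7 : 2 * C * RR J a ^ 3 ≤ 2 * C * RR J (3 * a + s) :=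
        mul_le_mul_of_nonneg_left hTs (by positivity)
      linarith
    exact le_of_mul_le_mul_left h6 hM0
  · have h6 : M * (κ / M + 2 * (2 ^ Gg / M)) ≤ M * (2 ^ W₁ / 2 ^ Pn) := by
      have e1 : M * (κ / M + 2 * (2 ^ Gg / M)) = κ + 2 * 2 ^ Gg := by
        field_simp
      rw [e1]
      have h7 : 0 ≤ C * RR J (3 * a + s) := by positivity
      linarith
    exact le_of_mul_le_mul_left h6 hM0
  · have hrX : RR J (3 * a + s) ≤ RR J s * RR J (r * X) := by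
      rw [RR_add]
      exact RR_mono J (by linarith)
    have hZp : Z ^ (Dq + 1) ≤ RR J (r * X) := by
      calc Z ^ (Dq + 1) ≤ RR J z ^ (Dq + 1) := pow_le_pow_left₀ hZ0 hZ _
        _ = RR J (((Dq + 1 : ℕ) : ℝ) * z) := RR_pow _ _ _
        _ ≤ _ := RR_mono J h4
    have hrp := RR_pos J (r * X)
    have hdb' : db ≤ RR J s * RR J (r * X) := by
      rw [hdb]
      calc x₂ * Z ^ (Dq + 1) ≤ RR J s * Z ^ (Dq + 1) :=
            mul_le_mul_of_nonneg_right hx₂ (by positivity)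
        _ ≤ _ := mul_le_mul_of_nonneg_left hZp hs0.le
    have h6 : db + 4 * 2 ^ Gg ≤ 9 * (RR J s * RR J (r * X)) := by linarith
    calc (db + 4 * 2 ^ Gg) * Θ ≤ 9 * (RR J s * RR J (r * X)) * Θ :=
          mul_le_mul_of_nonneg_right h6 hΘ0
      _ ≤ 9 * (RR J s * RR J (r * X)) * RR J s :=
          mul_le_mul_of_nonneg_left hΘ (by positivity)
      _ = 9 * RR J (2 * s + r * X) := by
          have e1 : RR J (2 * s + r * X) = RR J s * RR J s * RR J (r * X) := by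
            rw [RR_add, RR_add]
            congr 1
            ring
          rw [e1]
          ring
      _ ≤ 2 ^ u := by
          have e2 : 9 * RR J (2 * s + r * X) * 2 ^ (r + 1) ≤ 2 ^ u * 2 ^ (r + 1) := by
            calc 9 * RR J (2 * s + r * X) * 2 ^ (r + 1) =
                9 * 2 ^ (r + 1) * RR J (2 * s + r * X) := by ring
              _ ≤ RR J s * RR J (2 * s + r * X) :=
                  mul_le_mul_of_nonneg_right j2 (RR_pos _ _).le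
              _ = RR J (s + (2 * s + r * X)) := RR_add _ _ _
              _ ≤ RR J (r * X + η) := RR_mono J (by linarith)
              _ ≤ 2 ^ (u + (r + 1)) := RR_le (by
                  push_cast
                  linarith)
              _ = _ := pow_add _ _ _
          exact le_of_mul_le_mul_right e2 (by positivity)
  · have h6 : M * (30 * C * H ^ 2 * θm) ≤ M * (2 ^ W₁ / 2 ^ Pn) := by
      refine hY.trans (hbig.trans (le_trans ?_ hMW))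
      exact RR_mono J (by linarith)
    exact le_of_mul_le_mul_left h6 hM0

/-- The constants of the arrays are small. -/
lemma num_cst (k Dq : ℕ) {C Cg s : ℝ} (hC : 1 ≤ C) (hCg : 1 ≤ Cg) (hs : 0 < s) : ∃ φ₀ : ℝ,
    0 < φ₀ ∧ ∃ J₀ : ℕ, ∀ φ : ℝ, φ ≤ φ₀ → ∀ J : ℕ, J₀ ≤ J → ∀ {kap : ℕ} {L : ℝ}, 0 ≤ L →
      Real.log (1 + L) ≤ φ * J → (kap : ℝ) ≤ φ * J →
      clC k kap L ≤ RR J s ∧
      Cg * cC k L ^ (2 * (k + 1) + 3) * clC k kap L * (3 + 30 * C) ≤ RR J s ∧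
      (Cg * (Cg * clC k kap L * cC k L ^ (2 * (k + 1))) ^ (Dq + 1)) ^ (Dq + 1) ≤ RR J s := by
  obtain ⟨c, n, hc, hcl⟩ := bd_clC k
  have hCg0 : 0 ≤ Cg := by linarith
  have hC0 : 0 ≤ C := by linarith
  obtain ⟨cc, hcc⟩ : ∃ cc : ℝ, cc = 2 * (((k + 1 : ℕ) : ℝ)) ^ (k + 1 + 1) := ⟨_, rfl⟩
  obtain ⟨nn, hnn⟩ : ∃ nn : ℕ, nn = 1 * (k + 1 + 1) := ⟨_, rfl⟩
  obtain ⟨φ₁, hφ₁, J₁, H₁⟩ := fin_bd c n hs
  obtain ⟨φ₂, hφ₂, J₂, H₂⟩ := fin_bd (Cg * cc ^ (2 * (k + 1) + 3) * c * (3 + 30 * C))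
    (0 + nn * (2 * (k + 1) + 3) + n + 0) hs
  obtain ⟨φ₃, hφ₃, J₃, H₃⟩ := fin_bd ((Cg * (Cg * c * cc ^ (2 * (k + 1))) ^ (Dq + 1)) ^ (Dq + 1))
    ((0 + (0 + n + nn * (2 * (k + 1))) * (Dq + 1)) * (Dq + 1)) hs
  refine ⟨min φ₁ (min φ₂ φ₃), lt_min hφ₁ (lt_min hφ₂ hφ₃), max J₁ (max J₂ J₃), ?_⟩
  intro φ hφ J hJ kap L hL hlog hkap
  have hE : 1 + L ≤ Real.exp (φ * J) := by
    rw [← Real.log_le_iff_le_exp (by linarith)]
    exact hlog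
  have hk2 : (2 : ℝ) ^ kap ≤ Real.exp (φ * J) := by
    have e1 : (2 : ℝ) ^ kap = Real.exp (kap * Real.log 2) := by
      rw [Real.exp_nat_mul, Real.exp_log two_pos]
    rw [e1]
    refine Real.exp_le_exp.2 (le_trans ?_ hkap)
    have hl1 : Real.log 2 ≤ 1 := by
      have := Real.log_two_lt_d9
      linarith
    exact mul_le_of_le_one_right (Nat.cast_nonneg _) hl1
  have b1 := hcl hL hE hk2
  have b2 := bd_cC (k := k) hL hE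
  rw [← hcc, ← hnn] at b2
  have b3 := (((Bd.cst (E := Real.exp (φ * J)) hCg0).mul (b2.pow (2 * (k + 1) + 3))).mul b1).mul
    (Bd.cst (show (0 : ℝ) ≤ 3 + 30 * C by positivity))
  have b4 := ((Bd.cst (E := Real.exp (φ * J)) hCg0).mul ((((Bd.cst hCg0).mul b1).mul
    (b2.pow (2 * (k + 1)))).pow (Dq + 1))).pow (Dq + 1)
  exact ⟨b1.2.trans (H₁ φ (hφ.trans (min_le_left _ _)) J ((le_max_left _ _).trans hJ)),
    b3.2.trans (H₂ φ (hφ.trans ((min_le_right _ _).trans (min_le_left _ _))) J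
      (((le_max_left _ _).trans (le_max_right _ _)).trans hJ)),
    b4.2.trans (H₃ φ (hφ.trans ((min_le_right _ _).trans (min_le_right _ _))) J
      (((le_max_right _ _).trans (le_max_right _ _)).trans hJ))⟩

/-- **The geometry of the pairs of a member**, with the numbers of `GeoS`. The exponents: `a` of the
equation on the lines, `z` of the doubling, `cq` of the gradients and of the precision, `r X + η` of
the doubling of the difference. -/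
theorem geoJ_num (k Dq K K₂ n₀ : ℕ) {C : ℝ} (hC : 1 ≤ C) : ∃ (Kf n₁ : ℕ),
    ∀ {w₁ pr pq X η a z cq : ℝ} {r : ℕ}, 0 ≤ w₁ → 0 ≤ a → 0 ≤ X → 0 < X → 0 < η →
      3 * a + η ≤ cq → w₁ + 3 * a + η ≤ pr → 3 * a ≤ r * X → ((Dq + 1 : ℕ) : ℝ) * z ≤ r * X →
      0 ≤ pq → pq ≤ pr - cq → ∃ φ₀ : ℝ, 0 < φ₀ ∧ ∃ J₀ : ℕ,
    ∀ {m J : ℕ} {F : Fam m J} {A : F.Ω → Prop} {c₀ c₁ : ℕ → Fin m} {w₀ q φ : ℝ}
      {β₀ β₁ : ℕ → ℝ} {ρ : Equiv.Perm (Fin (k + 1))} {Pr sg₀ sg kap : ℕ} {g₀ g₁ : ℕ → ℕ} {L : ℝ}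
      {V₀ V₁ : Type} {z₀ : PtT F → V₀} {z₀' : LnT F → V₀} {P₀ : V₀ → ℕ → PN} {z₁ : PtT F → V₁}
      {z₁' : LnT F → V₁} {P₁ : V₁ → ℕ → PN} {Qh : V₁ → MvPolynomial (Option (Fin (k + 1))) ℝ}
      {ρz : V₁ → ℝ}
      {aF : (Fin (k + 1) → MvPolynomial (Fin (k + 1)) ℝ) →
        MvPolynomial (Option (Fin (k + 1))) ℝ → (Fin (k + 1) → ℤ) → Fin Dq → Fin n₀ →
          MvPolynomial (Fin (k + 1)) ℝ}
      {KK H L' Λ Gb E Z Θ Θ₁ ν₀ θm : ℝ} {P₀' : ℕ}, J₀ ≤ J → φ ≤ φ₀ → 0 < Pe F.p A →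
      GD F A c₀ c₁ k K Dq w₀ w₁ pr q X φ β₀ β₁ ρ Pr sg₀ sg kap g₀ g₁ L z₀ z₀' P₀ z₁ z₁' P₁ Qh
        ρz → (∀ G Q b kk ii, (aF G Q b kk ii).totalDegree ≤ K₂) →
      1 ≤ KK → 1 ≤ H → 1 ≤ L' →
      360 * (C * H ^ 3) ≤ Λ → 0 ≤ Gb → 0 < E → 1 ≤ Z → 1 ≤ Θ → 1 ≤ Θ₁ →
      (∀ ω, A ω → ∀ j ≤ Dq, bth Dq KK H L' Λ (ρz (z₁ (ptr F J ω))) j ≤ θm) →
      2 * θm * ((2 ^ (Pr - ⌊w₁ * J⌋₊) : ℕ) : ℝ) ≤ E →
      H ≤ 2 ^ (a * (J : ℝ)) → Gb ≤ 2 ^ (a * (J : ℝ)) →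
      ((2 ^ (Pr - ⌊w₁ * J⌋₊) : ℕ) : ℝ) * θm ≤ 2 ^ (a * (J : ℝ)) → Z ≤ 2 ^ (z * (J : ℝ)) →
      Θ ≤ 2 ^ (η / 16 * (J : ℝ)) →
      ms (P2 (Pool.Agent.H49.Ent.cond F.p A True) (slam F ⌊w₀ * J⌋₊)) (fun e =>
        ¬ EvLn F c₁ k ⌊w₁ * J⌋₊ Pr sg z₁ Qh ρz Dq KK H L' Λ Gb E e) ≤ 1 / 14 →
      ms (P2 (Pool.Agent.H49.Ent.cond F.p A True) (slam F ⌊w₀ * J⌋₊)) (fun e =>
        ¬ EvBr F c₀ k ⌊w₀ * J⌋₊ ⌊w₁ * J⌋₊ Pr sg ⌊q * J⌋₊ g₀ ρ z₀ P₀ z₁ Qh ρz Dq n₀ C (1 / 2 ^ J)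
          KK H L' Λ aF e) ≤ 1 / 14 →
      ms (P2 (Pool.Agent.H49.Ent.cond F.p A True) (slam F ⌊w₀ * J⌋₊)) (fun e =>
        ¬ EvNs F c₀ k ⌊w₀ * J⌋₊ ⌊w₁ * J⌋₊ Pr sg ⌊q * J⌋₊ ⌊X * J⌋₊ g₀ z₀ P₀ e.1) ≤ 1 / 14 →
      ms (P2 (Pool.Agent.H49.Ent.cond F.p A True) (slam F ⌊w₀ * J⌋₊)) (fun e =>
        ¬ EvLo F c₁ k ⌊w₀ * J⌋₊ ⌊w₁ * J⌋₊ Pr sg ⌊q * J⌋₊ ⌊X * J⌋₊ g₀ g₁ ρ z₀ P₀ z₁ P₁ Dq kap L Z
          e.1) ≤ 1 / 14 →
      ms (P2 (Pool.Agent.H49.Ent.cond F.p A True) (slam F ⌊w₀ * J⌋₊)) (fun e =>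
        ¬ EvIn F c₀ k ⌊w₀ * J⌋₊ ⌊w₁ * J⌋₊ Pr sg ⌊q * J⌋₊ g₀ g₁ ρ z₀ P₀ z₁ P₁ e.1) ≤ 1 / 14 →
      ms (P2 (Pool.Agent.H49.Ent.cond F.p A True) (slam F ⌊w₀ * J⌋₊)) (fun e =>
        ¬ (EvSf F c₀ k ⌊w₀ * J⌋₊ ⌊w₁ * J⌋₊ Pr sg ⌊q * J⌋₊ ⌊X * J⌋₊ g₀ ρ z₀ P₀ z₁ P₁ Qh aF Θ e ∧
          EvS1 F c₀ k ⌊w₀ * J⌋₊ ⌊w₁ * J⌋₊ Pr sg ⌊q * J⌋₊ g₀ ρ z₀ P₀ z₁ P₁ Qh aF Θ₁ e)) ≤
          1 / 14 →
      ms (P2 (Pool.Agent.H49.Ent.cond F.p A True) (slam F ⌊w₀ * J⌋₊)) (fun e =>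
        EvNs F c₀ k ⌊w₀ * J⌋₊ ⌊w₁ * J⌋₊ Pr sg ⌊q * J⌋₊ ⌊X * J⌋₊ g₀ z₀ P₀ e.1 ∧
        ¬ EvNo F c₀ k ⌊w₀ * J⌋₊ ⌊w₁ * J⌋₊ Pr sg ⌊q * J⌋₊ g₀ ρ z₀ P₀ z₁ P₁ Qh aF ν₀ e) ≤
          1 / 14 →
      0 < ν₀ → 2 * Θ₁ * (2 ^ ⌊w₁ * J⌋₊ / 2 ^ P₀') ≤ ν₀ →
      ∃ (br : F.Ω × F.Ω → Fin n₁) (a b : F.Ω × F.Ω → (Fin k → Fin (Kf + 1)) → ℝ)
        (Ev : F.Ω × F.Ω → Prop), GeoJ k Kf n₁ F A c₀ ⌊w₀ * J⌋₊ ⌊w₁ * J⌋₊ sg ⌊q * J⌋₊ ⌊X * J⌋₊
          (r * ⌊X * J⌋₊ + ⌊η * J⌋₊) ⌊cq * J⌋₊ ⌊pq * J⌋₊ P₀' g₀ P₀ z₀ z₀' z₁ z₁' br a b Ev := by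
  classical
  obtain ⟨Cg, Kf, n₁, hCg, hg⟩ := geoJ_gd k Dq K K₂ n₀
  refine ⟨Kf, n₁, ?_⟩
  intro w₁ pr pq X η a z cq r hw₁ ha hX0 hX hη h1 h2 h3 h4 hpq h5
  obtain ⟨s, hs⟩ : ∃ s : ℝ, s = η / 16 := ⟨_, rfl⟩
  have hs0 : 0 < s := by rw [hs]; positivity
  obtain ⟨φ₁, hφ₁, J₁, H₁⟩ := num_cst k Dq hC hCg hs0
  obtain ⟨φ₂, hφ₂, J₂, H₂⟩ := fin_bd (30 * C + 9) 0 hs0
  obtain ⟨φ₃, hφ₃, J₃, H₃⟩ := fin_bd (9 * 2 ^ (r + 1)) 0 hs0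
  obtain ⟨J₄, hJ₄⟩ := exists_nat_ge (1 / s + 1 / X)
  refine ⟨min s φ₁, lt_min hs0 hφ₁, max (max J₁ J₂) (max J₃ J₄), ?_⟩
  intro m J F A c₀ c₁ w₀ q φ β₀ β₁ ρ Pr sg₀ sg kap g₀ g₁ L V₀ V₁ z₀ z₀' P₀ z₁ z₁' P₁ Qh ρz aF KK
    H L' Λ Gb E Z Θ Θ₁ ν₀ θm P₀' hJ hφ hA D haF hKK hH hL' hΛ hGb hE hZ hΘ hΘ₁ hθm hθE b1 b2 b3
    b4 b5 e1 e2 e3 e4 e5 e6 e7 n8 n9
  have hJ1 : J₁ ≤ J := ((le_max_left _ _).trans (le_max_left _ _)).trans hJ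
  have hJ2 : J₂ ≤ J := ((le_max_right _ _).trans (le_max_left _ _)).trans hJ
  have hJ3 : J₃ ≤ J := ((le_max_left _ _).trans (le_max_right _ _)).trans hJ
  have hJ4 : (J₄ : ℝ) ≤ J := by
    exact_mod_cast ((le_max_right _ _).trans (le_max_right _ _)).trans hJ
  have j0' := hJ₄.trans hJ4
  have t1 : 0 < 1 / s := by positivity
  have t2 : 0 < 1 / X := by positivity
  have j0 : 1 ≤ s * J := by
    have h6 : 1 / s ≤ J := by linarith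
    rw [div_le_iff₀ hs0] at h6
    linarith
  have jX : 1 ≤ X * J := by
    have h6 : 1 / X ≤ J := by linarith
    rw [div_le_iff₀ hX] at h6
    linarith
  have hJ0 : (0 : ℝ) < J := by linarith
  obtain ⟨k1, k2, k3⟩ := H₁ φ (hφ.trans (min_le_right _ _)) J hJ1 D.L0 D.logL D.kapJ
  have j1 := H₂ φ₂ le_rfl J hJ2
  have j2 := H₃ φ₃ le_rfl J hJ3
  rw [pow_zero, mul_one] at j1 j2
  have hφs : φ ≤ s := hφ.trans (min_le_left _ _)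
  have hη' : η = 16 * s := by rw [hs]; ring
  have hκ0 : 0 ≤ clC k kap L := by
    have := clC_ge (r := k) (kap := kap) D.L0
    linarith
  have hc0 : 0 ≤ cC k L := by
    have := cC_ge (k := k) D.L0
    linarith
  have hCg0 : 0 ≤ Cg := by linarith
  have hT0 : 0 < RR J a := RR_pos J a
  have hT1 : 1 ≤ RR J a := RR_one J ha
  have hPr : (pr - s) * J ≤ Pr := by
    have h6 := (abs_le.1 D.Pr0).1
    have h7 : φ * J ≤ s * J := mul_le_mul_of_nonneg_right hφs hJ0.le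
    linarith
  have hgm : gmm k Cg L (2 * Gb) (((2 ^ (Pr - ⌊w₁ * (J : ℝ)⌋₊) : ℕ) : ℝ) * (30 * C * H ^ 2 * θm))
      (clC k kap L) ≤ RR J s * RR J a ^ 3 := by
    have hY : ((2 ^ (Pr - ⌊w₁ * (J : ℝ)⌋₊) : ℕ) : ℝ) * (30 * C * H ^ 2 * θm) ≤
        30 * C * RR J a ^ 3 := by
      calc ((2 ^ (Pr - ⌊w₁ * (J : ℝ)⌋₊) : ℕ) : ℝ) * (30 * C * H ^ 2 * θm) =
          30 * C * (H ^ 2 * (((2 ^ (Pr - ⌊w₁ * (J : ℝ)⌋₊) : ℕ) : ℝ) * θm)) := by ring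
        _ ≤ 30 * C * (RR J a ^ 2 * RR J a) := by
            refine mul_le_mul_of_nonneg_left ?_ (by positivity)
            calc H ^ 2 * (((2 ^ (Pr - ⌊w₁ * (J : ℝ)⌋₊) : ℕ) : ℝ) * θm) ≤ H ^ 2 * RR J a :=
                  mul_le_mul_of_nonneg_left b3 (by positivity)
              _ ≤ RR J a ^ 2 * RR J a := mul_le_mul_of_nonneg_right
                  (pow_le_pow_left₀ (by linarith) b1 2) hT0.le
        _ = _ := by ring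
    have hT3 : RR J a ≤ RR J a ^ 3 := by
      calc RR J a = RR J a ^ 1 := (pow_one _).symm
        _ ≤ RR J a ^ 3 := pow_le_pow_right₀ hT1 (by norm_num)
    have hT3' : 1 ≤ RR J a ^ 3 := one_le_pow₀ hT1
    have hGb' : Gb ≤ RR J a := b2
    unfold gmm
    calc Cg * cC k L ^ (2 * (k + 1) + 3) * (1 + 2 * Gb + _) * clC k kap L ≤
        Cg * cC k L ^ (2 * (k + 1) + 3) * ((3 + 30 * C) * RR J a ^ 3) * clC k kap L := by
          refine mul_le_mul_of_nonneg_right (mul_le_mul_of_nonneg_left ?_ (by positivity)) hκ0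
          linarith
      _ = (Cg * cC k L ^ (2 * (k + 1) + 3) * clC k kap L * (3 + 30 * C)) * RR J a ^ 3 := by ring
      _ ≤ _ := mul_le_mul_of_nonneg_right k2 (by positivity)
  have hGg0 : 0 ≤ (3 * a + s) * J := by positivity
  obtain ⟨m1, m2, m3, m4, m5, m6, m7⟩ := num_core (J := J) (Pr := Pr) (W₁ := ⌊w₁ * (J : ℝ)⌋₊)
    (Pn := ⌊pq * (J : ℝ)⌋₊) (Gg := ⌈(3 * a + s) * (J : ℝ)⌉₊)
    (u := r * ⌊X * (J : ℝ)⌋₊ + ⌊η * (J : ℝ)⌋₊) (r := r) (k := k) (Dq := Dq) (s := s) (a := a)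
    (z := z) (cq := cq) (X := X) (η := η) (w₁ := w₁) (pr := pr) (pq := pq) (C := C) (Cg := Cg)
    (H := H) (Gb := Gb) (θm := θm) (Z := Z) (Θ := Θ) (κ := clC k kap L)
    (x₂ := (Cg * (Cg * clC k kap L * cC k L ^ (2 * (k + 1))) ^ (Dq + 1)) ^ (Dq + 1))
    (gm := gmm k Cg L (2 * Gb) (((2 ^ (Pr - ⌊w₁ * (J : ℝ)⌋₊) : ℕ) : ℝ) *
      (30 * C * H ^ 2 * θm)) (clC k kap L)) (db := dbm k Dq Cg L (clC k kap L) Z)
    hs0 hη' ha hX0 hC h1 h2 h3 h4 h5 D.WP hPr (Nat.floor_le (by positivity))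
    (Nat.floor_le (by positivity)) (by
      have h6 : X * J < (⌊X * (J : ℝ)⌋₊ : ℝ) + 1 := Nat.lt_floor_add_one _
      have h7 : η * J < (⌊η * (J : ℝ)⌋₊ : ℝ) + 1 := Nat.lt_floor_add_one _
      have h8 : (r : ℝ) * (X * J - 1) ≤ r * (⌊X * (J : ℝ)⌋₊ : ℝ) :=
        mul_le_mul_of_nonneg_left (by linarith) (Nat.cast_nonneg r)
      push_cast
      linarith) j0 j1 j2 (by linarith) b1 b2 b3 (by linarith) b4 (by linarith) (by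
      rw [hs]
      exact b5) k1 hgm k3 (by
      unfold dbm
      ring) (Nat.le_ceil _) (Nat.ceil_lt_add_one hGg0).le
  have hWJ : (1 : ℝ) / 2 ^ J ≤ 1 / ((2 ^ (Pr - ⌊w₁ * (J : ℝ)⌋₊) : ℕ) : ℝ) := by
    push_cast
    refine one_div_le_one_div_of_le (by positivity) (pow_le_pow_right₀ one_le_two ?_)
    have := D.PJ
    omega
  obtain ⟨br, a', b', Ev, hG⟩ := hg hA D (Nat.le_floor (by exact_mod_cast jX)) haF hC hWJ hKK hH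
    hL' hΛ hGb hE hZ hΘ hΘ₁ hθm hθE e1 e2 e3 e4 e5 e6 e7 m1 m2 m3 m4 m5 m6 m7 n8 n9
  refine ⟨br, a', b', Ev, geoJ_mono hG le_rfl ?_ le_rfl⟩
  refine Nat.le_floor ?_
  have h6 := (Nat.ceil_lt_add_one hGg0).le
  have h7 : (3 * a + s) * J + 1 ≤ cq * J := by
    have h8 : (3 * a + 2 * s) * J ≤ cq * J := mul_le_mul_of_nonneg_right (by linarith) hJ0.le
    linarith
  linarith

end Pool.GEO
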