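import Pool.Agent.H86.GEO.Pda

/-!
# One pair, the deterministic part

`pair_det`: the values, the gradients, and the doubling of the difference of a leaf and of a branch,
on the slice of the cell at the time of the point.
-/

set_option autoImplicit false

namespace Pool.EXS

open Finset Real
open Pool.Agent.H49.Ent Pool.Agent.H32.Dense Pool.STK Pool.KAF Pool.KAL Pool.KST Pool.KS3 Pool.M3F
open Pool.KJA Pool.IEN

/-- The constant of the chart. -/
noncomputable def cC (k : ℕ) (Lp : ℝ) : ℝ := 2 * (1 + ((k + 1 : ℕ) : ℝ) * Lp) ^ (k + 1 + 1)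

lemma cC_ge {k : ℕ} {Lp : ℝ} (h : 0 ≤ Lp) : 2 ≤ cC k Lp := by
  have h0 : (0 : ℝ) ≤ ((k + 1 : ℕ) : ℝ) * Lp := mul_nonneg (Nat.cast_nonneg _) h
  have h1 : (1 : ℝ) ≤ (1 + ((k + 1 : ℕ) : ℝ) * Lp) ^ (k + 1 + 1) := one_le_pow₀ (by linarith)
  unfold cC
  linarith

/-- The size of the gradients, and the precision. -/
noncomputable def gmm (k : ℕ) (C Lp H' Y κ : ℝ) : ℝ :=
  C * cC k Lp ^ (2 * (k + 1) + 3) * (1 + H' + Y) * κ

/-- The doubling constant. -/
noncomputable def dbm (k D : ℕ) (C Lp κ Z : ℝ) : ℝ :=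
  (C * Z * (C * κ * cC k Lp ^ (2 * (k + 1))) ^ (D + 1)) ^ (D + 1)

/-- The trivial bound. -/
lemma triv_num {k : ℕ} {C C₀ C₁ Y' δ ν κ Γ Gm : ℝ} (hC₀ : 2 ≤ C₀) (hC₁ : 1 ≤ C₁) (hY : 1 ≤ Y')
    (hκ : 1 ≤ κ) (hC : (2 * k + 6) * (C₁ + 1) ≤ 2 * C) (hδ : δ ≤ 1) (hν : ν ≤ 1)
    (hΓ : Γ = C * C₀ ^ (2 * (k + 1) + 3) * Y' * κ) (hGm : Gm ≤ Γ) :
    δ + ν + 2 * Gm + (k + 1) * (C₁ * C₀ * Y') + (k + 1) * C₀ ^ 2 ≤ 4 * Γ := by
  have hk0 : (0 : ℝ) ≤ k := Nat.cast_nonneg k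
  obtain ⟨P, hP⟩ : ∃ P : ℝ, P = C₀ ^ 2 * Y' * κ := ⟨_, rfl⟩
  have hY0 : 0 ≤ Y' := by linarith
  have hC00 : 0 ≤ C₀ := by linarith
  have h6 : (1 : ℝ) ≤ C₀ ^ 2 := one_le_pow₀ (by linarith)
  have h7 : C₀ ≤ C₀ ^ 2 := by nlinarith
  have hP1 : 1 ≤ P := by
    rw [hP]
    exact one_le_mul_of_one_le_of_one_le (one_le_mul_of_one_le_of_one_le h6 hY) hκ
  have hb : C₀ ^ 2 ≤ P := by
    rw [hP]
    have h8 : C₀ ^ 2 ≤ C₀ ^ 2 * Y' := le_mul_of_one_le_right (by positivity) hY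
    exact h8.trans (le_mul_of_one_le_right (by positivity) hκ)
  have ha : C₀ * Y' ≤ P := by
    rw [hP]
    have h8 : C₀ * Y' ≤ C₀ ^ 2 * Y' := mul_le_mul_of_nonneg_right h7 hY0
    exact h8.trans (le_mul_of_one_le_right (by positivity) hκ)
  have hCk : (k + 1) * (C₁ + 1) ≤ C := by
    have : (0 : ℝ) ≤ C₁ + 1 := by linarith
    nlinarith
  have hC0 : 2 ≤ C := by nlinarith
  have h8P : 8 * (C * P) ≤ Γ := by
    rw [hΓ, hP]
    have e1 : C₀ ^ (2 * (k + 1) + 3) = C₀ ^ 2 * C₀ ^ (2 * k + 3) := by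
      rw [← pow_add]
      congr 1
      ring
    have e2 : (8 : ℝ) ≤ C₀ ^ (2 * k + 3) := by
      calc (8 : ℝ) = 2 ^ 3 := by norm_num
        _ ≤ C₀ ^ 3 := pow_le_pow_left₀ (by norm_num) hC₀ 3
        _ ≤ _ := pow_le_pow_right₀ (by linarith) (by omega)
    rw [e1]
    have h8 : 0 ≤ C * (C₀ ^ 2 * Y' * κ) := by positivity
    calc 8 * (C * (C₀ ^ 2 * Y' * κ)) ≤ C₀ ^ (2 * k + 3) * (C * (C₀ ^ 2 * Y' * κ)) :=
          mul_le_mul_of_nonneg_right e2 h8
      _ = _ := by ring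
  have h9 : (k + 1) * (C₁ * C₀ * Y') + (k + 1) * C₀ ^ 2 ≤ C * P := by
    calc (k + 1) * (C₁ * C₀ * Y') + (k + 1) * C₀ ^ 2 =
          (k + 1) * (C₁ * (C₀ * Y') + C₀ ^ 2) := by ring
      _ ≤ (k + 1) * (C₁ * P + P) := by
        refine mul_le_mul_of_nonneg_left ?_ (by linarith)
        have := mul_le_mul_of_nonneg_left ha (show (0 : ℝ) ≤ C₁ by linarith)
        linarith
      _ = (k + 1) * (C₁ + 1) * P := by ring
      _ ≤ _ := mul_le_mul_of_nonneg_right hCk (by linarith)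
  have h10 : 2 ≤ C * P := by nlinarith
  linarith

/-- **One pair, the deterministic part.** -/
theorem pair_det (k D K₀ K₂ : ℕ) : ∃ C : ℝ, 1 ≤ C ∧
    ∀ (Lp κ : ℝ) (M K : ℕ) (N₃ : Fin (k + 1) → ℕ)
      (G : Fin (k + 1) → MvPolynomial (Fin (k + 1)) ℝ) (gB : MvPolynomial (Fin (k + 1)) ℝ)
      (b₃ : Fin (k + 1) → ℤ) (a : MvPolynomial (Fin (k + 1)) ℝ)
      (Q : MvPolynomial (Option (Fin (k + 1))) ℝ) (Z H H' δ ν ρ Θ : ℝ) (θ : ℕ → ℝ) (kk : ℕ)
      (x px : Option (Fin (k + 1)) → ℝ),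
      0 ≤ Lp → 1 ≤ κ → 1 ≤ M → 2 ≤ K → 1 ≤ Z → 1 ≤ H → 0 ≤ H' → 1 ≤ Θ → ν ≤ 1 →
      (∀ i, 1 ≤ N₃ i) → (∀ i, K * N₃ i ≤ M) →
      TriP G → G 0 = 0 → (∀ i, (G i).totalDegree ≤ K₀) → gB.totalDegree ≤ K₀ →
      a.totalDegree ≤ K₂ → Q.totalDegree ≤ D →
      (∀ y ∈ ncell M (fun i => K * N₃ i) G (fun i => b₃ i / K), ∀ i l,
        |MvPolynomial.eval y (MvPolynomial.pderiv l (G i))| ≤ Lp) →
      (∀ y ∈ ncell M (fun i => K * N₃ i) G (fun i => b₃ i / K), ∀ l,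
        |MvPolynomial.eval y (MvPolynomial.pderiv l gB)| ≤ Lp) →
      (∀ R : MvPolynomial (Option (Fin (k + 1))) ℝ, R.totalDegree ≤ D →
        ∀ y ∈ ncell M (fun i => K * N₃ i) G (fun i => b₃ i / K), ∃ y' ∈ ncell M N₃ G b₃,
          Psi R (κ / M) (lpt gB y) ≤ Z * Psi R (κ / M) (lpt gB y')) →
      LnR D Q H θ x kk → 0 ≤ θ kk → bse x ∈ ncell M N₃ G b₃ → bse px ∈ ncell M N₃ G b₃ →
      (∀ o, |x o - px o| ≤ κ / M) →
      |x none - MvPolynomial.eval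
        (rpos M (fun i => K * N₃ i) G (fun i => b₃ i / K) (bse x)) a| ≤ δ →
      |px none - MvPolynomial.eval (bse px) gB| ≤ ν →
      (∀ (l : Fin (k + 1)) (m : ℕ), |MvPolynomial.eval x (MvPolynomial.pderiv (some l)
        (pN (kk + m) Q))| * θ (kk + 1) ^ m ≤ H' * |MvPolynomial.eval x (pN (kk + 1) Q)|) →
      (∀ R, ((∃ m, R = pN m Q) ∨ ∃ l, R = MvPolynomial.pderiv (some l) (pN kk Q)) →
        ∀ u ∈ ucube (k + 1), ∀ u' ∈ ucube (k + 1),
          |MvPolynomial.eval (pt (cpt (nchi M (fun i => K * N₃ i) G (fun i => b₃ i / K)) u)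
            (MvPolynomial.eval u a)) R| ≤
          3 * |MvPolynomial.eval (pt (cpt (nchi M (fun i => K * N₃ i) G (fun i => b₃ i / K)) u')
            (MvPolynomial.eval u' a)) R|) →
      0 < ρ → 1 ≤ M * ρ → 6 * H * (θ kk + 2 * δ) ≤ ρ → 12 * H * ρ ≤ θ (kk + 1) → ρ ≤ 1 →
      (∀ B : ℝ, (∀ z : Fin k → ℝ, (∀ i, (jdg K b₃ i.succ : ℝ) / K ≤ z i ∧
          z i ≤ ((jdg K b₃ i.succ : ℝ) + 1) / K) →
        |MvPolynomial.eval (Fin.cons (rpos M (fun i => K * N₃ i) G (fun i => b₃ i / K)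
          (bse x) 0) z : Fin (k + 1) → ℝ) (MvPolynomial.bind₁
            (nchi M (fun i => K * N₃ i) G (fun i => b₃ i / K)) gB - a)| ≤ B) →
        cs (rco K (jdg K b₃)) (1 / K) (MvPolynomial.bind₁
          (nchi M (fun i => K * N₃ i) G (fun i => b₃ i / K)) gB - a) ≤ Θ * B) →
      -- the value of the branch
      |px none - MvPolynomial.eval (Fin.cons (rpos M (fun i => K * N₃ i) G (fun i => b₃ i / K)
        (bse x) 0) (fun i : Fin k => rpos M (fun i => K * N₃ i) G (fun i => b₃ i / K) (bse px)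
          i.succ) : Fin (k + 1) → ℝ) a| ≤ δ + gmm k C Lp H' (M * ρ) κ / M ∧
      -- the value of the leaf
      |px none - MvPolynomial.eval (Fin.cons (rpos M (fun i => K * N₃ i) G (fun i => b₃ i / K)
        (bse x) 0) (fun i : Fin k => rpos M (fun i => K * N₃ i) G (fun i => b₃ i / K) (bse px)
          i.succ) : Fin (k + 1) → ℝ) (MvPolynomial.bind₁
            (nchi M (fun i => K * N₃ i) G (fun i => b₃ i / K)) gB)| ≤
              ν + gmm k C Lp H' (M * ρ) κ / M ∧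
      -- the gradients
      (∀ t : ℝ, 0 ≤ t → t ≤ 1 → ∀ z z' : Fin k → ℝ, (∀ l, |z l| ≤ 2) → (∀ l, |z' l| ≤ 2) →
        |MvPolynomial.eval (Fin.cons t z : Fin (k + 1) → ℝ) a -
          MvPolynomial.eval (Fin.cons t z' : Fin (k + 1) → ℝ) a| ≤
          gmm k C Lp H' (M * ρ) κ * ∑ l : Fin k, |z l - z' l| * ((K * N₃ l.succ : ℕ) / M) ∧
        |MvPolynomial.eval (Fin.cons t z : Fin (k + 1) → ℝ) (MvPolynomial.bind₁
            (nchi M (fun i => K * N₃ i) G (fun i => b₃ i / K)) gB) -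
          MvPolynomial.eval (Fin.cons t z' : Fin (k + 1) → ℝ) (MvPolynomial.bind₁
            (nchi M (fun i => K * N₃ i) G (fun i => b₃ i / K)) gB)| ≤
          gmm k C Lp H' (M * ρ) κ * ∑ l : Fin k, |z l - z' l| * ((K * N₃ l.succ : ℕ) / M)) ∧
      -- doubling
      ∀ s : ℝ, 0 ≤ s → (∀ z : Fin k → ℝ, (∀ i, (jdg K b₃ i.succ : ℝ) / K ≤ z i ∧
          z i ≤ ((jdg K b₃ i.succ : ℝ) + 1) / K) →
        |MvPolynomial.eval (Fin.cons (rpos M (fun i => K * N₃ i) G (fun i => b₃ i / K)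
          (bse x) 0) z : Fin (k + 1) → ℝ) (MvPolynomial.bind₁
            (nchi M (fun i => K * N₃ i) G (fun i => b₃ i / K)) gB - a)| ≤ s) →
        cs (fun _ => 0) 1 (MvPolynomial.bind₁
          (nchi M (fun i => K * N₃ i) G (fun i => b₃ i / K)) gB - a) ≤
          (dbm k D C Lp κ Z + 4 * gmm k C Lp H' (M * ρ) κ) * (ρ + Θ * s) := by
  classical
  obtain ⟨C₁, hC₁, hga⟩ := ga_det (k + 1) D K₀ K₂
  obtain ⟨C₂, hC₂, hl2⟩ := lip_slice k K₂
  obtain ⟨C₃, hC₃, hl3⟩ := lip_slice k ((K₀ + 1) ^ (k + 1) * K₀)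
  obtain ⟨C₄, hC₄, hgf⟩ := geo_fin (k + 1) D K₀ K₂
  have hk0 : (0 : ℝ) ≤ k := Nat.cast_nonneg k
  obtain ⟨C, hC⟩ : ∃ C : ℝ, C = (2 * k + 6) * (C₁ * (C₂ + C₃)) + C₄ := ⟨_, rfl⟩
  have hCC : C₁ * (C₂ + C₃) ≤ C ∧ C₁ ≤ C ∧ C₃ ≤ C ∧ C₄ ≤ C ∧ (2 * k + 6) * (C₁ + 1) ≤ 2 * C ∧
      (2 * k + 6) * C₁ ≤ C := by
    have h1 : 2 * C₁ ≤ C₁ * (C₂ + C₃) := by nlinarith
    have h2 : C₃ ≤ C₁ * (C₂ + C₃) := by nlinarith
    have h3 : 0 ≤ C₁ * (C₂ + C₃) := by nlinarith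
    have h4 : C₁ * (C₂ + C₃) ≤ (2 * k + 6) * (C₁ * (C₂ + C₃)) := by nlinarith
    rw [hC]
    refine ⟨by linarith, by linarith, by linarith, by linarith, ?_, ?_⟩
    · nlinarith
    · nlinarith
  obtain ⟨hc1, hc2, hc3, hc4, hc5, hc6⟩ := hCC
  have hC1 : 1 ≤ C := hC₁.trans hc2
  refine ⟨C, hC1, ?_⟩
  intro Lp κ M K N₃ G gB b₃ a Q Z H H' δ ν ρ Θ θ kk x px hLp hκ hM hK hZ hH hH' hΘ hν hN₃ hKM hG
    hG0 hGd hgBd had hQd hgrG hgrB hL hR hθk hx3 hpx3 hnear hxa hpB hder hNC hρ hMρ hρ1 hρ2 hρle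
    hSF
  have hK1 : 1 ≤ K := by omega
  obtain ⟨N₂, hN₂⟩ : ∃ N₂ : Fin (k + 1) → ℕ, N₂ = fun i => K * N₃ i := ⟨_, rfl⟩
  obtain ⟨b₂, hb₂⟩ : ∃ b₂ : Fin (k + 1) → ℤ, b₂ = fun i => b₃ i / (K : ℤ) := ⟨_, rfl⟩
  have hN₂1 : ∀ i, 1 ≤ N₂ i := fun i => by
    rw [hN₂]
    exact Nat.mul_pos hK1 (hN₃ i)
  have hN₂M : ∀ i, N₂ i ≤ M := fun i => by
    rw [hN₂]
    exact hKM i
  have hx := sub_ncell hM hK1 hN₃ hx3
  have hpx := sub_ncell hM hK1 hN₃ hpx3
  have hNl : ∀ l : Fin k, (((K * N₃ l.succ : ℕ) : ℕ) : ℝ) = N₂ l.succ := fun l => by rw [hN₂]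
  simp only [hNl]
  have hgf' := hgf Lp κ M K N₃ G gB b₃ a Q Z H ρ
  simp only [← hN₂, ← hb₂] at hgrG hgrB hL hxa hNC hSF hx hpx hgf' ⊢
  have hM0 : (0 : ℝ) < M := by exact_mod_cast hM
  have hN0 : ∀ i, (0 : ℝ) < N₂ i := fun i => by exact_mod_cast hN₂1 i
  have hNM : ∀ i, (N₂ i : ℝ) / M ≤ 1 := fun i => by
    rw [div_le_one hM0]
    exact_mod_cast hN₂M i
  have hNM0 : ∀ i, (0 : ℝ) < (N₂ i : ℝ) / M := fun i => by
    have := hN0 i
    positivity
  have hθ : 0 < θ (kk + 1) := lt_of_lt_of_le (by positivity) hρ2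
  have hδ0 : 0 ≤ δ := (abs_nonneg _).trans hxa
  have hν0 : 0 ≤ ν := (abs_nonneg _).trans hpB
  obtain ⟨B, hB⟩ : ∃ B : ℝ, B = 1 + ((k + 1 : ℕ) : ℝ) * Lp := ⟨_, rfl⟩
  have hB1 : 1 ≤ B := by
    have : 0 ≤ ((k + 1 : ℕ) : ℝ) * Lp := mul_nonneg (Nat.cast_nonneg _) hLp
    rw [hB]
    linarith
  obtain ⟨C₀, hC₀⟩ : ∃ C₀ : ℝ, C₀ = cC k Lp := ⟨_, rfl⟩
  have hC₀' : 2 * (1 + ((k + 1 : ℕ) : ℝ) * Lp) ^ (k + 1 + 1) = C₀ := by
    rw [hC₀]
    rfl
  have hC₀2 : 2 ≤ C₀ := by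
    rw [hC₀]
    exact cC_ge hLp
  have hBpow : B ^ (k + 1 + 1) * 2 = C₀ := by
    rw [← hC₀', hB]
    ring
  have hBC : B ≤ C₀ := by
    have h1 : B ≤ B ^ (k + 1 + 1) := by
      calc B = B ^ 1 := (pow_one B).symm
        _ ≤ _ := pow_le_pow_right₀ hB1 (by omega)
    linarith
  have hBp1 : 1 ≤ B ^ (k + 1 + 1) := one_le_pow₀ hB1
  obtain ⟨Y, hY⟩ : ∃ Y : ℝ, Y = M * ρ := ⟨_, rfl⟩
  have hY1 : 1 ≤ Y := by
    rw [hY]
    exact hMρ
  obtain ⟨Γ, hΓ⟩ : ∃ Γ : ℝ, Γ = gmm k C Lp H' (M * ρ) κ := ⟨_, rfl⟩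
  have hΓe : Γ = C * C₀ ^ (2 * (k + 1) + 3) * (1 + H' + Y) * κ := by
    rw [hΓ, hY, hC₀]
    rfl
  rw [← hΓ]
  have hpow : ∀ n ≤ 2 * (k + 1) + 3, C₀ ^ n ≤ C₀ ^ (2 * (k + 1) + 3) := fun n hn =>
    pow_le_pow_right₀ (by linarith) hn
  have hΓge : ∀ (c : ℝ) (n : ℕ), 0 ≤ c → c ≤ C → n ≤ 2 * (k + 1) + 3 →
      c * C₀ ^ n * (1 + H' + Y) * κ ≤ Γ := by
    intro c n hc hcC hn
    rw [hΓe]
    have h1 : c * C₀ ^ n ≤ C * C₀ ^ (2 * (k + 1) + 3) :=
      mul_le_mul hcC (hpow n hn) (by positivity) (by linarith)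
    have h2 : 0 ≤ 1 + H' + Y := by linarith
    exact mul_le_mul_of_nonneg_right (mul_le_mul_of_nonneg_right h1 h2) (by linarith)
  have hHY : 1 ≤ 1 + H' + Y := by linarith
  -- the positions
  obtain ⟨u₀, hu₀⟩ : ∃ u₀ : ℝ, u₀ = rpos M N₂ G b₂ (bse x) 0 := ⟨_, rfl⟩
  obtain ⟨yc, hyc⟩ : ∃ yc : Fin k → ℝ, yc = fun i => rpos M N₂ G b₂ (bse px) i.succ := ⟨_, rfl⟩
  obtain ⟨w, hw⟩ : ∃ w : Fin (k + 1) → ℝ, w = Fin.cons u₀ yc := ⟨_, rfl⟩
  obtain ⟨up, hup⟩ : ∃ up : Fin (k + 1) → ℝ, up = rpos M N₂ G b₂ (bse px) := ⟨_, rfl⟩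
  rw [← hu₀, ← hyc, ← hw]
  rw [← hu₀] at hSF
  have hxm : rpos M N₂ G b₂ (bse x) ∈ ucube (k + 1) := rpos_mem hM hN₂1 hx
  have hupm : up ∈ ucube (k + 1) := by
    rw [hup]
    exact rpos_mem hM hN₂1 hpx
  have hu₀1 : 0 ≤ u₀ ∧ u₀ ≤ 1 := by
    rw [hu₀]
    exact hxm 0
  have hwm : w ∈ ucube (k + 1) := by
    intro i
    rw [hw]
    refine Fin.cases ?_ (fun i => ?_) i
    · rw [Fin.cons_zero]
      exact hu₀1
    · rw [Fin.cons_succ, hyc, ← hup]
      exact hupm i.succ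
  have hws : ∀ i : Fin k, up i.succ = w i.succ := by
    intro i
    rw [hw, Fin.cons_succ, hyc, hup]
  have hw0 : w 0 = u₀ := by rw [hw, Fin.cons_zero]
  have ht0 : nwid M N₂ 0 * |w 0 - up 0| ≤ κ / M := by
    have h1 := hnear (some 0)
    have e1 : nwid M N₂ 0 * (w 0 - up 0) = x (some 0) - px (some 0) := by
      rw [hw0, hu₀, hup]
      unfold rpos nwid
      rw [hG0, map_zero, map_zero]
      have := hN0 0
      show (N₂ 0 : ℝ) / M * ((x (some 0) - 0 - (b₂ 0 : ℝ) * N₂ 0 / M) / ((N₂ 0 : ℝ) / M) -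
        (px (some 0) - 0 - (b₂ 0 : ℝ) * N₂ 0 / M) / ((N₂ 0 : ℝ) / M)) = _
      field_simp
      ring
    have h2 : 0 < nwid M N₂ 0 := hNM0 0
    rw [← e1, abs_mul, abs_of_pos h2] at h1
    exact h1
  -- the point at the rounded time
  obtain ⟨px', hpx'⟩ : ∃ px' : Option (Fin (k + 1)) → ℝ,
      px' = pt (cpt (nchi M N₂ G b₂) w) (px none) := ⟨_, rfl⟩
  have hbpx' : bse px' = cpt (nchi M N₂ G b₂) w := by
    rw [hpx']
    rfl
  have hpx'm : bse px' ∈ ncell M N₂ G b₂ := by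
    rw [hbpx']
    exact nchi_mem hM hN₂1 hG hwm
  have hpx'r : rpos M N₂ G b₂ (bse px') = w := by
    rw [hbpx']
    exact rpos_cpt hM hN₂1 hG w
  have hnear' : ∀ o, |x o - px' o| ≤ κ * C₀ / M := by
    have h0 : κ / M ≤ κ * C₀ / M := by
      refine div_le_div_of_nonneg_right ?_ hM0.le
      exact le_mul_of_one_le_right (by linarith) (by linarith)
    intro o
    cases o with
    | none =>
      have h1 : px' none = px none := by
        rw [hpx']
        rfl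
      rw [h1]
      exact (hnear none).trans h0
    | some i =>
      have h1 : px' (some i) = cpt (nchi M N₂ G b₂) w i := by
        rw [hpx']
        rfl
      have h2 : px (some i) = cpt (nchi M N₂ G b₂) up i := by
        rw [hup, nchi_rpos hM hN₂1 hG]
        rfl
      have h3 := chi_time (b := b₂) hM hN₂1 hG hLp hgrG hupm hwm hws i
      rw [← hB] at h3
      have h4 : B ^ (k + 1 + 1) * (nwid M N₂ 0 * |w 0 - up 0|) ≤ B ^ (k + 1 + 1) * (κ / M) :=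
        mul_le_mul_of_nonneg_left ht0 (by positivity)
      have h5 := hnear (some i)
      have h6 : |x (some i) - px' (some i)| ≤ κ / M + B ^ (k + 1 + 1) * (κ / M) := by
        have e1 : x (some i) - px' (some i) = (x (some i) - px (some i)) -
            (cpt (nchi M N₂ G b₂) w i - cpt (nchi M N₂ G b₂) up i) := by
          rw [h1, h2]
          ring
        rw [e1]
        exact (abs_sub _ _).trans (add_le_add h5 (h3.trans h4))
      refine h6.trans ?_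
      have h7 : 0 ≤ κ / M := by positivity
      have e2 : κ * C₀ / M = B ^ (k + 1 + 1) * (κ / M) + B ^ (k + 1 + 1) * (κ / M) := by
        rw [← hBpow]
        ring
      rw [e2]
      have h8 : κ / M ≤ B ^ (k + 1 + 1) * (κ / M) := le_mul_of_one_le_left h7 hBp1
      linarith
  have hHδ : 12 * (H * δ) ≤ ρ := by
    have h1 : 0 ≤ 6 * H * θ kk := by positivity
    linarith
  have hHρ : ρ ≤ 12 * H * ρ := by
    have h1 : (1 : ℝ) ≤ 12 * H := by linarith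
    exact le_mul_of_one_le_left hρ.le h1
  have hHδ0 : 0 ≤ H * δ := by positivity
  have h4H : 4 * H * δ ≤ θ (kk + 1) := by linarith
  have hκC : 1 ≤ κ * C₀ := one_le_mul_of_one_le_of_one_le hκ (by linarith)
  obtain ⟨g1, g2⟩ := hga Lp (κ * C₀) M N₂ G b₂ a Q H H' Y δ θ kk x px' hLp hκC hM
    hN₂1 hN₂M hG hGd had hQd hgrG hx hpx'm hnear' hxa hR hH hH' hθk hθ h4H hder
    (fun R hR => hNC R (by
      rcases hR with h | h | h
      · exact Or.inl ⟨_, h⟩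
      · exact Or.inl ⟨_, h⟩
      · exact Or.inr h)) (by linarith) (fun i => by
      have h1 : H * (θ kk + 2 * δ) ≤ ρ := by
        have : 0 ≤ H * (θ kk + 2 * δ) := by positivity
        linarith
      have h2 : ρ ≤ Y * (N₂ i / M) := by
        rw [hY]
        have e1 : (M : ℝ) * ρ * (N₂ i / M) = ρ * N₂ i := by field_simp
        rw [e1]
        have h3 : (1 : ℝ) ≤ N₂ i := by exact_mod_cast hN₂1 i
        exact le_mul_of_one_le_right hρ.le h3
      exact h1.trans h2)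
  rw [hC₀'] at g1 g2
  rw [hpx'r] at g2
  have hpx'n : px' none = px none := by
    rw [hpx']
    rfl
  rw [hpx'n] at g2
  -- the gradient of the branch
  have hgra : ∀ u ∈ ucube (k + 1), ∀ i, |MvPolynomial.eval u (MvPolynomial.pderiv i a)| ≤
      C₁ * C₀ * (1 + H' + Y) * (N₂ i / M) := by
    intro u hu i
    refine (g1 u hu i).trans (mul_le_mul_of_nonneg_right ?_ (hNM0 i).le)
    refine mul_le_mul_of_nonneg_left (by linarith) (by positivity)
  have hgrb : ∀ u ∈ ucube (k + 1), ∀ i, |MvPolynomial.eval u (MvPolynomial.pderiv i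
      (MvPolynomial.bind₁ (nchi M N₂ G b₂) gB))| ≤ C₀ ^ 2 * (N₂ i / M) := by
    intro u hu i
    refine (grad_bind hM hN₂1 hG hLp hgrG hgrB hu i).trans
      (mul_le_mul_of_nonneg_right ?_ (hNM0 i).le)
    rw [← hB]
    have h1 : ((k + 1 : ℕ) : ℝ) * Lp ≤ B := by
      rw [hB]
      linarith
    calc ((k + 1 : ℕ) : ℝ) * Lp * B ^ (k + 1 + 1) ≤ C₀ * C₀ := by
          refine mul_le_mul (h1.trans hBC) ?_ (by positivity) (by linarith)
          linarith
      _ = _ := by ring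
  have hv1 : |px none - MvPolynomial.eval w a| ≤ δ + Γ / M := by
    refine g2.trans ?_
    have e1 : C₁ * C₀ ^ (2 * (k + 1) + 2) * (1 + H' + Y) * (κ * C₀) / M =
        (C₁ * C₀ ^ (2 * (k + 1) + 3) * (1 + H' + Y) * κ) / M := by
      rw [pow_succ C₀ (2 * (k + 1) + 2)]
      ring
    rw [e1]
    have h1 := hΓge C₁ (2 * (k + 1) + 3) (by linarith) hc2 le_rfl
    have h2 := div_le_div_of_nonneg_right h1 hM0.le
    linarith
  have hv2 : |px none - MvPolynomial.eval w (MvPolynomial.bind₁ (nchi M N₂ G b₂) gB)| ≤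
      ν + Γ / M := by
    have h1 := mv_ucube (MvPolynomial.bind₁ (nchi M N₂ G b₂) gB) (fun i => C₀ ^ 2 * (N₂ i / M))
      hgrb hwm hupm
    have h2 : MvPolynomial.eval up (MvPolynomial.bind₁ (nchi M N₂ G b₂) gB) =
        MvPolynomial.eval (bse px) gB := by
      rw [eval_bind, hup, nchi_rpos hM hN₂1 hG]
    rw [h2, Fin.sum_univ_succ] at h1
    have h3 : ∑ j : Fin k, C₀ ^ 2 * ((N₂ j.succ : ℝ) / M) * |up j.succ - w j.succ| = 0 :=
      Finset.sum_eq_zero fun j _ => by rw [hws j, sub_self, abs_zero, mul_zero]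
    rw [h3, add_zero] at h1
    have h4 : C₀ ^ 2 * ((N₂ 0 : ℝ) / M) * |up 0 - w 0| ≤ C₀ ^ 2 * (κ / M) := by
      rw [mul_assoc, abs_sub_comm]
      exact mul_le_mul_of_nonneg_left ht0 (by positivity)
    have h5 : C₀ ^ 2 * (κ / M) ≤ Γ / M := by
      rw [← mul_div_assoc]
      refine div_le_div_of_nonneg_right ?_ hM0.le
      have h6 := hΓge 1 2 zero_le_one hC1 (by omega)
      refine le_trans ?_ h6
      rw [one_mul]
      have h7 : C₀ ^ 2 * κ ≤ C₀ ^ 2 * (1 + H' + Y) * κ := mul_le_mul_of_nonneg_right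
        (le_mul_of_one_le_right (by positivity) hHY) (by linarith)
      exact h7
    have e1 : px none - MvPolynomial.eval w (MvPolynomial.bind₁ (nchi M N₂ G b₂) gB) =
        (px none - MvPolynomial.eval (bse px) gB) + (MvPolynomial.eval (bse px) gB -
          MvPolynomial.eval w (MvPolynomial.bind₁ (nchi M N₂ G b₂) gB)) := by ring
    rw [e1]
    exact (abs_add_le _ _).trans (add_le_add hpB (h1.trans (h4.trans h5)))
  have hkap : 1 ≤ κ := hκ
  refine ⟨hv1, hv2, ?_, ?_⟩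
  · intro t ht0 ht1 z z' hz hz'
    have hsum : 0 ≤ ∑ l : Fin k, |z l - z' l| * ((N₂ l.succ : ℝ) / M) :=
      Finset.sum_nonneg fun l _ => mul_nonneg (abs_nonneg _) (hNM0 _).le
    constructor
    · have h1 := hl2 a (fun i => C₁ * C₀ * (1 + H' + Y) * (N₂ i / M)) had hgra t ht0 ht1 z z' hz hz'
      refine h1.trans ?_
      have e1 : C₂ * ∑ l : Fin k, |z l - z' l| * (C₁ * C₀ * (1 + H' + Y) * (N₂ l.succ / M)) =
          (C₁ * C₂ * C₀ ^ 1 * (1 + H' + Y)) * ∑ l : Fin k, |z l - z' l| * (N₂ l.succ / M) := by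
        rw [Finset.mul_sum, Finset.mul_sum]
        exact Finset.sum_congr rfl fun l _ => by ring
      rw [e1]
      refine mul_le_mul_of_nonneg_right ?_ hsum
      have h2 := hΓge (C₁ * C₂) 1 (by positivity) (le_trans (mul_le_mul_of_nonneg_left
        (by linarith) (by linarith)) hc1) (by omega)
      refine le_trans ?_ h2
      exact le_mul_of_one_le_right (by positivity) hκ
    · have hbd : (MvPolynomial.bind₁ (nchi M N₂ G b₂) gB).totalDegree ≤ (K₀ + 1) ^ (k + 1) * K₀ :=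
        (SML.totalDegree_bind_le _ ((K₀ + 1) ^ (k + 1)) (fun l => deg_chiN G (ncor M N₂ b₂)
          (nwid M N₂) K₀ hGd (k + 1) l) _).trans (Nat.mul_le_mul_left _ hgBd)
      have h1 := hl3 _ (fun i => C₀ ^ 2 * (N₂ i / M)) hbd hgrb t ht0 ht1 z z' hz hz'
      refine h1.trans ?_
      have e1 : C₃ * ∑ l : Fin k, |z l - z' l| * (C₀ ^ 2 * (N₂ l.succ / M)) =
          (C₃ * C₀ ^ 2) * ∑ l : Fin k, |z l - z' l| * (N₂ l.succ / M) := by
        rw [Finset.mul_sum, Finset.mul_sum]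
        exact Finset.sum_congr rfl fun l _ => by ring
      rw [e1]
      refine mul_le_mul_of_nonneg_right ?_ hsum
      have h2 := hΓge C₃ 2 (by linarith) hc3 (by omega)
      refine le_trans ?_ h2
      have h4 : C₃ * C₀ ^ 2 ≤ C₃ * C₀ ^ 2 * (1 + H' + Y) :=
        le_mul_of_one_le_right (by positivity) hHY
      exact h4.trans (le_mul_of_one_le_right (by positivity) hκ)
  · intro s hs hsl
    have h1 := hSF s hsl
    have hA0 : 0 ≤ dbm k D C Lp κ Z := by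
      unfold dbm
      rw [← hC₀]
      positivity
    have hΓ0 : 0 ≤ Γ := by
      rw [hΓe]
      positivity
    have hΘs : 0 ≤ Θ * s := by positivity
    by_cases hbig : 1 ≤ Θ * s
    · -- the trivial bound
      refine SML.cs_le _ (by positivity) fun y hy => ?_
      have hyu : y ∈ ucube (k + 1) := fun i => by
        have := hy i
        constructor <;> linarith [this.1, this.2]
      have h2 := mv_ucube a (fun i => C₁ * C₀ * (1 + H' + Y) * (N₂ i / M)) hgra hwm hyu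
      have h3 := mv_ucube (MvPolynomial.bind₁ (nchi M N₂ G b₂) gB)
        (fun i => C₀ ^ 2 * (N₂ i / M)) hgrb hwm hyu
      have hle : ∀ i, |y i - w i| ≤ 1 := fun i => by
        have h4 := hyu i
        have h5 := hwm i
        rw [abs_le]
        constructor <;> linarith [h4.1, h4.2, h5.1, h5.2]
      have hT : ∀ c : ℝ, 0 ≤ c → ∑ i, c * ((N₂ i : ℝ) / M) * |y i - w i| ≤ (k + 1) * c := by
        intro c hc
        calc ∑ i, c * ((N₂ i : ℝ) / M) * |y i - w i| ≤ ∑ _i : Fin (k + 1), c := by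
              refine Finset.sum_le_sum fun i _ => ?_
              have h4 : c * ((N₂ i : ℝ) / M) ≤ c := by
                exact mul_le_of_le_one_right hc (hNM i)
              calc c * ((N₂ i : ℝ) / M) * |y i - w i| ≤ c * 1 :=
                    mul_le_mul h4 (hle i) (abs_nonneg _) hc
                _ = c := mul_one c
          _ = _ := by
            rw [Finset.sum_const, Finset.card_univ, Fintype.card_fin, nsmul_eq_mul]
            push_cast
            ring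
      have h4 := h2.trans (hT (C₁ * C₀ * (1 + H' + Y)) (by positivity))
      have h5 := h3.trans (hT (C₀ ^ 2) (by positivity))
      have hδ1 : δ ≤ 1 := by
        have h1 : δ ≤ H * δ := le_mul_of_one_le_left hδ0 hH
        linarith
      have hdiff : |MvPolynomial.eval y (MvPolynomial.bind₁ (nchi M N₂ G b₂) gB - a)| ≤
          δ + ν + 2 * (Γ / M) + (k + 1) * (C₁ * C₀ * (1 + H' + Y)) + (k + 1) * C₀ ^ 2 := by
        rw [map_sub]
        have e1 : MvPolynomial.eval y (MvPolynomial.bind₁ (nchi M N₂ G b₂) gB) -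
            MvPolynomial.eval y a = (MvPolynomial.eval y (MvPolynomial.bind₁ (nchi M N₂ G b₂) gB) -
              MvPolynomial.eval w (MvPolynomial.bind₁ (nchi M N₂ G b₂) gB)) -
              (MvPolynomial.eval y a - MvPolynomial.eval w a) -
              (px none - MvPolynomial.eval w (MvPolynomial.bind₁ (nchi M N₂ G b₂) gB)) +
              (px none - MvPolynomial.eval w a) := by ring
        rw [e1]
        refine (abs_add_le _ _).trans ?_
        have h6 := abs_sub (MvPolynomial.eval y (MvPolynomial.bind₁ (nchi M N₂ G b₂) gB) -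
              MvPolynomial.eval w (MvPolynomial.bind₁ (nchi M N₂ G b₂) gB) -
              (MvPolynomial.eval y a - MvPolynomial.eval w a))
              (px none - MvPolynomial.eval w (MvPolynomial.bind₁ (nchi M N₂ G b₂) gB))
        have h7 := abs_sub (MvPolynomial.eval y (MvPolynomial.bind₁ (nchi M N₂ G b₂) gB) -
              MvPolynomial.eval w (MvPolynomial.bind₁ (nchi M N₂ G b₂) gB))
              (MvPolynomial.eval y a - MvPolynomial.eval w a)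
        linarith
      have hΓM : Γ / M ≤ Γ := div_le_self hΓ0 (by exact_mod_cast hM)
      have hnum := triv_num (k := k) hC₀2 hC₁ hHY hκ hc5 hδ1 hν hΓe hΓM
      refine (hdiff.trans hnum).trans ?_
      have h6 : 1 ≤ ρ + Θ * s := by linarith
      calc 4 * Γ ≤ 4 * Γ * (ρ + Θ * s) := le_mul_of_one_le_right (by linarith) h6
        _ ≤ _ := mul_le_mul_of_nonneg_right (by linarith) (by linarith)
    · rw [not_le] at hbig
      have h2 := hgf' (max ρ (Θ * s)) δ θ kk x hLp hκ hM hK hZ hH hN₃ hKM hG hGd hgBd had hQd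
        hgrG hgrB hL hR hθk hx hxa (fun m => hNC _ (Or.inl ⟨m, rfl⟩)) hρ hMρ hρ1 hρ2
        (le_max_left _ _) (max_le hρle hbig.le) (h1.trans (le_max_right _ _))
      refine h2.trans ?_
      rw [hC₀']
      have h3 : (C₄ * Z * (C₄ * κ * C₀ ^ (2 * (k + 1))) ^ (D + 1)) ^ (D + 1) ≤
          dbm k D C Lp κ Z := by
        unfold dbm
        rw [← hC₀]
        refine pow_le_pow_left₀ (by positivity) ?_ _
        refine mul_le_mul ?_ ?_ (by positivity) (by positivity)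
        · exact mul_le_mul_of_nonneg_right hc4 (by linarith)
        · refine pow_le_pow_left₀ (by positivity) ?_ _
          refine mul_le_mul_of_nonneg_right ?_ (by positivity)
          exact mul_le_mul_of_nonneg_right hc4 (by linarith)
      have h4 : max ρ (Θ * s) ≤ ρ + Θ * s := max_le (by linarith) (by linarith)
      exact mul_le_mul (h3.trans (by linarith)) h4 (le_trans hρ.le (le_max_left _ _))
        (by positivity)

end Pool.EXS
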