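import Pool.Agent.H86.GEO.Gjo
import Pool.Agent.H86.GEO.Prm
import Pool.Agent.H86.GEO.LonW
import Pool.Agent.H5.GEO.LineW2
import Pool.Agent.H5.GEO.IncW

/-!
# The conditions for one pair: gradients, doubling

`grad_gsy`: the gradients of the chart on the cell. `grad_inc`: the gradient of the leaf on the
cell. `lon_inc`: doubling on the leaf, from the box of the label to the cell.
-/

set_option autoImplicit false

namespace Pool.GEO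

open Finset Real
open Pool.Agent.H49.Ent Pool.Agent.H32.Dense Pool.STK Pool.KAF Pool.KAL Pool.KS3 Pool.M3F
open Pool.KJA Pool.KA Pool.K2S Pool.KSAT Pool.PB Pool.STAT Pool.GEN Pool.CLO37 Pool.IEN Pool.EXS
open Pool.JPN Pool.JMS

variable {m J : ℕ} {F : Fam m J} {A : F.Ω → Prop} {c c₀ c₁ : ℕ → Fin m} {k : ℕ}

/-- The gradients of the chart on the cell. -/
lemma grad_gsy {W₀ W₁ Pr sg₀ sg q K : ℕ} {g : ℕ → ℕ} {L : ℝ} {V : Type} {z : PtT F → V}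
    {z' : LnT F → V} {P : V → ℕ → PN} (hN : NLabW F c k W₀ sg₀ g K L A z z' P) (hL : 0 ≤ L)
    (hW₀J : W₀ ≤ J) (hWP : W₁ ≤ Pr) (hq : ∀ i < k + 1, wid W₀ g i + q ≤ Pr) {ω : F.Ω}
    (hω : A ω) {b : Fin (k + 1) → ℤ}
    (hb : bse (zsw c k W₁ sg (ptr F J ω)) ∈ ncell (2 ^ (Pr - W₁)) (nw W₀ Pr g k q)
      (gsy k W₁ (P (z (ptr F J ω)))) b) {y : Fin (k + 1) → ℝ}
    (hy : y ∈ ncell (2 ^ (Pr - W₁)) (nw W₀ Pr g k q) (gsy k W₁ (P (z (ptr F J ω)))) b)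
    (i l : Fin (k + 1)) :
    |MvPolynomial.eval y (MvPolynomial.pderiv l (gsy k W₁ (P (z (ptr F J ω))) i))| ≤ L := by
  have hW0 : (0 : ℝ) < 2 ^ W₁ := by positivity
  have hM0 : (0 : ℝ) < ((2 ^ (Pr - W₁) : ℕ) : ℝ) := by positivity
  -- the side of the cell
  have hside : ∀ j : Fin (k + 1), ((nw W₀ Pr g k q j : ℕ) : ℝ) / ((2 ^ (Pr - W₁) : ℕ) : ℝ) ≤
      2 ^ W₁ * (1 / 2 ^ wid W₀ g j) := by
    intro j
    have h1 := hq j j.2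
    unfold nw
    push_cast
    have e1 : Pr - wid W₀ g j - q = Pr - (wid W₀ g j + q) := by omega
    rw [e1, two_pow_sub hWP, two_pow_sub h1, pow_add]
    have h2 : (1 : ℝ) ≤ 2 ^ q := one_le_pow₀ one_le_two
    have h3 : (2 : ℝ) ^ Pr / (2 ^ wid W₀ g j * 2 ^ q) / (2 ^ Pr / 2 ^ W₁) =
        2 ^ W₁ * (1 / 2 ^ wid W₀ g j) * (1 / 2 ^ q) := by
      field_simp
    rw [h3]
    refine mul_le_of_le_one_right (by positivity) ?_
    rw [div_le_one (by positivity)]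
    exact h2
  have hbox : Pool.STAT.CLO.Bxr 4 (wid W₀ g) (P (z (ptr F J ω))) (k + 1) (unF (k + 1) W₁ y) := by
    intro j hj
    have h0 := pos_w hN hW₀J hω hj
    have h1 := hb ⟨j, hj⟩
    have h2 := hy ⟨j, hj⟩
    have h3 := hside ⟨j, hj⟩
    simp only at h3
    obtain ⟨σ, hσ⟩ : ∃ σ : ℝ, σ = ((nw W₀ Pr g k q ⟨j, hj⟩ : ℕ) : ℝ) /
        ((2 ^ (Pr - W₁) : ℕ) : ℝ) := ⟨_, rfl⟩
    rw [← hσ] at h1 h2 h3
    have hyj : y ⟨j, hj⟩ = 2 ^ W₁ * unF (k + 1) W₁ y j := by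
      unfold unF
      rw [dif_pos hj]
      field_simp
    have hpj : bse (zsw c k W₁ sg (ptr F J ω)) ⟨j, hj⟩ = 2 ^ W₁ * px c (ptr F J ω) j := rfl
    have h4 : |(y ⟨j, hj⟩ - MvPolynomial.eval y (gsy k W₁ (P (z (ptr F J ω))) ⟨j, hj⟩)) -
        (bse (zsw c k W₁ sg (ptr F J ω)) ⟨j, hj⟩ - MvPolynomial.eval
          (bse (zsw c k W₁ sg (ptr F J ω))) (gsy k W₁ (P (z (ptr F J ω))) ⟨j, hj⟩))| ≤ σ := by
      rw [abs_le]
      constructor <;> linarith [h1.1, h1.2, h2.1, h2.2]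
    have h5 : (2 : ℝ) ^ W₁ * |(unF (k + 1) W₁ y j - MvPolynomial.eval (unF (k + 1) W₁ y)
        (P (z (ptr F J ω)) j)) - (px c (ptr F J ω) j - MvPolynomial.eval (px c (ptr F J ω))
          (P (z (ptr F J ω)) j))| ≤ 2 ^ W₁ * (1 / 2 ^ wid W₀ g j) := by
      refine le_trans (le_of_eq ?_) (h4.trans h3)
      have e9 : ∀ x : ℝ, (2 : ℝ) ^ W₁ * |x| = |2 ^ W₁ * x| := fun x => by
        rw [abs_mul, abs_of_pos hW0]
      rw [e9]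
      congr 1
      rcases Nat.eq_zero_or_pos j with h0' | h0'
      · subst h0'
        have e1 : gsy k W₁ (P (z (ptr F J ω))) ⟨0, hj⟩ = 0 := gsy_zero _ _ _
        rw [e1, map_zero, map_zero, hyj, hpj, hN.zero ω hω, MvPolynomial.eval_C,
          MvPolynomial.eval_C]
        ring
      · obtain ⟨n, rfl⟩ : ∃ n, j = n + 1 := ⟨j - 1, by omega⟩
        have e0 : (⟨n + 1, hj⟩ : Fin (k + 1)) = (⟨n, by omega⟩ : Fin k).succ := rfl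
        have e1 : gsy k W₁ (P (z (ptr F J ω))) ⟨n + 1, hj⟩ = toF (k + 1) W₁
            (P (z (ptr F J ω)) (n + 1)) := by
          rw [e0, gsy_succ]
        rw [e1, eval_toF, eval_toF, ← bse_unF c k W₁ sg (ptr F J ω) hj.le (hN.tri _ _), hyj, hpj]
        ring
    have h6 := le_of_mul_le_mul_left h5 hW0
    have h7 : |unF (k + 1) W₁ y j - MvPolynomial.eval (unF (k + 1) W₁ y)
        (P (z (ptr F J ω)) j)| ≤ 1 / 2 ^ wid W₀ g j + 1 / 2 ^ wid W₀ g j := by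
      have h8 := abs_sub_abs_le_abs_sub (unF (k + 1) W₁ y j - MvPolynomial.eval
        (unF (k + 1) W₁ y) (P (z (ptr F J ω)) j)) (px c (ptr F J ω) j - MvPolynomial.eval
          (px c (ptr F J ω)) (P (z (ptr F J ω)) j))
      linarith
    refine h7.trans ?_
    have e2 : (4 : ℝ) / 2 ^ wid W₀ g j = 4 * (1 / 2 ^ wid W₀ g j) := by ring
    rw [e2]
    have h9 : (0 : ℝ) < 1 / 2 ^ wid W₀ g j := by positivity
    linarith
  refine Fin.cases ?_ (fun i => ?_) i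
  · rw [gsy_zero, map_zero, map_zero, abs_zero]
    exact hL
  · rw [gsy_succ, eval_pderiv_toF]
    by_cases hl : l.val < i.val + 1
    · exact hN.grad ω hω _ hbox (i.val + 1) (by
        have := i.2
        omega) l.val hl
    · have h1 : MvPolynomial.pderiv l.val (P (z (ptr F J ω)) (i.val + 1)) = 0 :=
        MvPolynomial.pderiv_eq_zero_of_notMem_vars fun h => hl (Finset.mem_range.1
          (hN.tri _ _ h))
      rw [h1, map_zero, abs_zero]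
      exact hL

/-- The gradient of the leaf on the cell. -/
lemma grad_inc {W₁ Pr sg K : ℕ} {g : ℕ → ℕ} {L : ℝ} {V : Type} {z : PtT F → V}
    {z' : LnT F → V} {P : V → ℕ → PN} (hN : NLabW F c₁ k W₁ sg g K L A z z' P) (hL : 0 ≤ L)
    (hWP : W₁ ≤ Pr) (hw : ∀ i < k + 1, wid W₁ g i ≤ Pr) {ω : F.Ω} (hω : A ω)
    (ρ : Equiv.Perm (Fin (k + 1))) {y : Fin (k + 1) → ℝ} {u : Fin (k + 1) → ℝ}
    (hu : u ∈ ucube (k + 1)) (hy : cbw (k + 1) W₁ Pr g (P (z (ptr F J ω))) u = fun i => y (ρ i))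
    (l : Fin (k + 1)) :
    |MvPolynomial.eval y (MvPolynomial.pderiv l (MvPolynomial.rename ρ
      (toF (k + 1) W₁ (P (z (ptr F J ω)) (k + 1)))))| ≤ L := by
  rw [pd_rename, ← hy, eval_pderiv_toF]
  have h1 := cbw_bxr (W := W₁) (P₀ := Pr) (g := g) (P := P (z (ptr F J ω))) (hN.tri _) hWP hw hu
  exact hN.grad ω hω _ (h1.mono (by norm_num) le_rfl) (k + 1) le_rfl _ (Fin.is_lt _)

/-- The leaf at the rounded point, in the other order. -/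
lemma leaf_val {W₁ Pr sg K kap : ℕ} {g : ℕ → ℕ} {L : ℝ} {V : Type} {z : PtT F → V}
    {z' : LnT F → V} {P : V → ℕ → PN} (hN : NLabW F c₁ k W₁ sg g K L A z z' P) (hL : 0 ≤ L)
    (hWP : W₁ ≤ Pr) (hPJ : Pr ≤ J) (hPg : Pr ≤ g k) {ω : F.Ω} (hω : A ω)
    (ρ : Equiv.Perm (Fin (k + 1))) (h0 : ρ 0 = 0) (hk : c₁ k = c₀ k)
    (hc : ∀ i : Fin (k + 1), i ≠ 0 → c₁ (i.val - 1) = c₀ ((ρ i).val - 1)) :
    |zsw c₀ k W₁ sg (ptr F J ω) none - MvPolynomial.eval (bse (zsw c₀ k W₁ sg (ptr F J ω)))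
      (MvPolynomial.rename ρ (toF (k + 1) W₁ (P (z (ptr F J ω)) (k + 1))))| ≤
      clC k kap L / ((2 ^ (Pr - W₁) : ℕ) : ℝ) := by
  have hM0 : (0 : ℝ) < ((2 ^ (Pr - W₁) : ℕ) : ℝ) := by positivity
  have hC₀ := clC_ge (r := k) (kap := kap) hL
  have hz := zsw_pm ρ h0 hk hc W₁ sg (ptr F J ω)
  have e1 : zsw c₀ k W₁ sg (ptr F J ω) none = zsw c₁ k W₁ sg (ptr F J ω) none := congrFun hz none
  have e2 : MvPolynomial.eval (bse (zsw c₀ k W₁ sg (ptr F J ω)))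
      (MvPolynomial.rename ρ (toF (k + 1) W₁ (P (z (ptr F J ω)) (k + 1)))) =
      MvPolynomial.eval (bse (zsw c₁ k W₁ sg (ptr F J ω)))
        (toF (k + 1) W₁ (P (z (ptr F J ω)) (k + 1))) := by
    rw [MvPolynomial.eval_rename]
    congr 2
    funext i
    exact congrFun hz (some i)
  rw [e1, e2]
  have h2 := hN.posN ω hω
  have h3 : MvPolynomial.eval (bse (zsw c₁ k W₁ sg (ptr F J ω))) (toF (k + 1) W₁
      (P (z (ptr F J ω)) (k + 1))) = 2 ^ W₁ * MvPolynomial.eval (px c₁ (ptr F J ω))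
        (P (z (ptr F J ω)) (k + 1)) := by
    rw [eval_toF, ← bse_unF c₁ k W₁ sg (ptr F J ω) le_rfl (hN.tri _ (k + 1))]
  rw [h3]
  have hW0 : (0 : ℝ) < 2 ^ W₁ := by positivity
  have h4 : zsw c₁ k W₁ sg (ptr F J ω) none - 2 ^ W₁ * MvPolynomial.eval (px c₁ (ptr F J ω))
      (P (z (ptr F J ω)) (k + 1)) = 2 ^ W₁ * (px c₁ (ptr F J ω) (k + 1) / 2 ^ sg -
        MvPolynomial.eval (px c₁ (ptr F J ω)) (P (z (ptr F J ω)) (k + 1))) := by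
    show 2 ^ W₁ * (px c₁ (ptr F J ω) (k + 1) / 2 ^ sg) - _ = _
    ring
  rw [h4, abs_mul, abs_of_pos hW0]
  have h5 : (1 : ℝ) / 2 ^ g k + 1 / 2 ^ J ≤ 2 / 2 ^ Pr := by
    have h6 : (1 : ℝ) / 2 ^ g k ≤ 1 / 2 ^ Pr := div_le_div_of_nonneg_left zero_le_one
      (by positivity) (pow_le_pow_right₀ one_le_two hPg)
    have h7 : (1 : ℝ) / 2 ^ J ≤ 1 / 2 ^ Pr := div_le_div_of_nonneg_left zero_le_one
      (by positivity) (pow_le_pow_right₀ one_le_two hPJ)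
    have h8 : (2 : ℝ) / 2 ^ Pr = 1 / 2 ^ Pr + 1 / 2 ^ Pr := by ring
    linarith
  have h6 : (2 : ℝ) ^ W₁ * (2 / 2 ^ Pr) = 2 / ((2 ^ (Pr - W₁) : ℕ) : ℝ) := by
    push_cast
    rw [two_pow_sub hWP]
    field_simp
  calc (2 : ℝ) ^ W₁ * _ ≤ 2 ^ W₁ * (2 / 2 ^ Pr) := mul_le_mul_of_nonneg_left (h2.trans h5) hW0.le
    _ = 2 / ((2 ^ (Pr - W₁) : ℕ) : ℝ) := h6
    _ ≤ _ := div_le_div_of_nonneg_right hC₀ hM0.le

/-- The event of doubling for one sample. -/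
def LonE (F : Fam m J) (c₁ : ℕ → Fin m) (k W₁ sg Pr D : ℕ) (g₁ : ℕ → ℕ) (κ Z : ℝ)
    (N₃ : Fin (k + 1) → ℕ) (G : Fin (k + 1) → MvPolynomial (Fin (k + 1)) ℝ) (P₁ : ℕ → PN)
    (ω : F.Ω) : Prop :=
  ∀ R : MvPolynomial (Option (Fin (k + 1))) ℝ, R.totalDegree ≤ D → ∀ u ∈ ucube (k + 1),
    ∃ y' ∈ ncell (2 ^ (Pr - W₁)) N₃ G (nidx N₃ (ndg (2 ^ (Pr - W₁)) G
      (bse (zsw c₁ k W₁ sg (ptr F J ω))))),
      Psi R (κ / ((2 ^ (Pr - W₁) : ℕ) : ℝ)) (cpt (chw (k + 1) W₁ Pr g₁ P₁) u) ≤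
        Z * Psi R (κ / ((2 ^ (Pr - W₁) : ℕ) : ℝ)) (lpt (toF (k + 1) W₁ (P₁ (k + 1))) y')

/-- **Doubling on the leaf**, from the box of the label to the cell. -/
lemma lon_inc {W₁ Pr sg D : ℕ} {g : ℕ → ℕ} {κ Z : ℝ} {P : ℕ → PN} (hP : TriN P)
    {N₂ N₃ : Fin (k + 1) → ℕ} {G : Fin (k + 1) → MvPolynomial (Fin (k + 1)) ℝ} {ω : F.Ω}
    (ρ : Equiv.Perm (Fin (k + 1))) (h0 : ρ 0 = 0) (hk : c₁ k = c₀ k)
    (hc : ∀ i : Fin (k + 1), i ≠ 0 → c₁ (i.val - 1) = c₀ ((ρ i).val - 1))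
    (hlon : LonE F c₁ k W₁ sg Pr D g κ Z (fun i => N₃ (ρ i)) (pmG ρ G) P ω)
    {b₂ b₃ : Fin (k + 1) → ℤ}
    (hinc : ∀ y ∈ ncell (2 ^ (Pr - W₁)) N₂ G b₂, ∃ u ∈ ucube (k + 1),
      cbw (k + 1) W₁ Pr g P u = fun i => y (ρ i))
    (hb₃ : nidx N₃ (ndg (2 ^ (Pr - W₁)) G (bse (zsw c₀ k W₁ sg (ptr F J ω)))) = b₃)
    (R : MvPolynomial (Option (Fin (k + 1))) ℝ) (hR : R.totalDegree ≤ D)
    (y : Fin (k + 1) → ℝ) (hy : y ∈ ncell (2 ^ (Pr - W₁)) N₂ G b₂) :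
    ∃ y' ∈ ncell (2 ^ (Pr - W₁)) N₃ G b₃,
      Psi R (κ / ((2 ^ (Pr - W₁) : ℕ) : ℝ)) (lpt (MvPolynomial.rename ρ
        (toF (k + 1) W₁ (P (k + 1)))) y) ≤
      Z * Psi R (κ / ((2 ^ (Pr - W₁) : ℕ) : ℝ)) (lpt (MvPolynomial.rename ρ
        (toF (k + 1) W₁ (P (k + 1)))) y') := by
  have hz := zsw_pm ρ h0 hk hc W₁ sg (ptr F J ω)
  refine dbl_pm ρ (U := {y | ∃ u ∈ ucube (k + 1), cbw (k + 1) W₁ Pr g P u = y}) hinc ?_ R hR y hy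
  rintro R' hR' _ ⟨u, hu, rfl⟩
  obtain ⟨y', hy', h1⟩ := hlon R' hR' u hu
  rw [cpt_chw hP] at h1
  refine ⟨y', ?_, h1⟩
  have e1 : bse (zsw c₁ k W₁ sg (ptr F J ω)) = fun l => bse (zsw c₀ k W₁ sg (ptr F J ω)) (ρ l) := by
    funext l
    exact (congrFun hz (some l)).symm
  rw [e1, ndg_pm] at hy'
  rw [← hb₃]
  exact hy'

end Pool.GEO
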