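import Pool.Agent.H86.GEO.Pka

/-!
# The conditions for one pair, from the events

`rfm`: the family of the polynomials which are nearly constant along the branches. `BrE`: the event
of the branches. `pok_of`: the conditions of `geoJ_of` from the events.
-/

set_option autoImplicit false

namespace Pool.GEO

open Finset Real
open Pool.Agent.H49.Ent Pool.Agent.H32.Dense Pool.STK Pool.KAF Pool.KAL Pool.KS3 Pool.M3F
open Pool.KJA Pool.KA Pool.K2S Pool.KSAT Pool.PB Pool.STAT Pool.GEN Pool.CLO37 Pool.IEN Pool.EXS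
open Pool.JPN Pool.JMS

/-- The number of the polynomials. -/
def mfm (k D : ℕ) : ℕ := Fintype.card (Fin (D + 1) ⊕ (Fin (k + 1) × Fin (D + 1)))

/-- The polynomials which are nearly constant along the branches. -/
noncomputable def rfm (k D : ℕ) (Q : MvPolynomial (Option (Fin (k + 1))) ℝ) (j : Fin (mfm k D)) :
    MvPolynomial (Option (Fin (k + 1))) ℝ :=
  ((Fintype.equivFin (Fin (D + 1) ⊕ (Fin (k + 1) × Fin (D + 1)))).symm j).elim
    (fun m : Fin (D + 1) => pN m Q)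
    (fun p : Fin (k + 1) × Fin (D + 1) => MvPolynomial.pderiv (some p.1) (pN p.2 Q))

lemma rfm_deg {k D : ℕ} {Q : MvPolynomial (Option (Fin (k + 1))) ℝ} (hQ : Q.totalDegree ≤ D)
    (j : Fin (mfm k D)) : (rfm k D Q j).totalDegree ≤ D := by
  unfold rfm
  rcases (Fintype.equivFin (Fin (D + 1) ⊕ (Fin (k + 1) × Fin (D + 1)))).symm j with m | p
  · exact pN_deg m D hQ
  · exact (tdeg_pd _ _).trans ((Nat.sub_le _ _).trans (pN_deg p.2 D hQ))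

lemma rfm_all {k D : ℕ} {Q : MvPolynomial (Option (Fin (k + 1))) ℝ} (hQ : Q.totalDegree ≤ D)
    {φ : MvPolynomial (Option (Fin (k + 1))) ℝ → Prop} (h : ∀ j, φ (rfm k D Q j)) (h0 : φ 0)
    {kk : ℕ} (hkk : kk ≤ D) (R : MvPolynomial (Option (Fin (k + 1))) ℝ)
    (hR : (∃ m, R = pN m Q) ∨ ∃ l, R = MvPolynomial.pderiv (some l) (pN kk Q)) : φ R := by
  rcases hR with ⟨m, rfl⟩ | ⟨l, rfl⟩
  · by_cases hm : m ≤ D
    · have h1 := h (Fintype.equivFin _ (Sum.inl ⟨m, by omega⟩))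
      unfold rfm at h1
      rw [Equiv.symm_apply_apply] at h1
      exact h1
    · rw [pN_eq_zero m D hQ (by omega)]
      exact h0
  · have h1 := h (Fintype.equivFin _ (Sum.inr (l, ⟨kk, by omega⟩)))
    unfold rfm at h1
    rw [Equiv.symm_apply_apply] at h1
    exact h1

/-- The event of the branches. -/
def BrE (k D n₀ : ℕ) (C τ : ℝ) (M : ℕ) (N₂ : Fin (k + 1) → ℕ)
    (G : Fin (k + 1) → MvPolynomial (Fin (k + 1)) ℝ)
    (aF : (Fin (k + 1) → MvPolynomial (Fin (k + 1)) ℝ) →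
      MvPolynomial (Option (Fin (k + 1))) ℝ → (Fin (k + 1) → ℤ) → Fin D → Fin n₀ →
        MvPolynomial (Fin (k + 1)) ℝ)
    (Q : MvPolynomial (Option (Fin (k + 1))) ℝ) (η : Fin D → ℝ)
    (x : Option (Fin (k + 1)) → ℝ) : Prop :=
  ∀ kk : Fin D, 0 < |MvPolynomial.eval x (pN (kk + 1) Q)| →
    |MvPolynomial.eval x (pN kk Q)| ≤ η kk * |MvPolynomial.eval x (pN (kk + 1) Q)| →
    ∃ i : Fin n₀, ∃ b₂ u₂, b₂ = nidx N₂ (ndg M G (bse x)) ∧ u₂ = rpos M N₂ G b₂ (bse x) ∧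
      |x none - MvPolynomial.eval u₂ (aF G Q b₂ kk i)| ≤ C * η kk + τ ∧
      ∀ j : Fin (mfm k D), ∀ u ∈ ucube (k + 1), ∀ u' ∈ ucube (k + 1),
        |MvPolynomial.eval (pt (cpt (nchi M N₂ G b₂) u)
          (MvPolynomial.eval u (aF G Q b₂ kk i))) (rfm k D Q j)| ≤
        3 * |MvPolynomial.eval (pt (cpt (nchi M N₂ G b₂) u')
          (MvPolynomial.eval u' (aF G Q b₂ kk i))) (rfm k D Q j)|

variable {m J : ℕ} {F : Fam m J} {A : F.Ω → Prop} {c₀ c₁ : ℕ → Fin m} {k : ℕ}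

/-- **The conditions of `geoJ_of`, from the events.** -/
theorem pok_of {D K₀ K₂ n₀ W₀ W₁ Pr sg₀ sg q X kap : ℕ} {g₀ g₁ : ℕ → ℕ} {L : ℝ}
    {V₀ V₁ : Type} {z₀ : PtT F → V₀} {z₀' : LnT F → V₀} {P₀ : V₀ → ℕ → PN}
    {z₁ : PtT F → V₁} {z₁' : LnT F → V₁} {P₁ : V₁ → ℕ → PN}
    {Qh : V₁ → MvPolynomial (Option (Fin (k + 1))) ℝ} {ρz : V₁ → ℝ}
    (hN₀ : NLabW F c₀ k W₀ sg₀ g₀ K₀ L A z₀ z₀' P₀)
    (hN₁ : NLabW F c₁ k W₁ sg g₁ K₀ L A z₁ z₁' P₁) (hL : 0 ≤ L) (hW : W₀ ≤ W₁) (hWP : W₁ ≤ Pr)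
    (hPJ : Pr ≤ J) (hPg : Pr ≤ g₁ k) (hwid : ∀ i < k + 1, wid W₀ g₀ i + q + X ≤ Pr)
    (hw₁ : ∀ i < k + 1, wid W₁ g₁ i ≤ Pr)
    (ρ : Equiv.Perm (Fin (k + 1))) (h0 : ρ 0 = 0) (hk : c₁ k = c₀ k)
    (hc : ∀ i : Fin (k + 1), i ≠ 0 → c₁ (i.val - 1) = c₀ ((ρ i).val - 1))
    {aF : (Fin (k + 1) → MvPolynomial (Fin (k + 1)) ℝ) →
      MvPolynomial (Option (Fin (k + 1))) ℝ → (Fin (k + 1) → ℤ) → Fin D → Fin n₀ →
        MvPolynomial (Fin (k + 1)) ℝ}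
    (haF : ∀ G Q b kk ii, (aF G Q b kk ii).totalDegree ≤ K₂)
    {e : F.Ω × F.Ω} (he1 : A e.1) (he2 : A e.2)
    {C τ KK H L' Λ Gb E Z Θ Θ₁ ν₀ θm : ℝ} {θ : ℕ → ℝ}
    {M : ℕ} {N₂ N₃ : Fin (k + 1) → ℕ} {G : Fin (k + 1) → MvPolynomial (Fin (k + 1)) ℝ}
    {b₂ b₃ : Fin (k + 1) → ℤ} {x px' : Option (Fin (k + 1)) → ℝ}
    (hM : M = 2 ^ (Pr - W₁)) (hN₂ : N₂ = nw W₀ Pr g₀ k q) (hN₃ : N₃ = nw W₀ Pr g₀ k (q + X))
    (hG : G = gsy k W₁ (P₀ (z₀ (ptr F J e.1)))) (hx : x = xte c₀ k W₁ Pr sg F e.1)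
    (hpx : px' = zsw c₀ k W₁ sg (ptr F J e.1)) (hb₂ : b₂ = nidx N₂ (ndg M G (bse x)))
    (hb₃ : b₃ = nidx N₃ (ndg M G (bse x)))
    (hθ : θ = bth D KK H L' Λ (ρz (z₁ (ptr F J e.2))))
    (hC : 1 ≤ C) (hτ : τ ≤ 1 / M) (hKK : 1 ≤ KK) (hH : 1 ≤ H) (hL' : 1 ≤ L')
    (hΛ : 360 * (C * H ^ 3) ≤ Λ) (hGb : 0 ≤ Gb) (hE : 0 < E)
    (hρz : 0 < ρz (z₁ (ptr F J e.2))) (hMρz : 1 ≤ (M : ℝ) * ρz (z₁ (ptr F J e.2)))
    (hθm : ∀ j ≤ D, θ j ≤ θm) (hθE : 2 * θm * M ≤ E)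
    (hQd : (Qh (z₁ (ptr F J e.2))).totalDegree ≤ D)
    -- the events
    (hline : ∃ kk, LnR D (Qh (z₁ (ptr F J e.2))) H θ (xpt F c₁ k W₁ sg Pr e.1) kk ∧
      GrR M (Qh (z₁ (ptr F J e.2))) Gb E θ (xpt F c₁ k W₁ sg Pr e.1) kk)
    (hbr : BrE k D n₀ C τ M N₂ G aF (ren ρ (Qh (z₁ (ptr F J e.2)))) (fun kk => H * θ kk) x)
    (hnst : nidx N₃ (ndg M G (bse px')) = b₃)
    (hlon : LonE F c₁ k W₁ sg Pr D g₁ (clC k kap L) Z (fun i => N₃ (ρ i)) (pmG ρ G)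
      (P₁ (z₁ (ptr F J e.1))) e.1)
    (hinc : ∀ y ∈ ncell M N₂ G b₂, ∃ u ∈ ucube (k + 1),
      cbw (k + 1) W₁ Pr g₁ (P₁ (z₁ (ptr F J e.1))) u = fun i => y (ρ i))
    (hsf : ∀ (kk : Fin D) (ii : Fin n₀), SF Θ M (2 ^ X) N₃ G (MvPolynomial.bind₁
      (nchi M N₂ G b₂) (MvPolynomial.rename ρ (toF (k + 1) W₁ (P₁ (z₁ (ptr F J e.1)) (k + 1)))) -
        aF G (ren ρ (Qh (z₁ (ptr F J e.2)))) b₂ kk ii) (bse x))
    (hsf1 : ∀ (kk : Fin D) (ii : Fin n₀), SF Θ₁ M 1 N₂ G (MvPolynomial.bind₁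
      (nchi M N₂ G b₂) (MvPolynomial.rename ρ (toF (k + 1) W₁ (P₁ (z₁ (ptr F J e.1)) (k + 1)))) -
        aF G (ren ρ (Qh (z₁ (ptr F J e.2)))) b₂ kk ii) (bse x))
    (hno : ∀ (kk : Fin D) (ii : Fin n₀), ∃ w ∈ ucube (k + 1), ν₀ ≤ |MvPolynomial.eval w
      (MvPolynomial.bind₁ (nchi M N₂ G b₂)
        (MvPolynomial.rename ρ (toF (k + 1) W₁ (P₁ (z₁ (ptr F J e.1)) (k + 1)))) -
          aF G (ren ρ (Qh (z₁ (ptr F J e.2)))) b₂ kk ii)|) :
    nidx N₃ (ndg M G (bse px')) = b₃ ∧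
      ∃ (kk : Fin D) (ii : Fin n₀),
        (∃ δ' ρ' : ℝ, δ' ≤ 2 * C * H * θm ∧ 0 < ρ' ∧ ρ' ≤ 30 * C * H ^ 2 * θm ∧
          1 ≤ (M : ℝ) * ρ' ∧
        POK k D K₀ K₂ L (clC k kap L) M (2 ^ X) N₃ G
          (MvPolynomial.rename ρ (toF (k + 1) W₁ (P₁ (z₁ (ptr F J e.1)) (k + 1)))) b₃
          (aF G (ren ρ (Qh (z₁ (ptr F J e.2)))) b₂ kk ii) (ren ρ (Qh (z₁ (ptr F J e.2)))) Z H
          (2 * Gb) δ' (clC k kap L / M) ρ' Θ θ kk x px') ∧
        (∀ B : ℝ, (∀ z : Fin k → ℝ, (∀ i, 0 ≤ z i ∧ z i ≤ 1) →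
          |MvPolynomial.eval (Fin.cons (rpos M N₂ G b₂ (bse x) 0) z : Fin (k + 1) → ℝ)
            (MvPolynomial.bind₁ (nchi M N₂ G b₂)
              (MvPolynomial.rename ρ (toF (k + 1) W₁ (P₁ (z₁ (ptr F J e.1)) (k + 1)))) -
              aF G (ren ρ (Qh (z₁ (ptr F J e.2)))) b₂ kk ii)| ≤ B) →
          cs (fun _ => 0) 1 (MvPolynomial.bind₁ (nchi M N₂ G b₂)
              (MvPolynomial.rename ρ (toF (k + 1) W₁ (P₁ (z₁ (ptr F J e.1)) (k + 1)))) -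
              aF G (ren ρ (Qh (z₁ (ptr F J e.2)))) b₂ kk ii) ≤ Θ₁ * B) ∧
        ∃ w ∈ ucube (k + 1), ν₀ ≤ |MvPolynomial.eval w (MvPolynomial.bind₁
          (nchi M N₂ G b₂)
            (MvPolynomial.rename ρ (toF (k + 1) W₁ (P₁ (z₁ (ptr F J e.1)) (k + 1)))) -
            aF G (ren ρ (Qh (z₁ (ptr F J e.2)))) b₂ kk ii)| := by
  have hM1 : 1 ≤ M := by
    rw [hM]
    exact Nat.one_le_two_pow
  have hMr : (0 : ℝ) < M := by exact_mod_cast hM1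
  have hN₂1 : ∀ i, 1 ≤ N₂ i := fun i => by
    rw [hN₂]
    exact nw_pos _ _ _ _ _ _
  have hN₃1 : ∀ i, 1 ≤ N₃ i := fun i => by
    rw [hN₃]
    exact nw_pos _ _ _ _ _ _
  have hmul : (fun i => 2 ^ X * N₃ i) = N₂ := by
    rw [hN₂, hN₃]
    exact nw_mul hwid
  have hb23 : (fun i => b₃ i / ((2 ^ X : ℕ) : ℤ)) = b₂ := by
    rw [hb₂, hb₃, ← nidx_mul, hmul]
  have hQ := hQd
  obtain ⟨kk, hln, hgr⟩ := hline
  have hxp : xpt F c₁ k W₁ sg Pr e.1 = fun o => x (opm ρ o) := by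
    rw [← xte_eq c₁ k sg hWP e.1, hx]
    exact (xte_pm ρ h0 hk hc W₁ Pr sg e.1).symm
  rw [hxp] at hln hgr
  have hkD : kk < D := hln.le
  have hln' := lnr_ren ρ hln
  -- the levels
  have hC0 : 0 < C := by linarith
  have hH0 : 0 < H := by linarith
  have hH3 : 1 ≤ C * H ^ 3 := one_le_mul_of_one_le_of_one_le hC (one_le_pow₀ hH)
  have hΛ1 : 1 ≤ Λ := by linarith
  have hθge : ∀ j, 1 / (M : ℝ) ≤ θ j := fun j => by
    rw [hθ]
    exact bth_ge D hM1 hKK hH hL' hΛ1 hρz hMρz j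
  have hM1' : (0 : ℝ) < 1 / M := by positivity
  have hθs : θ (kk + 1) = Λ * θ kk := by
    rw [hθ]
    unfold bth
    rw [pow_succ]
    ring
  have ht0 : 0 < θ kk := hM1'.trans_le (hθge kk)
  have htm : θ kk ≤ θm := hθm kk hkD.le
  have htm1 : θ (kk + 1) ≤ θm := hθm (kk + 1) hkD
  have hθm0 : 0 < θm := ht0.trans_le htm
  -- the branch
  obtain ⟨ii, b', u', hb', hu', hva, hnc⟩ := hbr ⟨kk, hkD⟩ hln'.pos (by
    refine hln'.low.trans (le_of_eq ?_)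
    ring)
  rw [← hb₂] at hb'
  rw [hu', hb'] at hva
  simp only [hb'] at hnc
  -- the numbers
  obtain ⟨δ', hδ'⟩ : ∃ δ' : ℝ, δ' = C * (H * θ kk) + τ := ⟨_, rfl⟩
  have hδ0 : 0 ≤ δ' := by
    rw [hδ']
    exact (abs_nonneg _).trans hva
  have hCH : 1 ≤ C * H := one_le_mul_of_one_le_of_one_le hC hH
  have hδθ : δ' ≤ 2 * (C * H) * θ kk := by
    have h1 : τ ≤ θ kk := hτ.trans (hθge kk)
    have h2 : θ kk ≤ C * H * θ kk := le_mul_of_one_le_left ht0.le hCH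
    rw [hδ']
    calc C * (H * θ kk) + τ ≤ C * H * θ kk + C * H * θ kk := by
          have e1 : C * (H * θ kk) = C * H * θ kk := by ring
          rw [e1]
          linarith
      _ = _ := by ring
  obtain ⟨ρ', hρ'⟩ : ∃ ρ' : ℝ, ρ' = 6 * H * (θ kk + 2 * δ') := ⟨_, rfl⟩
  have hρθ : ρ' ≤ 30 * C * H ^ 2 * θ kk := by
    rw [hρ']
    have h1 : θ kk ≤ C * H * θ kk := le_mul_of_one_le_left ht0.le hCH
    have h2 : θ kk + 2 * δ' ≤ 5 * (C * H * θ kk) := by linarith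
    calc 6 * H * (θ kk + 2 * δ') ≤ 6 * H * (5 * (C * H * θ kk)) :=
          mul_le_mul_of_nonneg_left h2 (by positivity)
      _ = _ := by ring
  have hρge : θ kk ≤ ρ' := by
    rw [hρ']
    have h1 : (1 : ℝ) ≤ 6 * H := by linarith
    have h2 : θ kk ≤ θ kk + 2 * δ' := by linarith
    calc θ kk ≤ θ kk + 2 * δ' := h2
      _ ≤ 6 * H * (θ kk + 2 * δ') := le_mul_of_one_le_left (by linarith) h1
  refine ⟨hnst, ⟨kk, hkD⟩, ii, ⟨δ', ρ', ?_, ht0.trans_le hρge, ?_, ?_, ?_⟩, ?_, hno _ _⟩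
  · refine hδθ.trans ?_
    have : 2 * (C * H) * θ kk ≤ 2 * (C * H) * θm := mul_le_mul_of_nonneg_left htm (by positivity)
    linarith
  · exact hρθ.trans (mul_le_mul_of_nonneg_left htm (by positivity))
  · have h1 : 1 / (M : ℝ) ≤ ρ' := (hθge kk).trans hρge
    rw [div_le_iff₀ hMr] at h1
    linarith
  · -- the conditions
    have hmx : bse x ∈ ncell M N₃ G b₃ := by
      rw [hb₃]
      exact mem_own hM1 hN₃1 _
    have hmp : bse px' ∈ ncell M N₃ G b₃ := by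
      rw [← hnst]
      exact mem_own hM1 hN₃1 _
    have hKX : 1 ≤ 2 ^ X := Nat.one_le_two_pow
    have hmp2 := sub_ncell (K := 2 ^ X) hM1 hKX hN₃1 hmp
    rw [hmul, hb23] at hmp2
    have htri : TriP G := by
      rw [hG]
      exact gsy_tri (hN₀.tri _)
    refine ⟨htri, by rw [hG]; exact gsy_zero _ _ _, fun i => ?_, ?_, haF _ _ _ _ _,
      (ren_deg ρ _).trans hQ, ?_, ?_, ?_, hln', ht0.le, hmx, hmp, ?_, ?_, ?_, ?_, ?_, ?_, ?_, ?_⟩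
    · rw [hG]
      exact gsy_deg (hN₀.deg _) i
    · exact (MvPolynomial.totalDegree_rename_le _ _).trans ((deg_toF _).trans (hN₁.deg _ _))
    · rw [hmul, hb23]
      intro y hy i l
      subst hM hN₂ hG hpx
      exact grad_gsy hN₀ hL ((hW.trans hWP).trans hPJ) hWP (fun i hi => by
        have := hwid i hi
        omega) he1 hmp2 hy i l
    · rw [hmul, hb23]
      intro y hy l
      obtain ⟨u, hu, huy⟩ := hinc y hy
      exact grad_inc hN₁ hL hWP hw₁ he1 ρ hu huy l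
    · rw [hmul, hb23]
      intro R hR y hy
      subst hM hpx
      exact lon_inc (hN₁.tri _) ρ h0 hk hc hlon hinc hnst R hR y hy
    · intro o
      have h1 := xte_near (F := F) c₀ k sg hWP hPJ e.1 o
      rw [hx, hpx, abs_sub_comm, hM]
      refine h1.trans ?_
      exact div_le_div_of_nonneg_right (clC_ge hL) (by positivity)
    · rw [hmul, hb23, hδ']
      exact hva
    · rw [hpx, hM]
      exact leaf_val hN₁ hL hWP hPJ hPg he1 ρ h0 hk hc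
    · intro l m'
      have h1 := hgr (some (ρ.symm l)) m'
      have e1 : MvPolynomial.eval x (MvPolynomial.pderiv (some l)
          (pN (kk + m') (ren ρ (Qh (z₁ (ptr F J e.2)))))) =
          MvPolynomial.eval (fun o => x (opm ρ o)) (MvPolynomial.pderiv (some (ρ.symm l))
            (pN (kk + m') (Qh (z₁ (ptr F J e.2))))) := by
        rw [pN_ren, ← eval_ren, ← pd_some_ren, Equiv.apply_symm_apply]
      rw [e1, pN_ren, eval_ren]
      refine h1.trans (mul_le_mul_of_nonneg_right ?_ (abs_nonneg _))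
      have h2 : (θ kk + θ (kk + 1)) * M / E ≤ 1 := by
        rw [div_le_one hE]
        refine le_trans (mul_le_mul_of_nonneg_right ?_ hMr.le) hθE
        linarith
      calc Gb * (1 + (θ kk + θ (kk + 1)) * M / E) ≤ Gb * (1 + 1) :=
            mul_le_mul_of_nonneg_left (by linarith) hGb
        _ = 2 * Gb := by ring
    · rw [hmul, hb23]
      refine rfm_all (k := k) ((ren_deg ρ _).trans hQ) (fun j => hnc j) ?_ hkD.le
      intro u _ u' _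
      rw [map_zero, map_zero, abs_zero]
      norm_num
    · rw [hρ']
    · rw [hθs]
      have h1 : 12 * H * ρ' ≤ 12 * H * (30 * C * H ^ 2 * θ kk) :=
        mul_le_mul_of_nonneg_left hρθ (by positivity)
      have h2 : 360 * (C * H ^ 3) * θ kk ≤ Λ * θ kk := mul_le_mul_of_nonneg_right hΛ ht0.le
      have e1 : 12 * H * (30 * C * H ^ 2 * θ kk) = 360 * (C * H ^ 3) * θ kk := by ring
      linarith
    · rw [hmul, hb23]
      intro B hB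
      have h1 := hsf ⟨kk, hkD⟩ ii B
      rw [← hb₃] at h1
      have e1 : nidx (fun i => 2 ^ X * N₃ i) (ndg M G (bse x)) = b₂ := by
        rw [hmul, hb₂]
      rw [e1, hmul] at h1
      exact h1 hB
  · intro B hB
    have h1 := hsf1 ⟨kk, hkD⟩ ii B
    have e0 : (fun i => 1 * N₂ i) = N₂ := funext fun i => one_mul _
    have e1 : ∀ i, jdg 1 (nidx N₂ (ndg M G (bse x))) i = 0 := fun i => by
      unfold jdg
      simp
    have e2 : rco 1 (jdg 1 (nidx N₂ (ndg M G (bse x)))) = fun _ : Fin (k + 1) => (0 : ℝ) := by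
      funext i
      unfold rco
      rw [e1]
      simp
    rw [e2, e0] at h1
    simp only [e1, Nat.cast_zero, Nat.cast_one, zero_add, div_one] at h1
    rw [← hb₂] at h1
    exact h1 hB

end Pool.GEO
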